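import Mathlib

/-! A global continuous flow on an invariant set from local existence and a priori bounds. -/

set_option autoImplicit false

open Set Filter Topology Metric
open scoped NNReal Manifold

namespace Pool.Agent.Lib.MP_7dd29b_gt

variable {F : Type*} [NormedAddCommGroup F] [NormedSpace ℝ F]

def Orb (V : F → F) (Ω : Set F) (γ : ℝ → F) (T : ℝ) : Prop :=
  ∀ t ∈ Ioo (-T) T, γ t ∈ Ω ∧ HasDerivAt γ (V (γ t)) t

structure IsFlow (V : F → F) (Ω : Set F) (φ : F → ℝ → F) : Prop where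
  zero : ∀ z ∈ Ω, φ z 0 = z
  mem : ∀ z ∈ Ω, ∀ t, φ z t ∈ Ω
  deriv : ∀ z ∈ Ω, ∀ t, HasDerivAt (φ z) (V (φ z t)) t
  add : ∀ z ∈ Ω, ∀ s t, φ (φ z s) t = φ z (s + t)
  cont : ContinuousOn (fun p : F × ℝ => φ p.1 p.2) (Ω ×ˢ univ)

variable {V : F → F} {Ω : Set F}

lemma ode_loc_unique {γ1 γ2 : ℝ → F} {t : ℝ} (hV : ContDiffAt ℝ 1 V (γ1 t))
    (h1 : ∀ᶠ s in 𝓝 t, HasDerivAt γ1 (V (γ1 s)) s) (h2 : ∀ᶠ s in 𝓝 t, HasDerivAt γ2 (V (γ2 s)) s)
    (h : γ1 t = γ2 t) : γ1 =ᶠ[𝓝 t] γ2 := by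
  obtain ⟨K, U, hU, hK⟩ := hV.exists_lipschitzOnWith
  refine ODE_solution_unique_of_eventually (v := fun _ => V) (s := fun _ => U) (K := K)
    (Eventually.of_forall fun _ => hK) (h1.and ?_) (h2.and ?_) h
  · exact h1.self_of_nhds.continuousAt.eventually_mem hU
  · exact h2.self_of_nhds.continuousAt.eventually_mem (h ▸ hU)

lemma ode_unique_on {γ1 γ2 : ℝ → F} {a b t0 : ℝ} (hV : ∀ t ∈ Ioo a b, ContDiffAt ℝ 1 V (γ1 t))
    (h1 : ∀ t ∈ Ioo a b, HasDerivAt γ1 (V (γ1 t)) t)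
    (h2 : ∀ t ∈ Ioo a b, HasDerivAt γ2 (V (γ2 t)) t) (ht0 : t0 ∈ Ioo a b) (h : γ1 t0 = γ2 t0) :
    ∀ t ∈ Ioo a b, γ1 t = γ2 t := by
  have hloc : ∀ t ∈ Ioo a b, γ1 t = γ2 t → γ1 =ᶠ[𝓝 t] γ2 := fun t ht h =>
    ode_loc_unique (hV t ht) ((isOpen_Ioo.eventually_mem ht).mono h1)
      ((isOpen_Ioo.eventually_mem ht).mono h2) h
  have := isPreconnected_Ioo.subset_of_closure_inter_subset (u := {t | γ1 =ᶠ[𝓝 t] γ2})
    isOpen_setOfPred_eventually_nhds ⟨t0, ht0, hloc t0 ht0 h⟩ (fun t ht => hloc t ht.2 (by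
      refine tendsto_nhds_unique_of_frequently_eq (h1 t ht.2).continuousAt
        (h2 t ht.2).continuousAt ?_
      exact (mem_closure_iff_frequently.1 ht.1).mono fun s hs => hs.self_of_nhds))
  exact fun t ht => (this ht).self_of_nhds

lemma Orb.unique (hV : ∀ z ∈ Ω, ContDiffAt ℝ 1 V z) {γ1 γ2 : ℝ → F} {T : ℝ} (h1 : Orb V Ω γ1 T)
    (h2 : Orb V Ω γ2 T) (h : γ1 0 = γ2 0) : ∀ t ∈ Ioo (-T) T, γ1 t = γ2 t := fun t ht =>
  ode_unique_on (fun t ht => hV _ (h1 t ht).1) (fun t ht => (h1 t ht).2) (fun t ht => (h2 t ht).2)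
    (t0 := 0) ⟨by linarith [ht.1, ht.2], by linarith [ht.1, ht.2]⟩ h t ht

lemma Orb.mono {γ : ℝ → F} {T T' : ℝ} (h : Orb V Ω γ T) (hT : T' ≤ T) : Orb V Ω γ T' :=
  fun t ht => h t ⟨by linarith [ht.1], by linarith [ht.2]⟩

variable [FiniteDimensional ℝ F]

lemma exists_cutoff (hV : ∀ z ∈ Ω, ContDiffAt ℝ 1 V z) {K : Set F} (hK : IsCompact K)
    (hKΩ : K ⊆ Ω) : ∃ W : F → F, ∃ A L : ℝ≥0, LipschitzWith A W ∧ (∀ z, ‖W z‖ ≤ L) ∧
      ∀ z ∈ K, ∀ᶠ y in 𝓝 z, W y = V y := by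
  have hU : IsOpen {z | ContDiffAt ℝ 1 V z} :=
    isOpen_iff_mem_nhds.2 fun z hz => ContDiffAt.eventually hz (by simp)
  obtain ⟨K2, hK2, h1, h2⟩ := exists_compact_between hK hU (fun z hz => hV z (hKΩ hz))
  obtain ⟨β, hβ1, hβ0, -⟩ := exists_contMDiffMap_one_nhds_of_subset_interior (n := 1) 𝓘(ℝ, F)
    hK.isClosed h1
  have hβ : ContDiff ℝ 1 β := β.contMDiff.contDiff
  have hW : ContDiff ℝ 1 (fun z => β z • V z) := contDiff_iff_contDiffAt.2 fun z => by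
    by_cases hz : z ∈ K2
    · exact hβ.contDiffAt.smul (h2 hz)
    · refine (contDiffAt_const (c := (0 : F))).congr_of_eventuallyEq ?_
      filter_upwards [hK2.isClosed.isOpen_compl.mem_nhds hz] with y hy
      rw [hβ0 y hy, zero_smul]
  have hs : HasCompactSupport (fun z => β z • V z) :=
    HasCompactSupport.intro hK2 fun y hy => by rw [hβ0 y hy, zero_smul]
  obtain ⟨A, hA⟩ := hW.lipschitzWith_of_hasCompactSupport hs one_ne_zero
  obtain ⟨L, hL⟩ := hs.exists_bound_of_continuous hW.continuous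
  refine ⟨_, A, ⟨max L 0, le_max_right _ _⟩, hA, fun z => (hL z).trans (le_max_left _ _),
    fun z hz => ?_⟩
  filter_upwards [hβ1.filter_mono (nhds_le_nhdsSet hz)] with y hy
  rw [hy, one_smul]

lemma exists_box (hV : ∀ z ∈ Ω, ContDiffAt ℝ 1 V z)
    (hloc : ∀ z ∈ Ω, ∃ ε > 0, ∃ γ, γ 0 = z ∧ Orb V Ω γ ε)
    (hpri : ∀ z0 ∈ Ω, ∀ T, ∃ K, IsCompact K ∧ K ⊆ Ω ∧ ∀ᶠ z in 𝓝 z0, ∀ T' ≤ T, ∀ γ, γ 0 = z →
      Orb V Ω γ T' → ∀ t ∈ Ioo (-T') T', γ t ∈ K) {z0 : F} (hz0 : z0 ∈ Ω) {T : ℝ} (hT : 0 < T) :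
    ∃ α : F × ℝ → F, ContinuousOn α (closedBall z0 1 ×ˢ Icc (-T) T) ∧
      ∀ᶠ z in 𝓝 z0, z ∈ Ω → α (z, 0) = z ∧ Orb V Ω (fun t => α (z, t)) T := by
  obtain ⟨K, hK, hKΩ, hK'⟩ := hpri z0 hz0 T
  obtain ⟨W, A, L, hA, hL, hW⟩ := exists_cutoff hV hK hKΩ
  have hpl : IsPicardLindelof (fun _ => W) (tmin := -T) (tmax := T) ⟨0, by linarith, hT.le⟩ z0
      (L * ⟨T, hT.le⟩ + 1) 1 L A :=
    IsPicardLindelof.of_time_independent (fun x _ => hL x) hA.lipschitzOnWith (by simp; rfl)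
  obtain ⟨α, hα, hαc⟩ := hpl.exists_forall_mem_closedBall_eq_hasDerivWithinAt_continuousOn
  refine ⟨α, hαc, ?_⟩
  filter_upwards [hK', closedBall_mem_nhds z0 one_pos] with z hz hz1 hzΩ
  obtain ⟨h0, hd⟩ := hα z hz1
  set γ := fun t => α (z, t) with hγ
  have h0' : γ 0 = z := h0
  have hd' : ∀ t ∈ Ioo (-T) T, HasDerivAt γ (W (γ t)) t := fun t ht =>
    (hd t (Ioo_subset_Icc_self ht)).hasDerivAt (Icc_mem_nhds ht.1 ht.2)
  have hnear : ∀ s ∈ Ioo (-T) T, γ s ∈ K →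
      ∀ᶠ s' in 𝓝 s, γ s' ∈ Ω ∧ HasDerivAt γ (V (γ s')) s' := fun s hs hsK => by
    have h1 : ∀ᶠ s' in 𝓝 s, HasDerivAt γ (V (γ s')) s' := by
      filter_upwards [isOpen_Ioo.eventually_mem hs,
        (hd' s hs).continuousAt.eventually (hW _ hsK)] with s' h1 h2
      rw [← h2]; exact hd' s' h1
    obtain ⟨ε, hε, γ0, k0, k1⟩ := hloc _ (hKΩ hsK)
    have h2 : ∀ᶠ s' in 𝓝 s, s' - s ∈ Ioo (-ε) ε :=
      ContinuousAt.eventually_mem (f := fun s' => s' - s) (by fun_prop)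
        (by simpa using Ioo_mem_nhds (by linarith) hε)
    have h3 := ode_loc_unique (γ2 := fun s' => γ0 (s' - s)) (hV _ (hKΩ hsK)) h1
      (h2.mono fun s' hs' => (k1 _ hs').2.comp_sub_const s' s) (by simp [k0])
    filter_upwards [h1, h2, h3] with s' a1 a2 a3
    exact ⟨a3 ▸ (k1 _ a2).1, a1⟩
  have hin : ∀ b < T, Icc 0 b ⊆ {t | γ t ∈ K ∧ γ (-t) ∈ K} := fun b hb => by
    apply IsClosed.Icc_subset_of_forall_mem_nhdsGT_of_Icc_subset
    · have c1 : ContinuousOn γ (Icc 0 b) := fun t ht =>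
        (hd' t ⟨by linarith [ht.1], by linarith [ht.2]⟩).continuousAt.continuousWithinAt
      have c2 : ContinuousOn (fun t => γ (-t)) (Icc 0 b) := fun t ht =>
        ((hd' (-t) ⟨by linarith [ht.2], by linarith [ht.1]⟩).continuousAt.comp
          continuous_neg.continuousAt).continuousWithinAt
      have := (c1.prodMk c2).preimage_isClosed_of_isClosed isClosed_Icc
        (hK.isClosed.prod hK.isClosed)
      rw [inter_comm] at this
      exact this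
    · obtain ⟨ε, hε, γ0, k0, k1⟩ := hloc _ hzΩ
      have := hz (min ε T) (min_le_right _ _) γ0 k0 (k1.mono (min_le_left _ _)) 0
        ⟨by simpa using ⟨hε, hT⟩, by simpa using ⟨hε, hT⟩⟩
      simp only [mem_ofPred_eq, neg_zero, h0', and_self]
      rwa [k0] at this
    · intro t ht hsub
      have ht1 : t ∈ Ioo (-T) T := ⟨by linarith [ht.1], by linarith [ht.2]⟩
      have ht2 : -t ∈ Ioo (-T) T := ⟨by linarith [ht.2], by linarith [ht.1]⟩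
      obtain ⟨ε1, hε1, k1⟩ := Metric.eventually_nhds_iff.1 (hnear t ht1 (hsub ⟨ht.1, le_rfl⟩).1)
      obtain ⟨ε2, hε2, k2⟩ := Metric.eventually_nhds_iff.1 (hnear _ ht2 (hsub ⟨ht.1, le_rfl⟩).2)
      set T' := min T (t + min ε1 ε2) with hT'
      have e1 : T' ≤ t + ε1 := (min_le_right _ _).trans (by linarith [min_le_left ε1 ε2])
      have e2 : T' ≤ t + ε2 := (min_le_right _ _).trans (by linarith [min_le_right ε1 ε2])
      have horb : Orb V Ω γ T' := fun s hs => by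
        rcases lt_or_ge t s with h | h
        · exact k1 (by rw [Real.dist_eq, abs_lt]; constructor <;> linarith [hs.2])
        rcases lt_or_ge s (-t) with h' | h'
        · exact k2 (by rw [Real.dist_eq, abs_lt]; constructor <;> linarith [hs.1])
        refine (hnear s ⟨by linarith [ht1.2], by linarith [ht1.2]⟩ ?_).self_of_nhds
        rcases le_total 0 s with h0 | h0
        · exact (hsub ⟨h0, h⟩).1
        · simpa using (hsub (show -s ∈ Icc 0 t from ⟨by linarith, by linarith⟩)).2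
      have := hz T' (min_le_left _ _) γ h0' horb
      filter_upwards [Ioo_mem_nhdsGT (show t < T' from lt_min ht1.2
        (by linarith [lt_min hε1 hε2]))] with s hs
      exact ⟨this s ⟨by linarith [hs.1, hs.2, ht.1], hs.2⟩,
        this (-s) ⟨by linarith [hs.2], by linarith [hs.1, hs.2, ht.1]⟩⟩
  refine ⟨h0, fun s hs => (hnear s hs ?_).self_of_nhds⟩
  rcases le_total 0 s with h0 | h0
  · exact (hin s hs.2 ⟨h0, le_rfl⟩).1
  · simpa using (hin (-s) (by linarith [hs.1]) (show -s ∈ Icc 0 (-s) from ⟨by linarith, le_rfl⟩)).2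

theorem exists_flow (hV : ∀ z ∈ Ω, ContDiffAt ℝ 1 V z)
    (hloc : ∀ z ∈ Ω, ∃ ε > 0, ∃ γ, γ 0 = z ∧ Orb V Ω γ ε)
    (hpri : ∀ z0 ∈ Ω, ∀ T, ∃ K, IsCompact K ∧ K ⊆ Ω ∧ ∀ᶠ z in 𝓝 z0, ∀ T' ≤ T, ∀ γ, γ 0 = z →
      Orb V Ω γ T' → ∀ t ∈ Ioo (-T') T', γ t ∈ K) : ∃ φ, IsFlow V Ω φ := by
  have h1 : ∀ z T, ∃ γ, z ∈ Ω → 0 < T → γ 0 = z ∧ Orb V Ω γ T := fun z T => by
    by_cases h : z ∈ Ω ∧ 0 < T
    · obtain ⟨α, -, hα⟩ := exists_box hV hloc hpri h.1 h.2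
      exact ⟨fun t => α (z, t), fun _ _ => hα.self_of_nhds h.1⟩
    · exact ⟨fun _ => z, fun a b => absurd ⟨a, b⟩ h⟩
  choose γ hγ using h1
  set φ : F → ℝ → F := fun z t => γ z (|t| + 1) t with hφ
  have hφγ : ∀ z ∈ Ω, ∀ T γ', γ' 0 = z → Orb V Ω γ' T → ∀ t ∈ Ioo (-T) T, φ z t = γ' t := by
    intro z hz T γ' k0 k1 t ht
    have k2 := hγ z (|t| + 1) hz (by positivity)
    have k3 : |t| < min T (|t| + 1) := lt_min (abs_lt.2 ht) (by linarith)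
    exact Orb.unique hV (k2.2.mono (min_le_right T _)) (k1.mono (min_le_left _ _))
      (k2.1.trans k0.symm) t (abs_lt.1 k3)
  have horb : ∀ z ∈ Ω, ∀ t, φ z t ∈ Ω ∧ HasDerivAt (φ z) (V (φ z t)) t := fun z hz t => by
    have k2 := hγ z (|t| + 1) hz (by positivity)
    have ht : t ∈ Ioo (-(|t| + 1)) (|t| + 1) := abs_lt.1 (by linarith)
    refine ⟨(k2.2 t ht).1, (k2.2 t ht).2.congr_of_eventuallyEq ?_⟩
    filter_upwards [isOpen_Ioo.eventually_mem ht] with s hs using hφγ z hz _ _ k2.1 k2.2 s hs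
  have h0 : ∀ z ∈ Ω, φ z 0 = z := fun z hz => (hγ z _ hz (by positivity)).1
  refine ⟨φ, h0, fun z hz t => (horb z hz t).1, fun z hz t => (horb z hz t).2,
    fun z hz s t => ?_, ?_⟩
  · exact hφγ _ (horb z hz s).1 (|t| + 1) (fun t => φ z (s + t)) (by simp)
      (fun t _ => ⟨(horb z hz _).1, (horb z hz _).2.comp_const_add s t⟩) t
      (abs_lt.1 (by linarith))
  · rintro ⟨z0, t0⟩ ⟨hz0, -⟩
    obtain ⟨α, hc, hα⟩ := exists_box hV hloc hpri hz0 (T := |t0| + 1) (by positivity)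
    have ht0 : t0 ∈ Ioo (-(|t0| + 1)) (|t0| + 1) := abs_lt.1 (by linarith)
    have k1 : ContinuousAt α (z0, t0) := hc.continuousAt
      (prod_mem_nhds (closedBall_mem_nhds z0 one_pos) (Icc_mem_nhds ht0.1 ht0.2))
    have k2 : ∀ᶠ p in 𝓝 (z0, t0), p.1 ∈ Ω → φ p.1 p.2 = α p := by
      filter_upwards [prod_mem_nhds hα (isOpen_Ioo.mem_nhds ht0)] with p hp hpΩ
      exact hφγ _ hpΩ _ _ (hp.1 hpΩ).1 (hp.1 hpΩ).2 _ hp.2
    refine k1.continuousWithinAt.congr_of_eventuallyEq ?_ (k2.self_of_nhds hz0)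
    filter_upwards [k2.filter_mono nhdsWithin_le_nhds, self_mem_nhdsWithin] with p h1 h2
    exact h1 h2.1

end Pool.Agent.Lib.MP_7dd29b_gt
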