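import Pool.Agent.Lib.MP_7dd29b_gt.AbsFlow

/-! Volume preservation in a flow box and the wandering set argument. -/

set_option autoImplicit false

open Set Filter Topology Metric MeasureTheory
open scoped ENNReal

namespace Pool.Agent.Lib.MP_7dd29b_gt

lemma measurableSet_inter_preimage {X Y : Type*} [TopologicalSpace X] [MeasurableSpace X]
    [OpensMeasurableSpace X] [TopologicalSpace Y] [MeasurableSpace Y] [BorelSpace Y] {f : X → Y}
    {s : Set X} {t : Set Y} (hs : MeasurableSet s) (hf : ContinuousOn f s) (ht : MeasurableSet t) :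
    MeasurableSet (s ∩ f ⁻¹' t) := by
  have h1 := hs.subtype_image (hf.domRestrict.measurable ht)
  convert h1 using 1
  ext x
  simp only [mem_inter_iff, mem_preimage, mem_image, Subtype.exists, exists_and_right,
    exists_eq_right]
  exact ⟨fun h => ⟨h.1, h.2⟩, fun ⟨a, b⟩ => ⟨a, b⟩⟩

lemma const_on_Ioo {G : Type*} [NormedAddCommGroup G] [NormedSpace ℝ G] {f : ℝ → G} {a c : ℝ}
    (h : ∀ t ∈ Ioo a c, HasDerivAt f 0 t) {s t : ℝ} (hs : s ∈ Ioo a c) (ht : t ∈ Ioo a c) :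
    f t = f s := by
  have := (convex_Ioo a c).norm_image_sub_le_of_norm_hasDerivWithin_le (C := 0)
    (f' := fun _ => (0 : G)) (fun t ht => (h t ht).hasDerivWithinAt) (by simp) hs ht
  simpa [sub_eq_zero] using this

variable {G : Type*} [NormedAddCommGroup G] [NormedSpace ℝ G] [FiniteDimensional ℝ G]
  [MeasurableSpace G] [BorelSpace G] (ν : Measure G) [ν.IsAddHaarMeasure]

lemma flow_box (χ : OpenPartialHomeomorph (ℝ × G) (ℝ × G)) {χ' : ℝ × G → (ℝ × G) →L[ℝ] (ℝ × G)}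
    {g : ℝ × G → ℝ} (hχ : ∀ x ∈ χ.source, HasFDerivAt χ (χ' x) x)
    (hdet : ∀ x ∈ χ.source, |(χ' x).det| = g x) (hg : ∀ x ∈ χ.source, 0 < g x)
    (hgc : ContinuousOn g χ.source) {Φ : ℝ × G → ℝ × G} {a c : ℝ} {B : Set G}
    (hΦ : ContinuousOn Φ (Ioo a c ×ˢ B)) (hm : ∀ p ∈ Ioo a c ×ˢ B, Φ p ∈ χ.source)
    (h2 : ∀ p ∈ Ioo a c ×ˢ B, (χ (Φ p)).2 = p.2)
    (h1 : ∀ p ∈ Ioo a c ×ˢ B, HasDerivAt (fun t => (χ (Φ (t, p.2))).1) (g (Φ p)) p.1)
    {A : Set (ℝ × G)} (hA : MeasurableSet A) (hAs : A ⊆ Ioo a c ×ˢ B) :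
    (volume.prod ν) (Φ '' A) = (volume.prod ν) A := by
  have hmono : ∀ b ∈ B, StrictMonoOn (fun t => (χ (Φ (t, b))).1) (Ioo a c) := fun b hb =>
    strictMonoOn_of_deriv_pos (convex_Ioo a c)
      (fun t ht => (h1 (t, b) ⟨ht, hb⟩).continuousAt.continuousWithinAt) fun t ht => by
        rw [interior_Ioo] at ht
        rw [(h1 (t, b) ⟨ht, hb⟩).deriv]
        exact hg _ (hm _ ⟨ht, hb⟩)
  have hinj : InjOn Φ (Ioo a c ×ˢ B) := fun p hp q hq h => by
    have e2 : p.2 = q.2 := by rw [← h2 p hp, ← h2 q hq, h]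
    refine Prod.ext ((hmono p.2 hp.2).injOn hp.1 hq.1 ?_) e2
    simp only [Prod.mk.eta]
    rw [e2, h]
  have hA1 : MeasurableSet (Φ '' A) :=
    hA.image_of_continuousOn_injOn (hΦ.mono hAs) (hinj.mono hAs)
  have hA1s : Φ '' A ⊆ χ.source := by rintro _ ⟨p, hp, rfl⟩; exact hm p (hAs hp)
  have hA2 : MeasurableSet (χ '' (Φ '' A)) :=
    hA1.image_of_continuousOn_injOn (χ.continuousOn.mono hA1s) (χ.injOn.mono hA1s)
  set h : ℝ × G → ℝ≥0∞ := fun y => ENNReal.ofReal (g (χ.symm y))⁻¹ with hh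
  have hone : ∀ x ∈ χ.source, ENNReal.ofReal (g x) * h (χ x) = 1 := fun x hx => by
    simp only [hh, χ.left_inv hx]
    rw [← ENNReal.ofReal_mul (hg x hx).le, mul_inv_cancel₀ (hg x hx).ne', ENNReal.ofReal_one]
  have e1 : ∫⁻ y in χ '' (Φ '' A), h y ∂(volume.prod ν) = (volume.prod ν) (Φ '' A) := by
    rw [lintegral_image_eq_lintegral_abs_det_fderiv_mul _ hA1
      (fun x hx => (hχ x (hA1s hx)).hasFDerivWithinAt) (χ.injOn.mono hA1s),
      ← setLIntegral_one]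
    exact setLIntegral_congr_fun hA1 fun x hx => by
      simp only [hdet x (hA1s hx)]; exact hone x (hA1s hx)
  have hc : ContinuousOn h (χ '' (Φ '' A)) := by
    have hs : χ '' (Φ '' A) ⊆ χ.target := by rintro _ ⟨x, hx, rfl⟩; exact χ.map_source (hA1s hx)
    refine ENNReal.continuous_ofReal.comp_continuousOn (ContinuousOn.mono ?_ hs)
    exact (hgc.comp χ.continuousOn_symm χ.mapsTo_symm).inv₀ fun y hy => (hg _ (χ.map_target hy)).ne'
  rw [← e1, ← lintegral_indicator hA2, lintegral_prod_symm _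
    ((aemeasurable_indicator_iff hA2).2 (hc.aemeasurable hA2)), Measure.prod_apply_symm hA]
  refine lintegral_congr fun b => ?_
  have hAb : MeasurableSet ((fun t => (t, b)) ⁻¹' A) := measurable_prodMk_right hA
  have hsl : (fun ρ => (ρ, b)) ⁻¹' (χ '' (Φ '' A)) =
      (fun t => (χ (Φ (t, b))).1) '' ((fun t => (t, b)) ⁻¹' A) := by
    ext ρ
    constructor
    · rintro ⟨_, ⟨p, hp, rfl⟩, hρ⟩
      have e2 : p.2 = b := by rw [← h2 p (hAs hp), hρ]
      subst e2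
      exact ⟨p.1, hp, by simp only [Prod.mk.eta, hρ]⟩
    · rintro ⟨t, ht, rfl⟩
      exact ⟨_, ⟨_, ht, rfl⟩, Prod.ext rfl (h2 _ (hAs ht))⟩
  have e3 : (fun ρ => (χ '' (Φ '' A)).indicator h (ρ, b)) =
      ((fun ρ => (ρ, b)) ⁻¹' (χ '' (Φ '' A))).indicator fun ρ => h (ρ, b) := by
    ext ρ; rfl
  rw [e3, lintegral_indicator (measurable_prodMk_right hA2), hsl,
    lintegral_image_eq_lintegral_abs_deriv_mul hAb
      (fun t ht => (h1 (t, b) (hAs ht)).hasDerivWithinAt)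
      (fun t ht t' ht' h => (hmono b (hAs ht).2).injOn (hAs ht).1 (hAs ht').1 h),
    ← setLIntegral_one]
  refine setLIntegral_congr_fun hAb fun t ht => ?_
  have k1 := hm _ (hAs ht)
  have k2 := hone _ k1
  simp only [abs_of_pos (hg _ k1)]
  rwa [show ((χ (Φ (t, b))).1, b) = χ (Φ (t, b)) from Prod.ext rfl (h2 _ (hAs ht)).symm]

variable {F : Type*} [NormedAddCommGroup F] [NormedSpace ℝ F] [FiniteDimensional ℝ F]
  [MeasurableSpace F] [BorelSpace F] {V : F → F} {Ω : Set F} {φ : F → ℝ → F}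

omit [FiniteDimensional ℝ F] [MeasurableSpace F] [BorelSpace F] in
lemma IsFlow.inj (hφ : IsFlow V Ω φ) (t : ℝ) : InjOn (fun z => φ z t) Ω := fun z hz y hy h => by
  have h1 := hφ.add z hz t (-t)
  have h2 := hφ.add y hy t (-t)
  simp only [add_neg_cancel, hφ.zero z hz, hφ.zero y hy] at h1 h2 h
  rw [← h1, ← h2, h]

omit [FiniteDimensional ℝ F] [MeasurableSpace F] [BorelSpace F] in
lemma IsFlow.cont_time (hφ : IsFlow V Ω φ) (t : ℝ) : ContinuousOn (fun z => φ z t) Ω :=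
  hφ.cont.comp (f := fun z => (z, t)) (by fun_prop) fun _ hz => ⟨hz, trivial⟩

/-- volume preservation of the time `τ` map on a set -/
def VP (π : F → ℝ × G) (Ω : Set F) (φ : F → ℝ → F) (τ : ℝ) (O : Set F) : Prop :=
  InjOn (fun y => π (φ y τ)) (Ω ∩ O) ∧ ∀ S ⊆ Ω ∩ O, MeasurableSet S →
    (volume.prod ν) ((fun y => π (φ y τ)) '' S) = (volume.prod ν) (π '' S)

structure Chart (V : F → F) (Ω : Set F) (π : F →L[ℝ] ℝ × G) (z0 : F) where
  χ : OpenPartialHomeomorph (ℝ × G) (ℝ × G)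
  χ' : ℝ × G → (ℝ × G) →L[ℝ] (ℝ × G)
  g : ℝ × G → ℝ
  s : ℝ × G → F
  mem : π z0 ∈ χ.source
  deriv : ∀ x ∈ χ.source, HasFDerivAt χ (χ' x) x
  det : ∀ x ∈ χ.source, |(χ' x).det| = g x
  pos : ∀ x ∈ χ.source, 0 < g x
  gcont : ContinuousOn g χ.source
  scont : ContinuousOn s χ.source
  smem : ∀ x ∈ χ.source, s x ∈ Ω
  sproj : ∀ x ∈ χ.source, π (s x) = x
  near : ∀ᶠ z in 𝓝 z0, z ∈ Ω → s (π z) = z ∧ χ' (π z) (π (V z)) = (g (π z), 0)

omit [FiniteDimensional ℝ F] in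
lemma Chart.local_vp (hφ : IsFlow V Ω φ) {π : F →L[ℝ] ℝ × G} {z0 : F} (hz0 : z0 ∈ Ω)
    (c : Chart V Ω π z0) : ∃ δ > 0, ∃ O ∈ 𝓝 z0, ∀ τ, |τ| < δ → VP ν π Ω φ τ O := by
  set χ := c.χ with hχ
  set O1 := {z | π z ∈ χ.source ∧ (z ∈ Ω → c.s (π z) = z ∧
    c.χ' (π z) (π (V z)) = (c.g (π z), 0))} with hO1
  have hO1n : O1 ∈ 𝓝 z0 :=
    (π.continuous.continuousAt.eventually_mem (χ.open_source.mem_nhds c.mem)).and c.near
  -- orbits inside the chart
  have horb : ∀ z ∈ Ω, ∀ t, φ z t ∈ O1 →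
      HasDerivAt (fun t => χ (π (φ z t))) (c.g (π (φ z t)), 0) t := fun z hz t ht => by
    rw [← (ht.2 (hφ.mem z hz t)).2]
    exact (c.deriv _ ht.1).comp_hasDerivAt t (π.hasFDerivAt.comp_hasDerivAt t (hφ.deriv z hz t))
  -- uniform time
  have hu : ∀ᶠ p in 𝓝 (z0, (0 : ℝ)), p.1 ∈ Ω → φ p.1 p.2 ∈ O1 := by
    have h1 := (hφ.cont (z0, 0) ⟨hz0, trivial⟩).eventually_mem (by simpa [hφ.zero z0 hz0] using hO1n)
    rw [eventually_nhdsWithin_iff] at h1
    exact h1.mono fun p hp h => hp ⟨h, trivial⟩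
  obtain ⟨O2, hO2, I, hI, hu'⟩ := mem_nhds_prod_iff.1 hu
  obtain ⟨ε, hε, hεI⟩ := Metric.mem_nhds_iff.1 hI
  have hin : ∀ z ∈ Ω ∩ O2, ∀ t ∈ Ioo (-ε) ε, φ z t ∈ O1 := fun z hz t ht =>
    hu' (show (z, t) ∈ O2 ×ˢ I from ⟨hz.2, hεI (by simpa [abs_lt] using ht)⟩) hz.1
  have hfst : ∀ z ∈ Ω, ∀ t, φ z t ∈ O1 →
      HasDerivAt (fun t => (χ (π (φ z t))).1) (c.g (π (φ z t))) t := fun z hz t ht =>
    (ContinuousLinearMap.fst ℝ ℝ G).hasFDerivAt.comp_hasDerivAt t (horb z hz t ht)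
  have hsnd : ∀ z ∈ Ω ∩ O2, ∀ t ∈ Ioo (-ε) ε, (χ (π (φ z t))).2 = (χ (π z)).2 := fun z hz t ht => by
    have := const_on_Ioo (f := fun t => (χ (π (φ z t))).2) (fun t ht =>
      (ContinuousLinearMap.snd ℝ ℝ G).hasFDerivAt.comp_hasDerivAt t (horb z hz.1 t (hin z hz t ht)))
      (show (0 : ℝ) ∈ Ioo (-ε) ε from ⟨by linarith, hε⟩) ht
    simpa [hφ.zero z hz.1] using this
  set ρ0 := (χ (π z0)).1 with hρ0
  set b0 := (χ (π z0)).2 with hb0
  set σ : G → F := fun b => c.s (χ.symm (ρ0, b)) with hσ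
  have hy0 : (ρ0, b0) ∈ χ.target := χ.map_source c.mem
  have hsy0 : χ.symm (ρ0, b0) = π z0 := χ.left_inv c.mem
  have hσ0 : σ b0 = z0 := by simp only [hσ, hsy0]; exact (c.near.self_of_nhds hz0).1
  have hBt : IsOpen {b | (ρ0, b) ∈ χ.target} := χ.open_target.preimage (by fun_prop)
  have hσc : ContinuousOn σ {b | (ρ0, b) ∈ χ.target} :=
    c.scont.comp (χ.continuousOn_symm.comp (f := fun b => (ρ0, b)) (by fun_prop) fun _ hb => hb)
      fun b hb => χ.map_target hb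
  set B := {b | (ρ0, b) ∈ χ.target} ∩ σ ⁻¹' interior O2 with hB
  have hBo : IsOpen B := hσc.isOpen_inter_preimage hBt isOpen_interior
  have hb0B : b0 ∈ B := ⟨hy0, by rw [mem_preimage, hσ0]; exact mem_interior_iff_mem_nhds.2 hO2⟩
  have hσB : ∀ b ∈ B, σ b ∈ Ω ∩ O2 := fun b hb =>
    ⟨c.smem _ (χ.map_target hb.1), interior_subset hb.2⟩
  have hπσ : ∀ b ∈ B, χ (π (σ b)) = (ρ0, b) := fun b hb => by
    simp only [hσ]
    rw [c.sproj _ (χ.map_target hb.1), χ.right_inv hb.1]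
  set Ψ : ℝ × G → F := fun p => φ (σ p.2) p.1 with hΨ
  have hΨc : ContinuousOn Ψ (univ ×ˢ B) :=
    hφ.cont.comp (f := fun p : ℝ × G => (σ p.2, p.1))
      (((hσc.mono inter_subset_left).comp continuousOn_snd fun p hp => hp.2).prodMk continuousOn_fst)
      fun p hp => ⟨(hσB _ hp.2).1, trivial⟩
  have hbox : ∀ A : Set (ℝ × G), MeasurableSet A → A ⊆ Ioo (-ε) ε ×ˢ B →
      (volume.prod ν) ((fun p => π (Ψ p)) '' A) = (volume.prod ν) A := fun A hA hAs =>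
    flow_box ν χ c.deriv c.det c.pos c.gcont
      (π.continuous.comp_continuousOn (hΨc.mono (prod_mono (subset_univ _) subset_rfl)))
      (fun p hp => (hin _ (hσB _ hp.2) _ hp.1).1)
      (fun p hp => (hsnd _ (hσB _ hp.2) _ hp.1).trans (by rw [hπσ _ hp.2]))
      (fun p hp => hfst _ (hσB _ hp.2).1 _ (hin _ (hσB _ hp.2) _ hp.1)) hA hAs
  -- points near `z0` lie in the box
  have hR : ∀ t ∈ Ioo (-ε) ε, ContinuousWithinAt (fun z => (χ (π (φ z t))).1) Ω z0 := fun t ht => by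
    have k1 := hin z0 ⟨hz0, mem_of_mem_nhds hO2⟩ t ht
    exact continuous_fst.continuousAt.comp_continuousWithinAt
      ((χ.continuousAt k1.1).comp_continuousWithinAt (f := fun z => π (φ z t))
        (π.continuous.continuousAt.comp_continuousWithinAt (hφ.cont_time t z0 hz0)))
  have hmono : StrictMonoOn (fun t => (χ (π (φ z0 t))).1) (Ioo (-ε) ε) :=
    strictMonoOn_of_deriv_pos (convex_Ioo _ _)
      (fun t ht => (hfst z0 hz0 t
        (hin z0 ⟨hz0, mem_of_mem_nhds hO2⟩ t ht)).continuousAt.continuousWithinAt) fun t ht => by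
        rw [interior_Ioo] at ht
        have k1 := hin z0 ⟨hz0, mem_of_mem_nhds hO2⟩ t ht
        rw [(hfst z0 hz0 t k1).deriv]
        exact c.pos _ k1.1
  have m0 : (0 : ℝ) ∈ Ioo (-ε) ε := ⟨by linarith, hε⟩
  have m1 : ε / 2 ∈ Ioo (-ε) ε := ⟨by linarith, by linarith⟩
  have m2 : -(ε / 2) ∈ Ioo (-ε) ε := ⟨by linarith, by linarith⟩
  have n1 : ∀ᶠ z in 𝓝[Ω] z0, ρ0 < (χ (π (φ z (ε / 2)))).1 :=
    (hR _ m1).eventually (lt_mem_nhds (by
      simpa [hφ.zero z0 hz0] using hmono m0 m1 (by linarith)))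
  have n2 : ∀ᶠ z in 𝓝[Ω] z0, (χ (π (φ z (-(ε / 2))))).1 < ρ0 :=
    (hR _ m2).eventually (gt_mem_nhds (by
      simpa [hφ.zero z0 hz0] using hmono m2 m0 (by linarith)))
  have n3 : ∀ᶠ z in 𝓝 z0, (χ (π z)).2 ∈ B :=
    (continuous_snd.continuousAt.comp ((χ.continuousAt c.mem).comp
      π.continuous.continuousAt)).eventually_mem (hBo.mem_nhds hb0B)
  rw [eventually_nhdsWithin_iff] at n1 n2
  have n4 : ∀ᶠ z in 𝓝 z0, z ∈ O2 ∧ (z ∈ Ω → ∃ p ∈ Ioo (-(ε / 2)) (ε / 2) ×ˢ B, Ψ p = z) := by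
    filter_upwards [n1, n2, n3, hO2] with z k1 k2 k3 k4
    refine ⟨k4, fun hz => ?_⟩
    have sub : Icc (-(ε / 2)) (ε / 2) ⊆ Ioo (-ε) ε := Icc_subset_Ioo m2.1 m1.2
    obtain ⟨t, ht, ht'⟩ := intermediate_value_Ioo (show -(ε / 2) ≤ ε / 2 by linarith)
      (f := fun t => (χ (π (φ z t))).1) (fun t ht =>
        (hfst z hz t (hin z ⟨hz, k4⟩ t (sub ht))).continuousAt.continuousWithinAt) ⟨k2 hz, k1 hz⟩
    have ht1 := sub (Ioo_subset_Icc_self ht)
    have k5 := hin z ⟨hz, k4⟩ t ht1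
    have k6 : χ (π (φ z t)) = (ρ0, (χ (π z)).2) := Prod.ext ht' (hsnd z ⟨hz, k4⟩ t ht1)
    refine ⟨(-t, (χ (π z)).2), ⟨⟨by linarith [ht.2], by linarith [ht.1]⟩, k3⟩, ?_⟩
    simp only [hΨ, hσ]
    rw [← k6, χ.left_inv k5.1, (k5.2 (hφ.mem z hz t)).1, hφ.add z hz, add_neg_cancel, hφ.zero z hz]
  refine ⟨ε / 2, half_pos hε, _, n4, fun τ hτ => ⟨fun z hz y hy h => ?_, fun S hS hSm => ?_⟩⟩
  · have hτ' : τ ∈ Ioo (-ε) ε := abs_lt.1 (by linarith)
    have k1 := ((hin z ⟨hz.1, hz.2.1⟩ τ hτ').2 (hφ.mem z hz.1 τ)).1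
    have k2 := ((hin y ⟨hy.1, hy.2.1⟩ τ hτ').2 (hφ.mem y hy.1 τ)).1
    refine hφ.inj τ hz.1 hy.1 ?_
    simp only at h ⊢
    rw [← k1, ← k2, h]
  · set A := (Ioo (-(ε / 2)) (ε / 2) ×ˢ B) ∩ Ψ ⁻¹' S with hA
    have hAm : MeasurableSet A := measurableSet_inter_preimage
      (measurableSet_Ioo.prod hBo.measurableSet)
      (hΨc.mono (prod_mono (subset_univ _) subset_rfl)) hSm
    have key : ∀ u, |u| < ε / 2 →
        (volume.prod ν) ((fun y => π (φ y u)) '' S) = (volume.prod ν) A := fun u hu => by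
      have hu' := abs_lt.1 hu
      have e1 : (fun y => π (φ y u)) '' S =
          (fun p => π (Ψ p)) '' ((fun p => p + ((-u, 0) : ℝ × G)) ⁻¹' A) := by
        ext x
        constructor
        · rintro ⟨y, hy, rfl⟩
          obtain ⟨p, hp, rfl⟩ := (hS hy).2.2 (hS hy).1
          refine ⟨p + (u, 0), ?_, ?_⟩
          · have : p ∈ A := ⟨hp, hy⟩
            simpa [add_assoc, Prod.mk_zero_zero] using this
          · simp only [hΨ, Prod.snd_add, add_zero, Prod.fst_add, hφ.add _ (hσB _ hp.2).1]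
        · rintro ⟨p, hp, rfl⟩
          refine ⟨_, hp.2, ?_⟩
          have k1 : p.2 ∈ B := by simpa using hp.1.2
          simp only [hΨ, Prod.snd_add, add_zero, Prod.fst_add, hφ.add _ (hσB _ k1).1]
          congr 2; ring
      rw [e1, hbox _ (measurable_add_const _ hAm), measure_preimage_add_right]
      intro p hp
      have k1 := hp.1.1
      simp only [Prod.fst_add, mem_Ioo] at k1
      exact ⟨⟨by linarith, by linarith⟩, by simpa using hp.1.2⟩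
    rw [key τ hτ, ← key 0 (by simpa using hε)]
    congr 1
    exact image_congr fun y hy => by rw [hφ.zero y (hS hy).1]

lemma exists_vp (hφ : IsFlow V Ω φ) {π : F →L[ℝ] ℝ × G} (hc : ∀ z ∈ Ω, Nonempty (Chart V Ω π z))
    {z0 : F} (hz0 : z0 ∈ Ω) (τ : ℝ) : ∃ O ∈ 𝓝 z0, VP ν π Ω φ τ O := by
  have step : ∀ {δ : ℝ} {O : Set F}, (∀ τ, |τ| < δ → VP ν π Ω φ τ O) → ∀ s t, O ∈ 𝓝 (φ z0 s) →
      |t - s| < δ → (∃ O ∈ 𝓝 z0, VP ν π Ω φ s O) → ∃ O ∈ 𝓝 z0, VP ν π Ω φ t O := by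
    rintro δ O hO s t hs hst ⟨O0, hO0, h0⟩
    have k1 := (hφ.cont_time s z0 hz0).eventually_mem hs
    rw [eventually_nhdsWithin_iff] at k1
    have e : ∀ y ∈ Ω, φ y t = φ (φ y s) (t - s) := fun y hy => by rw [hφ.add y hy]; congr 1; ring
    refine ⟨_, inter_mem hO0 k1, fun z hz y hy h => ?_, fun S hS hSm => ?_⟩
    · simp only [e z hz.1, e y hy.1] at h
      exact hφ.inj s hz.1 hy.1 ((hO _ hst).1 ⟨hφ.mem z hz.1 s, hz.2.2 hz.1⟩
        ⟨hφ.mem y hy.1 s, hy.2.2 hy.1⟩ h)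
    · have hSΩ : S ⊆ Ω := fun y hy => (hS hy).1
      have k2 := (hO _ hst).2 ((fun y => φ y s) '' S)
        (by rintro _ ⟨y, hy, rfl⟩; exact ⟨hφ.mem y (hSΩ hy) s, (hS hy).2.2 (hSΩ hy)⟩)
        (hSm.image_of_continuousOn_injOn ((hφ.cont_time s).mono hSΩ) ((hφ.inj s).mono hSΩ))
      rw [image_image, image_image, h0.2 S (fun y hy => ⟨hSΩ hy, (hS hy).2.1⟩) hSm] at k2
      rw [← k2]
      congr 1
      exact image_congr fun y hy => by rw [e y (hSΩ hy)]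
  refine PreconnectedSpace.induction₂' (fun s t : ℝ => (∃ O ∈ 𝓝 z0, VP ν π Ω φ s O) →
    ∃ O ∈ 𝓝 z0, VP ν π Ω φ t O) (fun s => ?_) ⟨fun _ _ _ h1 h2 h => h2 (h1 h)⟩ 0 τ ?_
  · obtain ⟨c⟩ := hc _ (hφ.mem z0 hz0 s)
    obtain ⟨δ, hδ, O, hO, h⟩ := c.local_vp ν hφ (hφ.mem z0 hz0 s)
    filter_upwards [(hφ.deriv z0 hz0 s).continuousAt.eventually (eventually_mem_nhds_iff.2 hO),
      Metric.ball_mem_nhds s hδ] with t h1 h2
    rw [mem_ball, Real.dist_eq] at h2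
    exact ⟨step h s t hO h2, step h t s h1 (by rwa [abs_sub_comm])⟩
  · obtain ⟨c⟩ := hc _ hz0
    obtain ⟨δ, hδ, O, hO, h⟩ := c.local_vp ν hφ hz0
    exact ⟨O, hO, h 0 (by simpa using hδ)⟩

/-- integral of the number of points in the fibres -/
noncomputable def cnt (π : F → ℝ × G) (S : Set F) : ℝ≥0∞ :=
  ∫⁻ x, ((S ∩ π ⁻¹' {x}).encard : ℝ≥0∞) ∂(volume.prod ν)

omit [NormedAddCommGroup G] [NormedSpace ℝ G] [FiniteDimensional ℝ G] [BorelSpace G]
  [ν.IsAddHaarMeasure] [NormedAddCommGroup F] [NormedSpace ℝ F] [FiniteDimensional ℝ F]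
  [MeasurableSpace F] [BorelSpace F] in
lemma cnt_union (π : F → ℝ × G) {S T : Set F} (h : Disjoint S T) :
    cnt ν π S + cnt ν π T ≤ cnt ν π (S ∪ T) := by
  refine (le_lintegral_add _ _).trans (le_of_eq (lintegral_congr fun x => ?_))
  rw [union_inter_distrib_right, encard_union_eq (h.mono inter_subset_left inter_subset_left),
    ENat.toENNReal_add]

lemma le_cnt (hφ : IsFlow V Ω φ) {π : F →L[ℝ] ℝ × G} (hc : ∀ z ∈ Ω, Nonempty (Chart V Ω π z))
    {W : Set F} (hW : IsCompact W) (hWΩ : W ⊆ Ω) (τ : ℝ) :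
    (volume.prod ν) (π '' W) ≤ cnt ν π ((fun y => φ y τ) '' W) := by
  have key : ∃ T, MeasurableSet T ∧ W ⊆ T ∧ ∀ S ⊆ Ω ∩ T, MeasurableSet S →
      (volume.prod ν) (π '' S) ≤ cnt ν π ((fun y => φ y τ) '' S) := by
    refine hW.induction_on (p := fun W => ∃ T, MeasurableSet T ∧ W ⊆ T ∧ ∀ S ⊆ Ω ∩ T,
      MeasurableSet S → (volume.prod ν) (π '' S) ≤ cnt ν π ((fun y => φ y τ) '' S)) ?_ ?_ ?_ ?_
    · refine ⟨∅, MeasurableSet.empty, subset_rfl, fun S hS _ => ?_⟩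
      rw [inter_empty, subset_empty_iff] at hS
      simp [hS]
    · rintro s t hst ⟨T, h1, h2, h3⟩
      exact ⟨T, h1, hst.trans h2, h3⟩
    · rintro s t ⟨T, h1, h2, h3⟩ ⟨T', h1', h2', h3'⟩
      refine ⟨T ∪ T', h1.union h1', union_subset_union h2 h2', fun S hS hSm => ?_⟩
      have k1 := h3 (S ∩ T) (fun y hy => ⟨(hS hy.1).1, hy.2⟩) (hSm.inter h1)
      have k2 := h3' (S \ T) (fun y hy => ⟨(hS hy.1).1, (hS hy.1).2.resolve_left hy.2⟩)
        (hSm.diff h1)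
      have k3 : Disjoint ((fun y => φ y τ) '' (S ∩ T)) ((fun y => φ y τ) '' (S \ T)) := by
        rw [Set.disjoint_left]
        rintro _ ⟨y, hy, rfl⟩ ⟨y', hy', h⟩
        exact hy'.2 (hφ.inj τ (hS hy'.1).1 (hS hy.1).1 h ▸ hy.2)
      have k4 := cnt_union ν π k3
      rw [← image_union, inter_union_sdiff] at k4
      calc (volume.prod ν) (π '' S) = (volume.prod ν) (π '' (S ∩ T) ∪ π '' (S \ T)) := by
            rw [← image_union, inter_union_sdiff]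
        _ ≤ _ := (measure_union_le _ _).trans ((add_le_add k1 k2).trans k4)
    · intro z hz
      obtain ⟨O, hO, h⟩ := exists_vp ν hφ hc (hWΩ hz) τ
      refine ⟨interior O, mem_nhdsWithin_of_mem_nhds (interior_mem_nhds.2 hO), interior O,
        isOpen_interior.measurableSet, subset_rfl, fun S hS hSm => ?_⟩
      have hS' : S ⊆ Ω ∩ O := fun y hy => ⟨(hS hy).1, interior_subset (hS hy).2⟩
      have k1 : MeasurableSet ((fun y => π (φ y τ)) '' S) := hSm.image_of_continuousOn_injOn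
        (π.continuous.comp_continuousOn ((hφ.cont_time τ).mono fun y hy => (hS hy).1))
        (h.1.mono hS')
      rw [← h.2 S hS' hSm, ← lintegral_indicator_one k1]
      refine lintegral_mono fun x => ?_
      by_cases hx : x ∈ (fun y => π (φ y τ)) '' S
      · obtain ⟨y, hy, rfl⟩ := hx
        refine (indicator_le_self' (fun _ _ => zero_le) _).trans ?_
        have : (1 : ℕ∞) ≤ ((fun y => φ y τ) '' S ∩ π ⁻¹' {π (φ y τ)}).encard :=
          one_le_encard_iff_nonempty.2 ⟨_, ⟨y, hy, rfl⟩, rfl⟩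
        simpa using ENat.toENNReal_le.2 this
      · rw [indicator_of_notMem hx]; exact zero_le
  obtain ⟨T, -, h2, h3⟩ := key
  exact h3 W (subset_inter hWΩ h2) hW.measurableSet

theorem wandering (hφ : IsFlow V Ω φ) {π : F →L[ℝ] ℝ × G}
    (hc : ∀ z ∈ Ω, Nonempty (Chart V Ω π z)) {M : ℕ} (hM : ∀ x, (Ω ∩ π ⁻¹' {x}).encard ≤ M)
    {W : Set F} (hW : IsCompact W) (hWΩ : W ⊆ Ω) {τ : ℝ}
    (hd : ∀ z ∈ W, ∀ k : ℕ, φ z ((k + 1) * τ) ∉ W) {Sh : Set (ℝ × G)} (hSh : IsCompact Sh)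
    (hin : ∀ z ∈ W, ∀ t, π (φ z t) ∈ Sh) : (volume.prod ν) (π '' W) = 0 := by
  set U : ℕ → Set F := fun N => {y | ∃ k < N, ∃ z ∈ W, φ z (k * τ) = y} with hU
  have h1 : ∀ N : ℕ, N * (volume.prod ν) (π '' W) ≤ cnt ν π (U N) := fun N => by
    induction N with
    | zero => simp
    | succ N ih =>
      have k1 : Disjoint (U N) ((fun y => φ y (N * τ)) '' W) := by
        rw [Set.disjoint_left]
        rintro _ ⟨k, hk, z, hz, rfl⟩ ⟨y, hy, h⟩
        obtain ⟨j, rfl⟩ := Nat.exists_eq_add_of_lt hk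
        refine hd y hy j ?_
        have : φ y ((j + 1) * τ) = z := hφ.inj (k * τ) (hφ.mem y (hWΩ hy) _) (hWΩ hz) (by
          simp only [hφ.add y (hWΩ hy)] at h ⊢
          rw [← h]; congr 1; push_cast; ring)
        rwa [this]
      have k2 : U N ∪ (fun y => φ y (N * τ)) '' W = U (N + 1) := by
        ext y
        simp only [hU, mem_union, mem_ofPred_eq, mem_image, Nat.lt_succ_iff_lt_or_eq]
        constructor
        · rintro (⟨k, hk, h⟩ | h)
          · exact ⟨k, Or.inl hk, h⟩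
          · exact ⟨N, Or.inr rfl, h⟩
        · rintro ⟨k, hk | rfl, h⟩
          · exact Or.inl ⟨k, hk, h⟩
          · exact Or.inr h
      rw [← k2, Nat.cast_succ, add_mul, one_mul]
      exact (add_le_add ih (le_cnt ν hφ hc hW hWΩ _)).trans (cnt_union ν π k1)
  have h2 : ∀ N : ℕ, cnt ν π (U N) ≤ M * (volume.prod ν) Sh := fun N => by
    rw [← lintegral_indicator_const hSh.measurableSet]
    refine lintegral_mono fun x => ?_
    by_cases hx : x ∈ Sh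
    · rw [indicator_of_mem hx]
      have : (U N ∩ π ⁻¹' {x}).encard ≤ M := (encard_le_encard (inter_subset_inter_left _ (by
        rintro _ ⟨k, -, z, hz, rfl⟩; exact hφ.mem z (hWΩ hz) _))).trans (hM x)
      simpa using ENat.toENNReal_le.2 this
    · have : U N ∩ π ⁻¹' {x} = ∅ := by
        rw [eq_empty_iff_forall_notMem]
        rintro _ ⟨⟨k, -, z, hz, rfl⟩, h⟩
        exact hx (h ▸ hin z hz _)
      simp [this]
  by_contra hne
  obtain ⟨N, hN⟩ := ENNReal.exists_nat_mul_gt hne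
    (ENNReal.mul_ne_top (ENNReal.natCast_ne_top M) (hSh.measure_lt_top (μ := volume.prod ν)).ne)
  exact absurd ((h1 N).trans (h2 N)) (not_le.2 hN)

end Pool.Agent.Lib.MP_7dd29b_gt
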