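import Pool.Agent.Lib.MP_7dd29b_gt.Defs

/-! Primitive idempotents of a commutative associative self-adjoint product. -/

set_option autoImplicit false

open Set Filter Topology
open scoped RealInnerProductSpace

namespace Pool.Agent.Lib.MP_7dd29b_gt

variable {E : Type*} [NormedAddCommGroup E] [InnerProductSpace ℝ E]

structure Alg (C : E →L[ℝ] E →L[ℝ] E) : Prop where
  comm : ∀ a b, C a b = C b a
  selfadj : ∀ a b c, ⟪C a b, c⟫ = ⟪b, C a c⟫
  assoc : ∀ a b c, C (C a b) c = C a (C b c)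

lemma CoreData.alg (D : CoreData E) {x : E} (hx : x ≠ 0) : Alg (D.C x) :=
  ⟨D.comm x hx, D.selfadj x hx, D.assoc x hx⟩

/-- primitive idempotents -/
def Prim (C : E →L[ℝ] E →L[ℝ] E) (p : E) : Prop :=
  p ≠ 0 ∧ ∀ v, C p v = (⟪p, v⟫ / ‖p‖ ^ 2) • p

variable {C : E →L[ℝ] E →L[ℝ] E} {p q : E}

lemma Prim.norm_pos (h : Prim C p) : 0 < ‖p‖ := norm_pos_iff.2 h.1

lemma Prim.idem (h : Prim C p) : C p p = p := by
  rw [h.2, real_inner_self_eq_norm_sq, div_self (pow_ne_zero 2 h.norm_pos.ne'), one_smul]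

lemma Prim.mul_zero' (h : Prim C p) {v : E} (hv : ⟪p, v⟫ = 0) : C p v = 0 := by
  rw [h.2, hv, zero_div, zero_smul]

lemma Prim.orth (hA : Alg C) (hp : Prim C p) (hq : Prim C q) (hne : p ≠ q) : ⟪p, q⟫ = 0 := by
  by_contra hc
  have h1 : (⟪p, q⟫ / ‖p‖ ^ 2) • p = (⟪p, q⟫ / ‖q‖ ^ 2) • q := by
    rw [← hp.2, hA.comm, hq.2, real_inner_comm]
  have hp0 := hp.norm_pos
  have hq0 := hq.norm_pos
  set c := ‖q‖ ^ 2 / ‖p‖ ^ 2 with hcdef
  have h2 : q = c • p := by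
    have := congrArg (fun v => (‖q‖ ^ 2 / ⟪p, q⟫) • v) h1
    simp only [smul_smul] at this
    rw [show ‖q‖ ^ 2 / ⟪p, q⟫ * (⟪p, q⟫ / ‖q‖ ^ 2) = 1 by field_simp, one_smul,
      show ‖q‖ ^ 2 / ⟪p, q⟫ * (⟪p, q⟫ / ‖p‖ ^ 2) = c by rw [hcdef]; field_simp] at this
    exact this.symm
  have hc0 : c ≠ 0 := by positivity
  have h3 := hq.idem
  rw [h2] at h3
  simp only [map_smul, smul_apply, hp.idem] at h3
  have h4 : c • p = p := by
    have := congrArg (fun v => c⁻¹ • v) h3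
    simpa [smul_smul, hc0] using this
  exact hne (by rw [h2, h4])

lemma Prim.one_le (h : Prim C p) : 1 ≤ ‖C‖ * ‖p‖ := by
  have h1 := C.le_opNorm₂ p p
  rw [h.idem] at h1
  exact le_of_mul_le_mul_right (by linarith) h.norm_pos

lemma Alg.sym3 (hA : Alg C) (a b c : E) : ⟪C a b, c⟫ = ⟪C a c, b⟫ := by
  rw [hA.selfadj, real_inner_comm]

lemma le_zero_of_small {A B1 B2 B3 : ℝ} (h : ∀ s > 0, A ≤ s * B1 + s ^ 2 * B2 + s ^ 3 * B3) :
    A ≤ 0 := by
  have h1 : Tendsto (fun s : ℝ => s * B1 + s ^ 2 * B2 + s ^ 3 * B3) (𝓝[>] 0)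
      (𝓝 (0 * B1 + 0 ^ 2 * B2 + 0 ^ 3 * B3)) := by
    refine Tendsto.mono_left ?_ nhdsWithin_le_nhds
    exact Continuous.tendsto (by fun_prop) 0
  simp only [zero_mul, ne_eq, OfNat.ofNat_ne_zero, not_false_eq_true, zero_pow, add_zero] at h1
  exact ge_of_tendsto h1 (eventually_mem_nhdsWithin.mono fun s hs => h s hs)

lemma Alg.cube_add (hA : Alg C) (e v : E) (s : ℝ) :
    ⟪C (e + s • v) (e + s • v), e + s • v⟫ = ⟪C e e, e⟫ + 3 * s * ⟪C e e, v⟫ +
      3 * s ^ 2 * ⟪C e v, v⟫ + s ^ 3 * ⟪C v v, v⟫ := by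
  simp only [map_add, map_smul, add_apply, smul_apply,
    inner_add_left, inner_add_right, real_inner_smul_left, real_inner_smul_right]
  rw [hA.comm v e, hA.sym3 e v e, hA.sym3 v v e, hA.comm v e]
  ring

theorem Alg.exists_prim [FiniteDimensional ℝ E] (hA : Alg C) {ι : Type*} (p : ι → E)
    (hp : ∀ j, Prim C (p j)) {w : E} (hw : ∀ j, ⟪p j, w⟫ = 0) (hw0 : C w ≠ 0) :
    ∃ q, Prim C q ∧ (∀ j, ⟪p j, q⟫ = 0) ∧
      ∀ v, (∀ j, ⟪p j, v⟫ = 0) → ⟪C v v, v⟫ ≤ ‖q‖⁻¹ * ‖v‖ ^ 3 := by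
  set W := {v : E | ∀ j, ⟪p j, v⟫ = 0} with hW
  have hideal : ∀ a ∈ W, ∀ v, C a v ∈ W := fun a ha v j => by
    rw [← hA.selfadj, hA.comm, (hp j).mul_zero' (ha j), inner_zero_left]
  have hadd : ∀ a ∈ W, ∀ b ∈ W, ∀ s : ℝ, a + s • b ∈ W := fun a ha b hb s j => by
    rw [inner_add_right, real_inner_smul_right, ha j, hb j]; simp
  have hsmul : ∀ a ∈ W, ∀ s : ℝ, s • a ∈ W := fun a ha s j => by
    rw [real_inner_smul_right, ha j]; simp
  have hex : ∃ v ∈ W, ⟪C v v, v⟫ ≠ 0 := by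
    by_contra hcon
    push Not at hcon
    have h1 : C w w = 0 := by
      have k1 := hA.cube_add w (C w w) 1
      have k2 := hA.cube_add w (C w w) (-1)
      rw [hcon _ (hadd w hw _ (hideal w hw w) _), hcon _ (hideal w hw w)] at k1 k2
      have : ⟪C w w, C w w⟫ = 0 := by linarith
      exact inner_self_eq_zero.1 this
    apply hw0
    ext v
    have : ⟪C w v, C w v⟫ = 0 := by
      rw [hA.selfadj, ← hA.assoc, h1]; simp
    exact inner_self_eq_zero.1 this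
  have hWc : IsClosed W := by
    rw [hW, ofPred_forall]
    exact isClosed_iInter fun j => isClosed_eq (by fun_prop) continuous_const
  have hK : IsCompact (W ∩ Metric.sphere 0 1) := (isCompact_sphere 0 1).inter_left hWc
  have hnorm : ∀ v ∈ W, v ≠ 0 → ‖v‖⁻¹ • v ∈ W ∩ Metric.sphere 0 1 := fun v hv h0 =>
    ⟨hsmul v hv _, by simp [norm_smul, h0]⟩
  obtain ⟨v0, hv0, hv0'⟩ := hex
  have hv00 : v0 ≠ 0 := by rintro rfl; simp at hv0'
  obtain ⟨e, he, hmax⟩ := hK.exists_isMaxOn ⟨_, hnorm v0 hv0 hv00⟩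
    (f := fun v => ⟪C v v, v⟫) (by fun_prop)
  have he1 : ‖e‖ = 1 := by simpa using he.2
  set l := ⟪C e e, e⟫ with hl
  have hle : ∀ v ∈ W, ⟪C v v, v⟫ ≤ l * ‖v‖ ^ 3 := fun v hv => by
    by_cases h0 : v = 0
    · simp [h0]
    have h1 : ⟪C (‖v‖⁻¹ • v) (‖v‖⁻¹ • v), ‖v‖⁻¹ • v⟫ ≤ l := hmax (hnorm v hv h0)
    simp only [map_smul, smul_apply, real_inner_smul_left,
      real_inner_smul_right] at h1
    have hn : 0 < ‖v‖ := norm_pos_iff.2 h0
    have h2 := mul_le_mul_of_nonneg_right h1 (show 0 ≤ ‖v‖ ^ 3 by positivity)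
    rwa [show ‖v‖⁻¹ * (‖v‖⁻¹ * (‖v‖⁻¹ * ⟪C v v, v⟫)) * ‖v‖ ^ 3 = ⟪C v v, v⟫ by field_simp] at h2
  have hl0 : 0 < l := by
    have h1 := hle v0 hv0
    have h2 := hle ((-1 : ℝ) • v0) (hsmul v0 hv0 _)
    simp only [map_smul, smul_apply, real_inner_smul_left,
      real_inner_smul_right, norm_smul, norm_neg, norm_one, one_mul] at h2
    have hn : 0 < ‖v0‖ ^ 3 := pow_pos (norm_pos_iff.2 hv00) 3
    by_contra hcon
    have h3 : l * ‖v0‖ ^ 3 ≤ 0 := mul_nonpos_of_nonpos_of_nonneg (not_lt.1 hcon) hn.le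
    exact hv0' (by linarith)
  have hpert : ∀ v ∈ W, ⟪e, v⟫ = 0 → ∀ s : ℝ, 3 * s * ⟪C e e, v⟫ + 3 * s ^ 2 * ⟪C e v, v⟫ +
      s ^ 3 * ⟪C v v, v⟫ ≤ l * (3 / 2 * s ^ 2 * ‖v‖ ^ 2 + s ^ 4 * ‖v‖ ^ 4) := fun v hv hev s => by
    have h1 := hle _ (hadd e he.1 v hv s)
    rw [hA.cube_add] at h1
    have h2 : ‖e + s • v‖ ^ 2 = 1 + s ^ 2 * ‖v‖ ^ 2 := by
      rw [norm_add_sq_real, real_inner_smul_right, hev, he1, norm_smul, mul_pow, Real.norm_eq_abs,
        sq_abs]; ring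
    set x := s ^ 2 * ‖v‖ ^ 2 with hx
    have hx0 : 0 ≤ x := by positivity
    have h3 : ‖e + s • v‖ ^ 3 ≤ 1 + 3 / 2 * x + x ^ 2 := by
      apply abs_le_of_sq_le_sq' _ (by positivity) |>.2
      rw [show (‖e + s • v‖ ^ 3) ^ 2 = (‖e + s • v‖ ^ 2) ^ 3 by ring, h2]
      nlinarith [pow_nonneg hx0 3, pow_nonneg hx0 4, pow_nonneg hx0 2]
    have h4 := mul_le_mul_of_nonneg_left h3 hl0.le
    have h5 : x ^ 2 = s ^ 4 * ‖v‖ ^ 4 := by rw [hx]; ring
    rw [h5, hx] at h4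
    nlinarith
  have hfirst : ∀ v ∈ W, ⟪e, v⟫ = 0 → ⟪C e e, v⟫ = 0 := fun v hv hev => by
    have k1 : 3 * ⟪C e e, v⟫ ≤ 0 := le_zero_of_small (B1 := l * (3 / 2 * ‖v‖ ^ 2) - 3 * ⟪C e v, v⟫)
      (B2 := -⟪C v v, v⟫) (B3 := l * ‖v‖ ^ 4) fun s hs => by
        have := hpert v hv hev s
        exact le_of_mul_le_mul_left (by nlinarith) hs
    have k2 : -(3 * ⟪C e e, v⟫) ≤ 0 :=
      le_zero_of_small (B1 := l * (3 / 2 * ‖v‖ ^ 2) - 3 * ⟪C e v, v⟫)
      (B2 := ⟪C v v, v⟫) (B3 := l * ‖v‖ ^ 4) fun s hs => by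
        have := hpert v hv hev (-s)
        exact le_of_mul_le_mul_left (by nlinarith) hs
    linarith
  have hsecond : ∀ v ∈ W, ⟪e, v⟫ = 0 → ⟪C e v, v⟫ ≤ l / 2 * ‖v‖ ^ 2 := fun v hv hev => by
    have k1 : 3 * ⟪C e v, v⟫ - l * (3 / 2 * ‖v‖ ^ 2) ≤ 0 :=
      le_zero_of_small (B1 := -⟪C v v, v⟫) (B2 := l * ‖v‖ ^ 4) (B3 := 0) fun s hs => by
        have := hpert v hv hev s
        rw [hfirst v hv hev] at this
        exact le_of_mul_le_mul_left (by nlinarith) (pow_pos hs 2)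
    linarith
  have hee1 : ⟪e, e⟫ = 1 := by rw [real_inner_self_eq_norm_sq, he1]; norm_num
  have hee : C e e = l • e := by
    have h1 : C e e + (-l) • e ∈ W := hadd _ (hideal e he.1 e) e he.1 _
    have h2 : ⟪e, C e e + (-l) • e⟫ = 0 := by
      rw [inner_add_right, real_inner_smul_right, hee1, real_inner_comm]; ring
    have h3 := hfirst _ h1 h2
    have h4 : ⟪C e e + (-l) • e, C e e + (-l) • e⟫ = 0 := by
      rw [inner_add_left, h3, real_inner_smul_left, h2]; simp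
    have := inner_self_eq_zero.1 h4
    rw [neg_smul, ← sub_eq_add_neg, sub_eq_zero] at this
    exact this
  have hev : ∀ v, C e v = (l * ⟪e, v⟫) • e := fun v => by
    set u := C e (v + (-⟪e, v⟫) • e) with hu
    have h1 : u ∈ W := hideal e he.1 _
    have h2 : ⟪e, u⟫ = 0 := by
      rw [hu, ← hA.selfadj, hee, real_inner_smul_left, inner_add_right, real_inner_smul_right,
        hee1]; ring
    have h3 : C e u = l • u := by rw [hu, ← hA.assoc, hee]; simp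
    have h4 := hsecond u h1 h2
    rw [h3, real_inner_smul_left, real_inner_self_eq_norm_sq] at h4
    have h5 : ‖u‖ ^ 2 ≤ 0 := by nlinarith
    have h6 : u = 0 := by
      have : ‖u‖ = 0 := by nlinarith [norm_nonneg u]
      exact norm_eq_zero.1 this
    rw [hu, map_add, map_smul, hee, smul_smul, neg_mul, neg_smul, ← sub_eq_add_neg,
      sub_eq_zero] at h6
    rw [h6, mul_comm]
  refine ⟨l⁻¹ • e, ⟨?_, fun v => ?_⟩, hsmul e he.1 _, fun v hv => ?_⟩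
  · refine smul_ne_zero (inv_ne_zero hl0.ne') ?_
    rintro rfl; simp at he1
  · rw [map_smul, smul_apply, hev, smul_smul, smul_smul, real_inner_smul_left,
      norm_smul, he1, Real.norm_eq_abs, mul_one, sq_abs]
    congr 1; field_simp
  · rw [norm_smul, he1, mul_one, Real.norm_eq_abs, abs_of_pos (inv_pos.2 hl0), inv_inv]
    exact hle v hv

lemma card_le_of_orth [FiniteDimensional ℝ E] {κ : Type*} [Fintype κ] (f : κ → E)
    (h0 : ∀ k, f k ≠ 0) (ho : Pairwise fun i j => ⟪f i, f j⟫ = 0) :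
    Fintype.card κ ≤ Module.finrank ℝ E :=
  (linearIndependent_of_ne_zero_of_inner_eq_zero h0 ho).fintype_card_le_finrank

lemma eq_zero_of_orth [FiniteDimensional ℝ E] {κ : Type*} [Fintype κ] (f : κ → E)
    (h0 : ∀ k, f k ≠ 0) (ho : Pairwise fun i j => ⟪f i, f j⟫ = 0)
    (hc : Fintype.card κ = Module.finrank ℝ E) {v : E} (hv : ∀ k, ⟪f k, v⟫ = 0) : v = 0 := by
  by_contra hne
  have := card_le_of_orth (κ := Option κ) (fun o => o.elim v f)
    (fun o => by cases o <;> simp [hne, h0]) (fun i j hij => by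
      cases i <;> cases j
      · exact absurd rfl hij
      · simpa [real_inner_comm] using hv _
      · simpa using hv _
      · exact ho (by simpa using hij))
  rw [Fintype.card_option] at this
  omega

lemma exists_orth [FiniteDimensional ℝ E] {κ : Type*} [Fintype κ] (f : κ → E)
    (hc : Fintype.card κ < Module.finrank ℝ E) : ∃ v : E, ‖v‖ = 1 ∧ ∀ k, ⟪f k, v⟫ = 0 := by
  have h1 : Module.finrank ℝ (Submodule.span ℝ (range f)) ≤ Fintype.card κ :=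
    finrank_range_le_card f
  have h2 := Submodule.finrank_add_finrank_orthogonal (Submodule.span ℝ (range f))
  have h3 : 0 < Module.finrank ℝ (Submodule.span ℝ (range f))ᗮ := by omega
  obtain ⟨⟨v, hv⟩, hv0⟩ := Module.finrank_pos_iff_exists_ne_zero.1 h3
  have hv0' : v ≠ 0 := fun h => hv0 (Subtype.ext h)
  refine ⟨‖v‖⁻¹ • v, by simp [norm_smul, hv0'], fun k => ?_⟩
  rw [real_inner_smul_right, Submodule.inner_right_of_mem_orthogonal
    (Submodule.subset_span (mem_range_self k)) hv, mul_zero]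

end Pool.Agent.Lib.MP_7dd29b_gt
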