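import Pool.Agent.Lib.MP_7dd29b_gt.Pat2

/-! The core rigidity theorem. -/

set_option autoImplicit false
set_option maxSynthPendingDepth 3

open Set Filter Topology Metric
open scoped RealInnerProductSpace

namespace Pool.Agent.Lib.MP_7dd29b_gt

lemma exists_reparam {f : ℝ → ℝ} (hf : Continuous f) (hpos : ∀ t, 0 < f t) :
    ∃ S g : ℝ → ℝ, StrictMono S ∧ Continuous S ∧ (∀ t, g (S t) = t) ∧
      ∀ t, HasDerivAt g (f t)⁻¹ (S t) := by
  have hd : ∀ t, HasStrictDerivAt (fun u => ∫ x in (0 : ℝ)..u, f x) (f t) t := fun t =>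
    hf.integral_hasStrictDerivAt 0 t
  have hm : StrictMono (fun u => ∫ x in (0 : ℝ)..u, f x) :=
    strictMono_of_deriv_pos fun t => by rw [(hd t).hasDerivAt.deriv]; exact hpos t
  have hl := Function.leftInverse_invFun hm.injective
  exact ⟨_, _, hm, continuous_iff_continuousAt.2 fun t => (hd t).hasDerivAt.continuousAt, hl,
    fun t => ((hd t).to_local_left_inverse (hpos t).ne' (Eventually.of_forall hl)).hasDerivAt⟩

variable {E : Type*} [NormedAddCommGroup E] [InnerProductSpace ℝ E] {ι : Type*} [Fintype ι]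

namespace CoreData

variable {D : CoreData E} [FiniteDimensional ℝ E]
  (hn : Module.finrank ℝ E = Fintype.card ι + 2)
include hn

lemma hsol_geo {γ : ℝ → E × E × (ι → E)} {α β r σ b : ℝ} (hσ : σ * σ = 1)
    (hγ : ∀ s ∈ Icc α β, D.IsSt (γ s) ∧ ‖(γ s).1‖ = r ∧
      HasDerivAt γ (D.lift (γ s) (r • (γ s).2.1)) s)
    (hb : ∀ s ∈ Icc α β, ‖∑ j, (⟪D.K (γ s).1 ((γ s).2.2 j) ((γ s).2.2 j) ((γ s).2.2 j),
      (γ s).2.1⟫ / ‖(γ s).2.2 j‖ ^ 2) • (γ s).2.2 j‖ ≤ b) :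
    HSol (fun s => σ * (r * D.lam (γ s))) b α β := by
  intro s0 hs0
  obtain ⟨h0, hr, -⟩ := hγ s0 hs0
  have hr0 : 0 < r := hr ▸ h0.norm_pos
  have hσ1 : |σ| = 1 := by
    have : |σ| * |σ| = 1 := by rw [← abs_mul, hσ, abs_one]
    nlinarith [abs_nonneg σ]
  choose ξ h1 h2 h3 h4 using fun t => D.fields (t * σ) _ h0.ne
  rw [hr] at h4
  have sub : Icc s0 β ⊆ Icc α β := Icc_subset_Icc hs0.1 le_rfl
  refine ⟨fun t s => yy (ξ t) r (γ s), fun t s => pp (ξ t) r (γ s), fun t s => QQ (ξ t) r (γ s),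
    fun t s => -(⟪ξ t (γ s).1, D.gg (γ s) (r • (γ s).2.1)⟫ / r), fun t => ?_, fun t => ?_,
    fun sb hsb k1 k2 => final_geo hn hσ (hγ sb (sub (Ioo_subset_Icc_self hsb))).2.1 ?_
      (fun t x hx => ⟨h1 t x hx, h3 t x hx, h4 t x hx⟩) k1 k2⟩
  · have hder := fun s (hs : s ∈ Icc s0 β) => comp_deriv hn (c := 0) (hγ s (sub hs)).1
      (hγ s (sub hs)).2.1 (by simpa using (hγ s (sub hs)).2.2) (h1 t _ (hγ s (sub hs)).1.ne)
    refine ⟨fun s hs => (hder s hs).1.congr_deriv (by simp),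
      fun s hs => (hder s hs).2.1.congr_deriv (by simp only [zero_smul, sub_zero]; ring),
      fun s hs => (hder s hs).2.2.congr_deriv (by simp only [zero_smul, sub_zero]; ring),
      fun s hs => ?_, fun s hs => ?_, fun s hs => QQ_pos hr0 (h3 t _ (hγ s (sub hs)).1.ne),
      fun s hs => yy_le hr0 (h4 t _ (hγ s (sub hs)).1.ne) (hγ s (sub hs)).2.1⟩
    · obtain ⟨j0, j1, -⟩ := hγ s (sub hs)
      have j2 := j0.inner_le hn (ξ t) fun j => ⟪D.K (γ s).1 ((γ s).2.2 j) ((γ s).2.2 j)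
        ((γ s).2.2 j), (γ s).2.1⟫ / ‖(γ s).2.2 j‖ ^ 2
      rw [j1] at j2
      rw [abs_neg, j0.gg_e hn, real_inner_smul_right, mul_div_assoc, abs_mul, abs_neg, abs_mul σ,
        hσ1, one_mul, mul_comm b, mul_assoc]
      exact mul_le_mul_of_nonneg_left (j2.trans (mul_le_mul_of_nonneg_right (hb s (sub hs))
        (Real.sqrt_nonneg _))) (abs_nonneg _)
    · show 0 ≤ QQ (ξ t) r (γ s)
      rw [← (hγ s (sub hs)).2.1, (hγ s (sub hs)).1.QQ_eq hn]; positivity
  · have e1 : yy (ξ t) r (γ s0) = 1 := by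
      rw [yy, h2, real_inner_self_eq_norm_sq, hr, div_self (by positivity)]
    have e2 : pp (ξ t) r (γ s0) = 0 := by rw [pp, h2, real_inner_comm, h0.ex, zero_div]
    refine ⟨e1, e2, ?_⟩
    simp only [QQ, e1, e2, h2, hr]
    rw [div_self (by positivity)]; ring
  · filter_upwards [Icc_mem_nhds (hs0.1.trans_lt hsb.1) hsb.2] with s hs
    exact ⟨(hγ s hs).1, (hγ s hs).2.2⟩

theorem no_state {z0 : E × E × (ι → E)} (h0 : D.IsSt z0) (hl : 0 < D.lam z0) : False := by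
  obtain ⟨φ, hφ⟩ := D.exists_geoFlow hn
  obtain ⟨z, hz, k0, ⟨t1, ht1, k1⟩, t2, ht2, k2⟩ := exists_pattern hn hφ h0 hl
  have hst : ∀ t, D.IsSt (φ z t) := hφ.mem z hz
  obtain ⟨S, g, hS, hSc, hg, hg'⟩ := exists_reparam (f := fun t => wt (φ z t))
    (continuous_iff_continuousAt.2 fun t => (hst t).contDiffAt_wt.continuousAt.comp
      (hφ.deriv z hz t).continuousAt) fun t => (hst t).wt_pos
  set r := ‖z.1‖ with hr
  have hr0 : 0 < r := hz.norm_pos
  set γ := fun s => φ z (g s) with hγ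
  have hγ' : ∀ s ∈ Icc (S t1) (S t2), D.IsSt (γ s) ∧ ‖(γ s).1‖ = r ∧
      HasDerivAt γ (D.lift (γ s) (r • (γ s).2.1)) s := fun s hs => by
    obtain ⟨t, -, rfl⟩ := intermediate_value_Icc (ht1.trans ht2).le hSc.continuousOn hs
    refine ⟨hst _, flow_norm hφ hz _, ((hφ.deriv z hz _).scomp (S t) (hg' t)).congr_deriv ?_⟩
    simp only [hγ, hg, V, vel, ← D.lift_smul, smul_smul, flow_norm hφ hz]
    rw [inv_mul_cancel_left₀ (hst t).wt_pos.ne']
  obtain ⟨B, hB⟩ := isCompact_Icc.exists_bound_of_continuousOn (s := Icc (S t1) (S t2))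
    fun s hs => (((hγ' s hs).1.continuousAt_sum (w := fun j z => z.2.2 j)
      fun _ => by fun_prop).comp (hγ' s hs).2.2.continuousAt).continuousWithinAt
  have h12 : S t1 ≤ S t2 := (hS (ht1.trans ht2)).le
  have hB0 : 0 < B + 1 := by linarith [(norm_nonneg _).trans (hB _ ⟨le_rfl, h12⟩)]
  have H := fun σ (hσ : σ * σ = 1) => hsol_geo hn hσ hγ' (b := B + 1)
    fun s hs => (hB s hs).trans (by linarith)
  refine no_pattern (lam := fun s => -1 * (r * D.lam (γ s))) hB0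
    (fun s hs => (((hγ' s hs).1.continuousAt_lam.comp
      (hγ' s hs).2.2.continuousAt).const_mul _).const_mul _) (H (-1) (by ring))
    (by simpa using H 1 (by ring)) (s2 := S 0) ⟨hS ht1, hS ht2⟩ ?_ ?_ ?_
  · simp only [hγ, hg]; nlinarith
  · simp only [hγ, hg, hφ.zero z hz]; nlinarith
  · simp only [hγ, hg]; nlinarith

end CoreData

theorem core {E : Type*} [NormedAddCommGroup E] [InnerProductSpace ℝ E] [FiniteDimensional ℝ E]
    (hn : 3 ≤ Module.finrank ℝ E) (D : CoreData E) : ∀ x, x ≠ 0 → D.C x = 0 := by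
  intro x1 hx1
  by_contra hC
  obtain ⟨x, hx, hnn⟩ := D.exists_top hx1 hC
  have hx0 : x ≠ 0 := by rintro rfl; simp at hx
  obtain ⟨m, hm⟩ : ∃ m, Module.finrank ℝ E = m + 2 := ⟨Module.finrank ℝ E - 2, by omega⟩
  obtain ⟨p, hp, hp'⟩ := D.exists_family hx0 hnn (m + 1) (by omega)
  refine CoreData.no_state (D := D) (ι := Fin m) (by simpa using hm)
    (z0 := (x, ‖p 0‖⁻¹ • p 0, fun j => p j.succ)) ⟨hx0, (hp 0).unit_norm, ?_, fun j => hp _,
      fun j => ?_, fun i j hij => hp' (by simpa using hij)⟩ ?_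
  · simp only [real_inner_smul_left, D.prim_orth_x hx0 (hp 0), mul_zero]
  · simp only [real_inner_smul_right, hp' (Fin.succ_ne_zero j), mul_zero]
  · rw [CoreData.lam, (hp 0).unit_cube]
    exact inv_pos.2 (hp 0).norm_pos

end Pool.Agent.Lib.MP_7dd29b_gt
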