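import Mathlib

/-! Interface between the reduction to flat coordinates and the core rigidity theorem. -/

set_option autoImplicit false

open scoped RealInnerProductSpace ContDiff

namespace Pool.Agent.Lib.MP_7dd29b_gt

/-- A smooth family of commutative associative self-adjoint products on `E \ {0}` with
symmetric derivative, homogeneous of degree `-1`, together with the parallel fields of
the flat connections `D - t C` and the convexity inequality. -/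
structure CoreData (E : Type*) [NormedAddCommGroup E] [InnerProductSpace ℝ E] where
  C : E → E →L[ℝ] E →L[ℝ] E
  N : E → E →L[ℝ] E
  smooth : ∀ x, x ≠ 0 → ContDiffAt ℝ 3 C x
  comm : ∀ x, x ≠ 0 → ∀ a b, C x a b = C x b a
  selfadj : ∀ x, x ≠ 0 → ∀ a b c, ⟪C x a b, c⟫ = ⟪b, C x a c⟫
  assoc : ∀ x, x ≠ 0 → ∀ a b c, C x (C x a b) c = C x a (C x b c)
  euler : ∀ x, x ≠ 0 → ∀ a, C x x a = 0
  homog : ∀ x, x ≠ 0 → ∀ s : ℝ, 0 < s → C (s • x) = s⁻¹ • C x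
  dsymm : ∀ x, x ≠ 0 → ∀ v a, fderiv ℝ C x v a = fderiv ℝ C x a v
  N_deriv : ∀ x, x ≠ 0 → ∀ η, HasFDerivAt (fun z => N z η) (C x (N x η)) x
  N_surj : ∀ x, x ≠ 0 → Function.Surjective (N x)
  fields : ∀ (t : ℝ) (x' : E), x' ≠ 0 → ∃ ξ : E → E,
    (∀ x, x ≠ 0 → HasFDerivAt ξ (t • C x (ξ x)) x) ∧ ξ x' = x' ∧
      (∀ x, x ≠ 0 → ξ x ≠ 0) ∧ ∀ x, x ≠ 0 → ⟪ξ x, x⟫ ≤ ‖x‖ * ‖x'‖

end Pool.Agent.Lib.MP_7dd29b_gt
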