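import Pool.Agent.Lib.MP_7dd29b_gt.GeoFlow

/-! Coordinates adapted to the flow and their Jacobian. -/

set_option autoImplicit false
set_option maxSynthPendingDepth 3

open Set Filter Topology Metric
open scoped RealInnerProductSpace

namespace Pool.Agent.Lib.MP_7dd29b_gt

variable {E : Type*} [NormedAddCommGroup E] [InnerProductSpace ℝ E] {ι κ : Type*} [Fintype ι]
  [Fintype κ]

noncomputable def crd (w0 : E) (w : κ → E) : E →L[ℝ] ℝ × (κ → ℝ) :=
  (innerSL ℝ w0).prod (ContinuousLinearMap.pi fun k => innerSL ℝ (w k))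

def GoodEquiv (A : E ≃L[ℝ] ℝ × (κ → ℝ)) : Prop :=
  ∀ (w0 f0 : E) (w f : κ → E), Orthonormal ℝ (Sum.elim (fun _ : Unit => f0) f) →
    (∀ k, ⟪w k, f0⟫ = 0) → (∀ k l, k ≠ l → ⟪w k, f l⟫ = 0) →
    |(crd w0 w ∘L (A.symm : ℝ × (κ → ℝ) →L[ℝ] E)).det| = |⟪w0, f0⟫| * ∏ k, |⟪w k, f k⟫|

lemma exists_goodEquiv [FiniteDimensional ℝ E] (hn : Module.finrank ℝ E = Fintype.card κ + 1) :
    ∃ A : E ≃L[ℝ] ℝ × (κ → ℝ), GoodEquiv A := by
  classical
  have hc : Fintype.card (Unit ⊕ κ) = Module.finrank ℝ E := by simp [hn, add_comm]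
  set b : OrthonormalBasis (Unit ⊕ κ) ℝ E :=
    (stdOrthonormalBasis ℝ E).reindex (Fintype.equivFinOfCardEq hc).symm with hb
  set β : Module.Basis (Unit ⊕ κ) ℝ (ℝ × (κ → ℝ)) :=
    (Module.Basis.singleton Unit ℝ).prod (Pi.basisFun ℝ κ) with hβ
  refine ⟨(b.toBasis.equiv β (Equiv.refl _)).toContinuousLinearEquiv, fun w0 f0 w f hf h1 h2 => ?_⟩
  set A := (b.toBasis.equiv β (Equiv.refl _)).toContinuousLinearEquiv with hA
  have hAb : ∀ j, A.symm (β j) = b j := fun j => by
    rw [ContinuousLinearEquiv.symm_apply_eq]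
    exact (b.toBasis.equiv_apply j β (Equiv.refl _)).symm
  set c : OrthonormalBasis (Unit ⊕ κ) ℝ E := (basisOfOrthonormalOfCardEqFinrank hf hc).toOrthonormalBasis
    (by simpa using hf) with hcdef
  have hcf : ∀ j, c j = Sum.elim (fun _ : Unit => f0) f j := fun j => by simp [hcdef]
  set W : Unit ⊕ κ → E := Sum.elim (fun _ : Unit => w0) w with hW
  have e1 : LinearMap.toMatrix β β (crd w0 w ∘L (A.symm : ℝ × (κ → ℝ) →L[ℝ] E)) =
      Matrix.of fun i j => ⟪W i, b j⟫ := by
    ext i j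
    rw [LinearMap.toMatrix_apply]
    simp only [ContinuousLinearMap.coe_coe, ContinuousLinearMap.comp_apply,
      ContinuousLinearEquiv.coe_coe, hAb, Matrix.of_apply]
    rcases i with i | i <;> simp [hβ, crd, hW]
  have e2 : (Matrix.of fun i j => ⟪W i, b j⟫) * b.toBasis.toMatrix c =
      Matrix.fromBlocks (Matrix.of fun _ _ => ⟪w0, f0⟫) (Matrix.of fun _ l => ⟪w0, f l⟫) 0
        (Matrix.diagonal fun k => ⟪w k, f k⟫) := by
    ext i j
    simp only [Matrix.mul_apply, Matrix.of_apply, Module.Basis.toMatrix_apply,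
      OrthonormalBasis.coe_toBasis_repr_apply, OrthonormalBasis.repr_apply_apply,
      b.sum_inner_mul_inner, hcf]
    rcases i with i | i <;> rcases j with j | j
    · simp [hW]
    · simp [hW]
    · simp [hW, h1]
    · by_cases hij : i = j
      · simp [hW, hij]
      · simp [hW, hij, h2 i j hij]
  have e3 := congrArg (fun M => |Matrix.det M|) e2
  simp only [Matrix.det_mul, Matrix.det_fromBlocks_zero₂₁, Matrix.det_unique, Matrix.of_apply,
    Matrix.det_diagonal, abs_mul, Finset.abs_prod] at e3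
  have e4 : |(b.toBasis.toMatrix c).det| = 1 := by
    rcases b.det_to_matrix_orthonormalBasis_real c with h | h <;>
      rw [Module.Basis.det_apply] at h <;> simp [h]
  rw [e4, mul_one, ← e1, LinearMap.det_toMatrix] at e3
  exact e3

namespace CoreData

variable {D : CoreData E} {z z0 : E × E × (ι → E)}

noncomputable def cmap (e0 : E) (u : ι → E → ℝ) (x : E) : ℝ × (Option ι → ℝ) :=
  (⟪e0, x⟫, fun k => k.elim (‖x‖ ^ 2 / 2) fun j => u j x)

noncomputable def cvec (z : E × E × (ι → E)) (k : Option ι) : E :=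
  k.elim z.1 fun j => (‖z.2.2 j‖ ^ 2)⁻¹ • z.2.2 j

lemma IsSt.det (h : D.IsSt z) {A : E ≃L[ℝ] ℝ × (Option ι → ℝ)} (hA : GoodEquiv A) (e0 : E) :
    |(crd e0 (cvec z) ∘L (A.symm : ℝ × (Option ι → ℝ) →L[ℝ] E)).det| =
      |⟪e0, z.2.1⟫| * (wt z * ‖z.1‖) := by
  classical
  have hx := h.norm_pos
  have hp := fun j => (h.prim j).norm_pos
  have h1 : ⟪z.1, z.2.1⟫ = 0 := by rw [real_inner_comm]; exact h.ex
  have h2 : ∀ j, ⟪z.1, z.2.2 j⟫ = 0 := fun j => by rw [real_inner_comm]; exact h.px j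
  have h3 : ∀ j, ⟪z.2.1, z.2.2 j⟫ = 0 := fun j => by rw [real_inner_comm]; exact h.pe j
  rw [hA e0 z.2.1 (cvec z) (fun k => k.elim (‖z.1‖⁻¹ • z.1) fun j => ‖z.2.2 j‖⁻¹ • z.2.2 j)]
  · congr 1
    rw [Fintype.prod_option, mul_comm, wt]
    congr 1
    · refine Finset.prod_congr rfl fun j _ => ?_
      simp only [cvec, Option.elim_some, real_inner_smul_left, real_inner_smul_right,
        real_inner_self_eq_norm_sq]
      rw [abs_of_pos (by have := hp j; positivity)]
      have := hp j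
      field_simp
    · simp only [cvec, Option.elim_none, real_inner_smul_right, real_inner_self_eq_norm_sq]
      rw [abs_of_pos (by positivity)]
      field_simp
  · constructor
    · rintro (_ | _ | j)
      · exact h.unit
      · simp [norm_smul, h.ne]
      · simp [norm_smul, (h.prim j).1]
    · rintro (_ | _ | i) (_ | _ | j) hij
      · exact absurd rfl hij
      · simp [real_inner_smul_right, h.ex]
      · simp [real_inner_smul_right, h3]
      · simp [real_inner_smul_left, h1]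
      · exact absurd rfl hij
      · simp [real_inner_smul_left, real_inner_smul_right, h2]
      · simp [real_inner_smul_left, h.pe]
      · simp [real_inner_smul_left, real_inner_smul_right, h.px]
      · simp [real_inner_smul_left, real_inner_smul_right, h.pp (show i ≠ j by simpa using hij)]
  · rintro (_ | j)
    · exact h1
    · simp [cvec, real_inner_smul_left, h.pe]
  · rintro (_ | i) (_ | j) hij
    · exact absurd rfl hij
    · simp [cvec, real_inner_smul_right, h2]
    · simp [cvec, real_inner_smul_left, real_inner_smul_right, h.px]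
    · simp [cvec, real_inner_smul_left, real_inner_smul_right,
        h.pp (show i ≠ j by simpa using hij)]

def Sheet.IsPot (S : D.Sheet z0) (u : ι → E → ℝ) : Prop := ∀ j, ∀ x ∈ ball z0.1 S.ρ,
  HasFDerivAt (u j) (innerSL ℝ ((‖(S.s x).2.2 j‖ ^ 2)⁻¹ • (S.s x).2.2 j)) x

variable {S : D.Sheet z0} {u : ι → E → ℝ}

lemma Sheet.IsPot.comp (hu : S.IsPot u) {x : E} (hx : x ∈ ball z0.1 S.ρ) (k : Option ι) :
    HasFDerivAt (fun x : E => k.elim (‖x‖ ^ 2 / 2) fun j => u j x)
      (innerSL ℝ (cvec (S.s x) k)) x := by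
  rcases k with _ | j
  · simp only [Option.elim_none, cvec, S.proj x hx]
    refine ((hasStrictFDerivAt_norm_sq x).hasFDerivAt.mul_const (2⁻¹ : ℝ)).congr_fderiv ?_
    ext v; simp
  · exact hu j x hx

lemma Sheet.IsPot.deriv (hu : S.IsPot u) (e0 : E) {x : E} (hx : x ∈ ball z0.1 S.ρ) :
    HasFDerivAt (cmap e0 u) (crd e0 (cvec (S.s x))) x :=
  (innerSL ℝ e0).hasFDerivAt.prodMk (hasFDerivAt_pi.2 (hu.comp hx))

lemma Sheet.IsPot.strict (hu : S.IsPot u) (e0 : E) :
    HasStrictFDerivAt (cmap e0 u) (crd e0 (cvec z0)) z0.1 := by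
  refine (innerSL ℝ e0).hasStrictFDerivAt.prodMk (hasStrictFDerivAt_pi.2 fun k => ?_)
  have h1 := (S.smooth _ (mem_ball_self S.pos)).continuousAt
  have h2 := (S.st _ (mem_ball_self S.pos))
  have := hasStrictFDerivAt_of_hasFDerivAt_of_continuousAt (𝕜 := ℝ)
    (mem_of_superset (ball_mem_nhds z0.1 S.pos) fun x hx => hu.comp hx k)
    ((innerSL ℝ).continuous.continuousAt.comp (f := fun x => cvec (S.s x) k) (by
      rcases k with _ | j
      · exact h1.fst
      · have k3 : ‖(S.s z0.1).2.2 j‖ ^ 2 ≠ 0 := pow_ne_zero 2 (h2.prim j).norm_pos.ne'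
        simp only [cvec, Option.elim_some]
        fun_prop (disch := assumption)))
  rwa [S.base] at this

lemma Sheet.IsPot.exists_homeo (hu : S.IsPot u) {A : E ≃L[ℝ] ℝ × (Option ι → ℝ)}
    (hA : GoodEquiv A) : ∃ χ : OpenPartialHomeomorph (ℝ × (Option ι → ℝ)) (ℝ × (Option ι → ℝ)),
      A z0.1 ∈ χ.source ∧ ⇑χ = fun y => cmap z0.2.1 u (A.symm y) := by
  have h0 : D.IsSt z0 := S.base ▸ S.st _ (mem_ball_self S.pos)
  have h1 : (crd z0.2.1 (cvec z0) ∘L (A.symm : ℝ × (Option ι → ℝ) →L[ℝ] E)).det ≠ 0 := by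
    rw [← abs_pos, h0.det hA, h0.ee]
    have := h0.wt_pos
    have := h0.norm_pos
    positivity
  have h2 : HasStrictFDerivAt (fun y => cmap z0.2.1 u (A.symm y))
      (ContinuousLinearMap.toContinuousLinearEquivOfDetNeZero _ h1 : _ →L[ℝ] _) (A z0.1) := by
    rw [ContinuousLinearMap.coe_toContinuousLinearEquivOfDetNeZero]
    exact HasStrictFDerivAt.comp (A z0.1) (by simpa using hu.strict z0.2.1)
      A.symm.hasStrictFDerivAt
  exact ⟨h2.toOpenPartialHomeomorph _, h2.mem_toOpenPartialHomeomorph_source, rfl⟩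

variable [FiniteDimensional ℝ E] (hn : Module.finrank ℝ E = Fintype.card ι + 2)
include hn

lemma Sheet.exists_isPot (S : D.Sheet z0) : ∃ u, S.IsPot u := by
  choose u hu using S.exists_pot hn
  exact ⟨u, hu⟩

lemma Sheet.IsPot.exists_inj (hu : S.IsPot u) : ∃ O ∈ 𝓝 z0.1, InjOn (cmap z0.2.1 u) O := by
  obtain ⟨A, hA⟩ := exists_goodEquiv (E := E) (κ := Option ι) (by simp [hn])
  obtain ⟨χ, h1, h2⟩ := hu.exists_homeo hA
  refine ⟨A ⁻¹' χ.source, A.continuousAt (χ.open_source.mem_nhds h1), fun x hx y hy h => ?_⟩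
  exact A.injective (χ.injOn hx hy (by simpa [h2] using h))

lemma IsSt.exists_chart (h0 : D.IsSt z0) {A : E ≃L[ℝ] ℝ × (Option ι → ℝ)} (hA : GoodEquiv A) :
    Nonempty (Chart D.V {z | D.IsSt z}
      ((A : E →L[ℝ] ℝ × (Option ι → ℝ)) ∘L ContinuousLinearMap.fst ℝ E (E × (ι → E))) z0) := by
  obtain ⟨S⟩ := h0.exists_sheet hn
  obtain ⟨u, hu⟩ := S.exists_isPot hn
  obtain ⟨χ, h1, h2⟩ := hu.exists_homeo hA
  have hsc : ContinuousOn S.s (ball z0.1 S.ρ) := fun x hx =>
    (S.smooth x hx).continuousAt.continuousWithinAt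
  set U := ball z0.1 S.ρ ∩ (fun x => ⟪z0.2.1, (S.s x).2.1⟫) ⁻¹' Ioi 0 with hU
  have hUo : IsOpen U :=
    (continuousOn_const.inner hsc.snd.fst).isOpen_inter_preimage isOpen_ball isOpen_Ioi
  have hU0 : z0.1 ∈ U := ⟨mem_ball_self S.pos, by simp [S.base, h0.unit]⟩
  refine ⟨⟨χ.restrOpen (A.symm ⁻¹' U) (hUo.preimage A.symm.continuous),
    fun y => crd z0.2.1 (cvec (S.s (A.symm y))) ∘L (A.symm : ℝ × (Option ι → ℝ) →L[ℝ] E),
    fun y => ⟪z0.2.1, (S.s (A.symm y)).2.1⟫ * (wt (S.s (A.symm y)) * ‖(S.s (A.symm y)).1‖),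
    fun y => S.s (A.symm y), ⟨h1, by simpa using hU0⟩, fun y hy => ?_, fun y hy => ?_,
    fun y hy => ?_, fun y hy => ?_, ?_, fun y hy => S.st _ hy.2.1, fun y hy => ?_, ?_⟩⟩
  · rw [OpenPartialHomeomorph.coe_restrOpen, h2]
    exact (hu.deriv _ hy.2.1).comp y A.symm.hasFDerivAt
  · rw [(S.st _ hy.2.1).det hA, abs_of_pos hy.2.2]
  · exact mul_pos hy.2.2 (mul_pos (S.st _ hy.2.1).wt_pos (S.st _ hy.2.1).norm_pos)
  · have k1 : ContinuousAt (fun y => S.s (A.symm y)) y :=
      (S.smooth _ hy.2.1).continuousAt.comp A.symm.continuousAt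
    exact ((continuousAt_const.inner k1.snd.fst).mul
      (((S.st _ hy.2.1).contDiffAt_wt.continuousAt.comp (f := fun y => S.s (A.symm y)) k1).mul
        k1.fst.norm)).continuousWithinAt
  · exact hsc.comp A.symm.continuousOn fun y hy => hy.2.1
  · simp [S.proj _ hy.2.1]
  · filter_upwards [S.near] with z hz hst
    have k1 := hz hst
    simp only [ContinuousLinearMap.comp_apply, ContinuousLinearMap.coe_fst',
      ContinuousLinearEquiv.coe_coe, ContinuousLinearEquiv.symm_apply_apply, k1, true_and]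
    have hst' : D.IsSt z := hst
    refine Prod.ext ?_ (funext fun k => ?_)
    · simp [crd, V, lift, vel, real_inner_smul_right, mul_comm]
    · rcases k with _ | j
      · simp [crd, V, lift, vel, cvec, real_inner_smul_right, real_inner_comm, hst'.ex]
      · simp [crd, V, lift, vel, cvec, real_inner_smul_right, real_inner_smul_left, hst'.pe]

end CoreData

end Pool.Agent.Lib.MP_7dd29b_gt
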