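import Pool.Agent.Lib.MP_7dd29b_gt.Sheet
import Pool.Agent.Lib.MP_7dd29b_gt.AbsMeas

/-! The complete flow on frames. -/

set_option autoImplicit false
set_option maxSynthPendingDepth 3

open Set Filter Topology Metric
open scoped RealInnerProductSpace

namespace Pool.Agent.Lib.MP_7dd29b_gt

variable {E : Type*} [NormedAddCommGroup E] [InnerProductSpace ℝ E] {ι : Type*} [Fintype ι]

lemma eq_of_closure {X Y : Type*} [TopologicalSpace X] [TopologicalSpace Y] [T2Space Y]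
    {f g : X → Y} {K : Set X} {z : X} (hz : z ∈ closure K) (hf : ContinuousAt f z)
    (hg : ContinuousAt g z) (h : ∀ y ∈ K, f y = g y) : f z = g z :=
  tendsto_nhds_unique_of_frequently_eq hf hg ((mem_closure_iff_frequently.1 hz).mono h)

lemma le_of_closure {X : Type*} [TopologicalSpace X] {f g : X → ℝ} {K : Set X} {z : X}
    (hz : z ∈ closure K) (hf : ContinuousAt f z) (hg : ContinuousAt g z)
    (h : ∀ y ∈ K, f y ≤ g y) : f z ≤ g z :=
  hf.continuousWithinAt.closure_le hz hg.continuousWithinAt h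

namespace CoreData

variable (D : CoreData E)

noncomputable def wt (z : E × E × (ι → E)) : ℝ := ∏ j, ‖z.2.2 j‖⁻¹

noncomputable def vel (z : E × E × (ι → E)) : E := (wt z * ‖z.1‖) • z.2.1

noncomputable def V (z : E × E × (ι → E)) : E × E × (ι → E) := D.lift z (vel z)

variable {D} {z : E × E × (ι → E)}

lemma IsSt.wt_pos (h : D.IsSt z) : 0 < wt z :=
  Finset.prod_pos fun j _ => inv_pos.2 (h.prim j).norm_pos

lemma IsSt.contDiffAt_wt (h : D.IsSt z) : ContDiffAt ℝ 1 (wt (E := E) (ι := ι)) z :=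
  contDiffAt_prod fun j _ => (((contDiffAt_pi.1 contDiffAt_snd.snd j).norm ℝ (h.prim j).1).inv
    (h.prim j).norm_pos.ne')

lemma IsSt.contDiffAt_vel (h : D.IsSt z) : ContDiffAt ℝ 1 (vel (E := E) (ι := ι)) z :=
  (h.contDiffAt_wt.mul (contDiffAt_fst.norm ℝ h.ne)).smul contDiffAt_snd.fst

lemma IsSt.contDiffAt_lift (h : D.IsSt z) {v : E × E × (ι → E) → E} (hv : ContDiffAt ℝ 1 v z) :
    ContDiffAt ℝ 1 (fun z => D.lift z (v z)) z := by
  have hC : ContDiffAt ℝ 1 (fun z : E × E × (ι → E) => D.C z.1) z :=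
    ((D.smooth _ h.ne).of_le (by norm_num)).comp z contDiffAt_fst
  have hK : ContDiffAt ℝ 1 (fun z : E × E × (ι → E) => D.K z.1) z :=
    ((D.contDiffAt_K h.ne).of_le (by norm_num)).comp z contDiffAt_fst
  have hp : ∀ j, ContDiffAt ℝ 1 (fun z : E × E × (ι → E) => z.2.2 j) z := fun j =>
    contDiffAt_pi.1 contDiffAt_snd.snd j
  have he : ContDiffAt ℝ 1 (fun z : E × E × (ι → E) => z.2.1) z := contDiffAt_snd.fst
  have hk := fun j => ((hK.clm_apply hv).clm_apply (hp j)).clm_apply (hp j)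
  refine hv.prodMk (ContDiffAt.prodMk (ContDiffAt.sub (ContDiffAt.smul (ContDiffAt.neg ?_)
    contDiffAt_fst) (ContDiffAt.sum fun j _ => ContDiffAt.smul ?_ (hp j)))
    (contDiffAt_pi.2 fun j => (hk j).sub (((hC.clm_apply (hp j)).clm_apply (hk j)).const_smul 2)))
  · exact (he.inner ℝ hv).div (contDiffAt_fst.norm_sq ℝ) (pow_ne_zero 2 h.norm_pos.ne')
  · exact ((hk j).inner ℝ he).div ((hp j).norm_sq ℝ) (pow_ne_zero 2 (h.prim j).norm_pos.ne')

lemma IsSt.contDiffAt_V (h : D.IsSt z) : ContDiffAt ℝ 1 D.V z :=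
  h.contDiffAt_lift h.contDiffAt_vel

omit [Fintype ι] in
lemma IsSt.continuousAt_lam (h : D.IsSt z) : ContinuousAt D.lam z :=
  ((((D.smooth _ h.ne).continuousAt.comp continuousAt_fst).clm_apply
    continuousAt_snd.fst).clm_apply continuousAt_snd.fst).inner continuousAt_snd.fst

lemma IsSt.deriv_norm_x {γ : ℝ → E × E × (ι → E)} {t : ℝ} (h : D.IsSt (γ t))
    (hγ : HasDerivAt γ (D.V (γ t)) t) : HasDerivAt (fun s => ‖(γ s).1‖ ^ 2) 0 t := by
  refine (hd_fst hγ).norm_sq.congr_deriv ?_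
  simp only [V, lift, vel, real_inner_smul_right]
  rw [real_inner_comm, h.ex]; simp

lemma IsSt.wt_mul_le (h : D.IsSt z) {B : ℝ} (hB : 1 ≤ B) (hC : ‖D.C z.1‖ ≤ B) (j : ι) :
    wt z * ‖z.2.2 j‖ ≤ B ^ Fintype.card ι := by
  classical
  have h1 : ∀ i, ‖z.2.2 i‖⁻¹ ≤ B := fun i => by
    have := (h.prim i).one_le
    rw [inv_le_iff_one_le_mul₀ (h.prim i).norm_pos]
    nlinarith [(h.prim i).norm_pos]
  rw [wt, ← Finset.prod_erase_mul _ _ (Finset.mem_univ j), mul_assoc,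
    inv_mul_cancel₀ (h.prim j).norm_pos.ne', mul_one]
  calc ∏ i ∈ Finset.univ.erase j, ‖z.2.2 i‖⁻¹ ≤ ∏ _i ∈ Finset.univ.erase j, B :=
        Finset.prod_le_prod (fun i _ => by positivity) fun i _ => h1 i
    _ ≤ B ^ Fintype.card ι := by
        rw [Finset.prod_const]
        exact pow_le_pow_right₀ hB (Finset.card_le_univ _)

variable [FiniteDimensional ℝ E]

lemma isCompact_st (D : CoreData E) {a : ℝ} (ha : 0 < a) (c R : ℝ) :
    IsCompact {z : E × E × (ι → E) | D.IsSt z ∧ a ≤ ‖z.1‖ ∧ ‖z.1‖ ≤ c ∧ ∀ j, ‖z.2.2 j‖ ≤ R} := by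
  refine Metric.isCompact_of_isClosed_isBounded (isClosed_of_closure_subset fun z hz => ?_) ?_
  · have h1 : a ≤ ‖z.1‖ := le_of_closure hz continuousAt_const (by fun_prop) fun y hy => hy.2.1
    have h0 : z.1 ≠ 0 := norm_pos_iff.1 (by linarith)
    have hC : ContinuousAt (fun z : E × E × (ι → E) => D.C z.1) z :=
      (D.smooth _ h0).continuousAt.comp continuousAt_fst
    refine ⟨⟨h0, ?_, ?_, fun j => ?_, fun j => ?_, fun i j hij => ?_⟩, h1, ?_, fun j => ?_⟩
    · exact eq_of_closure hz (by fun_prop) continuousAt_const fun y hy => hy.1.unit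
    · exact eq_of_closure hz (by fun_prop) continuousAt_const fun y hy => hy.1.ex
    · have k1 : 1 ≤ ‖D.C z.1‖ * ‖z.2.2 j‖ := le_of_closure hz continuousAt_const
        (hC.norm.mul (by fun_prop)) fun y hy => (hy.1.prim j).one_le
      have k2 : z.2.2 j ≠ 0 := by intro h; rw [h] at k1; norm_num at k1
      refine ⟨k2, fun v => eq_of_closure (f := fun z => D.C z.1 (z.2.2 j) v)
        (g := fun z => (⟪z.2.2 j, v⟫ / ‖z.2.2 j‖ ^ 2) • z.2.2 j) hz
        ((hC.clm_apply (by fun_prop)).clm_apply continuousAt_const)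
        ?_ fun y hy => (hy.1.prim j).2 v⟩
      have k3 : ‖z.2.2 j‖ ^ 2 ≠ 0 := pow_ne_zero 2 (norm_ne_zero_iff.2 k2)
      fun_prop (disch := assumption)
    · exact eq_of_closure hz (by fun_prop) continuousAt_const fun y hy => hy.1.pe j
    · exact eq_of_closure (f := fun z => ⟪z.2.2 i, z.2.2 j⟫) hz (by fun_prop) continuousAt_const
        fun y hy => hy.1.pp hij
    · exact le_of_closure hz (by fun_prop) continuousAt_const fun y hy => hy.2.2.1
    · exact le_of_closure hz (by fun_prop) continuousAt_const fun y hy => hy.2.2.2 j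
  · refine isBounded_iff_forall_norm_le.2 ⟨max c (max 1 (max R 0)), fun z hz => ?_⟩
    refine max_le_max hz.2.2.1 (max_le_max hz.1.unit.le ?_)
    exact (pi_norm_le_iff_of_nonneg (le_max_right _ _)).2 fun j =>
      (hz.2.2.2 j).trans (le_max_left _ _)

lemma exists_bound (D : CoreData E) {a : ℝ} (ha : 0 < a) (c : ℝ) :
    ∃ B, 1 ≤ B ∧ ∀ x, a ≤ ‖x‖ → ‖x‖ ≤ c → ‖D.C x‖ ≤ B ∧ ‖D.K x‖ ≤ B := by
  have hK : IsCompact (closedBall (0 : E) c ∩ {x | a ≤ ‖x‖}) :=
    (isCompact_closedBall 0 c).inter_right (isClosed_le continuous_const continuous_norm)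
  have h0 : ∀ x ∈ closedBall (0 : E) c ∩ {x | a ≤ ‖x‖}, x ≠ 0 := fun x hx =>
    norm_pos_iff.1 (ha.trans_le hx.2)
  obtain ⟨B1, h1⟩ := hK.exists_bound_of_continuousOn
    fun x hx => (D.smooth x (h0 x hx)).continuousAt.continuousWithinAt
  obtain ⟨B2, h2⟩ := hK.exists_bound_of_continuousOn
    fun x hx => (D.contDiffAt_K (h0 x hx)).continuousAt.continuousWithinAt
  refine ⟨max 1 (max B1 B2), le_max_left _ _, fun x h3 h4 => ⟨?_, ?_⟩⟩
  · exact (h1 x ⟨by simpa using h4, h3⟩).trans (by simp)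
  · exact (h2 x ⟨by simpa using h4, h3⟩).trans (by simp)

lemma apriori (D : CoreData E) {z0 : E × E × (ι → E)} (h0 : D.IsSt z0) (T : ℝ) :
    ∃ K, IsCompact K ∧ K ⊆ {z | D.IsSt z} ∧ ∀ᶠ z in 𝓝 z0, ∀ T' ≤ T, ∀ γ, γ 0 = z →
      Orb D.V {z | D.IsSt z} γ T' → ∀ t ∈ Ioo (-T') T', γ t ∈ K := by
  have hr := h0.norm_pos
  obtain ⟨B, hB, hb⟩ := D.exists_bound (half_pos hr) (2 * ‖z0.1‖)
  set L := 2 * (B ^ Fintype.card ι * (2 * ‖z0.1‖) * B) with hL
  refine ⟨_, D.isCompact_st (half_pos hr) (2 * ‖z0.1‖)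
    ((‖z0.2.2‖ + 1) * Real.exp (L * T / 2)), fun z hz => hz.1, ?_⟩
  have n1 : ∀ᶠ z in 𝓝 z0, ‖z0.1‖ / 2 < ‖z.1‖ :=
    ContinuousAt.eventually_lt continuousAt_const (by fun_prop) (by linarith)
  have n2 : ∀ᶠ z in 𝓝 z0, ‖z.1‖ < 2 * ‖z0.1‖ :=
    ContinuousAt.eventually_lt (by fun_prop) continuousAt_const (by linarith)
  have n3 : ∀ᶠ z in 𝓝 z0, ‖z.2.2‖ < ‖z0.2.2‖ + 1 :=
    ContinuousAt.eventually_lt (by fun_prop) continuousAt_const (by linarith)
  filter_upwards [n1, n2, n3] with z k1 k2 k3 T' hT' γ hγ0 hγ t ht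
  have m0 : (0 : ℝ) ∈ Ioo (-T') T' := ⟨by linarith [ht.1, ht.2], by linarith [ht.1, ht.2]⟩
  have hx : ∀ t ∈ Ioo (-T') T', ‖(γ t).1‖ = ‖z.1‖ := fun t ht => by
    have := const_on_Ioo (fun t ht => IsSt.deriv_norm_x (hγ t ht).1 (hγ t ht).2) m0 ht
    rw [hγ0] at this
    exact (pow_left_inj₀ (norm_nonneg _) (norm_nonneg _) two_ne_zero).1 this
  refine ⟨(hγ t ht).1, by rw [hx t ht]; exact k1.le, by rw [hx t ht]; exact k2.le, fun j => ?_⟩
  have key := (convex_Ioo (-T') T').norm_image_sub_le_of_norm_hasDerivWithin_le (C := L)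
    (fun t ht => ((IsSt.deriv_norm_sq (hγ t ht).1 (hγ t ht).2 j).log
      (pow_ne_zero 2 (IsSt.prim (hγ t ht).1 j).norm_pos.ne')).hasDerivWithinAt)
    (fun t ht => by
      have hs : D.IsSt (γ t) := (hγ t ht).1
      have hp := (hs.prim j).norm_pos
      obtain ⟨b1, b2⟩ := hb (γ t).1 (by rw [hx t ht]; exact k1.le) (by rw [hx t ht]; exact k2.le)
      have b3 := hs.wt_mul_le hB b1 j
      have b4 := hs.wt_pos
      set p := (γ t).2.2 j
      have b5 : ‖vel (γ t)‖ = wt (γ t) * ‖z.1‖ := by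
        rw [vel, norm_smul, hs.unit, mul_one, hx t ht, Real.norm_eq_abs, abs_of_nonneg (by positivity)]
      have b6 : ‖D.K (γ t).1 (vel (γ t)) p p‖ ≤ B * (wt (γ t) * ‖z.1‖) * ‖p‖ * ‖p‖ := by
        refine ((D.K (γ t).1 (vel (γ t))).le_opNorm₂ p p).trans ?_
        gcongr
        exact ((D.K _).le_opNorm _).trans (by rw [b5]; gcongr)
      rw [Real.norm_eq_abs, abs_div, abs_mul, abs_of_pos (pow_pos hp 2), div_le_iff₀ (pow_pos hp 2),
        abs_neg, abs_two]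
      calc 2 * |⟪p, D.K (γ t).1 (vel (γ t)) p p⟫| ≤
            2 * (‖p‖ * (B * (wt (γ t) * ‖z.1‖) * ‖p‖ * ‖p‖)) := by
            gcongr
            exact (abs_real_inner_le_norm _ _).trans (by gcongr)
        _ = 2 * ((wt (γ t) * ‖p‖) * ‖z.1‖ * B) * ‖p‖ ^ 2 := by ring
        _ ≤ L * ‖p‖ ^ 2 := by rw [hL]; gcongr) m0 ht
  have hp0 := (IsSt.prim (hγ 0 m0).1 j).norm_pos
  have hpt := (IsSt.prim (hγ t ht).1 j).norm_pos
  rw [hγ0] at key hp0
  have hL0 : 0 ≤ L := by positivity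
  have e1 : L * ‖t - 0‖ ≤ L * T := by
    rw [sub_zero, Real.norm_eq_abs]
    exact mul_le_mul_of_nonneg_left ((abs_lt.2 ht).le.trans hT') hL0
  have e2 := (le_abs_self _).trans (key.trans e1)
  rw [Real.log_pow, Real.log_pow] at e2
  have e3 : Real.log ‖(γ t).2.2 j‖ ≤ Real.log ‖z.2.2 j‖ + L * T / 2 := by
    push_cast at e2; linarith
  rw [Real.log_le_iff_le_exp hpt, Real.exp_add, Real.exp_log hp0] at e3
  exact e3.trans (by gcongr; exact (norm_le_pi_norm _ j).trans k3.le)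

lemma Sheet.exists_curve {z0 : E × E × (ι → E)} (S : D.Sheet z0) {v : E × E × (ι → E) → E}
    (hv : ContDiffAt ℝ 1 v z0) : ∃ r > 0, ∃ ε > 0, ∀ x ∈ closedBall z0.1 r, ∃ c : ℝ → E, c 0 = x ∧
      ∀ t ∈ Ioo (-ε) ε, HasDerivAt c (v (S.s (c t))) t := by
  have h1 : ContDiffAt ℝ 1 (fun x => v (S.s x)) z0.1 :=
    (S.base.symm ▸ hv).comp z0.1 (S.smooth _ (mem_ball_self S.pos))
  simpa using h1.exists_forall_mem_closedBall_exists_eq_forall_mem_Ioo_hasDerivAt 0

variable (hn : Module.finrank ℝ E = Fintype.card ι + 2)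
include hn

theorem exists_geoFlow (D : CoreData E) :
    ∃ φ, IsFlow D.V {z : E × E × (ι → E) | D.IsSt z} φ := by
  refine exists_flow (fun z hz => IsSt.contDiffAt_V hz) (fun z hz => ?_)
    fun z hz T => D.apriori hz T
  obtain ⟨S⟩ := IsSt.exists_sheet hn hz
  obtain ⟨r, hr, ε, hε, h⟩ := S.exists_curve (IsSt.contDiffAt_vel hz)
  obtain ⟨c, h0, h1⟩ := h _ (mem_closedBall_self hr.le)
  have h2 := (h1 0 ⟨by linarith, hε⟩).continuousAt.eventually_mem
    (s := ball z.1 S.ρ) (by rw [h0]; exact ball_mem_nhds z.1 S.pos)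
  obtain ⟨δ, hδ, h3⟩ := Metric.eventually_nhds_iff_ball.1 h2
  refine ⟨min ε δ, lt_min hε hδ, fun t => S.s (c t), by simp only [h0, S.base], fun t ht => ?_⟩
  have k1 : |t| < min ε δ := abs_lt.2 ht
  have k2 := h3 t (by simpa using k1.trans_le (min_le_right _ _))
  exact ⟨S.st _ k2, S.deriv hn (h1 t (abs_lt.1 (k1.trans_le (min_le_left _ _)))) k2⟩

lemma fiber_le (D : CoreData E) (x : E) :
    {z : E × E × (ι → E) | D.IsSt z ∧ z.1 = x}.encard ≤
      ((2 * Module.finrank ℝ E ^ Fintype.card ι : ℕ) : ℕ∞) := by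
  classical
  by_cases hx : x = 0
  · rw [show {z : E × E × (ι → E) | D.IsSt z ∧ z.1 = x} = ∅ from
      eq_empty_of_forall_notMem fun z hz => hz.1.ne (hz.2.trans hx)]
    simp
  have hP : ∀ s : Finset E, (∀ p ∈ s, Prim (D.C x) p) → s.card ≤ Module.finrank ℝ E := by
    intro s hs
    simpa using card_le_of_orth (κ := s) (fun p => (p : E)) (fun p => (hs p p.2).1)
      fun p q hpq => (hs p p.2).orth (D.alg hx) (hs q q.2) (Subtype.coe_ne_coe.2 hpq)
  have hfin : {p | Prim (D.C x) p}.Finite := by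
    by_contra hinf
    obtain ⟨s, hs, hs'⟩ := Set.Infinite.exists_subset_card_eq hinf (Module.finrank ℝ E + 1)
    have := hP s fun p hp => hs hp
    omega
  have hex : ∀ p : ι → E, ∃ e, (∃ e', D.IsSt (x, e', p)) → D.IsSt (x, e, p) := fun p => by
    by_cases h : ∃ e', D.IsSt (x, e', p)
    · exact ⟨h.choose, fun _ => h.choose_spec⟩
    · exact ⟨0, fun h' => absurd h' h⟩
  choose e he using hex
  set f : ℝ × (ι → E) → E × E × (ι → E) := fun u => (x, u.1 • e u.2, u.2) with hf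
  set A : Finset (ℝ × (ι → E)) := {1, -1} ×ˢ Fintype.piFinset fun _ => hfin.toFinset with hA
  have h1 : {z : E × E × (ι → E) | D.IsSt z ∧ z.1 = x} ⊆ f '' A := by
    rintro ⟨_, e', p⟩ ⟨hz, rfl⟩
    obtain ⟨k1, k2⟩ := (he p ⟨e', hz⟩).e_eq hn hz rfl rfl
    refine ⟨(_, p), ?_, Prod.ext rfl (Prod.ext k1.symm rfl)⟩
    simp only [hA, Finset.coe_product, mem_prod, Finset.coe_insert, Finset.coe_singleton,
      mem_insert_iff, mem_singleton_iff, Finset.mem_coe, Fintype.mem_piFinset,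
      Finite.mem_toFinset]
    exact ⟨(abs_eq zero_le_one).1 k2, hz.prim⟩
  refine (encard_le_encard h1).trans ((encard_image_le _ _).trans ?_)
  rw [encard_coe_eq_coe_finsetCard, Nat.cast_le, hA, Finset.card_product, Fintype.card_piFinset,
    Finset.prod_const, Finset.card_univ]
  exact Nat.mul_le_mul Finset.card_le_two
    (Nat.pow_le_pow_left (hP _ fun p hp => by simpa using hp) _)

end CoreData

end Pool.Agent.Lib.MP_7dd29b_gt
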