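import Mathlib

/-! The Riemann curvature tensor of a metric given in coordinates on a subset of `ℝⁿ`. -/

namespace Pool.Agent.Lib.MP_7dd29b_gt.Riem

variable {n : ℕ}

/-- The derivative of `f` in the direction of the `i`-th coordinate. -/
noncomputable def pd (i : Fin n) (f : (Fin n → ℝ) → ℝ) (y : Fin n → ℝ) : ℝ :=
  fderiv ℝ f y (Pi.single i 1)

/-- The matrix `g_ij = (1/2) ∂_i ∂_j (F ^ 2)`. -/
noncomputable def hessMetric (F : (Fin n → ℝ) → ℝ) (y : Fin n → ℝ) : Matrix (Fin n) (Fin n) ℝ :=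
  Matrix.of fun i j => 1 / 2 * pd i (pd j fun x => F x ^ 2) y

/-- The Christoffel symbols `Γ^k_ij = (1/2) g^kl (∂_i g_jl + ∂_j g_il - ∂_l g_ij)`. -/
noncomputable def christoffel (g : (Fin n → ℝ) → Matrix (Fin n) (Fin n) ℝ) (k i j : Fin n)
    (y : Fin n → ℝ) : ℝ :=
  1 / 2 * ∑ l, (g y)⁻¹ k l *
    (pd i (fun x => g x j l) y + pd j (fun x => g x i l) y - pd l (fun x => g x i j) y)

/-- The Riemann tensor `R^l_ijk = ∂_i Γ^l_jk - ∂_j Γ^l_ik + Γ^l_im Γ^m_jk - Γ^l_jm Γ^m_ik`. -/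
noncomputable def riemann (g : (Fin n → ℝ) → Matrix (Fin n) (Fin n) ℝ) (l i j k : Fin n)
    (y : Fin n → ℝ) : ℝ :=
  pd i (christoffel g l j k) y - pd j (christoffel g l i k) y +
    ∑ m, (christoffel g l i m y * christoffel g m j k y -
      christoffel g l j m y * christoffel g m i k y)

end Pool.Agent.Lib.MP_7dd29b_gt.Riem
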