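import Mathlib

/-! Closed one-forms on the punctured space of dimension at least three are exact. -/

set_option autoImplicit false

open scoped RealInnerProductSpace Topology
open Set Metric

namespace Pool.Agent.Lib.MP_7dd29b_gt

variable {E : Type*} [NormedAddCommGroup E] [InnerProductSpace ℝ E] [FiniteDimensional ℝ E]
variable {B : Type*} [NormedAddCommGroup B] [NormedSpace ℝ B] [CompleteSpace B]

lemma one_lt_rank_of_three_le (hE : 3 ≤ Module.finrank ℝ E) : 1 < Module.rank ℝ E := by
  rw [← Module.finrank_eq_rank]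
  exact_mod_cast (by omega : 1 < Module.finrank ℝ E)

lemma preconnected_ne_zero (hE : 3 ≤ Module.finrank ℝ E) : IsPreconnected {y : E | y ≠ 0} :=
  (isConnected_compl_singleton_of_one_lt_rank (one_lt_rank_of_three_le hE) 0).isPreconnected

omit [FiniteDimensional ℝ E] in
lemma star_primitive {ω : E → E →L[ℝ] B} {dω : E → E →L[ℝ] E →L[ℝ] B}
    (hω : ∀ y, y ≠ 0 → HasFDerivAt ω (dω y) y)
    (hs : ∀ y, y ≠ 0 → ∀ a b, dω y a b = dω y b a) (v : E) (hv : v ≠ 0) :
    ∃ f : E → B, ∀ y, (y ∉ Submodule.span ℝ {v} ∨ 0 < ⟪y, v⟫) → HasFDerivAt f (ω y) y := by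
  refine ⟨fun y => ∫ᶜ x in Path.segment v y, ω x, fun y hy => ?_⟩
  have h0 : segment ℝ v y ⊆ {z : E | z ≠ 0} := by
    rintro z ⟨a, b, ha, hb, hab, rfl⟩ hz
    have hb' : b ≠ 0 := by
      rintro rfl
      have : a = 1 := by linarith
      subst this
      simp at hz
      exact hv hz
    have hyv : y = (-(a / b)) • v := by
      have h1 : b • y = -(a • v) := by
        rw [eq_neg_iff_add_eq_zero, add_comm]; exact hz
      calc y = b⁻¹ • (b • y) := by rw [smul_smul, inv_mul_cancel₀ hb', one_smul]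
        _ = _ := by rw [h1, smul_neg, smul_smul, ← neg_smul]; congr 1; field_simp
    rcases hy with hy | hy
    · exact hy (hyv ▸ Submodule.smul_mem _ _ (Submodule.mem_span_singleton_self v))
    · rw [hyv, inner_smul_left] at hy
      have h2 : 0 ≤ ⟪v, v⟫ := real_inner_self_nonneg
      have h3 : 0 ≤ a / b := div_nonneg ha hb
      simp only [conj_trivial] at hy
      nlinarith
  have hcomp : IsCompact (segment ℝ v y) := by
    rw [segment_eq_image]
    exact isCompact_Icc.image (by fun_prop)
  obtain ⟨δ, hδ, hsub⟩ := hcomp.exists_thickening_subset_open isOpen_ne h0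
  have hconv : Convex ℝ (thickening δ (segment ℝ v y)) := (convex_segment v y).thickening δ
  have hv' : v ∈ thickening δ (segment ℝ v y) :=
    self_subset_thickening hδ _ (left_mem_segment ℝ v y)
  have hy' : y ∈ thickening δ (segment ℝ v y) :=
    self_subset_thickening hδ _ (right_mem_segment ℝ v y)
  have := hconv.hasFDerivWithinAt_curveIntegral_segment_of_hasFDerivWithinAt_symmetric
    (ω := ω) (dω := dω) (fun x hx => (hω x (hsub hx)).hasFDerivWithinAt)
    (fun a ha x _ z _ => hs a (hsub ha) x z) hv' hy'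
  exact this.hasFDerivAt (isOpen_thickening.mem_nhds hy')

theorem punctured_primitive (hE : 3 ≤ Module.finrank ℝ E)
    {ω : E → E →L[ℝ] B} {dω : E → E →L[ℝ] E →L[ℝ] B}
    (hω : ∀ y, y ≠ 0 → HasFDerivAt ω (dω y) y)
    (hs : ∀ y, y ≠ 0 → ∀ a b, dω y a b = dω y b a) (y₀ : E) :
    ∃ f : E → B, f y₀ = 0 ∧ ∀ y, y ≠ 0 → HasFDerivAt f (ω y) y := by
  have : Nontrivial E := Module.nontrivial_of_finrank_pos (R := ℝ) (by omega)
  obtain ⟨v, hv⟩ := exists_ne (0 : E)
  obtain ⟨f, hf⟩ := star_primitive hω hs v hv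
  obtain ⟨g, hg⟩ := star_primitive hω hs (-v) (neg_ne_zero.mpr hv)
  set S : Submodule ℝ E := Submodule.span ℝ {v} with hS
  have hS' : Submodule.span ℝ {-v} = S := by
    rw [hS, ← Submodule.span_neg]; simp
  rw [hS'] at hg
  have hcod : 1 < Module.rank ℝ (E ⧸ S) := by
    have h1 := S.finrank_quotient_add_finrank
    have h2 : Module.finrank ℝ S = 1 := finrank_span_singleton hv
    rw [← Module.finrank_eq_rank]
    exact_mod_cast (by omega : 1 < Module.finrank ℝ (E ⧸ S))
  have hSc : IsOpen ((S : Set E)ᶜ) := S.closed_of_finiteDimensional.isOpen_compl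
  obtain ⟨c, hc⟩ := hSc.exists_eq_add_of_fderiv_eq (𝕜 := ℝ) (f := f) (g := g)
    (isConnected_compl_of_one_lt_codim hcod).isPreconnected
    (fun y hy => (hf y (Or.inl hy)).differentiableAt.differentiableWithinAt)
    (fun y hy => (hg y (Or.inl hy)).differentiableAt.differentiableWithinAt)
    (fun y hy => by rw [(hf y (Or.inl hy)).fderiv, (hg y (Or.inl hy)).fderiv])
  classical
  let h : E → B := fun y => if 0 < ⟪y, v⟫ then f y else g y + c
  have hh : ∀ y, y ≠ 0 → HasFDerivAt h (ω y) y := by
    intro y hy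
    by_cases h1 : y ∉ S ∨ 0 < ⟪y, v⟫
    · refine (hf y h1).congr_of_eventuallyEq ?_
      have ho : IsOpen {z : E | z ∉ S ∨ 0 < ⟪z, v⟫} :=
        hSc.union (isOpen_lt (f := fun _ : E => (0 : ℝ)) (g := fun z : E => ⟪z, v⟫)
          continuous_const (by fun_prop))
      filter_upwards [ho.mem_nhds h1] with z hz
      simp only [h]
      split_ifs with h2
      · rfl
      · exact (hc (hz.resolve_right h2)).symm
    · push Not at h1
      obtain ⟨h1, h2⟩ := h1
      have h3 : ⟪y, v⟫ < 0 := by
        refine lt_of_le_of_ne h2 fun h0 => hy ?_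
        obtain ⟨a, rfl⟩ := Submodule.mem_span_singleton.mp h1
        rw [inner_smul_left, mul_eq_zero] at h0
        rcases h0 with h0 | h0
        · simp at h0; simp [h0]
        · exact absurd (inner_self_eq_zero.mp h0) hv
      refine ((hg y (Or.inr (by rw [inner_neg_right]; linarith))).add_const c).congr_of_eventuallyEq ?_
      have ho : IsOpen {z : E | ⟪z, v⟫ < 0} := isOpen_lt (by fun_prop) continuous_const
      filter_upwards [ho.mem_nhds h3] with z hz
      simp only [h]
      rw [if_neg (not_lt.mpr (le_of_lt hz))]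
  exact ⟨fun y => h y - h y₀, by simp, fun y hy => (hh y hy).sub_const _⟩

end Pool.Agent.Lib.MP_7dd29b_gt
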