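import Mathlib
import Pool.Agent.Lib.MP_7dd29b_gt.RedPoincare

/-! Parallel frames for the flat connections `d - a Γ` on the punctured space. -/

set_option autoImplicit false

open scoped RealInnerProductSpace Topology Nat
open Set Metric Filter

namespace Pool.Agent.Lib.MP_7dd29b_gt

variable {E : Type*} [NormedAddCommGroup E] [InnerProductSpace ℝ E] [FiniteDimensional ℝ E]
variable {A : Type*} [NormedRing A] [NormedAlgebra ℝ A] [CompleteSpace A]

lemma exists_iterated (hE : 3 ≤ Module.finrank ℝ E) {Γ : E → E →L[ℝ] A}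
    (hΓ : ∀ y, y ≠ 0 → DifferentiableAt ℝ Γ y)
    (hs : ∀ y, y ≠ 0 → ∀ a b, fderiv ℝ Γ y a b = fderiv ℝ Γ y b a)
    (hc : ∀ y, y ≠ 0 → ∀ a b, Γ y a * Γ y b = Γ y b * Γ y a) (y₀ : E) :
    ∃ T : ℕ → E → A, T 0 = (fun _ => 1) ∧ (∀ k, T (k + 1) y₀ = 0) ∧
      ∀ k y, y ≠ 0 → HasFDerivAt (T (k + 1))
        ((ContinuousLinearMap.mul ℝ A (T k y)).comp (Γ y)) y := by
  -- one step
  have step : ∀ (S : E → A), (∀ y, y ≠ 0 → ∃ c : A, HasFDerivAt S
      ((ContinuousLinearMap.mul ℝ A c).comp (Γ y)) y) →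
      ∃ S' : E → A, S' y₀ = 0 ∧ ∀ y, y ≠ 0 → HasFDerivAt S'
        ((ContinuousLinearMap.mul ℝ A (S y)).comp (Γ y)) y := by
    intro S hS
    have hd : ∀ y, y ≠ 0 → DifferentiableAt ℝ
        (fun y => (ContinuousLinearMap.mul ℝ A (S y)).comp (Γ y)) y := by
      intro y hy
      obtain ⟨c, hc⟩ := hS y hy
      exact ((ContinuousLinearMap.mul ℝ A).differentiableAt.comp y hc.differentiableAt).clm_comp
        (hΓ y hy)
    refine punctured_primitive hE (dω := fderiv ℝ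
      (fun y => (ContinuousLinearMap.mul ℝ A (S y)).comp (Γ y)))
      (fun y hy => (hd y hy).hasFDerivAt) (fun y hy a b => ?_) y₀
    obtain ⟨c, hc'⟩ := hS y hy
    have h1 := ((ContinuousLinearMap.mul ℝ A).hasFDerivAt.comp y hc').clm_comp
      (hΓ y hy).hasFDerivAt
    have h2 := h1.fderiv
    simp only [Function.comp_def] at h2
    rw [h2]
    simp [hs y hy a b, mul_assoc, hc y hy a b]
  choose! nx hnx0 hnx using step
  let T : ℕ → E → A := fun k => nx^[k] (fun _ => 1)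
  have hT : ∀ k, T (k + 1) = nx (T k) := fun k => Function.iterate_succ_apply' _ _ _
  have key : ∀ k, ∀ y, y ≠ 0 → ∃ c : A, HasFDerivAt (T k)
      ((ContinuousLinearMap.mul ℝ A c).comp (Γ y)) y := by
    intro k
    induction k with
    | zero =>
      intro y hy
      refine ⟨0, ?_⟩
      simpa [T] using hasFDerivAt_const (1 : A) y
    | succ k ih =>
      intro y hy
      exact ⟨T k y, by rw [hT]; exact hnx _ ih y hy⟩
  exact ⟨T, rfl, fun k => by rw [hT]; exact hnx0 _ (key k),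
    fun k y hy => by rw [hT]; exact hnx _ (key k) y hy⟩

omit [FiniteDimensional ℝ E] [CompleteSpace A] in
lemma iterated_bound_step (h1 : ‖(1 : A)‖ ≤ 1) {Γ : E → E →L[ℝ] A} {T : ℕ → E → A}
    (hT0 : T 0 = fun _ => 1)
    (hT : ∀ k y, y ≠ 0 → HasFDerivAt (T (k + 1))
        ((ContinuousLinearMap.mul ℝ A (T k y)).comp (Γ y)) y)
    {U : Set E} (hU : Convex ℝ U) (hU0 : ∀ y ∈ U, y ≠ 0) {M : ℝ} (_hM0 : 0 ≤ M)
    (hM : ∀ y ∈ U, ‖Γ y‖ ≤ M) {y₁ : E} (hy₁ : y₁ ∈ U) {R : ℝ}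
    (hR : ∀ k, ‖T k y₁‖ ≤ R ^ k / k !) (k : ℕ) :
    ∀ y ∈ U, ‖T k y‖ ≤ (R + M * ‖y - y₁‖) ^ k / k ! := by
  induction k with
  | zero => intro y _; simpa [hT0] using h1
  | succ k ih =>
    intro y hy
    set d := ‖y - y₁‖ with hd
    have hmem : ∀ t ∈ Icc (0 : ℝ) 1, y₁ + t • (y - y₁) ∈ U := fun t ht =>
      hU.add_smul_sub_mem hy₁ hy ht
    have hder : ∀ t ∈ Icc (0 : ℝ) 1, HasDerivAt (fun t : ℝ => T (k + 1) (y₁ + t • (y - y₁)))
        (T k (y₁ + t • (y - y₁)) * Γ (y₁ + t • (y - y₁)) (y - y₁)) t := by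
      intro t ht
      have h2 : HasDerivAt (fun t : ℝ => y₁ + t • (y - y₁)) (y - y₁) t := by
        simpa using ((hasDerivAt_id t).smul_const (y - y₁)).const_add y₁
      exact (hT k _ (hU0 _ (hmem t ht))).comp_hasDerivAt t h2
    have hB : ∀ t : ℝ, HasDerivAt (fun t : ℝ => (R + M * (t * d)) ^ (k + 1) / (k + 1)!)
        ((R + M * (t * d)) ^ k / k ! * (M * d)) t := by
      intro t
      have h2 : HasDerivAt (fun t : ℝ => R + M * (t * d)) (M * d) t := by
        simpa using (((hasDerivAt_id t).mul_const d).const_mul M).const_add R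
      refine ((h2.pow (k + 1)).div_const ((k + 1)! : ℝ)).congr_deriv ?_
      rw [Nat.factorial_succ]
      push_cast
      field_simp
    have := image_norm_le_of_norm_deriv_right_le_deriv_boundary (a := 0) (b := 1)
      (f := fun t : ℝ => T (k + 1) (y₁ + t • (y - y₁)))
      (fun t ht => (hder t ht).continuousAt.continuousWithinAt)
      (fun t ht => (hder t (Ico_subset_Icc_self ht)).hasDerivWithinAt)
      (B := fun t : ℝ => (R + M * (t * d)) ^ (k + 1) / (k + 1)!)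
      (by simpa using hR (k + 1)) hB
      (fun t ht => by
        have ht' := Ico_subset_Icc_self ht
        have h3 := ih _ (hmem t ht')
        have h4 : ‖y₁ + t • (y - y₁) - y₁‖ = t * d := by
          rw [add_sub_cancel_left, norm_smul, Real.norm_of_nonneg ht.1]
        rw [h4] at h3
        refine (norm_mul_le _ _).trans (mul_le_mul h3 ?_ (norm_nonneg _)
          ((norm_nonneg _).trans h3))
        exact ((Γ _).le_opNorm _).trans (mul_le_mul_of_nonneg_right (hM _ (hmem t ht'))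
          (norm_nonneg _)))
      (x := 1) (by simp)
    simpa using this

omit [FiniteDimensional ℝ E] [CompleteSpace A] in
lemma exists_good_ball {Γ : E → E →L[ℝ] A} {y : E} (hy : y ≠ 0) (hΓ : ContinuousAt Γ y) :
    ∃ r > 0, ∃ M ≥ 0, (∀ z ∈ ball y r, z ≠ 0) ∧ ∀ z ∈ ball y r, ‖Γ z‖ ≤ M := by
  have h1 : ∀ᶠ z in 𝓝 y, z ≠ 0 ∧ ‖Γ z‖ ≤ ‖Γ y‖ + 1 :=
    Filter.Eventually.and (isOpen_ne.mem_nhds hy)
      (hΓ.norm.eventually (ge_mem_nhds (lt_add_one _)))
  obtain ⟨r, hr, h⟩ := Metric.eventually_nhds_iff_ball.mp h1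
  exact ⟨r, hr, ‖Γ y‖ + 1, by positivity, fun z hz => (h z hz).1, fun z hz => (h z hz).2⟩

/-- The family of parallel frames. -/
theorem exists_parallel (hE : 3 ≤ Module.finrank ℝ E) (h1 : ‖(1 : A)‖ ≤ 1) {Γ : E → E →L[ℝ] A}
    (hΓ : ∀ y, y ≠ 0 → DifferentiableAt ℝ Γ y)
    (hs : ∀ y, y ≠ 0 → ∀ a b, fderiv ℝ Γ y a b = fderiv ℝ Γ y b a)
    (hc : ∀ y, y ≠ 0 → ∀ a b, Γ y a * Γ y b = Γ y b * Γ y a) (y₀ : E) (hy₀ : y₀ ≠ 0) :
    ∃ T : ℕ → E → A, T 0 = (fun _ => 1) ∧ (∀ k, T (k + 1) y₀ = 0) ∧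
      (∀ k y, y ≠ 0 → HasFDerivAt (T (k + 1))
        ((ContinuousLinearMap.mul ℝ A (T k y)).comp (Γ y)) y) ∧
      ∀ y, y ≠ 0 → ∃ r > 0, ∃ M ≥ 0, ∃ R ≥ 0, (∀ z ∈ ball y r, z ≠ 0) ∧
        (∀ z ∈ ball y r, ‖Γ z‖ ≤ M) ∧ ∀ z ∈ ball y r, ∀ k, ‖T k z‖ ≤ R ^ k / k ! := by
  obtain ⟨T, hT0, hT1, hT⟩ := exists_iterated hE hΓ hs hc y₀
  refine ⟨T, hT0, hT1, hT, ?_⟩
  let G : E → Prop := fun y => ∃ R ≥ (0 : ℝ), ∀ k, ‖T k y‖ ≤ R ^ k / (k !)
  have hG0 : G y₀ := by
    refine ⟨0, le_rfl, fun k => ?_⟩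
    cases k with
    | zero => simpa [hT0] using h1
    | succ k => simp [hT1]
  have hG : ∀ y, y ≠ 0 → G y := by
    intro y hy
    refine (preconnected_ne_zero hE).induction₂' (fun a b => G a → G b) (fun x hx => ?_)
      (fun a b c _ _ _ h1 h2 h => h2 (h1 h)) hy₀ hy hG0
    obtain ⟨r, hr, M, hM, h0, hb⟩ := exists_good_ball hx (hΓ x hx).continuousAt
    filter_upwards [mem_nhdsWithin_of_mem_nhds (ball_mem_nhds x hr)] with z hz
    constructor
    · rintro ⟨R, hR0, hR⟩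
      exact ⟨_, by positivity, fun k => iterated_bound_step h1 hT0 hT (convex_ball x r) h0 hM hb
        (mem_ball_self hr) hR k z hz⟩
    · rintro ⟨R, hR0, hR⟩
      exact ⟨_, by positivity, fun k => iterated_bound_step h1 hT0 hT (convex_ball x r) h0 hM hb
        hz hR k x (mem_ball_self hr)⟩
  intro y hy
  obtain ⟨r, hr, M, hM, h0, hb⟩ := exists_good_ball hy (hΓ y hy).continuousAt
  obtain ⟨R, hR0, hR⟩ := hG y hy
  refine ⟨r, hr, M, hM, R + M * r, by positivity, h0, hb, fun z hz k => ?_⟩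
  refine (iterated_bound_step h1 hT0 hT (convex_ball y r) h0 hM hb (mem_ball_self hr) hR k z
    hz).trans ?_
  have : ‖z - y‖ ≤ r := (mem_ball_iff_norm.mp hz).le
  gcongr

theorem exists_frames (hE : 3 ≤ Module.finrank ℝ E) (h1 : ‖(1 : A)‖ ≤ 1) {Γ : E → E →L[ℝ] A}
    (hΓ : ∀ y, y ≠ 0 → DifferentiableAt ℝ Γ y)
    (hs : ∀ y, y ≠ 0 → ∀ a b, fderiv ℝ Γ y a b = fderiv ℝ Γ y b a)
    (hc : ∀ y, y ≠ 0 → ∀ a b, Γ y a * Γ y b = Γ y b * Γ y a) (y₀ : E) (hy₀ : y₀ ≠ 0) :
    ∃ P : ℝ → E → A, (∀ y, P 0 y = 1) ∧ (∀ a, P a y₀ = 1) ∧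
      (∀ a y, y ≠ 0 → HasFDerivAt (P a)
        (a • (ContinuousLinearMap.mul ℝ A (P a y)).comp (Γ y)) y) ∧
      ∀ a y, y ≠ 0 → ContinuousAt (fun p : ℝ × E => P p.1 p.2) (a, y) := by
  obtain ⟨T, hT0, hT1, hT, hb⟩ := exists_parallel hE h1 hΓ hs hc y₀ hy₀
  have hTc : ∀ k y, y ≠ 0 → ContinuousAt (T k) y := by
    intro k y hy
    cases k with
    | zero => rw [hT0]; exact continuousAt_const
    | succ k => exact (hT k y hy).continuousAt
  refine ⟨fun a y => ∑' k, a ^ k • T k y, fun y => ?_, fun a => ?_, fun a y hy => ?_,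
    fun a y hy => ?_⟩
  · beta_reduce
    rw [tsum_eq_single 0 (fun k hk => by simp [hk])]
    simp [hT0]
  · beta_reduce
    rw [tsum_eq_single 0 (fun k hk => by
      obtain ⟨k, rfl⟩ := Nat.exists_eq_succ_of_ne_zero hk
      simp [hT1])]
    simp [hT0]
  · obtain ⟨r, hr, M, hM, R, hR, h0, hbM, hbT⟩ := hb y hy
    have hsum : ∀ z ∈ ball y r, Summable fun k => a ^ k • T k z := by
      intro z hz
      refine Summable.of_norm_bounded (Real.summable_pow_div_factorial (|a| * R)) fun k => ?_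
      rw [norm_smul, norm_pow, Real.norm_eq_abs, mul_pow, mul_div_assoc]
      exact mul_le_mul_of_nonneg_left (hbT z hz k) (by positivity)
    have h2 := hasFDerivAt_tsum_of_isPreconnected
      (u := fun k : ℕ => |a| * M * ((|a| * R) ^ k / k !))
      ((Real.summable_pow_div_factorial (|a| * R)).mul_left _) isOpen_ball
      (convex_ball y r).isPreconnected
      (f := fun k z => a ^ (k + 1) • T (k + 1) z)
      (f' := fun k z => a ^ (k + 1) • (ContinuousLinearMap.mul ℝ A (T k z)).comp (Γ z))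
      (fun k z hz => (hT k z (h0 z hz)).fun_const_smul _)
      (fun k z hz => by
        rw [norm_smul, norm_pow, Real.norm_eq_abs]
        have h3 : ‖(ContinuousLinearMap.mul ℝ A (T k z)).comp (Γ z)‖ ≤ R ^ k / k ! * M :=
          (ContinuousLinearMap.opNorm_comp_le _ _).trans (mul_le_mul
            ((ContinuousLinearMap.opNorm_mul_apply_le _ _ _).trans (hbT z hz k)) (hbM z hz)
            (norm_nonneg _) (by positivity))
        calc _ ≤ |a| ^ (k + 1) * (R ^ k / k ! * M) := by gcongr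
          _ = _ := by rw [mul_pow]; ring)
      (mem_ball_self hr) ((summable_nat_add_iff 1).mpr (hsum y (mem_ball_self hr)))
      (mem_ball_self hr)
    have h3 : (∑' k, a ^ (k + 1) • (ContinuousLinearMap.mul ℝ A (T k y)).comp (Γ y)) =
        a • (ContinuousLinearMap.mul ℝ A (∑' k, a ^ k • T k y)).comp (Γ y) := by
      let L : A →L[ℝ] (E →L[ℝ] A) :=
        a • ((ContinuousLinearMap.compL ℝ E A A).flip (Γ y)).comp (ContinuousLinearMap.mul ℝ A)
      have := L.map_tsum (hsum y (mem_ball_self hr))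
      simp only [L, smul_apply, ContinuousLinearMap.comp_apply,
        ContinuousLinearMap.flip_apply, ContinuousLinearMap.compL_apply, map_smul] at this
      rw [this]
      congr 1
      ext1 k
      rw [smul_smul, pow_succ]
    rw [h3] at h2
    refine (h2.const_add 1).congr_of_eventuallyEq ?_
    filter_upwards [ball_mem_nhds y hr] with z hz
    rw [(hsum z hz).tsum_eq_zero_add]
    simp [hT0]
  · obtain ⟨r, hr, M, hM, R, hR, h0, hbM, hbT⟩ := hb y hy
    have h2 : ContinuousOn (fun p : ℝ × E => ∑' k, p.1 ^ k • T k p.2)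
        (ball a 1 ×ˢ ball y r) := by
      refine continuousOn_tsum (u := fun k : ℕ => ((|a| + 1) * R) ^ k / k !) (fun k => ?_)
        (Real.summable_pow_div_factorial _) (fun k p hp => ?_)
      · intro p hp
        exact ((continuous_fst.continuousAt.pow k).smul
          ((hTc k p.2 (h0 _ hp.2)).comp continuous_snd.continuousAt)).continuousWithinAt
      · rw [norm_smul, norm_pow, mul_pow, mul_div_assoc]
        have h3 : ‖p.1‖ ≤ |a| + 1 := by
          have := (mem_ball_iff_norm.mp hp.1).le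
          calc ‖p.1‖ = ‖a + (p.1 - a)‖ := by ring_nf
            _ ≤ ‖a‖ + ‖p.1 - a‖ := norm_add_le _ _
            _ ≤ |a| + 1 := by rw [Real.norm_eq_abs]; linarith
        have h4 := hbT p.2 hp.2 k
        gcongr
    exact h2.continuousAt (prod_mem_nhds (ball_mem_nhds a one_pos) (ball_mem_nhds y hr))

end Pool.Agent.Lib.MP_7dd29b_gt
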