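import Mathlib
import Pool.Agent.Lib.MP_7dd29b_gt.RedSeries

/-! The Hessian metric data and the normalised parallel frames. -/

set_option autoImplicit false

open scoped RealInnerProductSpace Topology
open Set Metric Filter

namespace Pool.Agent.Lib.MP_7dd29b_gt

/-- The Hessian metric `G` and its Christoffel operators `Γ` in the original coordinates. -/
structure YData (E : Type*) [NormedAddCommGroup E] [InnerProductSpace ℝ E] where
  G : E → E →L[ℝ] E
  Γ : E → E →L[ℝ] E →L[ℝ] E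
  smoothΓ : ∀ y, y ≠ 0 → ContDiffAt ℝ 3 Γ y
  symm : ∀ y, y ≠ 0 → ∀ a b, ⟪G y a, b⟫ = ⟪a, G y b⟫
  pos : ∀ y, y ≠ 0 → ∀ a, a ≠ 0 → 0 < ⟪G y a, a⟫
  dG : ∀ y, y ≠ 0 → HasFDerivAt G
    ((2 : ℝ) • (ContinuousLinearMap.mul ℝ (E →L[ℝ] E) (G y)).comp (Γ y)) y
  comm : ∀ y, y ≠ 0 → ∀ a b, Γ y a b = Γ y b a
  selfadj : ∀ y, y ≠ 0 → ∀ a b c, ⟪G y (Γ y a b), c⟫ = ⟪G y b, Γ y a c⟫
  commute : ∀ y, y ≠ 0 → ∀ a b, Γ y a * Γ y b = Γ y b * Γ y a
  euler : ∀ y, y ≠ 0 → Γ y y = 0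
  dsymm : ∀ y, y ≠ 0 → ∀ a b, fderiv ℝ Γ y a b = fderiv ℝ Γ y b a
  homogΓ : ∀ y, y ≠ 0 → ∀ s : ℝ, 0 < s → Γ (s • y) = s⁻¹ • Γ y

variable {E : Type*} [NormedAddCommGroup E] [InnerProductSpace ℝ E] [FiniteDimensional ℝ E]

lemma isUnit_of_injective {T : E →L[ℝ] E} (h : Function.Injective T) : IsUnit T := by
  have : CompleteSpace E := FiniteDimensional.complete ℝ E
  rw [ContinuousLinearMap.isUnit_iff_bijective]
  exact ⟨h, (LinearMap.injective_iff_surjective (f := (T : E →ₗ[ℝ] E))).mp h⟩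

lemma exists_sqrt {T : E →L[ℝ] E} (hs : ∀ a b, ⟪T a, b⟫ = ⟪a, T b⟫)
    (hp : ∀ a, a ≠ 0 → 0 < ⟪T a, a⟫) : ∃ J : E →L[ℝ] E, ∀ a b, ⟪J a, J b⟫ = ⟪T a, b⟫ := by
  have hT : (T : E →ₗ[ℝ] E).IsSymmetric := fun a b => hs a b
  set b := hT.eigenvectorBasis rfl with hb
  set μ := hT.eigenvalues rfl with hμ
  have hTb : ∀ i, T (b i) = μ i • b i := fun i => hT.apply_eigenvectorBasis rfl i
  have hμ0 : ∀ i, 0 ≤ μ i := by
    intro i
    have := hp (b i) (b.toBasis.ne_zero i)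
    rw [hTb, inner_smul_left, real_inner_self_eq_norm_sq, b.orthonormal.1 i] at this
    simpa using this.le
  let J : E →ₗ[ℝ] E := b.toBasis.constr ℝ fun i => Real.sqrt (μ i) • b i
  have hJ : ∀ i, J (b i) = Real.sqrt (μ i) • b i := fun i => b.toBasis.constr_basis ℝ _ i
  refine ⟨LinearMap.toContinuousLinearMap J, fun u v => ?_⟩
  have key : (innerₗ E).compl₁₂ J J = (innerₗ E).comp (T : E →ₗ[ℝ] E) := by
    refine b.toBasis.ext fun i => b.toBasis.ext fun j => ?_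
    simp only [OrthonormalBasis.coe_toBasis, LinearMap.compl₁₂_apply, hJ, innerₗ_apply_apply,
      LinearMap.comp_apply, ContinuousLinearMap.coe_coe, hTb, inner_smul_left, inner_smul_right,
      conj_trivial]
    by_cases hij : i = j
    · subst hij
      rw [← mul_assoc, Real.mul_self_sqrt (hμ0 i)]
    · rw [b.orthonormal.2 hij]; simp
  exact LinearMap.congr_fun₂ key u v

namespace YData

variable (D : YData E)

lemma isUnit_G {y : E} (hy : y ≠ 0) : IsUnit (D.G y) := by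
  refine isUnit_of_injective ((injective_iff_map_eq_zero _).mpr fun a ha => ?_)
  by_contra h
  have := D.pos y hy a h
  simp [ha] at this

/-- Normalised parallel frames. -/
structure Frames where
  P : ℝ → E → E →L[ℝ] E
  J : E →L[ℝ] E
  zero : ∀ y, P 0 y = J
  deriv : ∀ a y, y ≠ 0 → HasFDerivAt (P a)
    (a • (ContinuousLinearMap.mul ℝ (E →L[ℝ] E) (P a y)).comp (D.Γ y)) y
  cont : ∀ a y, y ≠ 0 → ContinuousAt (fun p : ℝ × E => P p.1 p.2) (a, y)
  pair : ∀ a b, a + b = 2 → ∀ y, y ≠ 0 → ∀ u v, ⟪P a y u, P b y v⟫ = ⟪D.G y u, v⟫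

theorem nonempty_frames (hE : 3 ≤ Module.finrank ℝ E) : Nonempty D.Frames := by
  have : CompleteSpace E := FiniteDimensional.complete ℝ E
  have : Nontrivial E := Module.nontrivial_of_finrank_pos (R := ℝ) (by omega)
  obtain ⟨y₀, hy₀⟩ := exists_ne (0 : E)
  obtain ⟨Q, hQ0, hQ1, hQd, hQc⟩ := exists_frames (A := E →L[ℝ] E) hE
    ContinuousLinearMap.norm_id_le
    (fun y hy => (D.smoothΓ y hy).differentiableAt (by norm_num)) D.dsymm D.commute y₀ hy₀
  obtain ⟨J, hJ⟩ := exists_sqrt (D.symm y₀ hy₀) (D.pos y₀ hy₀)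
  have hPd : ∀ a y, y ≠ 0 → HasFDerivAt (fun y => J * Q a y)
      (a • (ContinuousLinearMap.mul ℝ (E →L[ℝ] E) (J * Q a y)).comp (D.Γ y)) y := by
    intro a y hy
    refine ((hQd a y hy).const_mul J).congr_fderiv ?_
    ext1 v
    simp [mul_assoc]
  refine ⟨⟨fun a y => J * Q a y, J, fun y => by simp [hQ0], hPd,
    fun a y hy => continuousAt_const.mul (hQc a y hy), fun a b hab y hy u v => ?_⟩⟩
  have hsG : ∀ z, z ≠ 0 → ∀ w, star (D.Γ z w) * D.G z = D.G z * D.Γ z w := by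
    intro z hz w
    ext1 p
    refine ext_inner_right ℝ fun q => ?_
    rw [ContinuousLinearMap.star_eq_adjoint, mul_apply_eq_comp,
      ContinuousLinearMap.adjoint_inner_left, mul_apply_eq_comp, D.selfadj z hz]
  let W : E → E →L[ℝ] E := fun z => J * Q b z * Ring.inverse (D.G z) * star (J * Q a z)
  have hW : ∀ z, z ≠ 0 → HasFDerivAt W (0 : E →L[ℝ] E →L[ℝ] E) z := by
    intro z hz
    obtain ⟨g, hg⟩ := D.isUnit_G hz
    have h0 := hasFDerivAt_ringInverse (𝕜 := ℝ) g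
    rw [hg] at h0
    have h1 := h0.comp z (D.dG z hz)
    refine (((hPd b z hz).mul' h1).mul' (hPd a z hz).star).congr_fderiv ?_
    ext1 w
    have h2 : (↑g⁻¹ : E →L[ℝ] E) * star (D.Γ z w) = D.Γ z w * ↑g⁻¹ := by
      have h3 := hsG z hz w
      rw [← hg] at h3
      calc (↑g⁻¹ : E →L[ℝ] E) * star (D.Γ z w) = ↑g⁻¹ * (star (D.Γ z w) * ↑g) * ↑g⁻¹ := by
            simp [mul_assoc]
        _ = _ := by rw [h3]; simp [← mul_assoc]
    have h4 : ∀ X : E →L[ℝ] E, (↑g⁻¹ : E →L[ℝ] E) * (star (D.Γ z w) * X) =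
        D.Γ z w * (↑g⁻¹ * X) := fun X => by rw [← mul_assoc, h2, mul_assoc]
    obtain rfl : a = 2 - b := by linarith
    simp [← hg, mul_assoc, h4, mul_sub, sub_smul]
  have hW1 : W y = 1 := by
    have h1 : W y = W y₀ := isOpen_ne.is_const_of_fderiv_eq_zero (𝕜 := ℝ)
      (preconnected_ne_zero hE)
      (fun z hz => (hW z hz).differentiableAt.differentiableWithinAt)
      (fun z hz => (hW z hz).fderiv) hy hy₀
    rw [h1]
    simp only [W, hQ1, mul_one]
    have h2 : star J * J = D.G y₀ := by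
      ext1 p
      refine ext_inner_right ℝ fun q => ?_
      rw [ContinuousLinearMap.star_eq_adjoint, mul_apply_eq_comp,
        ContinuousLinearMap.adjoint_inner_left, hJ]
    have h3 : IsUnit J := by
      refine isUnit_of_injective ((injective_iff_map_eq_zero _).mpr fun p hp => ?_)
      by_contra h
      have := D.pos y₀ hy₀ p h
      rw [← hJ, hp] at this
      simp at this
    obtain ⟨j, rfl⟩ := h3
    rw [← h2]
    have h5 : star (j : E →L[ℝ] E) * j = ((star j * j : (E →L[ℝ] E)ˣ) : E →L[ℝ] E) := by simp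
    rw [h5, Ring.inverse_unit]
    have h6 : star (j : E →L[ℝ] E) = ((star j : (E →L[ℝ] E)ˣ) : E →L[ℝ] E) := by simp
    rw [h6, ← Units.val_mul, ← Units.val_mul]
    simp
  simp only [W] at hW1
  set Pa := J * Q a y
  set Pb := J * Q b y
  have h7 : IsUnit Pb := by
    rw [ContinuousLinearMap.isUnit_iff_bijective]
    have hs : Function.Surjective Pb := fun q => ⟨(Ring.inverse (D.G y) * star Pa) q, by
      rw [← mul_apply_eq_comp, ← mul_assoc, hW1]; rfl⟩
    exact ⟨(LinearMap.injective_iff_surjective (f := (Pb : E →ₗ[ℝ] E))).mpr hs, hs⟩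
  obtain ⟨g, hg⟩ := D.isUnit_G hy
  obtain ⟨p, hp⟩ := h7
  have h8 : star Pa * Pb = D.G y := by
    rw [← hg, ← hp, Ring.inverse_unit] at hW1
    rw [← hg, ← hp]
    have h9 : star Pa = (g : E →L[ℝ] E) * ↑p⁻¹ := by
      calc star Pa = (g : E →L[ℝ] E) * ↑p⁻¹ * ((p : E →L[ℝ] E) * ↑g⁻¹ * star Pa) := by
            simp [mul_assoc]
        _ = _ := by rw [hW1, mul_one]
    rw [h9]; simp [mul_assoc]
  change ⟪Pa u, Pb v⟫ = _
  rw [D.symm y hy, ← h8, ContinuousLinearMap.star_eq_adjoint,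
    ← ContinuousLinearMap.adjoint_inner_right]
  rfl

end YData

end Pool.Agent.Lib.MP_7dd29b_gt
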