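import Mathlib
import Pool.Agent.Lib.MP_7dd29b_gt.RedFrames

/-! The developing maps `X a y = P a y y` are bijections of the punctured space. -/

set_option autoImplicit false

open scoped RealInnerProductSpace Topology
open Set Metric Filter

namespace Pool.Agent.Lib.MP_7dd29b_gt

variable {E : Type*} [NormedAddCommGroup E] [InnerProductSpace ℝ E] [FiniteDimensional ℝ E]

namespace YData.Frames

variable {D : YData E} (F : D.Frames)

/-- The developing map. -/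
def X (a : ℝ) (y : E) : E := F.P a y y

omit [FiniteDimensional ℝ E] in
lemma P_inj (a : ℝ) {y : E} (hy : y ≠ 0) : Function.Injective (F.P a y) := by
  refine (injective_iff_map_eq_zero _).mpr fun u hu => ?_
  by_contra h
  have h1 := D.pos y hy u h
  rw [← F.pair a (2 - a) (by ring) y hy, hu] at h1
  simp at h1

lemma isUnit_P (a : ℝ) {y : E} (hy : y ≠ 0) : IsUnit (F.P a y) :=
  isUnit_of_injective (F.P_inj a hy)

lemma P_surj (a : ℝ) {y : E} (hy : y ≠ 0) : Function.Surjective (F.P a y) :=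
  (LinearMap.injective_iff_surjective (f := (F.P a y : E →ₗ[ℝ] E))).mp (F.P_inj a hy)

omit [FiniteDimensional ℝ E] in
lemma P_homog (a : ℝ) {y : E} (hy : y ≠ 0) {s : ℝ} (hs : 0 < s) : F.P a (s • y) = F.P a y := by
  have hd : ∀ t ∈ Ioi (0 : ℝ), HasDerivAt (fun t : ℝ => F.P a (t • y)) 0 t := by
    intro t ht
    have ht' : t • y ≠ 0 := smul_ne_zero (ne_of_gt ht) hy
    have h2 : HasDerivAt (fun t : ℝ => t • y) y t := by
      simpa using (hasDerivAt_id t).smul_const y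
    have h3 : D.Γ (t • y) y = 0 := by
      rw [D.homogΓ y hy t ht]; simp [D.euler y hy]
    have := (F.deriv a _ ht').comp_hasDerivAt t h2
    simp only [smul_apply, ContinuousLinearMap.comp_apply, h3, map_zero, smul_zero] at this
    exact this
  have := isOpen_Ioi.is_const_of_fderiv_eq_zero (𝕜 := ℝ) (f := fun t : ℝ => F.P a (t • y))
    isPreconnected_Ioi (fun t ht => (hd t ht).differentiableAt.differentiableWithinAt)
    (fun t ht => by rw [(hd t ht).hasFDerivAt.fderiv]; simp) hs (mem_Ioi.mpr one_pos)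
  simpa using this

omit [FiniteDimensional ℝ E] in
lemma X_homog (a : ℝ) (y : E) {s : ℝ} (hs : 0 < s) : F.X a (s • y) = s • F.X a y := by
  by_cases hy : y = 0
  · simp [hy, X]
  · simp [X, F.P_homog a hy hs]

omit [FiniteDimensional ℝ E] in
@[simp] lemma X_zero (a : ℝ) : F.X a 0 = 0 := by simp [X]

omit [FiniteDimensional ℝ E] in
lemma X_ne_zero (a : ℝ) {y : E} (hy : y ≠ 0) : F.X a y ≠ 0 := fun h =>
  hy (F.P_inj a hy (by rw [map_zero]; exact h))

omit [FiniteDimensional ℝ E] in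
lemma X_deriv (a : ℝ) {y : E} (hy : y ≠ 0) : HasFDerivAt (F.X a) (F.P a y) y := by
  refine ((F.deriv a y hy).clm_apply (hasFDerivAt_id y)).congr_fderiv ?_
  ext1 v
  simp [D.comm y hy v y, D.euler y hy]

omit [FiniteDimensional ℝ E] in
lemma P_cont (a : ℝ) {y : E} (hy : y ≠ 0) : ContinuousAt (F.P a) y := (F.deriv a y hy).continuousAt

omit [FiniteDimensional ℝ E] in
lemma X_strict (a : ℝ) {y : E} (hy : y ≠ 0) : HasStrictFDerivAt (F.X a) (F.P a y) y :=
  hasStrictFDerivAt_of_hasFDerivAt_of_continuousAt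
    (Filter.Eventually.mono (isOpen_ne.mem_nhds hy) fun _ hz => F.X_deriv a hz) (F.P_cont a hy)

omit [FiniteDimensional ℝ E] in
lemma X_cont2 (a : ℝ) {y : E} (hy : y ≠ 0) :
    ContinuousAt (fun p : ℝ × E => F.X p.1 p.2) (a, y) :=
  (F.cont a y hy).clm_apply continuous_snd.continuousAt

lemma X_bounds (b : ℝ) : ∃ c > 0, ∃ C > 0, ∀ a ∈ Icc (b - 1) (b + 1), ∀ y,
    c * ‖y‖ ≤ ‖F.X a y‖ ∧ ‖F.X a y‖ ≤ C * ‖y‖ := by
  have hK : IsCompact (Icc (b - 1) (b + 1) ×ˢ sphere (0 : E) 1) :=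
    isCompact_Icc.prod (isCompact_sphere 0 1)
  have hne : ∀ p ∈ Icc (b - 1) (b + 1) ×ˢ sphere (0 : E) 1, p.2 ≠ 0 := by
    intro p hp h
    have := hp.2
    simp [h] at this
  have hc : ContinuousOn (fun p : ℝ × E => ‖F.X p.1 p.2‖) (Icc (b - 1) (b + 1) ×ˢ sphere 0 1) :=
    fun p hp => (F.X_cont2 p.1 (hne p hp)).norm.continuousWithinAt
  obtain ⟨c, hc0, hc1⟩ := hK.exists_forall_le' hc (a := 0)
    (fun p hp => norm_pos_iff.mpr (F.X_ne_zero _ (hne p hp)))
  obtain ⟨C, hC⟩ := hK.exists_bound_of_continuousOn hc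
  refine ⟨c, hc0, |C| + 1, by positivity, fun a ha y => ?_⟩
  by_cases hy : y = 0
  · simp [hy]
  have hn : 0 < ‖y‖ := norm_pos_iff.mpr hy
  have hmem : (a, ‖y‖⁻¹ • y) ∈ Icc (b - 1) (b + 1) ×ˢ sphere (0 : E) 1 :=
    ⟨ha, by simp [norm_smul, hn.ne']⟩
  have h1 := hc1 _ hmem
  have h2 := hC _ hmem
  simp only [F.X_homog a y (inv_pos.mpr hn), norm_smul, norm_inv, norm_norm, norm_mul] at h1 h2
  rw [← div_eq_inv_mul, le_div_iff₀ hn] at h1
  rw [← div_eq_inv_mul, div_le_iff₀ hn] at h2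
  exact ⟨h1, h2.trans (mul_le_mul_of_nonneg_right (by linarith [le_abs_self C]) hn.le)⟩

lemma X_continuous (a : ℝ) : Continuous (F.X a) := by
  refine continuous_iff_continuousAt.mpr fun y => ?_
  by_cases hy : y = 0
  · subst hy
    obtain ⟨c, -, C, -, h⟩ := F.X_bounds a
    rw [ContinuousAt, X_zero]
    refine squeeze_zero_norm (fun y => (h a ⟨by linarith, by linarith⟩ y).2) ?_
    simpa using ((continuous_norm (E := E)).tendsto 0).const_mul C
  · exact (F.X_deriv a hy).continuousAt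

/-- The Bregman type function. -/
noncomputable def h (b : ℝ) (ξ y : E) : ℝ := ‖F.X 1 y‖ ^ 2 / 2 - ⟪F.X (2 - b) y, ξ⟫

omit [FiniteDimensional ℝ E] in
lemma inner_X (b : ℝ) (y : E) : ⟪F.X (2 - b) y, F.X b y⟫ = ‖F.X 1 y‖ ^ 2 := by
  by_cases hy : y = 0
  · simp [hy]
  rw [← real_inner_self_eq_norm_sq, X, X, X, F.pair _ _ (by ring) y hy,
    F.pair _ _ (by ring) y hy]

lemma crit {b : ℝ} {ξ z : E} (hz : z ≠ 0) (hmin : IsLocalMin (F.h b ξ) z) : F.X b z = ξ := by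
  have h1 := ((F.X_deriv 1 hz).norm_sq.mul_const (2⁻¹ : ℝ)).sub
    ((F.X_deriv (2 - b) hz).inner ℝ (hasFDerivAt_const ξ z))
  have h2 := hmin.hasFDerivAt_eq_zero (h1.congr_of_eventuallyEq
    (Filter.Eventually.of_forall fun y => by simp [h, div_eq_mul_inv]))
  have h3 : ∀ v, ⟪F.P (2 - b) z v, F.X b z - ξ⟫ = 0 := by
    intro v
    have h4 := congrArg (fun L : E →L[ℝ] ℝ => L v) h2
    simp at h4
    rw [inner_sub_right, X, F.pair _ _ (by ring) z hz, ← F.pair 1 1 (by ring) z hz,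
      real_inner_comm]
    change ⟪F.X 1 z, _⟫ - _ = _
    linarith
  obtain ⟨v, hv⟩ := F.P_surj (2 - b) hz (F.X b z - ξ)
  have := h3 v
  rw [hv, inner_self_eq_zero, sub_eq_zero] at this
  exact this

lemma h_cont (b : ℝ) (ξ : E) : Continuous (F.h b ξ) := by
  have := F.X_continuous 1
  have := F.X_continuous (2 - b)
  unfold h
  fun_prop

lemma ineq_of_injOn {b : ℝ} (hb : InjOn (F.X b) {y | y ≠ 0}) {y' : E} (hy' : y' ≠ 0) (y : E) :
    ⟪F.X (2 - b) y, F.X b y'⟫ ≤ ‖F.X 1 y‖ ^ 2 / 2 + ‖F.X 1 y'‖ ^ 2 / 2 := by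
  set ξ := F.X b y'
  obtain ⟨c, hc, _, -, h1⟩ := F.X_bounds 1
  obtain ⟨_, -, C, hC, h2⟩ := F.X_bounds (2 - b)
  have hneg : F.h b ξ y' = -(‖F.X 1 y'‖ ^ 2 / 2) := by
    simp only [h, ξ, F.inner_X]; ring
  have hpos : 0 < ‖F.X 1 y'‖ := norm_pos_iff.mpr (F.X_ne_zero 1 hy')
  obtain ⟨z, hz⟩ := (F.h_cont b ξ).exists_forall_le' y' (by
    have : ∀ᶠ y : E in cocompact E, 2 * C * ‖ξ‖ / c ^ 2 ≤ ‖y‖ :=
      tendsto_norm_cocompact_atTop.eventually (eventually_ge_atTop _)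
    filter_upwards [this] with y hy
    rw [hneg]
    have h3 := (h1 1 ⟨by linarith, by linarith⟩ y).1
    have h4 := (h2 (2 - b) ⟨by linarith, by linarith⟩ y).2
    have h5 : ⟪F.X (2 - b) y, ξ⟫ ≤ C * ‖y‖ * ‖ξ‖ :=
      (real_inner_le_norm _ _).trans (mul_le_mul_of_nonneg_right h4 (norm_nonneg _))
    have h6 : (c * ‖y‖) ^ 2 ≤ ‖F.X 1 y‖ ^ 2 := by gcongr
    rw [div_le_iff₀ (by positivity)] at hy
    have h7 : 2 * C * ‖ξ‖ * ‖y‖ ≤ ‖y‖ * c ^ 2 * ‖y‖ := by gcongr
    simp only [h]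
    nlinarith)
  have hz0 : z ≠ 0 := by
    rintro rfl
    have := hz y'
    rw [hneg] at this
    simp [h] at this
    nlinarith
  have h3 := F.crit hz0 (Filter.Eventually.of_forall hz)
  obtain rfl : z = y' := hb hz0 hy' h3
  have := hz y
  rw [hneg] at this
  simp only [h] at this
  linarith

lemma local_inj (b : ℝ) {y₀ : E} (hy₀ : y₀ ≠ 0) :
    ∃ r > 0, ∀ a ∈ ball b r, InjOn (F.X a) (ball y₀ r) := by
  obtain ⟨K, hK0, hK⟩ := (F.P b y₀ : E →ₗ[ℝ] E).exists_antilipschitzWith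
    (LinearMap.ker_eq_bot.mpr (F.P_inj b hy₀))
  have hK' : ∀ v, ‖v‖ ≤ K * ‖F.P b y₀ v‖ := fun v => by
    simpa using hK.le_mul_dist v 0
  have hKp : (0 : ℝ) < K := hK0
  have h1 : ∀ᶠ p : ℝ × E in 𝓝 (b, y₀), p.2 ≠ 0 ∧ ‖F.P p.1 p.2 - F.P b y₀‖ ≤ 1 / (2 * K) := by
    refine Filter.Eventually.and (continuous_snd.continuousAt.eventually_ne hy₀) ?_
    have := ((F.cont b y₀ hy₀).sub (continuousAt_const (y := F.P b y₀))).norm
    refine this.eventually (ge_mem_nhds ?_)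
    simp only [Pi.sub_apply, sub_self, norm_zero]
    positivity
  obtain ⟨r, hr, h2⟩ := Metric.eventually_nhds_iff_ball.mp h1
  rw [← ball_prod_same] at h2
  refine ⟨r, hr, fun a ha y hy y' hy' hyy => ?_⟩
  have h3 := (convex_ball y₀ r).norm_image_sub_le_of_norm_hasFDerivWithin_le'
    (f := F.X a) (f' := F.P a) (φ := F.P b y₀) (C := 1 / (2 * K))
    (fun z hz => (F.X_deriv a (h2 (a, z) ⟨ha, hz⟩).1).hasFDerivWithinAt)
    (fun z hz => (h2 (a, z) ⟨ha, hz⟩).2) hy hy'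
  rw [hyy, sub_self, zero_sub, norm_neg] at h3
  have h4 := hK' (y' - y)
  have h5 : ‖y' - y‖ ≤ ‖y' - y‖ / 2 := by
    calc ‖y' - y‖ ≤ K * (1 / (2 * K) * ‖y' - y‖) := h4.trans (by gcongr)
      _ = _ := by field_simp
  have h6 : ‖y' - y‖ = 0 := by linarith [norm_nonneg (y' - y)]
  exact (sub_eq_zero.mp (norm_eq_zero.mp h6)).symm

lemma isOpen_inj : IsOpen {b : ℝ | InjOn (F.X b) {y | y ≠ 0}} := by
  refine isOpen_iff_mem_nhds.mpr fun b hb => ?_
  obtain ⟨c, hc, C, hC, hbd⟩ := F.X_bounds b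
  have hK : IsCompact (sphere (0 : E) 1 ×ˢ (closedBall (0 : E) (C / c) \ ball 0 (c / C))) :=
    (isCompact_sphere 0 1).prod ((isCompact_closedBall _ _).diff isOpen_ball)
  have h1 := hK.eventually_forall_of_forall_eventually (x₀ := b)
    (P := fun a p => F.X a p.1 = F.X a p.2 → p.1 = p.2) (by
      rintro ⟨y, y'⟩ ⟨hy, hy'⟩
      have hy0 : y ≠ 0 := by rintro rfl; simp at hy
      have hy0' : y' ≠ 0 := by
        rintro rfl
        exact hy'.2 (mem_ball_self (by positivity))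
      by_cases hyy : y = y'
      · subst hyy
        obtain ⟨r, hr, h⟩ := F.local_inj b hy0
        filter_upwards [prod_mem_nhds (ball_mem_nhds b hr)
          (prod_mem_nhds (ball_mem_nhds y hr) (ball_mem_nhds y hr))] with z hz
        exact h z.1 hz.1 hz.2.1 hz.2.2
      · have h2 : F.X b y ≠ F.X b y' := fun h => hyy (hb hy0 hy0' h)
        have c1 : ContinuousAt (fun z : ℝ × E × E => F.X z.1 z.2.1) (b, y, y') :=
          ContinuousAt.comp (f := fun z : ℝ × E × E => (z.1, z.2.1))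
            (g := fun p : ℝ × E => F.X p.1 p.2) (F.X_cont2 b hy0) (by fun_prop)
        have c2 : ContinuousAt (fun z : ℝ × E × E => F.X z.1 z.2.2) (b, y, y') :=
          ContinuousAt.comp (f := fun z : ℝ × E × E => (z.1, z.2.2))
            (g := fun p : ℝ × E => F.X p.1 p.2) (F.X_cont2 b hy0') (by fun_prop)
        filter_upwards [(c1.sub c2).eventually_ne (sub_ne_zero.mpr h2)] with z hz h
        exact absurd (sub_eq_zero.mpr h) hz)
  filter_upwards [h1, Icc_mem_nhds (by linarith : b - 1 < b) (by linarith : b < b + 1)]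
    with a ha hab y hy y' hy' hyy
  have hn : 0 < ‖y‖ := norm_pos_iff.mpr hy
  have h3 := hbd a hab y
  have h4 := hbd a hab y'
  rw [hyy] at h3
  have := ha (‖y‖⁻¹ • y, ‖y‖⁻¹ • y') ⟨by simp [norm_smul, hn.ne'], by
      simp only [mem_closedBall, dist_zero_right, norm_smul, norm_inv, norm_norm]
      rw [← div_eq_inv_mul, div_le_div_iff₀ hn hc]
      nlinarith [h3.2, h4.1], by
      simp only [mem_ball, dist_zero_right, norm_smul, norm_inv, norm_norm, not_lt]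
      rw [← div_eq_inv_mul, div_le_div_iff₀ hC hn]
      nlinarith [h3.1, h4.2]⟩
    (by simp only [F.X_homog a _ (inv_pos.mpr hn), hyy])
  exact smul_right_injective E (inv_ne_zero hn.ne') this

lemma isClosed_inj : IsClosed {b : ℝ | InjOn (F.X b) {y | y ≠ 0}} := by
  refine isClosed_of_closure_subset fun b hb y₁ hy₁ y₂ hy₂ hyy => ?_
  by_contra hne
  have hX : ∀ y : E, Continuous fun a => F.X a y := by
    intro y
    by_cases hy : y = 0
    · simp [hy, continuous_const]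
    · exact continuous_iff_continuousAt.mpr fun a =>
        ContinuousAt.comp (f := fun a : ℝ => (a, y)) (g := fun p : ℝ × E => F.X p.1 p.2)
          (F.X_cont2 a hy) (by fun_prop)
  have hineq : ∀ y, ⟪F.X (2 - b) y, F.X b y₁⟫ ≤ ‖F.X 1 y‖ ^ 2 / 2 + ‖F.X 1 y₁‖ ^ 2 / 2 := by
    intro y
    have hcl : IsClosed {a : ℝ | ⟪F.X (2 - a) y, F.X a y₁⟫ ≤
        ‖F.X 1 y‖ ^ 2 / 2 + ‖F.X 1 y₁‖ ^ 2 / 2} :=
      isClosed_le (((hX y).comp (continuous_const.sub continuous_id)).inner (hX y₁))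
        continuous_const
    exact closure_minimal (fun a ha => F.ineq_of_injOn ha hy₁ y) hcl hb
  obtain ⟨r₀, hr₀, hinj⟩ := F.local_inj b hy₁
  obtain ⟨r, hr, hr1, hr2, hr3⟩ : ∃ r > 0, r < r₀ ∧ r < ‖y₁‖ ∧ r < dist y₂ y₁ := by
    have h1 : 0 < ‖y₁‖ := norm_pos_iff.mpr hy₁
    have h2 : 0 < dist y₂ y₁ := dist_pos.mpr (Ne.symm hne)
    refine ⟨min r₀ (min ‖y₁‖ (dist y₂ y₁)) / 2, by positivity, ?_, ?_, ?_⟩
    · linarith [min_le_left r₀ (min ‖y₁‖ (dist y₂ y₁))]
    · linarith [min_le_right r₀ (min ‖y₁‖ (dist y₂ y₁)), min_le_left ‖y₁‖ (dist y₂ y₁)]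
    · linarith [min_le_right r₀ (min ‖y₁‖ (dist y₂ y₁)), min_le_right ‖y₁‖ (dist y₂ y₁)]
  have hne0 : ∀ z ∈ closedBall y₁ r, z ≠ 0 := by
    rintro z hz rfl
    simp at hz
    linarith
  have hmin : ∀ y, F.h b (F.X b y₁) y₁ ≤ F.h b (F.X b y₁) y := by
    intro y
    have := hineq y
    simp only [h, F.inner_X]
    linarith
  have h1 := (isCompact_sphere y₁ r).eventually_forall_of_forall_eventually (x₀ := b)
    (P := fun a z => F.h a (F.X a y₂) y₁ < F.h a (F.X a y₂) z) (by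
      intro z hz
      have hz0 := hne0 z (sphere_subset_closedBall hz)
      have hlt : F.h b (F.X b y₂) y₁ < F.h b (F.X b y₂) z := by
        rw [← hyy]
        refine lt_of_le_of_ne (hmin z) fun heq => ?_
        have h2 := F.crit hz0 (Filter.Eventually.of_forall fun y => heq ▸ hmin y)
        have h3 := hinj b (mem_ball_self hr₀) (sphere_subset_ball hr1 hz) (mem_ball_self hr₀) h2
        rw [h3] at hz
        simp at hz
        linarith
      have c1 : ContinuousAt (fun p : ℝ × E => F.X (2 - p.1) p.2) (b, z) :=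
        ContinuousAt.comp (f := fun p : ℝ × E => (2 - p.1, p.2))
          (g := fun p : ℝ × E => F.X p.1 p.2) (F.X_cont2 (2 - b) hz0) (by fun_prop)
      have c2 : Continuous (fun p : ℝ × E => F.X p.1 y₂) := (hX y₂).comp continuous_fst
      have c3 : Continuous (fun p : ℝ × E => F.X (2 - p.1) y₁) :=
        (hX y₁).comp (continuous_const.sub continuous_fst)
      have c4 : Continuous (fun p : ℝ × E => F.X 1 p.2) := (F.X_continuous 1).comp continuous_snd
      refine ContinuousAt.eventually_lt (f := fun p : ℝ × E => F.h p.1 (F.X p.1 y₂) y₁)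
        (g := fun p : ℝ × E => F.h p.1 (F.X p.1 y₂) p.2) ?_ ?_ hlt
      · exact (continuous_const.sub (c3.inner c2)).continuousAt
      · exact ((c4.norm.pow 2).div_const 2).continuousAt.sub (c1.inner c2.continuousAt))
  obtain ⟨a, ha, ha'⟩ := (mem_closure_iff_frequently.mp hb).and_eventually h1 |>.exists
  obtain ⟨z, hz, hzmin⟩ := (isCompact_closedBall y₁ r).exists_isMinOn
    (nonempty_closedBall.mpr hr.le) (F.h_cont a (F.X a y₂)).continuousOn
  have hzb : z ∈ ball y₁ r := by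
    by_contra hzb
    have h2 : z ∈ sphere y₁ r := by
      rw [← closedBall_sdiff_ball]; exact ⟨hz, hzb⟩
    exact absurd (hzmin (mem_closedBall_self hr.le)) (not_le.mpr (ha' z h2))
  have h3 := F.crit (hne0 z hz) (hzmin.isLocalMin
    (mem_of_superset (isOpen_ball.mem_nhds hzb) ball_subset_closedBall))
  obtain rfl := ha (hne0 z hz) hy₂ h3
  exact absurd (mem_ball.mp hzb) (not_lt.mpr hr3.le)

theorem X_injOn (hE : 3 ≤ Module.finrank ℝ E) (b : ℝ) : InjOn (F.X b) {y | y ≠ 0} := by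
  have : Nontrivial E := Module.nontrivial_of_finrank_pos (R := ℝ) (by omega)
  obtain ⟨y₀, hy₀⟩ := exists_ne (0 : E)
  have h0 : InjOn (F.X 0) {y | y ≠ 0} := by
    intro y _ y' _ h
    simp only [X, F.zero] at h
    have := F.P_inj 0 hy₀
    rw [F.zero] at this
    exact this h
  have := IsClopen.eq_univ ⟨F.isClosed_inj, F.isOpen_inj⟩ ⟨0, h0⟩
  exact (this.symm ▸ mem_univ b : b ∈ {b : ℝ | InjOn (F.X b) {y | y ≠ 0}})

theorem ineqG (hE : 3 ≤ Module.finrank ℝ E) (b : ℝ) {y y' : E} (hy : y ≠ 0) (hy' : y' ≠ 0) :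
    ⟪F.X (2 - b) y, F.X b y'⟫ ≤ ‖F.X 1 y‖ * ‖F.X 1 y'‖ := by
  have h1 : 0 < ‖F.X 1 y‖ := norm_pos_iff.mpr (F.X_ne_zero 1 hy)
  have h2 : 0 < ‖F.X 1 y'‖ := norm_pos_iff.mpr (F.X_ne_zero 1 hy')
  have hs : 0 < ‖F.X 1 y'‖ / ‖F.X 1 y‖ := div_pos h2 h1
  have := F.ineq_of_injOn (F.X_injOn hE b) hy' ((‖F.X 1 y'‖ / ‖F.X 1 y‖) • y)
  rw [F.X_homog _ _ hs, F.X_homog _ _ hs, inner_smul_left, norm_smul, Real.norm_of_nonneg hs.le,
    div_mul_cancel₀ _ h1.ne', conj_trivial, div_mul_eq_mul_div, div_le_iff₀ h1] at this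
  nlinarith

theorem X_surj (hE : 3 ≤ Module.finrank ℝ E) (b : ℝ) {x : E} (hx : x ≠ 0) :
    ∃ y, y ≠ 0 ∧ F.X b y = x := by
  have : Nontrivial E := Module.nontrivial_of_finrank_pos (R := ℝ) (by omega)
  have : CompleteSpace E := FiniteDimensional.complete ℝ E
  obtain ⟨y₀, hy₀⟩ := exists_ne (0 : E)
  obtain ⟨c, hc, _, -, hbd⟩ := F.X_bounds b
  have hop : IsOpen (F.X b '' {y | y ≠ 0}) := by
    refine isOpen_iff_mem_nhds.mpr ?_
    rintro _ ⟨y, hy, rfl⟩
    rw [← (F.X_strict b hy).map_nhds_eq_of_surj (LinearMap.range_eq_top.mpr (F.P_surj b hy))]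
    exact image_mem_map (isOpen_ne.mem_nhds hy)
  have hcl : IsClosed (range (F.X b)) := by
    refine (isProperMap_iff_tendsto_cocompact.mpr ⟨F.X_continuous b,
      tendsto_cocompact_cocompact_of_norm fun ε => ⟨ε / c, fun y hy => ?_⟩⟩).isClosedMap.isClosed_range
    rw [div_lt_iff₀ hc] at hy
    linarith [(hbd b ⟨by linarith, by linarith⟩ y).1]
  refine (preconnected_ne_zero hE).subset_of_closure_inter_subset hop
    ⟨F.X b y₀, F.X_ne_zero b hy₀, y₀, hy₀, rfl⟩ ?_ hx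
  rintro z ⟨hz, hz0⟩
  obtain ⟨y, rfl⟩ := closure_minimal (image_subset_range _ _) hcl hz
  exact ⟨y, fun h => hz0 (by simp [h]), rfl⟩

end YData.Frames

end Pool.Agent.Lib.MP_7dd29b_gt
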