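import Mathlib
import Pool.Agent.Lib.MP_7dd29b_gt.RedInj
import Pool.Agent.Lib.MP_7dd29b_gt.Defs

/-! Passage to flat coordinates. -/

set_option autoImplicit false

open scoped RealInnerProductSpace Topology
open Set Metric Filter

namespace Pool.Agent.Lib.MP_7dd29b_gt

variable {E : Type*} [NormedAddCommGroup E] [InnerProductSpace ℝ E] [FiniteDimensional ℝ E]

lemma contDiffAt_mul_alg {A X : Type*} [NormedRing A] [NormedAlgebra ℝ A]
    [NormedAddCommGroup X] [NormedSpace ℝ X] {f : X → A} {x : X} {n : WithTop ℕ∞}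
    (hf : ContDiffAt ℝ n f x) :
    ContDiffAt ℝ n (fun y => ContinuousLinearMap.mul ℝ A (f y)) x :=
  (ContinuousLinearMap.mul ℝ A).contDiff.contDiffAt.comp x hf

lemma contDiffAt_mulLeftRight_alg {A X : Type*} [NormedRing A] [NormedAlgebra ℝ A]
    [NormedAddCommGroup X] [NormedSpace ℝ X] {f g : X → A} {x : X} {n : WithTop ℕ∞}
    (hf : ContDiffAt ℝ n f x) (hg : ContDiffAt ℝ n g x) :
    ContDiffAt ℝ n (fun y => ContinuousLinearMap.mulLeftRight ℝ A (f y) (g y)) x := by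
  have h : ContDiff ℝ n (fun a : A => ContinuousLinearMap.mulLeftRight ℝ A a) :=
    ContinuousLinearMap.contDiff (𝕜 := ℝ) (E := A) (F := A →L[ℝ] A →L[ℝ] A)
      (ContinuousLinearMap.mulLeftRight ℝ A)
  have h2 : ContDiffAt ℝ n (fun y => ContinuousLinearMap.mulLeftRight ℝ A (f y)) x :=
    h.contDiffAt.comp x hf
  exact h2.clm_apply hg

namespace YData.Frames

variable {D : YData E} (F : D.Frames)

omit [FiniteDimensional ℝ E] in
lemma P_contDiff (a : ℝ) (n : ℕ) (hn : n ≤ 3) : ∀ y, y ≠ 0 → ContDiffAt ℝ n (F.P a) y := by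
  induction n with
  | zero =>
    intro y hy
    exact contDiffAt_zero.mpr ⟨_, isOpen_ne.mem_nhds hy,
      fun z hz => (F.P_cont a hz).continuousWithinAt⟩
  | succ n ih =>
    intro y hy
    rw [Nat.cast_succ]
    refine contDiffAt_succ_iff_hasFDerivAt.mpr ⟨_, ⟨_, isOpen_ne.mem_nhds hy,
      fun z hz => F.deriv a z hz⟩, ?_⟩
    refine ContDiffAt.const_smul a (ContDiffAt.clm_comp ?_ ?_)
    · exact contDiffAt_mul_alg (ih (by omega) y hy)
    · exact (D.smoothΓ y hy).of_le (by exact_mod_cast (by omega : n ≤ 3))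

/-- Inverse frames. -/
noncomputable def R (a : ℝ) (y : E) : E →L[ℝ] E := Ring.inverse (F.P a y)

lemma P_mul_R (a : ℝ) {y : E} (hy : y ≠ 0) : F.P a y * F.R a y = 1 :=
  Ring.mul_inverse_cancel _ (F.isUnit_P a hy)

lemma R_mul_P (a : ℝ) {y : E} (hy : y ≠ 0) : F.R a y * F.P a y = 1 :=
  Ring.inverse_mul_cancel _ (F.isUnit_P a hy)

lemma P_R (a : ℝ) {y : E} (hy : y ≠ 0) (v : E) : F.P a y (F.R a y v) = v :=
  congrArg (fun L : E →L[ℝ] E => L v) (F.P_mul_R a hy)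

lemma R_P (a : ℝ) {y : E} (hy : y ≠ 0) (v : E) : F.R a y (F.P a y v) = v :=
  congrArg (fun L : E →L[ℝ] E => L v) (F.R_mul_P a hy)

lemma R_deriv (a : ℝ) {y : E} (hy : y ≠ 0) : HasFDerivAt (F.R a)
    (-a • ((ContinuousLinearMap.mul ℝ (E →L[ℝ] E)).flip (F.R a y)).comp (D.Γ y)) y := by
  have : CompleteSpace E := FiniteDimensional.complete ℝ E
  obtain ⟨g, hg⟩ := F.isUnit_P a hy
  have h0 := hasFDerivAt_ringInverse (𝕜 := ℝ) g
  rw [hg] at h0
  refine (h0.comp y (F.deriv a y hy)).congr_fderiv ?_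
  ext1 v
  simp [R, ← hg]

lemma R_contDiff (a : ℝ) {y : E} (hy : y ≠ 0) : ContDiffAt ℝ 3 (F.R a) y := by
  have : CompleteSpace E := FiniteDimensional.complete ℝ E
  obtain ⟨g, hg⟩ := F.isUnit_P a hy
  have h0 := contDiffAt_ringInverse ℝ (n := 3) g
  rw [hg] at h0
  exact h0.comp y (F.P_contDiff a 3 le_rfl y hy)

omit [FiniteDimensional ℝ E] in
lemma R_homog (a : ℝ) {y : E} (hy : y ≠ 0) {s : ℝ} (hs : 0 < s) : F.R a (s • y) = F.R a y := by
  simp [R, F.P_homog a hy hs]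

/-- The inverse of the flat coordinate map. -/
noncomputable def Y : E → E := Function.invFunOn (F.X 1) {y | y ≠ 0}

variable (hE : 3 ≤ Module.finrank ℝ E)
include hE

lemma Y_ne_zero {x : E} (hx : x ≠ 0) : F.Y x ≠ 0 :=
  Function.invFunOn_mem (F.X_surj hE 1 hx)

lemma X_Y {x : E} (hx : x ≠ 0) : F.X 1 (F.Y x) = x :=
  Function.invFunOn_eq (F.X_surj hE 1 hx)

lemma Y_X {y : E} (hy : y ≠ 0) : F.Y (F.X 1 y) = y :=
  F.X_injOn hE 1 (F.Y_ne_zero hE (F.X_ne_zero 1 hy)) hy (F.X_Y hE (F.X_ne_zero 1 hy))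

lemma Y_homog {x : E} (hx : x ≠ 0) {s : ℝ} (hs : 0 < s) : F.Y (s • x) = s • F.Y x := by
  have := F.Y_X hE (smul_ne_zero hs.ne' (F.Y_ne_zero hE hx))
  rwa [F.X_homog 1 _ hs, F.X_Y hE hx] at this

lemma Y_smooth {x : E} (hx : x ≠ 0) :
    ContDiffAt ℝ 3 F.Y x ∧ HasFDerivAt F.Y (F.R 1 (F.Y x)) x := by
  have : CompleteSpace E := FiniteDimensional.complete ℝ E
  have hy := F.Y_ne_zero hE hx
  obtain ⟨g, hg⟩ := F.isUnit_P 1 hy
  let e : E ≃L[ℝ] E := ContinuousLinearEquiv.unitsEquiv ℝ E g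
  have he : (e : E →L[ℝ] E) = F.P 1 (F.Y x) := by rw [← hg]; rfl
  have he' : (e.symm : E →L[ℝ] E) = F.R 1 (F.Y x) := by
    rw [R, ← hg, Ring.inverse_unit]; rfl
  have hX : ContDiffAt ℝ 3 (F.X 1) (F.Y x) :=
    (F.P_contDiff 1 3 le_rfl _ hy).clm_apply contDiffAt_id
  have hd : HasFDerivAt (F.X 1) (e : E →L[ℝ] E) (F.Y x) := he ▸ F.X_deriv 1 hy
  have h1 := hX.to_localInverse hd (by norm_num)
  have h2 := hX.localInverse_apply_image hd (by norm_num)
  have h3 : ∀ᶠ z in 𝓝 (F.X 1 (F.Y x)), F.X 1 (hX.localInverse hd (by norm_num) z) = z :=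
    (hX.hasStrictFDerivAt' hd (by norm_num)).eventually_right_inverse
  have h4 : ∀ᶠ z in 𝓝 (F.X 1 (F.Y x)), hX.localInverse hd (by norm_num) z ≠ 0 :=
    h1.continuousAt.eventually_ne (by rw [h2]; exact hy)
  have h5 : F.Y =ᶠ[𝓝 (F.X 1 (F.Y x))] hX.localInverse hd (by norm_num) := by
    filter_upwards [h3, h4] with z h3 h4
    rw [← F.Y_X hE h4, h3]
  have h6 := h1.congr_of_eventuallyEq h5
  rw [F.X_Y hE hx] at h6
  refine ⟨h6, he' ▸ HasFDerivAt.of_local_left_inverse h6.continuousAt hd ?_⟩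
  filter_upwards [isOpen_ne.mem_nhds hx] with z hz using F.X_Y hE hz

/-- The product in flat coordinates, as a function of the original point. -/
noncomputable def K (y : E) : E →L[ℝ] E →L[ℝ] E :=
  (ContinuousLinearMap.mulLeftRight ℝ (E →L[ℝ] E) (F.P 1 y) (F.R 1 y)).comp
    ((D.Γ y).comp (F.R 1 y))

omit hE [FiniteDimensional ℝ E] in
lemma K_apply (y u v : E) : F.K y u v = F.P 1 y (D.Γ y (F.R 1 y u) (F.R 1 y v)) := by
  simp [K]

omit hE in
lemma K_contDiff {y : E} (hy : y ≠ 0) : ContDiffAt ℝ 3 F.K y := by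
  refine ContDiffAt.clm_comp ?_ ((D.smoothΓ y hy).clm_comp (F.R_contDiff 1 hy))
  exact contDiffAt_mulLeftRight_alg (F.P_contDiff 1 3 le_rfl y hy) (F.R_contDiff 1 hy)

omit hE in
lemma K_dsymm {y : E} (hy : y ≠ 0) (v a : E) :
    fderiv ℝ F.K y (F.R 1 y v) a = fderiv ℝ F.K y (F.R 1 y a) v := by
  have hK := ((F.K_contDiff hy).differentiableAt (by norm_num)).hasFDerivAt
  have hΓ := ((D.smoothΓ y hy).differentiableAt (by norm_num)).hasFDerivAt
  have key : ∀ z a w, fderiv ℝ F.K y z a w = F.P 1 y (fderiv ℝ D.Γ y z (F.R 1 y a) (F.R 1 y w)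
      - D.Γ y (D.Γ y z (F.R 1 y a)) (F.R 1 y w)) := by
    intro z a w
    have h1 := (hK.clm_apply (hasFDerivAt_const a y)).clm_apply (hasFDerivAt_const w y)
    have h2 := (F.deriv 1 y hy).clm_apply ((hΓ.clm_apply
      ((F.R_deriv 1 hy).clm_apply (hasFDerivAt_const a y))).clm_apply
      ((F.R_deriv 1 hy).clm_apply (hasFDerivAt_const w y)))
    simp only [K_apply] at h1
    have h3 := congrArg (fun L : E →L[ℝ] E => L z) (h1.unique h2)
    have h4 := congrArg (fun L : E →L[ℝ] E => L (F.R 1 y w)) (D.commute y hy z (F.R 1 y a))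
    simp at h3 h4
    rw [h3, h4]
    simp
    abel
  ext1 w
  rw [key, key, D.dsymm y hy (F.R 1 y v), D.comm y hy (F.R 1 y v)]

lemma field_deriv (a : ℝ) (w : E) {x : E} (hx : x ≠ 0) :
    HasFDerivAt (fun z => F.P 1 (F.Y z) (F.R a (F.Y z) w))
      ((1 - a) • F.K (F.Y x) (F.P 1 (F.Y x) (F.R a (F.Y x) w))) x := by
  have hy := F.Y_ne_zero hE hx
  have h1 := ((F.deriv 1 _ hy).clm_apply
    ((F.R_deriv a hy).clm_apply (hasFDerivAt_const w _))).comp x (F.Y_smooth hE hx).2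
  refine h1.congr_fderiv ?_
  ext1 v
  simp [K_apply, F.R_P 1 hy, D.comm _ hy (F.R 1 (F.Y x) v), sub_smul]
  abel

/-- The core data in flat coordinates. -/
noncomputable def core : CoreData E where
  C x := F.K (F.Y x)
  N x := F.P 1 (F.Y x) * F.R 0 (F.Y x)
  smooth x hx := (F.K_contDiff (F.Y_ne_zero hE hx)).comp x (F.Y_smooth hE hx).1
  comm x hx a b := by rw [K_apply, K_apply, D.comm _ (F.Y_ne_zero hE hx)]
  selfadj x hx a b c := by
    have hy := F.Y_ne_zero hE hx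
    rw [K_apply, K_apply]
    conv_lhs => rw [← F.P_R 1 hy c]
    conv_rhs => rw [← F.P_R 1 hy b]
    rw [F.pair 1 1 (by ring) _ hy, F.pair 1 1 (by ring) _ hy, D.selfadj _ hy]
  assoc x hx a b c := by
    have hy := F.Y_ne_zero hE hx
    simp only [K_apply, F.R_P 1 hy]
    congr 1
    have h4 := congrArg (fun L : E →L[ℝ] E => L (F.R 1 (F.Y x) b))
      (D.commute _ hy (F.R 1 (F.Y x) c) (F.R 1 (F.Y x) a))
    simp only [mul_apply_eq_comp] at h4
    rw [D.comm _ hy _ (F.R 1 (F.Y x) c), h4, D.comm _ hy (F.R 1 (F.Y x) c)]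
  euler x hx a := by
    have hy := F.Y_ne_zero hE hx
    have : F.R 1 (F.Y x) x = F.Y x := by
      have h := F.R_P 1 hy (F.Y x)
      rwa [show F.P 1 (F.Y x) (F.Y x) = x from F.X_Y hE hx] at h
    rw [K_apply, this, D.euler _ hy]
    simp
  homog x hx s hs := by
    have hy := F.Y_ne_zero hE hx
    ext a b
    simp [K_apply, F.Y_homog hE hx hs, F.P_homog 1 hy hs, F.R_homog 1 hy hs, D.homogΓ _ hy s hs]
  dsymm x hx v a := by
    have hy := F.Y_ne_zero hE hx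
    have h1 := (((F.K_contDiff hy).differentiableAt (by norm_num)).hasFDerivAt.comp x
      (F.Y_smooth hE hx).2).fderiv
    simp only [Function.comp_def] at h1
    rw [h1]
    exact F.K_dsymm hy v a
  N_deriv x hx η := by
    have := F.field_deriv hE 0 η hx
    rw [sub_zero, one_smul] at this
    exact this
  N_surj x hx := by
    have hy := F.Y_ne_zero hE hx
    intro v
    exact ⟨F.P 0 (F.Y x) (F.R 1 (F.Y x) v), by
      simp [mul_apply_eq_comp, F.R_P 0 hy, F.P_R 1 hy]⟩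
  fields t x' hx' := by
    have hy' := F.Y_ne_zero hE hx'
    refine ⟨fun z => F.P 1 (F.Y z) (F.R (1 - t) (F.Y z) (F.X (1 - t) (F.Y x'))),
      fun x hx => ?_, ?_, fun x hx h => ?_, fun x hx => ?_⟩
    · have := F.field_deriv hE (1 - t) (F.X (1 - t) (F.Y x')) hx
      rwa [sub_sub_cancel] at this
    · simp only [X, F.R_P _ hy']
      exact F.X_Y hE hx'
    · have hy := F.Y_ne_zero hE hx
      have h1 := F.P_inj 1 hy (h.trans (map_zero _).symm)
      have h2 := F.P_R (1 - t) hy (F.X (1 - t) (F.Y x'))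
      rw [h1, map_zero] at h2
      exact F.X_ne_zero _ hy' h2.symm
    · have hy := F.Y_ne_zero hE hx
      have h1 := F.ineqG hE (1 - t) hy hy'
      rw [F.X_Y hE hx, F.X_Y hE hx'] at h1
      refine le_trans (le_of_eq ?_) h1
      have h2 : ⟪F.P 1 (F.Y x) (F.R (1 - t) (F.Y x) (F.X (1 - t) (F.Y x'))),
          F.P 1 (F.Y x) (F.Y x)⟫ = ⟪F.P (1 - t) (F.Y x) (F.R (1 - t) (F.Y x)
            (F.X (1 - t) (F.Y x'))), F.P (2 - (1 - t)) (F.Y x) (F.Y x)⟫ := by
        rw [F.pair 1 1 (by ring) _ hy, F.pair _ _ (by ring) _ hy]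
      rw [show F.P 1 (F.Y x) (F.Y x) = x from F.X_Y hE hx, F.P_R _ hy] at h2
      rw [h2, real_inner_comm]
      rfl

lemma Γ_eq_zero (h : ∀ x, x ≠ 0 → (F.core hE).C x = 0) {y : E} (hy : y ≠ 0) : D.Γ y = 0 := by
  have h1 := h _ (F.X_ne_zero 1 hy)
  simp only [core, F.Y_X hE hy] at h1
  ext u v
  have h2 := F.K_apply y (F.P 1 y u) (F.P 1 y v)
  rw [h1, F.R_P 1 hy, F.R_P 1 hy] at h2
  exact F.P_inj 1 hy (by simpa using h2.symm)

end YData.Frames

theorem YData.Γ_eq_zero (D : YData E) (hE : 3 ≤ Module.finrank ℝ E)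
    (hcore : ∀ c : CoreData E, ∀ x, x ≠ 0 → c.C x = 0) {y : E} (hy : y ≠ 0) : D.Γ y = 0 := by
  obtain ⟨F⟩ := D.nonempty_frames hE
  exact F.Γ_eq_zero hE (hcore _) hy

end Pool.Agent.Lib.MP_7dd29b_gt
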