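import Mathlib
import Pool.Agent.Lib.MP_7dd29b_gt.RedCore

/-! From a homogeneous potential with flat Hessian metric to the data `YData`. -/

set_option autoImplicit false

open scoped RealInnerProductSpace Topology
open Set Metric Filter

namespace Pool.Agent.Lib.MP_7dd29b_gt

lemma fderiv_homog {X Y : Type*} [NormedAddCommGroup X] [NormedSpace ℝ X]
    [NormedAddCommGroup Y] [NormedSpace ℝ Y] {g : X → Y} (c : ℝ → ℝ)
    (hd : ∀ y, y ≠ 0 → DifferentiableAt ℝ g y)
    (hh : ∀ y, y ≠ 0 → ∀ s : ℝ, 0 < s → g (s • y) = c s • g y)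
    {y : X} (hy : y ≠ 0) {s : ℝ} (hs : 0 < s) :
    fderiv ℝ g (s • y) = (s⁻¹ * c s) • fderiv ℝ g y := by
  have h1 := (hd _ (smul_ne_zero hs.ne' hy)).hasFDerivAt.comp y
    ((hasFDerivAt_id y).fun_const_smul s)
  have h2 := (hd y hy).hasFDerivAt.fun_const_smul (c s)
  have h3 : (fun z => c s • g z) =ᶠ[𝓝 y] (g ∘ fun z => s • id z) := by
    filter_upwards [isOpen_ne.mem_nhds hy] with z hz using (hh z hz s hs).symm
  have h4 := (h1.congr_of_eventuallyEq h3).unique h2
  ext1 v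
  have h5 := congrArg (fun L : X →L[ℝ] Y => L v) h4
  simp only [ContinuousLinearMap.comp_apply, smul_apply, ContinuousLinearMap.id_apply,
    map_smul] at h5
  rw [smul_apply, mul_smul, ← h5, smul_smul, inv_mul_cancel₀ hs.ne', one_smul]

lemma euler_homog {X Y : Type*} [NormedAddCommGroup X] [NormedSpace ℝ X]
    [NormedAddCommGroup Y] [NormedSpace ℝ Y] {g : X → Y} {c : ℝ → ℝ} {k : ℝ}
    (hc : HasDerivAt c k 1) {y : X} (hd : DifferentiableAt ℝ g y)
    (hh : ∀ s : ℝ, 0 < s → g (s • y) = c s • g y) : fderiv ℝ g y y = k • g y := by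
  have h0 : HasDerivAt (fun s : ℝ => s • y) ((1 : ℝ) • y) 1 := (hasDerivAt_id (1 : ℝ)).smul_const y
  have hd' : HasFDerivAt g (fderiv ℝ g y) ((1 : ℝ) • y) := by simpa using hd.hasFDerivAt
  have h1 := hd'.comp_hasDerivAt (1 : ℝ) h0
  have h2 := hc.smul_const (g y)
  have h3 : (fun s => c s • g y) =ᶠ[𝓝 1] (g ∘ fun s : ℝ => s • y) := by
    filter_upwards [Ioi_mem_nhds one_pos] with s hs using (hh s hs).symm
  simpa using (h1.congr_of_eventuallyEq h3).unique h2

variable {E : Type*} [NormedAddCommGroup E] [InnerProductSpace ℝ E] [FiniteDimensional ℝ E]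

/-- A homogeneous gradient map with flat Hessian metric. -/
structure HData (E : Type*) [NormedAddCommGroup E] [InnerProductSpace ℝ E] where
  g : E → E
  smooth : ∀ y, y ≠ 0 → ContDiffAt ℝ 5 g y
  symm : ∀ y, y ≠ 0 → ∀ a b, ⟪fderiv ℝ g y a, b⟫ = ⟪a, fderiv ℝ g y b⟫
  pos : ∀ y, y ≠ 0 → ∀ a, a ≠ 0 → 0 < ⟪fderiv ℝ g y a, a⟫
  homog : ∀ y, y ≠ 0 → ∀ s : ℝ, 0 < s → g (s • y) = s • g y
  flat : ∀ y, y ≠ 0 → ∀ a b,
    fderiv ℝ (fderiv ℝ g) y a * Ring.inverse (fderiv ℝ g y) * fderiv ℝ (fderiv ℝ g) y b =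
    fderiv ℝ (fderiv ℝ g) y b * Ring.inverse (fderiv ℝ g y) * fderiv ℝ (fderiv ℝ g) y a

namespace HData

variable (H : HData E)

/-- The metric. -/
noncomputable def G : E → E →L[ℝ] E := fderiv ℝ H.g

/-- The cubic form. -/
noncomputable def c : E → E →L[ℝ] E →L[ℝ] E := fderiv ℝ H.G

/-- The inverse metric. -/
noncomputable def W (y : E) : E →L[ℝ] E := Ring.inverse (H.G y)

/-- The Christoffel operators. -/
noncomputable def Γ (y : E) : E →L[ℝ] E →L[ℝ] E :=
  (1 / 2 : ℝ) • (ContinuousLinearMap.mul ℝ (E →L[ℝ] E) (H.W y)).comp (H.c y)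

omit [FiniteDimensional ℝ E] in
lemma Γ_apply (y a : E) : H.Γ y a = (1 / 2 : ℝ) • (H.W y * H.c y a) := by simp [Γ]

omit [FiniteDimensional ℝ E] in
lemma G_smooth {y : E} (hy : y ≠ 0) : ContDiffAt ℝ 4 H.G y :=
  (H.smooth y hy).fderiv_right (by norm_num)

omit [FiniteDimensional ℝ E] in
lemma c_smooth {y : E} (hy : y ≠ 0) : ContDiffAt ℝ 3 H.c y :=
  (H.G_smooth hy).fderiv_right (by norm_num)

omit [FiniteDimensional ℝ E] in
lemma G_deriv {y : E} (hy : y ≠ 0) : HasFDerivAt H.G (H.c y) y :=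
  ((H.G_smooth hy).differentiableAt (by norm_num)).hasFDerivAt

lemma isUnit_G {y : E} (hy : y ≠ 0) : IsUnit (H.G y) := by
  refine isUnit_of_injective ((injective_iff_map_eq_zero _).mpr fun a ha => ?_)
  by_contra h
  have := H.pos y hy a h
  rw [show fderiv ℝ H.g y a = 0 from ha] at this
  simp at this

lemma G_W {y : E} (hy : y ≠ 0) (v : E) : H.G y (H.W y v) = v :=
  congrArg (fun L : E →L[ℝ] E => L v) (Ring.mul_inverse_cancel _ (H.isUnit_G hy))

lemma W_smooth {y : E} (hy : y ≠ 0) : ContDiffAt ℝ 3 H.W y := by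
  have : CompleteSpace E := FiniteDimensional.complete ℝ E
  obtain ⟨g, hg⟩ := H.isUnit_G hy
  have h0 := contDiffAt_ringInverse ℝ (n := 3) g
  rw [hg] at h0
  exact h0.comp y ((H.G_smooth hy).of_le (by norm_num))

lemma W_deriv {y : E} (hy : y ≠ 0) (a : E) :
    fderiv ℝ H.W y a = -(H.W y * H.c y a * H.W y) := by
  have : CompleteSpace E := FiniteDimensional.complete ℝ E
  obtain ⟨g, hg⟩ := H.isUnit_G hy
  have h0 := hasFDerivAt_ringInverse (𝕜 := ℝ) g
  rw [hg] at h0
  have h1 : HasFDerivAt H.W _ y := h0.comp y (H.G_deriv hy)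
  rw [h1.fderiv]
  simp [W, ← hg]

omit [FiniteDimensional ℝ E] in
lemma c_comm {y : E} (hy : y ≠ 0) (a b : E) : H.c y a b = H.c y b a :=
  (H.smooth y hy).isSymmSndFDerivAt (by simp; norm_num) a b

omit [FiniteDimensional ℝ E] in
lemma c_selfadj {y : E} (hy : y ≠ 0) (a b d : E) : ⟪H.c y a b, d⟫ = ⟪b, H.c y a d⟫ := by
  have h1 := ((H.G_deriv hy).clm_apply (hasFDerivAt_const b y)).inner ℝ (hasFDerivAt_const d y)
  have h2 := (hasFDerivAt_const b y).inner ℝ ((H.G_deriv hy).clm_apply (hasFDerivAt_const d y))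
  have h3 : (fun z => ⟪H.G z b, d⟫) =ᶠ[𝓝 y] fun z => ⟪b, H.G z d⟫ := by
    filter_upwards [isOpen_ne.mem_nhds hy] with z hz using H.symm z hz b d
  have h4 := congrArg (fun L : E →L[ℝ] ℝ => L a) (h1.unique (h2.congr_of_eventuallyEq h3))
  simpa using h4

omit [FiniteDimensional ℝ E] in
lemma G_homog {y : E} (hy : y ≠ 0) {s : ℝ} (hs : 0 < s) : H.G (s • y) = H.G y := by
  have := fderiv_homog (fun s => s) (fun y hy => (H.smooth y hy).differentiableAt (by norm_num))
    H.homog hy hs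
  rwa [inv_mul_cancel₀ hs.ne', one_smul] at this

omit [FiniteDimensional ℝ E] in
lemma c_homog {y : E} (hy : y ≠ 0) {s : ℝ} (hs : 0 < s) : H.c (s • y) = s⁻¹ • H.c y := by
  have := fderiv_homog (fun _ => 1) (fun y hy => (H.G_deriv hy).differentiableAt)
    (fun y hy s hs => by rw [one_smul, H.G_homog hy hs]) hy hs
  rwa [mul_one] at this

omit [FiniteDimensional ℝ E] in
lemma c_euler {y : E} (hy : y ≠ 0) : H.c y y = 0 := by
  have := euler_homog (hasDerivAt_const (1 : ℝ) (1 : ℝ)) (H.G_deriv hy).differentiableAt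
    (fun s hs => by rw [one_smul, H.G_homog hy hs])
  rwa [zero_smul] at this

omit [FiniteDimensional ℝ E] in
lemma g_euler {y : E} (hy : y ≠ 0) : H.G y y = H.g y := by
  have := euler_homog (hasDerivAt_id (1 : ℝ)) ((H.smooth y hy).differentiableAt (by norm_num))
    (H.homog y hy)
  rwa [one_smul] at this

lemma Γ_smooth {y : E} (hy : y ≠ 0) : ContDiffAt ℝ 3 H.Γ y :=
  ContDiffAt.const_smul (1 / 2 : ℝ)
    ((contDiffAt_mul_alg (H.W_smooth hy)).clm_comp (H.c_smooth hy))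

lemma Γ_deriv {y : E} (hy : y ≠ 0) (a b : E) : fderiv ℝ H.Γ y a b =
    (1 / 2 : ℝ) • (H.W y * fderiv ℝ H.c y a b - H.W y * (H.c y a * H.W y * H.c y b)) := by
  have hΓ := ((H.Γ_smooth hy).differentiableAt (by norm_num)).hasFDerivAt
  have hW := ((H.W_smooth hy).differentiableAt (by norm_num)).hasFDerivAt
  have hc := ((H.c_smooth hy).differentiableAt (by norm_num)).hasFDerivAt
  have h1 := hΓ.clm_apply (hasFDerivAt_const b y)
  have h2 := (hW.fun_mul' (hc.clm_apply (hasFDerivAt_const b y))).fun_const_smul (1 / 2 : ℝ)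
  simp only [Γ_apply] at h1
  have h3 := congrArg (fun L : E →L[ℝ] E →L[ℝ] E => L a) (h1.unique h2)
  simp at h3
  rw [h3, H.W_deriv hy]
  simp [mul_assoc, sub_eq_add_neg]

/-- The data of the Hessian metric. -/
noncomputable def toY : YData E where
  G := H.G
  Γ := H.Γ
  smoothΓ y hy := H.Γ_smooth hy
  symm := H.symm
  pos := H.pos
  dG y hy := by
    refine (H.G_deriv hy).congr_fderiv ?_
    ext a b
    simp [Γ_apply, H.G_W hy, smul_smul]
  comm y hy a b := by simp [Γ_apply, H.c_comm hy a b]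
  selfadj y hy a b d := by
    have h := H.symm y hy b (H.W y (H.c y a d))
    have h' := H.G_W hy (H.c y a d)
    simp only [G] at h'
    simp only [Γ_apply, smul_apply, mul_apply_eq_comp, map_smul, H.G_W hy, inner_smul_left,
      inner_smul_right, H.c_selfadj hy a b d, conj_trivial]
    rw [G, h, h']
  commute y hy a b := by
    have h := H.flat y hy a b
    simp only [Γ_apply, smul_mul_smul_comm]
    congr 1
    have h2 := congrArg (fun T => H.W y * T) h
    simp only [mul_assoc] at h2 ⊢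
    exact h2
  euler y hy := by simp [Γ_apply, H.c_euler hy]
  dsymm y hy a b := by
    have h := H.flat y hy a b
    have h2 : fderiv ℝ H.c y a b = fderiv ℝ H.c y b a :=
      (H.G_smooth hy).isSymmSndFDerivAt (by simp; norm_num) a b
    rw [H.Γ_deriv hy, H.Γ_deriv hy, h2]
    congr 3
  homogΓ y hy s hs := by
    ext a b
    simp [Γ_apply, W, H.G_homog hy hs, H.c_homog hy hs, smul_smul, mul_comm]

theorem G_const (hE : 3 ≤ Module.finrank ℝ E)
    (hcore : ∀ c : CoreData E, ∀ x, x ≠ 0 → c.C x = 0) {y z : E} (hy : y ≠ 0) (hz : z ≠ 0) :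
    H.G y = H.G z := by
  refine isOpen_ne.is_const_of_fderiv_eq_zero (𝕜 := ℝ) (preconnected_ne_zero hE)
    (fun x hx => (H.G_deriv hx).differentiableAt.differentiableWithinAt) (fun x hx => ?_) hy hz
  have h := (H.toY.dG x hx).fderiv
  rw [H.toY.Γ_eq_zero hE hcore hx] at h
  exact h.trans (by simp)

end HData

end Pool.Agent.Lib.MP_7dd29b_gt
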