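import Mathlib
import Pool.Agent.Lib.MP_7dd29b_gt.RedHess

/-! Translation of the coordinate statement. -/

set_option autoImplicit false

open scoped RealInnerProductSpace Topology
open Set Metric Filter Matrix

namespace Pool.Agent.Lib.MP_7dd29b_gt

section Grad

variable {E : Type*} [NormedAddCommGroup E] [InnerProductSpace ℝ E] [CompleteSpace E]
  {f : E → ℝ} {y : E}

lemma contDiffAt_gradient (hf : ContDiffAt ℝ 6 f y) : ContDiffAt ℝ 5 (gradient f) y :=
  (InnerProductSpace.toDual ℝ E).symm.contDiff.contDiffAt.comp y (hf.fderiv_right (by norm_num))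

lemma inner_hess (hf : ContDiffAt ℝ 6 f y) (a b : E) :
    ⟪fderiv ℝ (gradient f) y a, b⟫ = iteratedFDeriv ℝ 2 f y ![a, b] := by
  have h1 := ((contDiffAt_gradient hf).differentiableAt (by norm_num)).hasFDerivAt.inner ℝ
    (hasFDerivAt_const b y)
  have h2 := ((hf.fderiv_right (m := 1) (by norm_num)).differentiableAt
    (by norm_num)).hasFDerivAt.clm_apply (hasFDerivAt_const b y)
  simp only [inner_gradient_left] at h1
  have h3 := congrArg (fun L : E →L[ℝ] ℝ => L a) (h1.unique h2)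
  rw [iteratedFDeriv_two_apply]
  simpa using h3

lemma inner_third (hf : ContDiffAt ℝ 6 f y) (a b d : E) :
    ⟪fderiv ℝ (fderiv ℝ (gradient f)) y a b, d⟫ = iteratedFDeriv ℝ 3 f y ![a, b, d] := by
  have h0 := (((contDiffAt_gradient hf).fderiv_right (m := 1) (by norm_num)).differentiableAt
    (by norm_num)).hasFDerivAt
  have h1 := (h0.clm_apply (hasFDerivAt_const b y)).inner ℝ (hasFDerivAt_const d y)
  have h2 : (fun z => iteratedFDeriv ℝ 2 f z ![b, d]) =ᶠ[𝓝 y]
      fun z => ⟪fderiv ℝ (gradient f) z b, d⟫ := by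
    filter_upwards [hf.eventually (by simp)] with z hz using (inner_hess hz b d).symm
  rw [(hf.differentiableAt_iteratedFDeriv (m := 2)
    (by norm_num)).iteratedFDeriv_succ_apply_left']
  have h3 : Fin.tail ![a, b, d] = ![b, d] := rfl
  rw [h3, (h1.congr_of_eventuallyEq h2).fderiv]
  simp

end Grad

section Coord

variable {n : ℕ}

lemma iterated_ofLp (φ : (Fin n → ℝ) → ℝ) (k : ℕ) (y : EuclideanSpace ℝ (Fin n))
    (m : Fin k → EuclideanSpace ℝ (Fin n)) :
    iteratedFDeriv ℝ k (fun z : EuclideanSpace ℝ (Fin n) => φ z.ofLp) y m =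
      iteratedFDeriv ℝ k φ y.ofLp (fun i => (m i).ofLp) := by
  have h := (EuclideanSpace.equiv (Fin n) ℝ).iteratedFDerivWithin_comp_right φ uniqueDiffOn_univ
    (mem_univ (EuclideanSpace.equiv (Fin n) ℝ y)) k
  rw [preimage_univ, iteratedFDerivWithin_univ, iteratedFDerivWithin_univ] at h
  exact congrArg (fun L => L m) h

lemma clm_eq_toEuclidean (T : EuclideanSpace ℝ (Fin n) →L[ℝ] EuclideanSpace ℝ (Fin n))
    (M : Matrix (Fin n) (Fin n) ℝ)
    (h : ∀ i j, ⟪EuclideanSpace.single i (1 : ℝ), T (EuclideanSpace.single j (1 : ℝ))⟫ = M i j) :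
    T = toEuclideanCLM (𝕜 := ℝ) M := by
  refine ContinuousLinearMap.coe_injective
    ((EuclideanSpace.basisFun (Fin n) ℝ).toBasis.ext fun j => ?_)
  ext i
  have := h i j
  rw [EuclideanSpace.inner_single_left] at this
  simpa [ofLp_toEuclideanCLM] using this

lemma expand_basis {B : Type*} [NormedAddCommGroup B] [NormedSpace ℝ B]
    (c : EuclideanSpace ℝ (Fin n) →L[ℝ] B) (a : EuclideanSpace ℝ (Fin n)) :
    c a = ∑ k, a k • c (EuclideanSpace.single k (1 : ℝ)) := by
  conv_lhs => rw [← (EuclideanSpace.basisFun (Fin n) ℝ).sum_repr a]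
  simp

end Coord

theorem main_of_core (n : ℕ) (hn : 3 ≤ n)
    (hcore : ∀ c : CoreData (EuclideanSpace ℝ (Fin n)), ∀ x, x ≠ 0 → c.C x = 0)
    (φ : (Fin n → ℝ) → ℝ) (hs : ∀ x, x ≠ 0 → ContDiffAt ℝ 6 φ x)
    (hh : ∀ x, ∀ t : ℝ, 0 < t → φ (t • x) = t ^ 2 * φ x)
    (hpos : ∀ x : Fin n → ℝ, x ≠ 0 →
      (Matrix.of fun i j : Fin n => iteratedFDeriv ℝ 2 φ x
          ![(Pi.single i (1 : ℝ) : Fin n → ℝ), (Pi.single j (1 : ℝ) : Fin n → ℝ)]).PosDef)
    (hflat : ∀ x : Fin n → ℝ, x ≠ 0 → ∀ i j k l : Fin n,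
      ∑ p : Fin n, ∑ q : Fin n,
        (Matrix.of fun a b : Fin n => iteratedFDeriv ℝ 2 φ x
            ![(Pi.single a (1 : ℝ) : Fin n → ℝ), (Pi.single b (1 : ℝ) : Fin n → ℝ)])⁻¹ p q *
        (iteratedFDeriv ℝ 3 φ x
            ![(Pi.single i (1 : ℝ) : Fin n → ℝ), (Pi.single k (1 : ℝ) : Fin n → ℝ),
              (Pi.single p (1 : ℝ) : Fin n → ℝ)] *
          iteratedFDeriv ℝ 3 φ x
            ![(Pi.single j (1 : ℝ) : Fin n → ℝ), (Pi.single l (1 : ℝ) : Fin n → ℝ),
              (Pi.single q (1 : ℝ) : Fin n → ℝ)] -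
         iteratedFDeriv ℝ 3 φ x
            ![(Pi.single i (1 : ℝ) : Fin n → ℝ), (Pi.single l (1 : ℝ) : Fin n → ℝ),
              (Pi.single p (1 : ℝ) : Fin n → ℝ)] *
          iteratedFDeriv ℝ 3 φ x
            ![(Pi.single j (1 : ℝ) : Fin n → ℝ), (Pi.single k (1 : ℝ) : Fin n → ℝ),
              (Pi.single q (1 : ℝ) : Fin n → ℝ)]) = 0) :
    ∃ A : Matrix (Fin n) (Fin n) ℝ, A.PosDef ∧
      ∀ x : Fin n → ℝ, x ≠ 0 → 2 * φ x = x ⬝ᵥ A *ᵥ x := by
  set f : EuclideanSpace ℝ (Fin n) → ℝ := fun z => φ z.ofLp with hf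
  have hne : ∀ y : EuclideanSpace ℝ (Fin n), y ≠ 0 → y.ofLp ≠ 0 := fun y hy h =>
    hy (by ext i; simpa using congrFun h i)
  have hfs : ∀ y, y ≠ 0 → ContDiffAt ℝ 6 f y := fun y hy =>
    (hs _ (hne y hy)).comp y (EuclideanSpace.equiv (Fin n) ℝ).contDiff.contDiffAt
  have hfh : ∀ y, y ≠ 0 → ∀ t : ℝ, 0 < t → f (t • y) = (t ^ 2) • f y := fun y _ t ht => by
    simp [hf, hh _ t ht]
  set M : EuclideanSpace ℝ (Fin n) → Matrix (Fin n) (Fin n) ℝ := fun y =>
    Matrix.of fun i j : Fin n => iteratedFDeriv ℝ 2 φ y.ofLp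
      ![(Pi.single i (1 : ℝ) : Fin n → ℝ), (Pi.single j (1 : ℝ) : Fin n → ℝ)] with hM
  have hsymm : ∀ y, y ≠ 0 → ∀ a b,
      ⟪fderiv ℝ (gradient f) y a, b⟫ = ⟪a, fderiv ℝ (gradient f) y b⟫ := by
    intro y hy a b
    rw [real_inner_comm _ a, inner_hess (hfs y hy), inner_hess (hfs y hy),
      iteratedFDeriv_two_apply, iteratedFDeriv_two_apply]
    exact (hfs y hy).isSymmSndFDerivAt (by simp; norm_num) a b
  have hG : ∀ y, y ≠ 0 → fderiv ℝ (gradient f) y = toEuclideanCLM (𝕜 := ℝ) (M y) := by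
    intro y hy
    refine clm_eq_toEuclidean _ _ fun i j => ?_
    rw [← hsymm y hy, inner_hess (hfs y hy), hf, iterated_ofLp]
    simp only [hM, of_apply]
    congr 1
    ext1 r
    fin_cases r <;> simp
  have hT : ∀ y, y ≠ 0 → ∀ i k p : Fin n,
      (fderiv ℝ (fderiv ℝ (gradient f)) y (EuclideanSpace.single i 1)
        (EuclideanSpace.single k 1)).ofLp p = iteratedFDeriv ℝ 3 φ y.ofLp
        ![(Pi.single i (1 : ℝ) : Fin n → ℝ), (Pi.single k (1 : ℝ) : Fin n → ℝ),
              (Pi.single p (1 : ℝ) : Fin n → ℝ)] := by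
    intro y hy i k p
    have h := inner_third (hfs y hy) (EuclideanSpace.single i 1) (EuclideanSpace.single k 1)
      (EuclideanSpace.single p 1)
    rw [EuclideanSpace.inner_single_right, hf, iterated_ofLp] at h
    simp only [conj_trivial, one_mul] at h
    rw [h]
    congr 1
    ext1 r
    fin_cases r <;> simp
  have hW : ∀ y, y ≠ 0 →
      Ring.inverse (fderiv ℝ (gradient f) y) = toEuclideanCLM (𝕜 := ℝ) (M y)⁻¹ := by
    intro y hy
    have hu : IsUnit (M y) := (hpos _ (hne y hy)).isUnit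
    have h1 : fderiv ℝ (gradient f) y * toEuclideanCLM (𝕜 := ℝ) (M y)⁻¹ = 1 := by
      rw [hG y hy, ← map_mul, mul_nonsing_inv _ ((isUnit_iff_isUnit_det _).mp hu), map_one]
    have h2 : IsUnit (fderiv ℝ (gradient f) y) := by
      rw [hG y hy]; exact hu.map _
    rw [← mul_one (Ring.inverse _), ← h1, ← mul_assoc, Ring.inverse_mul_cancel _ h2, one_mul]
  have hgs : ∀ y, y ≠ 0 → ContDiffAt ℝ 5 (gradient f) y := fun y hy =>
    contDiffAt_gradient (hfs y hy)
  have hcs : ∀ y, y ≠ 0 → ∀ a b d, ⟪fderiv ℝ (fderiv ℝ (gradient f)) y a b, d⟫ =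
      ⟪b, fderiv ℝ (fderiv ℝ (gradient f)) y a d⟫ := by
    intro y hy a b d
    have hd := (((hgs y hy).fderiv_right (m := 1) (by norm_num)).differentiableAt
      (by norm_num)).hasFDerivAt
    have h1 := (hd.clm_apply (hasFDerivAt_const b y)).inner ℝ (hasFDerivAt_const d y)
    have h2 := (hasFDerivAt_const b y).inner ℝ (hd.clm_apply (hasFDerivAt_const d y))
    have h3 : (fun z => ⟪fderiv ℝ (gradient f) z b, d⟫) =ᶠ[𝓝 y]
        fun z => ⟪b, fderiv ℝ (gradient f) z d⟫ := by
      filter_upwards [isOpen_ne.mem_nhds hy] with z hz using hsymm z hz b d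
    simpa using congrArg (fun L : _ →L[ℝ] ℝ => L a) (h1.unique (h2.congr_of_eventuallyEq h3))
  let H : HData (EuclideanSpace ℝ (Fin n)) :=
    { g := gradient f
      smooth := hgs
      symm := hsymm
      pos := fun y hy a ha => by
        rw [real_inner_comm, hG y hy, inner_toEuclideanCLM]
        simpa using (hpos _ (hne y hy)).dotProduct_mulVec_pos (hne a ha)
      homog := fun y hy s hs => by
        have h := fderiv_homog (fun t => t ^ 2)
          (fun y hy => (hfs y hy).differentiableAt (by norm_num)) hfh hy hs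
        refine ext_inner_right ℝ fun v => ?_
        rw [inner_smul_left, inner_gradient_left, inner_gradient_left, h]
        simp only [_root_.smul_apply, smul_eq_mul, conj_trivial]
        field_simp
      flat := fun y hy a b => by
        set c := fderiv ℝ (fderiv ℝ (gradient f)) y with hc
        have hcc : ∀ a b, c a b = c b a := fun a b =>
          (hgs y hy).isSymmSndFDerivAt (by simp; norm_num) a b
        have key : ∀ k l : Fin n, c (EuclideanSpace.single k 1) *
            Ring.inverse (fderiv ℝ (gradient f) y) * c (EuclideanSpace.single l 1) =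
            c (EuclideanSpace.single l 1) * Ring.inverse (fderiv ℝ (gradient f) y) *
              c (EuclideanSpace.single k 1) := by
          intro k l
          have e : ∀ k l i j : Fin n, ⟪EuclideanSpace.single i (1 : ℝ),
              (c (EuclideanSpace.single k 1) * Ring.inverse (fderiv ℝ (gradient f) y) *
                c (EuclideanSpace.single l 1)) (EuclideanSpace.single j 1)⟫ =
              ∑ p, ∑ q, (M y)⁻¹ p q *
                ((c (EuclideanSpace.single i 1) (EuclideanSpace.single k 1)).ofLp p *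
                (c (EuclideanSpace.single j 1) (EuclideanSpace.single l 1)).ofLp q) := by
            intro k l i j
            simp only [mul_apply_eq_comp]
            rw [← hcs y hy, hW y hy, inner_toEuclideanCLM, hcc _ (EuclideanSpace.single i 1),
              hcc _ (EuclideanSpace.single j 1)]
            simp only [dotProduct, mulVec, Finset.mul_sum]
            refine Finset.sum_congr rfl fun p _ => Finset.sum_congr rfl fun q _ => by ring
          rw [clm_eq_toEuclidean _ (Matrix.of fun i j => _) (e k l),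
            clm_eq_toEuclidean _ (Matrix.of fun i j => _) (e l k)]
          congr 1
          ext i j
          have h := hflat _ (hne y hy) i j k l
          simp only [mul_sub, Finset.sum_sub_distrib, sub_eq_zero] at h
          simp only [of_apply, hc, hT y hy]
          exact h
        rw [expand_basis c a, expand_basis c b]
        simp only [Finset.sum_mul, Finset.mul_sum, smul_mul_assoc, mul_smul_comm,
          Finset.smul_sum]
        rw [Finset.sum_comm]
        refine Finset.sum_congr rfl fun p _ => Finset.sum_congr rfl fun q _ => ?_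
        rw [smul_comm, key] }
  have hE : 3 ≤ Module.finrank ℝ (EuclideanSpace ℝ (Fin n)) := by simpa using hn
  have : Nontrivial (EuclideanSpace ℝ (Fin n)) :=
    Module.nontrivial_of_finrank_pos (R := ℝ) (by omega)
  obtain ⟨y₀, hy₀⟩ := exists_ne (0 : EuclideanSpace ℝ (Fin n))
  refine ⟨M y₀, hpos _ (hne _ hy₀), fun x hx => ?_⟩
  have hx' : (WithLp.toLp 2 x : EuclideanSpace ℝ (Fin n)) ≠ 0 := fun h =>
    hx (by simpa using congrArg WithLp.ofLp h)
  have h1 := H.G_const hE hcore hx' hy₀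
  have h2 := H.g_euler hx'
  have h3 := euler_homog (c := fun t : ℝ => t ^ 2) (k := 2)
    (by simpa using hasDerivAt_pow 2 (1 : ℝ)) ((hfs _ hx').differentiableAt (by norm_num))
    (hfh _ hx')
  rw [h1, show H.G y₀ = _ from hG y₀ hy₀] at h2
  have h4 := inner_toEuclideanCLM (M y₀) (WithLp.toLp 2 x) (WithLp.toLp 2 x)
  rw [h2, real_inner_comm, show H.g = gradient f from rfl, inner_gradient_left, h3] at h4
  simpa [hf] using h4

/-- The coordinate statement in dimension `n` follows from the core rigidity statement. -/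
theorem statement_of_core (n : ℕ) (hn : 3 ≤ n)
    (hcore : ∀ c : CoreData (EuclideanSpace ℝ (Fin n)), ∀ x, x ≠ 0 → c.C x = 0) :
    ∀ F : (Fin n → ℝ) → ℝ,
    ContDiffOn ℝ ((⊤ : ℕ∞) : WithTop ℕ∞) F {x | x ≠ 0} →
    (∀ x : Fin n → ℝ, x ≠ 0 → 0 < F x) →
    (∀ (t : ℝ) (x : Fin n → ℝ), 0 ≤ t → F (t • x) = t * F x) →
    (∀ x : Fin n → ℝ, x ≠ 0 →
      (Matrix.of fun i j : Fin n =>
        iteratedFDeriv ℝ 2 (fun y : Fin n → ℝ => F y ^ 2 / 2) x
          ![(Pi.single i (1 : ℝ) : Fin n → ℝ), (Pi.single j (1 : ℝ) : Fin n → ℝ)]).PosDef) →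
    (∀ x : Fin n → ℝ, x ≠ 0 → ∀ i j k l : Fin n,
      ∑ p : Fin n, ∑ q : Fin n,
        (Matrix.of fun a b : Fin n =>
          iteratedFDeriv ℝ 2 (fun y : Fin n → ℝ => F y ^ 2 / 2) x
            ![(Pi.single a (1 : ℝ) : Fin n → ℝ), (Pi.single b (1 : ℝ) : Fin n → ℝ)])⁻¹ p q *
        (iteratedFDeriv ℝ 3 (fun y : Fin n → ℝ => F y ^ 2 / 2) x
            ![(Pi.single i (1 : ℝ) : Fin n → ℝ), (Pi.single k (1 : ℝ) : Fin n → ℝ),
              (Pi.single p (1 : ℝ) : Fin n → ℝ)] *
          iteratedFDeriv ℝ 3 (fun y : Fin n → ℝ => F y ^ 2 / 2) x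
            ![(Pi.single j (1 : ℝ) : Fin n → ℝ), (Pi.single l (1 : ℝ) : Fin n → ℝ),
              (Pi.single q (1 : ℝ) : Fin n → ℝ)] -
         iteratedFDeriv ℝ 3 (fun y : Fin n → ℝ => F y ^ 2 / 2) x
            ![(Pi.single i (1 : ℝ) : Fin n → ℝ), (Pi.single l (1 : ℝ) : Fin n → ℝ),
              (Pi.single p (1 : ℝ) : Fin n → ℝ)] *
          iteratedFDeriv ℝ 3 (fun y : Fin n → ℝ => F y ^ 2 / 2) x
            ![(Pi.single j (1 : ℝ) : Fin n → ℝ), (Pi.single k (1 : ℝ) : Fin n → ℝ),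
              (Pi.single q (1 : ℝ) : Fin n → ℝ)]) = 0) →
    ∃ A : Matrix (Fin n) (Fin n) ℝ, A.PosDef ∧ ∀ x : Fin n → ℝ, F x = Real.sqrt (x ⬝ᵥ A *ᵥ x) := by
  intro F hs hp hh hpos hflat
  obtain ⟨A, hA, hF⟩ := main_of_core n hn hcore (fun y => F y ^ 2 / 2)
    (fun x hx => (((hs.contDiffAt (isOpen_ne.mem_nhds hx)).of_le
      (WithTop.coe_le_coe.mpr (le_top : (6 : ℕ∞) ≤ ⊤))).pow 2).div_const 2)
    (fun x t ht => by rw [hh t x ht.le]; ring) hpos hflat
  refine ⟨A, hA, fun x => ?_⟩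
  by_cases hx : x = 0
  · have := hh 0 x le_rfl
    rw [zero_smul, zero_mul] at this
    simp [hx, this]
  · rw [← hF x hx, show 2 * (F x ^ 2 / 2) = F x ^ 2 by ring, Real.sqrt_sq (hp x hx).le]

end Pool.Agent.Lib.MP_7dd29b_gt
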