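import Pool.Agent.Lib.MP_7dd29b_gt.H42Defs
import Pool.Agent.Lib.MP_7dd29b_gt.RedFrozen
import Pool.Agent.Lib.MP_7dd29b_gt.Core

/-! The curvature tensor of a Hessian metric in terms of third derivatives. -/

open scoped Topology ContDiff
open Filter Matrix

namespace Pool.Agent.Lib.MP_7dd29b_gt.Riem

variable {n : ℕ}

/-- Smooth away from the origin. -/
def Sm (f : (Fin n → ℝ) → ℝ) : Prop := ∀ y, y ≠ 0 → ContDiffAt ℝ ∞ f y

theorem Sm.diff {f : (Fin n → ℝ) → ℝ} (h : Sm f) {y : Fin n → ℝ} (hy : y ≠ 0) :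
    DifferentiableAt ℝ f y := (h y hy).differentiableAt (by simp)

theorem Sm.pd {f : (Fin n → ℝ) → ℝ} (h : Sm f) (i : Fin n) : Sm (pd i f) := fun y hy =>
  ((h y hy).fderiv_right (m := ∞) (by simp)).clm_apply contDiffAt_const

theorem pd_congr {f g : (Fin n → ℝ) → ℝ} (h : ∀ z, z ≠ 0 → f z = g z) (i : Fin n)
    {y : Fin n → ℝ} (hy : y ≠ 0) : pd i f y = pd i g y := by
  have : f =ᶠ[𝓝 y] g := by
    filter_upwards [isOpen_ne.mem_nhds hy] with z hz using h z hz
  rw [pd, pd, this.fderiv_eq]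

theorem iter_succ {f : (Fin n → ℝ) → ℝ} (h : Sm f) (k : ℕ) {y : Fin n → ℝ} (hy : y ≠ 0)
    (m : Fin (k + 1) → Fin n → ℝ) : iteratedFDeriv ℝ (k + 1) f y m =
      fderiv ℝ (fun z => iteratedFDeriv ℝ k f z (Fin.tail m)) y (m 0) :=
  ((h y hy).differentiableAt_iteratedFDeriv (m := k)
    (by exact_mod_cast ENat.natCast_lt_top k)).iteratedFDeriv_succ_apply_left'

theorem iter2 {f : (Fin n → ℝ) → ℝ} (h : Sm f) (i j : Fin n) {y : Fin n → ℝ} (hy : y ≠ 0) :
    iteratedFDeriv ℝ 2 f y ![Pi.single i 1, Pi.single j 1] = pd i (pd j f) y := by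
  rw [iter_succ h 1 hy]
  refine pd_congr (fun z _ => ?_) i hy
  rw [iteratedFDeriv_one_apply]
  rfl

theorem iter3 {f : (Fin n → ℝ) → ℝ} (h : Sm f) (i j k : Fin n) {y : Fin n → ℝ} (hy : y ≠ 0) :
    iteratedFDeriv ℝ 3 f y ![Pi.single i 1, Pi.single j 1, Pi.single k 1] =
      pd i (pd j (pd k f)) y := by
  rw [iter_succ h 2 hy]
  exact pd_congr (fun z hz => iter2 h j k hz) i hy

theorem pd_comm {f : (Fin n → ℝ) → ℝ} (h : Sm f) (i j : Fin n) {y : Fin n → ℝ} (hy : y ≠ 0) :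
    pd i (pd j f) y = pd j (pd i f) y := by
  rw [← iter2 h i j hy, ← iter2 h j i hy, iteratedFDeriv_two_apply, iteratedFDeriv_two_apply]
  exact (h y hy).isSymmSndFDerivAt 
    (by simpa using WithTop.coe_le_coe.mpr (le_top : (2 : ℕ∞) ≤ ⊤)) _ _

theorem pd_const_mul {f : (Fin n → ℝ) → ℝ} (c : ℝ) (i : Fin n) {y : Fin n → ℝ}
    (h : DifferentiableAt ℝ f y) : pd i (fun x => c * f x) y = c * pd i f y := by
  rw [pd, fderiv_const_mul h]
  rfl

theorem pd_sum_mul {f g : Fin n → (Fin n → ℝ) → ℝ} (i : Fin n) {y : Fin n → ℝ}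
    (hf : ∀ k, DifferentiableAt ℝ (f k) y) (hg : ∀ k, DifferentiableAt ℝ (g k) y) :
    pd i (fun x => ∑ k, f k x * g k x) y = ∑ k, (pd i (f k) y * g k y + f k y * pd i (g k) y) := by
  rw [pd, fderiv_fun_sum fun k _ => (hf k).fun_mul (hg k), _root_.sum_apply]
  refine Finset.sum_congr rfl fun k _ => ?_
  rw [fderiv_fun_mul (hf k) (hg k)]
  simp only [_root_.add_apply, _root_.smul_apply, smul_eq_mul, pd]
  ring

theorem diff_det {M : (Fin n → ℝ) → Matrix (Fin n) (Fin n) ℝ} {y : Fin n → ℝ}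
    (h : ∀ i j, DifferentiableAt ℝ (fun x => M x i j) y) :
    DifferentiableAt ℝ (fun x => (M x).det) y := by
  simp only [Matrix.det_apply']
  exact DifferentiableAt.fun_sum fun σ _ =>
    (HasFDerivAt.finsetProd fun i _ => (h (σ i) i).hasFDerivAt).differentiableAt.const_mul _

theorem diff_inv {M : (Fin n → ℝ) → Matrix (Fin n) (Fin n) ℝ} {y : Fin n → ℝ}
    (h : ∀ i j, DifferentiableAt ℝ (fun x => M x i j) y) (h0 : (M y).det ≠ 0) (i j : Fin n) :
    DifferentiableAt ℝ (fun x => (M x)⁻¹ i j) y := by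
  simp only [Matrix.inv_def, Ring.inverse_eq_inv', Matrix.smul_apply, smul_eq_mul,
    Matrix.adjugate_apply]
  refine ((diff_det h).inv h0).mul (diff_det fun a b => ?_)
  by_cases ha : a = j
  · simp [ha]
  · simpa [Matrix.updateRow_ne ha] using h a b

theorem christoffel_congr {g g' : (Fin n → ℝ) → Matrix (Fin n) (Fin n) ℝ}
    (h : ∀ z, z ≠ 0 → g z = g' z) (k i j : Fin n) {y : Fin n → ℝ} (hy : y ≠ 0) :
    christoffel g k i j y = christoffel g' k i j y := by
  have e : ∀ a b c, pd a (fun x => g x b c) y = pd a (fun x => g' x b c) y := fun a b c =>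
    pd_congr (fun z hz => by rw [h z hz]) a hy
  simp only [christoffel, e, h y hy]

theorem riemann_congr {g g' : (Fin n → ℝ) → Matrix (Fin n) (Fin n) ℝ}
    (h : ∀ z, z ≠ 0 → g z = g' z) (l i j k : Fin n) {y : Fin n → ℝ} (hy : y ≠ 0) :
    riemann g l i j k y = riemann g' l i j k y := by
  have e : ∀ a b c d, pd a (christoffel g b c d) y = pd a (christoffel g' b c d) y :=
    fun a b c d => pd_congr (fun z hz => christoffel_congr h b c d hz) a hy
  simp only [riemann, e, christoffel_congr h _ _ _ hy]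

/-- The matrix of second derivatives. -/
noncomputable def hes (φ : (Fin n → ℝ) → ℝ) (y : Fin n → ℝ) : Matrix (Fin n) (Fin n) ℝ :=
  Matrix.of fun i j => pd i (pd j φ) y

section Main

variable {φ : (Fin n → ℝ) → ℝ} (h : Sm φ) (hd : ∀ y, y ≠ 0 → (hes φ y).det ≠ 0)

include h in
theorem third_swap (i j k : Fin n) {y : Fin n → ℝ} (hy : y ≠ 0) :
    pd i (pd j (pd k φ)) y = pd i (pd k (pd j φ)) y :=
  pd_congr (fun _ hz => pd_comm h j k hz) i hy

include h in
theorem chr_eq (k i j : Fin n) {y : Fin n → ℝ} (hy : y ≠ 0) : christoffel (hes φ) k i j y =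
    1 / 2 * ∑ l, (hes φ y)⁻¹ k l * pd i (pd j (pd l φ)) y := by
  unfold christoffel
  congr 1
  refine Finset.sum_congr rfl fun l _ => ?_
  congr 1
  change pd i (pd j (pd l φ)) y + pd j (pd i (pd l φ)) y - pd l (pd i (pd j φ)) y = _
  rw [pd_comm (h.pd l) j i hy, pd_comm (h.pd j) l i hy, third_swap h i l j hy]
  ring

include h hd in
theorem chr_diff (k i j : Fin n) {y : Fin n → ℝ} (hy : y ≠ 0) :
    DifferentiableAt ℝ (christoffel (hes φ) k i j) y := by
  have e : christoffel (hes φ) k i j =ᶠ[𝓝 y]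
      fun z => 1 / 2 * ∑ l, (hes φ z)⁻¹ k l * pd i (pd j (pd l φ)) z := by
    filter_upwards [isOpen_ne.mem_nhds hy] with z hz using chr_eq h k i j hz
  refine DifferentiableAt.congr_of_eventuallyEq ?_ e
  exact (DifferentiableAt.fun_sum fun l _ => (diff_inv (M := hes φ)
    (fun a b => ((h.pd b).pd a).diff hy) (hd y hy) k l).mul
      ((((h.pd l).pd j).pd i).diff hy)).const_mul _

include h hd in
theorem low (a i j : Fin n) {y : Fin n → ℝ} (hy : y ≠ 0) :
    ∑ k, hes φ y a k * christoffel (hes φ) k i j y = 1 / 2 * pd i (pd j (pd a φ)) y := by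
  have e : ∀ l, ∑ k, hes φ y a k * (hes φ y)⁻¹ k l = if a = l then 1 else 0 := fun l => by
    rw [← Matrix.mul_apply, Matrix.mul_nonsing_inv _ (Ne.isUnit (hd y hy)), Matrix.one_apply]
  simp only [chr_eq h _ _ _ hy, Finset.mul_sum]
  rw [Finset.sum_comm]
  calc _ = ∑ l, (∑ k, hes φ y a k * (hes φ y)⁻¹ k l) * (1 / 2 * pd i (pd j (pd l φ)) y) := by
        refine Finset.sum_congr rfl fun l _ => ?_
        rw [Finset.sum_mul]
        exact Finset.sum_congr rfl fun k _ => by ring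
    _ = _ := by simp [e]

include h hd in
theorem low' (m a i j : Fin n) {y : Fin n → ℝ} (hy : y ≠ 0) :
    ∑ k, hes φ y a k * pd m (christoffel (hes φ) k i j) y =
      1 / 2 * pd m (pd i (pd j (pd a φ))) y -
        ∑ k, pd m (pd a (pd k φ)) y * christoffel (hes φ) k i j y := by
  have e := pd_congr (fun z hz => low h hd a i j hz) m hy
  rw [pd_const_mul _ _ ((((h.pd a).pd j).pd i).diff hy), pd_sum_mul (f := fun k x => hes φ x a k)
    _ (fun k => ((h.pd k).pd a).diff hy) (fun k => chr_diff h hd k i j hy),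
    Finset.sum_add_distrib] at e
  rw [← e]
  exact (add_sub_cancel_left _ _).symm

include h hd in
theorem flat_third {y : Fin n → ℝ} (hy : y ≠ 0) (hR : ∀ l i j k, riemann (hes φ) l i j k y = 0)
    (a k i j : Fin n) :
    ∑ p, ∑ q, (hes φ y)⁻¹ p q * (pd a (pd i (pd p φ)) y * pd k (pd j (pd q φ)) y -
      pd a (pd j (pd p φ)) y * pd k (pd i (pd q φ)) y) = 0 := by
  have e0 : ∑ l, hes φ y a l * riemann (hes φ) l i j k y = 0 := by simp [hR]
  have e1 : ∀ i j, ∑ l, hes φ y a l * ∑ m, christoffel (hes φ) l i m y * christoffel (hes φ) m j k y =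
      1 / 2 * ∑ m, pd i (pd a (pd m φ)) y * christoffel (hes φ) m j k y := by
    intro i j
    simp only [Finset.mul_sum]
    rw [Finset.sum_comm]
    refine Finset.sum_congr rfl fun m _ => ?_
    rw [← mul_assoc, third_swap h i a m hy, ← low h hd a i m hy, Finset.sum_mul]
    exact Finset.sum_congr rfl fun l _ => by ring
  have e2 : ∀ i j, ∑ m, pd i (pd a (pd m φ)) y * christoffel (hes φ) m j k y =
      1 / 2 * ∑ p, ∑ q, (hes φ y)⁻¹ p q * (pd a (pd i (pd p φ)) y * pd k (pd j (pd q φ)) y) := by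
    intro i j
    simp only [chr_eq h _ _ _ hy, Finset.mul_sum]
    refine Finset.sum_congr rfl fun p _ => Finset.sum_congr rfl fun q _ => ?_
    rw [pd_comm (h.pd p) i a hy, pd_comm (h.pd q) j k hy]
    ring
  simp only [riemann, Finset.sum_sub_distrib, mul_add, mul_sub, Finset.sum_add_distrib] at e0
  rw [e1, e1, low' h hd i a j k hy, low' h hd j a i k hy, e2, e2,
    pd_comm ((h.pd a).pd k) i j hy] at e0
  simp only [mul_sub, Finset.sum_sub_distrib]
  linarith

end Main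

theorem euclidean_of_flat (hn : 3 ≤ n) (F : (Fin n → ℝ) → ℝ) (hs : ContDiffOn ℝ ∞ F {0}ᶜ)
    (hp : ∀ y, y ≠ 0 → 0 < F y) (hh : ∀ t : ℝ, 0 < t → ∀ y, F (t • y) = t * F y)
    (hg : ∀ y, y ≠ 0 → (hessMetric F y).PosDef)
    (hR : ∀ y, y ≠ 0 → ∀ l i j k, riemann (hessMetric F) l i j k y = 0) :
    ∃ A : Matrix (Fin n) (Fin n) ℝ, A.PosDef ∧ ∀ x, F x = √(x ⬝ᵥ A *ᵥ x) := by
  have h1 : Sm F := fun y hy => hs.contDiffAt (isOpen_compl_singleton.mem_nhds hy)
  have h2 : Sm fun x => F x ^ 2 := fun y hy => (h1 y hy).pow 2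
  have h3 : Sm fun x => F x ^ 2 / 2 := fun y hy => (h2 y hy).div_const 2
  have e : ∀ y, y ≠ 0 → hessMetric F y = hes (fun x => F x ^ 2 / 2) y := fun y hy => by
    ext i j
    simp only [hessMetric, hes, of_apply]
    rw [← pd_const_mul _ _ ((h2.pd j).diff hy)]
    refine pd_congr (fun z hz => ?_) i hy
    rw [← pd_const_mul _ _ (h2.diff hz)]
    congr 1
    ext x
    ring
  have e' : ∀ y, y ≠ 0 → (Matrix.of fun i j : Fin n => iteratedFDeriv ℝ 2
      (fun x => F x ^ 2 / 2) y ![Pi.single i 1, Pi.single j 1]) = hes (fun x => F x ^ 2 / 2) y :=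
    fun y hy => by
      ext i j
      exact iter2 h3 i j hy
  have h0 : F 0 = 0 := by
    have := hh 2 two_pos 0
    rw [smul_zero] at this
    linarith
  refine statement_of_core n hn (core (by simpa using hn)) F hs hp (fun t x ht => ?_)
    (fun y hy => ?_) fun y hy i j k l => ?_
  · rcases ht.eq_or_lt with rfl | ht
    · simp [h0]
    · exact hh t ht x
  · rw [e' y hy, ← e y hy]
    exact hg y hy
  · rw [e' y hy]
    simp only [iter3 h3 _ _ _ hy]
    exact flat_third h3 (fun z hz => by rw [← e z hz]; exact (hg z hz).det_pos.ne') hy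
      (fun l i j k => by rw [← riemann_congr e l i j k hy]; exact hR y hy l i j k) i j k l

end Pool.Agent.Lib.MP_7dd29b_gt.Riem
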