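import Mathlib
import Pool.Agent.Lib.MP_7dd29b_gt.RedFrames

/-! General tools: polarisation, zeros of closed forms, flat connections, traces. -/

set_option autoImplicit false

open scoped RealInnerProductSpace Topology
open Set Metric Filter

namespace Pool.Agent.Lib.MP_7dd29b_gt

lemma polar {V : Type*} [Add V] (N : V → V → V → V → ℝ)
    (h1 : ∀ x x' y z w, N (x + x') y z w = N x y z w + N x' y z w)
    (h2 : ∀ x y z w, N x y z w = N y x z w) (h3 : ∀ x y z w, N x y z w = N z w x y)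
    (h : ∀ u v, N v v u u = N u v u v) (a b d e : V) : N b d a e = N a d b e := by
  have h4 : ∀ x y z w, N x y z w = N x y w z := fun x y z w => by rw [h3, h2, h3]
  have a2 : ∀ x y y' z w, N x (y + y') z w = N x y z w + N x y' z w := fun x y y' z w => by
    rw [h2, h1, h2 y, h2 y']
  have a3 : ∀ x y z z' w, N x y (z + z') w = N x y z w + N x y z' w := fun x y z z' w => by
    rw [h3, h1, h3 z, h3 z']
  have a4 : ∀ x y z w w', N x y z (w + w') = N x y z w + N x y z w' := fun x y z w w' => by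
    rw [h4, a3, h4 x y w, h4 x y w']
  have k1 : ∀ a e v, N v v a e = N a v e v := fun a e v => by
    have := h (a + e) v
    simp only [h1, a3, a4] at this
    linarith [h a v, h e v, h4 v v e a, h3 e v a v]
  have k2 : ∀ a e b d, 2 * N b d a e = N a b e d + N a d e b := fun a e b d => by
    have := k1 a e (b + d)
    simp only [h1, a2, a4] at this
    linarith [k1 a e b, k1 a e d, h2 d b a e]
  linarith [k2 a e b d, k2 b e a d, h2 a b e d, h4 a d e b, h4 b d e a]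

variable {E : Type*} [NormedAddCommGroup E] [InnerProductSpace ℝ E] [FiniteDimensional ℝ E]

lemma crit (hE : 3 ≤ Module.finrank ℝ E) {ω : E → E →L[ℝ] ℝ} {dω : E → E →L[ℝ] E →L[ℝ] ℝ}
    (hω : ∀ y, y ≠ 0 → HasFDerivAt ω (dω y) y)
    (hs : ∀ y, y ≠ 0 → ∀ a b, dω y a b = dω y b a) (h0 : ∀ y, y ≠ 0 → ω y y = 0) :
    ∃ y, y ≠ 0 ∧ ω y = 0 := by
  have : Nontrivial E := Module.nontrivial_of_finrank_pos (R := ℝ) (by omega)
  obtain ⟨f, -, hf⟩ := punctured_primitive hE hω hs 0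
  have hh : ∀ y, y ≠ 0 → ∀ s : ℝ, 0 < s → f (s • y) = f y := by
    intro y hy s hs
    have hd : ∀ t : ℝ, 0 < t → HasDerivAt (fun t : ℝ => f (t • y)) 0 t := by
      intro t ht
      have h1 := (hf _ (smul_ne_zero ht.ne' hy)).comp_hasDerivAt t
        ((hasDerivAt_id t).smul_const y)
      have h2 := h0 _ (smul_ne_zero ht.ne' hy)
      rw [map_smul, smul_eq_mul, mul_eq_zero] at h2
      rw [one_smul, h2.resolve_left ht.ne'] at h1
      exact h1
    have := isOpen_Ioi.is_const_of_deriv_eq_zero (𝕜 := ℝ) (f := fun t : ℝ => f (t • y))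
      (isPreconnected_Ioi (a := (0 : ℝ)))
      (fun t ht => (hd t ht).differentiableAt.differentiableWithinAt)
      (fun t ht => (hd t ht).deriv) hs (mem_Ioi.mpr one_pos)
    simpa using this
  have hne : ∀ z ∈ sphere (0 : E) 1, z ≠ 0 := fun z hz h => by simp [h] at hz
  obtain ⟨y, hy, hmax⟩ := (isCompact_sphere (0 : E) 1).exists_isMaxOn (f := f)
    (NormedSpace.sphere_nonempty.mpr zero_le_one)
    (fun z hz => (hf z (hne z hz)).continuousAt.continuousWithinAt)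
  refine ⟨y, hne y hy, IsLocalMax.hasFDerivAt_eq_zero ?_ (hf y (hne y hy))⟩
  filter_upwards [isOpen_ne.mem_nhds (hne y hy)] with z hz
  have hz' : 0 < ‖z‖ := norm_pos_iff.mpr hz
  rw [← hh z hz _ (inv_pos.mpr hz')]
  exact hmax (by simp [norm_smul, hz'.ne'])

theorem no_flat (hE : 3 ≤ Module.finrank ℝ E) {Γ : E → E →L[ℝ] E →L[ℝ] E}
    (hΓ : ∀ y, y ≠ 0 → DifferentiableAt ℝ Γ y)
    (hs : ∀ y, y ≠ 0 → ∀ a b, fderiv ℝ Γ y a b = fderiv ℝ Γ y b a)
    (hc : ∀ y, y ≠ 0 → ∀ a b, Γ y a * Γ y b = Γ y b * Γ y a)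
    (hcomm : ∀ y, y ≠ 0 → ∀ a b, Γ y a b = Γ y b a) {γ : ℝ} (hγ : γ ≠ 0)
    (he : ∀ y, y ≠ 0 → ∀ a, Γ y a y = γ • a) : False := by
  have : CompleteSpace E := FiniteDimensional.complete ℝ E
  have : Nontrivial E := Module.nontrivial_of_finrank_pos (R := ℝ) (by omega)
  obtain ⟨y₀, hy₀⟩ := exists_ne (0 : E)
  obtain ⟨P, -, hP1, hP, -⟩ := exists_frames (A := E →L[ℝ] E) hE
    ContinuousLinearMap.norm_id_le hΓ hs hc y₀ hy₀
  let σ : (E →L[ℝ] E) →L[ℝ] (E →L[ℝ] E) := (starL' ℝ : (E →L[ℝ] E) ≃L[ℝ] (E →L[ℝ] E))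
  have hσ := fun y (hy : y ≠ 0) => (hasFDerivAt_const σ y).clm_comp (hΓ y hy).hasFDerivAt
  obtain ⟨R, -, hR1, hR, -⟩ := exists_frames (A := E →L[ℝ] E) (Γ := fun y => σ.comp (Γ y)) hE
    ContinuousLinearMap.norm_id_le (fun y hy => (hσ y hy).differentiableAt)
    (fun y hy a b => by rw [(hσ y hy).fderiv]; simp [hs y hy a b])
    (fun y hy a b => by simp [σ, ← star_mul, hc y hy a b]) y₀ hy₀
  have const : ∀ {B : Type _} [NormedAddCommGroup B] [NormedSpace ℝ B] (f : E → B),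
      (∀ y, y ≠ 0 → HasFDerivAt f (0 : E →L[ℝ] B) y) → ∀ y, y ≠ 0 → f y = f y₀ := by
    intro B _ _ f hf y hy
    exact isOpen_ne.is_const_of_fderiv_eq_zero (𝕜 := ℝ) (preconnected_ne_zero hE)
      (fun z hz => (hf z hz).differentiableAt.differentiableWithinAt)
      (fun z hz => (hf z hz).fderiv) hy hy₀
  have h1 : ∀ y, y ≠ 0 → P (-γ⁻¹) y * star (R γ⁻¹ y) = 1 := by
    intro y hy
    rw [const (fun y => P (-γ⁻¹) y * star (R γ⁻¹ y)) (fun z hz => ?_) y hy, hP1, hR1]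
    · simp
    refine ((hP _ z hz).mul' (hR _ z hz).star).congr_fderiv ?_
    ext1 w
    simp [σ, mul_assoc]
  have h2 : ∀ y, y ≠ 0 → P (-γ⁻¹) y y = y₀ := by
    intro y hy
    rw [const (fun y => P (-γ⁻¹) y y) (fun z hz => ?_) y hy, hP1]
    · simp
    refine ((hP _ z hz).clm_apply (hasFDerivAt_id z)).congr_fderiv ?_
    ext1 w
    simp [he z hz, smul_smul, hγ]
  obtain ⟨v, hv0, hv⟩ : ∃ v : E, v ≠ 0 ∧ ⟪v, y₀⟫ = 0 := by
    have h3 := Submodule.finrank_add_finrank_orthogonal (ℝ ∙ y₀)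
    rw [finrank_span_singleton hy₀] at h3
    have : Nontrivial (ℝ ∙ y₀)ᗮ := Module.nontrivial_of_finrank_pos (R := ℝ) (by omega)
    obtain ⟨⟨v, hv⟩, hv0⟩ := exists_ne (0 : (ℝ ∙ y₀)ᗮ)
    exact ⟨v, fun h => hv0 (Subtype.ext h),
      (Submodule.mem_orthogonal_singleton_iff_inner_left).mp hv⟩
  obtain ⟨y, hy, hω⟩ := crit hE (ω := fun y => (innerSL ℝ v).comp (P (-γ⁻¹) y))
    (fun y hy => (ContinuousLinearMap.compL ℝ E E ℝ (innerSL ℝ v)).hasFDerivAt.comp y (hP _ y hy))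
    (fun y hy a b => by simp [hcomm y hy a b]) (fun y hy => by simp [h2 y hy, hv])
  have h3 := congrArg (fun L : E →L[ℝ] ℝ => L (star (R γ⁻¹ y) v)) hω
  have h4 := congrArg (fun L : E →L[ℝ] E => L v) (h1 y hy)
  simp only [mul_apply_eq_comp, one_apply_eq_self] at h4
  simp [h4, hv0] at h3

/-- The trace as a continuous linear map. -/
noncomputable def trL (E : Type*) [NormedAddCommGroup E] [InnerProductSpace ℝ E]
    [FiniteDimensional ℝ E] : (E →L[ℝ] E) →L[ℝ] ℝ :=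
  LinearMap.toContinuousLinearMap ((LinearMap.trace ℝ E).comp (ContinuousLinearMap.coeLM ℝ))

lemma trL_comm (A B : E →L[ℝ] E) : trL E (A * B) = trL E (B * A) :=
  LinearMap.trace_mul_comm ℝ (A : E →ₗ[ℝ] E) B

lemma trL_eq (A : E →L[ℝ] E) :
    trL E A = ∑ i, ⟪stdOrthonormalBasis ℝ E i, A (stdOrthonormalBasis ℝ E i)⟫ :=
  LinearMap.trace_eq_sum_inner (A : E →ₗ[ℝ] E) _

lemma trL_sq_nonneg {G A : E →L[ℝ] E} (hs : ∀ a b, ⟪G a, b⟫ = ⟪a, G b⟫)
    (hp : ∀ a, a ≠ 0 → 0 < ⟪G a, a⟫) (hA : ∀ b c, ⟪G (A b), c⟫ = ⟪G b, A c⟫) :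
    0 ≤ trL E (A * A) := by
  obtain ⟨J, hJ⟩ := exists_sqrt hs hp
  obtain ⟨j, rfl⟩ : IsUnit J := by
    refine isUnit_of_injective ((injective_iff_map_eq_zero _).mpr fun p h0 => ?_)
    by_contra h
    have := hp p h
    rw [← hJ, h0] at this
    simp at this
  have h1 : A * A = (↑j⁻¹ : E →L[ℝ] E) * (↑j * (A * A)) := by simp [← mul_assoc]
  rw [h1, trL_comm, trL_eq]
  refine Finset.sum_nonneg fun i _ => ?_
  have h2 : ∀ e : E, (j : E →L[ℝ] E) ((↑j⁻¹ : E →L[ℝ] E) e) = e := fun e => by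
    rw [← mul_apply_eq_comp]; simp
  simp only [mul_apply_eq_comp]
  nth_rewrite 1 [← h2 (stdOrthonormalBasis ℝ E i)]
  rw [hJ, ← hA, ← hJ]
  exact real_inner_self_nonneg

end Pool.Agent.Lib.MP_7dd29b_gt
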