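import Mathlib
import Pool.Agent.Lib.MP_7dd29b_gt.RedHess
import Pool.Agent.Lib.MP_7dd29b_gt.H47Gen

/-! Homogeneous potentials whose unit level set has isotropic curvature. -/

set_option autoImplicit false

open scoped RealInnerProductSpace Topology
open Set Metric Filter

namespace Pool.Agent.Lib.MP_7dd29b_gt

variable {E : Type*} [NormedAddCommGroup E] [InnerProductSpace ℝ E] [FiniteDimensional ℝ E]

/-- A homogeneous gradient map whose Hessian metric has sectional curvature `κ y` on the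
planes tangent to the unit level set at `y`. -/
structure KData (E : Type*) [NormedAddCommGroup E] [InnerProductSpace ℝ E] where
  g : E → E
  κ : E → ℝ
  smooth : ∀ y, y ≠ 0 → ContDiffAt ℝ 5 g y
  symm : ∀ y, y ≠ 0 → ∀ a b, ⟪fderiv ℝ g y a, b⟫ = ⟪a, fderiv ℝ g y b⟫
  pos : ∀ y, y ≠ 0 → ∀ a, a ≠ 0 → 0 < ⟪fderiv ℝ g y a, a⟫
  homog : ∀ y, y ≠ 0 → ∀ s : ℝ, 0 < s → g (s • y) = s • g y
  sec : ∀ y, y ≠ 0 → ⟪g y, y⟫ = 1 → ∀ u v, ⟪g y, u⟫ = 0 → ⟪g y, v⟫ = 0 →
    ⟪fderiv ℝ (fderiv ℝ g) y v v, Ring.inverse (fderiv ℝ g y) (fderiv ℝ (fderiv ℝ g) y u u)⟫ -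
      ⟪fderiv ℝ (fderiv ℝ g) y u v, Ring.inverse (fderiv ℝ g y) (fderiv ℝ (fderiv ℝ g) y u v)⟫ =
    -4 * κ y * (⟪fderiv ℝ g y u, u⟫ * ⟪fderiv ℝ g y v, v⟫ - ⟪fderiv ℝ g y u, v⟫ ^ 2)

namespace KData

variable (H : KData E)

/-- The metric. -/
noncomputable def G : E → E →L[ℝ] E := fderiv ℝ H.g

/-- The cubic form. -/
noncomputable def c : E → E →L[ℝ] E →L[ℝ] E := fderiv ℝ H.G

/-- The inverse metric. -/
noncomputable def W (y : E) : E →L[ℝ] E := Ring.inverse (H.G y)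

/-- The Christoffel operators. -/
noncomputable def Γ (y : E) : E →L[ℝ] E →L[ℝ] E :=
  (1 / 2 : ℝ) • (ContinuousLinearMap.mul ℝ (E →L[ℝ] E) (H.W y)).comp (H.c y)

omit [FiniteDimensional ℝ E] in
lemma Γ_apply (y a : E) : H.Γ y a = (1 / 2 : ℝ) • (H.W y * H.c y a) := by simp [Γ]

omit [FiniteDimensional ℝ E] in
lemma G_smooth {y : E} (hy : y ≠ 0) : ContDiffAt ℝ 4 H.G y :=
  (H.smooth y hy).fderiv_right (by norm_num)

omit [FiniteDimensional ℝ E] in
lemma c_smooth {y : E} (hy : y ≠ 0) : ContDiffAt ℝ 3 H.c y :=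
  (H.G_smooth hy).fderiv_right (by norm_num)

omit [FiniteDimensional ℝ E] in
lemma G_deriv {y : E} (hy : y ≠ 0) : HasFDerivAt H.G (H.c y) y :=
  ((H.G_smooth hy).differentiableAt (by norm_num)).hasFDerivAt

lemma isUnit_G {y : E} (hy : y ≠ 0) : IsUnit (H.G y) := by
  refine isUnit_of_injective ((injective_iff_map_eq_zero _).mpr fun a ha => ?_)
  by_contra h
  have := H.pos y hy a h
  rw [show fderiv ℝ H.g y a = 0 from ha] at this
  simp at this

lemma G_W {y : E} (hy : y ≠ 0) (v : E) : H.G y (H.W y v) = v :=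
  congrArg (fun L : E →L[ℝ] E => L v) (Ring.mul_inverse_cancel _ (H.isUnit_G hy))

lemma W_smooth {y : E} (hy : y ≠ 0) : ContDiffAt ℝ 3 H.W y := by
  have : CompleteSpace E := FiniteDimensional.complete ℝ E
  obtain ⟨g, hg⟩ := H.isUnit_G hy
  have h0 := contDiffAt_ringInverse ℝ (n := 3) g
  rw [hg] at h0
  exact h0.comp y ((H.G_smooth hy).of_le (by norm_num))

lemma W_deriv {y : E} (hy : y ≠ 0) (a : E) :
    fderiv ℝ H.W y a = -(H.W y * H.c y a * H.W y) := by
  have : CompleteSpace E := FiniteDimensional.complete ℝ E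
  obtain ⟨g, hg⟩ := H.isUnit_G hy
  have h0 := hasFDerivAt_ringInverse (𝕜 := ℝ) g
  rw [hg] at h0
  have h1 : HasFDerivAt H.W _ y := h0.comp y (H.G_deriv hy)
  rw [h1.fderiv]
  simp [W, ← hg]

omit [FiniteDimensional ℝ E] in
lemma c_comm {y : E} (hy : y ≠ 0) (a b : E) : H.c y a b = H.c y b a :=
  (H.smooth y hy).isSymmSndFDerivAt (by simp; norm_num) a b

omit [FiniteDimensional ℝ E] in
lemma c_selfadj {y : E} (hy : y ≠ 0) (a b d : E) : ⟪H.c y a b, d⟫ = ⟪b, H.c y a d⟫ := by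
  have h1 := ((H.G_deriv hy).clm_apply (hasFDerivAt_const b y)).inner ℝ (hasFDerivAt_const d y)
  have h2 := (hasFDerivAt_const b y).inner ℝ ((H.G_deriv hy).clm_apply (hasFDerivAt_const d y))
  have h3 : (fun z => ⟪H.G z b, d⟫) =ᶠ[𝓝 y] fun z => ⟪b, H.G z d⟫ := by
    filter_upwards [isOpen_ne.mem_nhds hy] with z hz using H.symm z hz b d
  have h4 := congrArg (fun L : E →L[ℝ] ℝ => L a) (h1.unique (h2.congr_of_eventuallyEq h3))
  simpa using h4

omit [FiniteDimensional ℝ E] in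
lemma G_homog {y : E} (hy : y ≠ 0) {s : ℝ} (hs : 0 < s) : H.G (s • y) = H.G y := by
  have := fderiv_homog (fun s => s) (fun y hy => (H.smooth y hy).differentiableAt (by norm_num))
    H.homog hy hs
  rwa [inv_mul_cancel₀ hs.ne', one_smul] at this

omit [FiniteDimensional ℝ E] in
lemma c_homog {y : E} (hy : y ≠ 0) {s : ℝ} (hs : 0 < s) : H.c (s • y) = s⁻¹ • H.c y := by
  have := fderiv_homog (fun _ => 1) (fun y hy => (H.G_deriv hy).differentiableAt)
    (fun y hy s hs => by rw [one_smul, H.G_homog hy hs]) hy hs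
  rwa [mul_one] at this

omit [FiniteDimensional ℝ E] in
lemma c_euler {y : E} (hy : y ≠ 0) : H.c y y = 0 := by
  have := euler_homog (hasDerivAt_const (1 : ℝ) (1 : ℝ)) (H.G_deriv hy).differentiableAt
    (fun s hs => by rw [one_smul, H.G_homog hy hs])
  rwa [zero_smul] at this

omit [FiniteDimensional ℝ E] in
lemma g_euler {y : E} (hy : y ≠ 0) : H.G y y = H.g y := by
  have := euler_homog (hasDerivAt_id (1 : ℝ)) ((H.smooth y hy).differentiableAt (by norm_num))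
    (H.homog y hy)
  rwa [one_smul] at this

lemma Γ_smooth {y : E} (hy : y ≠ 0) : ContDiffAt ℝ 3 H.Γ y :=
  ContDiffAt.const_smul (1 / 2 : ℝ)
    ((contDiffAt_mul_alg (H.W_smooth hy)).clm_comp (H.c_smooth hy))

lemma Γ_deriv {y : E} (hy : y ≠ 0) (a b : E) : fderiv ℝ H.Γ y a b =
    (1 / 2 : ℝ) • (H.W y * fderiv ℝ H.c y a b - H.W y * (H.c y a * H.W y * H.c y b)) := by
  have hΓ := ((H.Γ_smooth hy).differentiableAt (by norm_num)).hasFDerivAt
  have hW := ((H.W_smooth hy).differentiableAt (by norm_num)).hasFDerivAt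
  have hc := ((H.c_smooth hy).differentiableAt (by norm_num)).hasFDerivAt
  have h1 := hΓ.clm_apply (hasFDerivAt_const b y)
  have h2 := (hW.fun_mul' (hc.clm_apply (hasFDerivAt_const b y))).fun_const_smul (1 / 2 : ℝ)
  simp only [Γ_apply] at h1
  have h3 := congrArg (fun L : E →L[ℝ] E →L[ℝ] E => L a) (h1.unique h2)
  simp at h3
  rw [h3, H.W_deriv hy]
  simp [mul_assoc, sub_eq_add_neg]

end KData

end Pool.Agent.Lib.MP_7dd29b_gt
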