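import Mathlib
import Pool.Agent.Lib.MP_7dd29b_gt.H47K

/-! The commutators of the Christoffel operators under isotropic curvature. -/

set_option autoImplicit false

open scoped RealInnerProductSpace Topology
open Set Metric Filter

namespace Pool.Agent.Lib.MP_7dd29b_gt

variable {E : Type*} [NormedAddCommGroup E] [InnerProductSpace ℝ E] [FiniteDimensional ℝ E]

namespace KData

variable (H : KData E)

/-- The square of the norm. -/
noncomputable def φ (y : E) : ℝ := ⟪H.g y, y⟫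

/-- The logarithmic differential of the norm. -/
noncomputable def ℓ (y a : E) : ℝ := (H.φ y)⁻¹ * ⟪H.g y, a⟫

/-- The normalised metric. -/
noncomputable def m (y a d : E) : ℝ := (H.φ y)⁻¹ * ⟪H.G y a, d⟫

/-- The curvature function, extended along rays. -/
noncomputable def K (y : E) : ℝ := H.κ ((√(H.φ y))⁻¹ • y)

omit [FiniteDimensional ℝ E] in
lemma φ_pos {y : E} (hy : y ≠ 0) : 0 < H.φ y := by
  rw [φ, ← H.g_euler hy]
  exact H.pos y hy y hy

omit [FiniteDimensional ℝ E] in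
lemma G_symm {y : E} (hy : y ≠ 0) (a b : E) : ⟪H.G y a, b⟫ = ⟪H.G y b, a⟫ := by
  rw [G, H.symm y hy, real_inner_comm]

omit [FiniteDimensional ℝ E] in
lemma G_y {y : E} (hy : y ≠ 0) (a : E) : ⟪H.G y a, y⟫ = ⟪H.g y, a⟫ := by
  rw [H.G_symm hy, H.g_euler hy]

omit [FiniteDimensional ℝ E] in
lemma ℓ_y {y : E} (hy : y ≠ 0) : H.ℓ y y = 1 := inv_mul_cancel₀ (H.φ_pos hy).ne'

omit [FiniteDimensional ℝ E] in
lemma m_y {y : E} (hy : y ≠ 0) (a : E) : H.m y a y = H.ℓ y a := by rw [m, H.G_y hy, ℓ]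

omit [FiniteDimensional ℝ E] in
lemma m_symm {y : E} (hy : y ≠ 0) (a b : E) : H.m y a b = H.m y b a := by
  rw [m, H.G_symm hy, m]

omit [FiniteDimensional ℝ E] in
lemma Γ_comm {y : E} (hy : y ≠ 0) (a b : E) : H.Γ y a b = H.Γ y b a := by
  simp [Γ_apply, H.c_comm hy a b]

omit [FiniteDimensional ℝ E] in
lemma Γ_y {y : E} (hy : y ≠ 0) (a : E) : H.Γ y a y = 0 := by
  rw [H.Γ_comm hy]
  simp [Γ_apply, H.c_euler hy]

lemma G_Γ {y : E} (hy : y ≠ 0) (a b : E) : H.G y (H.Γ y a b) = (1 / 2 : ℝ) • H.c y a b := by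
  simp [Γ_apply, H.G_W hy]

lemma Γ_selfadj {y : E} (hy : y ≠ 0) (a b d : E) :
    ⟪H.G y (H.Γ y a b), d⟫ = ⟪H.G y b, H.Γ y a d⟫ := by
  rw [H.G_symm hy b, H.G_Γ hy, H.G_Γ hy, inner_smul_left, inner_smul_left, H.c_selfadj hy,
    real_inner_comm]

lemma m_Γ {y : E} (hy : y ≠ 0) (a b d : E) : H.m y (H.Γ y a b) d = H.m y b (H.Γ y a d) := by
  rw [m, H.Γ_selfadj hy, m]

lemma ℓ_Γ {y : E} (hy : y ≠ 0) (a b : E) : H.ℓ y (H.Γ y a b) = 0 := by
  rw [← H.m_y hy, H.m_Γ hy, H.Γ_y hy, m]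
  simp

omit [FiniteDimensional ℝ E] in
lemma m_add (y a b d : E) : H.m y (a + b) d = H.m y a d + H.m y b d := by
  simp [m, inner_add_left, mul_add]

omit [FiniteDimensional ℝ E] in
lemma ℓ_add (y a b : E) : H.ℓ y (a + b) = H.ℓ y a + H.ℓ y b := by
  simp [ℓ, inner_add_right, mul_add]

omit [FiniteDimensional ℝ E] in
lemma m_smul (y a d : E) (s : ℝ) : H.m y (s • a) d = s * H.m y a d := by
  simp [m, inner_smul_left]; ring

omit [FiniteDimensional ℝ E] in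
lemma ℓ_smul (y a : E) (s : ℝ) : H.ℓ y (s • a) = s * H.ℓ y a := by
  simp [ℓ, inner_smul_right]; ring

lemma sec_all {y : E} (hy : y ≠ 0) (u v : E) :
    H.m y (H.Γ y v v) (H.Γ y u u) - H.m y (H.Γ y u v) (H.Γ y u v) =
      -H.K y * ((H.m y u u - H.ℓ y u * H.ℓ y u) * (H.m y v v - H.ℓ y v * H.ℓ y v) -
        (H.m y u v - H.ℓ y u * H.ℓ y v) ^ 2) := by
  have hφ := H.φ_pos hy
  obtain ⟨r, hr, hr2, hK⟩ : ∃ r : ℝ, 0 < r ∧ H.φ y = r * r ∧ H.κ (r⁻¹ • y) = H.K y :=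
    ⟨√(H.φ y), Real.sqrt_pos.mpr hφ, (Real.mul_self_sqrt hφ.le).symm, rfl⟩
  have hs : 0 < r⁻¹ := inv_pos.mpr hr
  have hg := H.homog y hy _ hs
  have ht : ∀ u, ⟪H.g (r⁻¹ • y), u - H.ℓ y u • y⟫ = 0 := fun u => by
    rw [hg, inner_smul_left, inner_sub_right, inner_smul_right, ℓ, ← φ]
    field_simp
    simp
  have h := H.sec _ (smul_ne_zero hs.ne' hy) (by
    rw [hg, inner_smul_left, inner_smul_right, ← φ, hr2]
    simp only [conj_trivial]
    field_simp) _ _ (ht u) (ht v)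
  rw [hK] at h
  change ⟪H.c _ _ _, Ring.inverse (H.G _) (H.c _ _ _)⟫ -
    ⟪H.c _ _ _, Ring.inverse (H.G _) (H.c _ _ _)⟫ =
    -4 * H.K y * (⟪H.G _ _, _⟫ * ⟪H.G _ _, _⟫ - ⟪H.G _ _, _⟫ ^ 2) at h
  have hc : ∀ u v, H.c y (u - H.ℓ y u • y) (v - H.ℓ y v • y) = H.c y u v := fun u v => by
    simp [H.c_euler hy, H.c_comm hy u y]
  have hG : ∀ u v, ⟪H.G y (u - H.ℓ y u • y), v - H.ℓ y v • y⟫ =
      r * r * (H.m y u v - H.ℓ y u * H.ℓ y v) := fun u v => by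
    simp only [map_sub, map_smul, inner_sub_left, inner_sub_right, inner_smul_left,
      inner_smul_right, H.G_y hy, H.g_euler hy, conj_trivial, m, ℓ, ← hr2]
    rw [← φ]
    field_simp
    ring
  have hm : ∀ a b d e, H.m y (H.Γ y a b) (H.Γ y d e) =
      (r * r)⁻¹ * (1 / 4) * ⟪H.c y a b, Ring.inverse (H.G y) (H.c y d e)⟫ := fun a b d e => by
    rw [m, H.G_Γ hy, hr2]
    simp only [Γ_apply, smul_apply, mul_apply_eq_comp, inner_smul_left, inner_smul_right,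
      conj_trivial, W]
    ring
  simp only [H.G_homog hy hs, H.c_homog hy hs, smul_apply, hc, hG, map_smul, inner_smul_left,
    inner_smul_right, conj_trivial, inv_inv] at h
  rw [hm, hm]
  field_simp
  field_simp at h
  linarith

lemma comm {y : E} (hy : y ≠ 0) (a b d : E) :
    H.Γ y a (H.Γ y b d) - H.Γ y b (H.Γ y a d) =
      -H.K y • ((H.m y b d - H.ℓ y b * H.ℓ y d) • (a - H.ℓ y a • y) -
        (H.m y a d - H.ℓ y a * H.ℓ y d) • (b - H.ℓ y b • y)) := by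
  have key := polar (fun x z u w => H.m y (H.Γ y x z) (H.Γ y u w) +
      H.K y * ((H.m y x z - H.ℓ y x * H.ℓ y z) * (H.m y u w - H.ℓ y u * H.ℓ y w)))
    (fun x x' z u w => by
      simp only [map_add, _root_.add_apply, m_add, ℓ_add]
      ring)
    (fun x z u w => by
      rw [H.Γ_comm hy x, H.m_symm hy x]
      ring)
    (fun x z u w => by
      rw [H.m_symm hy (H.Γ y x z)]
      ring)
    (fun u v => by linarith [H.sec_all hy u v]) a b d
  have hφ := (H.φ_pos hy).ne'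
  have hinj : ∀ X Y : E, (∀ e, H.m y X e = H.m y Y e) → X = Y := fun X Y h => by
    by_contra hne
    have h1 := H.pos y hy _ (sub_ne_zero.mpr hne)
    have h2 := h (X - Y)
    simp only [m, mul_right_inj' (inv_ne_zero hφ), G] at h2
    rw [map_sub, inner_sub_left, h2, sub_self] at h1
    exact lt_irrefl _ h1
  refine hinj _ _ fun e => ?_
  have h := key e
  simp only [sub_eq_add_neg, ← neg_one_smul ℝ (_ : E), m_add, m_smul, H.m_Γ hy a (H.Γ y b d),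
    H.m_Γ hy b (H.Γ y a d), H.m_symm hy y, H.m_y hy] at h ⊢
  linarith

omit [FiniteDimensional ℝ E] in
lemma unit {y : E} (hy : y ≠ 0) :
    (√(H.φ y))⁻¹ • y ≠ 0 ∧ ⟪H.g ((√(H.φ y))⁻¹ • y), (√(H.φ y))⁻¹ • y⟫ = 1 := by
  have hφ := H.φ_pos hy
  have hs : 0 < (√(H.φ y))⁻¹ := inv_pos.mpr (Real.sqrt_pos.mpr hφ)
  refine ⟨smul_ne_zero hs.ne' hy, ?_⟩
  rw [H.homog y hy _ hs, inner_smul_left, inner_smul_right, ← φ, conj_trivial, ← mul_assoc,
    ← mul_inv, Real.mul_self_sqrt hφ.le, inv_mul_cancel₀ hφ.ne']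

lemma dΓ {y : E} (hy : y ≠ 0) (a b d : E) :
    fderiv ℝ H.Γ y a b d = fderiv ℝ H.Γ y b a d -
      (2 : ℝ) • (H.Γ y a (H.Γ y b d) - H.Γ y b (H.Γ y a d)) := by
  have h2 : fderiv ℝ H.c y a b = fderiv ℝ H.c y b a :=
    (H.G_smooth hy).isSymmSndFDerivAt (by simp; norm_num) a b
  rw [H.Γ_deriv hy, H.Γ_deriv hy, h2]
  simp only [Γ_apply, smul_apply, _root_.sub_apply, mul_apply_eq_comp, map_smul]
  module

end KData

end Pool.Agent.Lib.MP_7dd29b_gt
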