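import Mathlib
import Pool.Agent.Lib.MP_7dd29b_gt.H47Comm
import Pool.Agent.Lib.MP_7dd29b_gt.Core

/-! The curvature function is constant and vanishes. -/

set_option autoImplicit false

open scoped RealInnerProductSpace Topology
open Set Metric Filter

namespace Pool.Agent.Lib.MP_7dd29b_gt

variable {E : Type*} [NormedAddCommGroup E] [InnerProductSpace ℝ E] [FiniteDimensional ℝ E]

namespace KData

variable (H : KData E)

theorem K_nonneg (hE : 3 ≤ Module.finrank ℝ E) : ∃ y, y ≠ 0 ∧ 0 ≤ H.K y := by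
  have hd := fun y (hy : y ≠ 0) => (hasFDerivAt_const (trL E) y).clm_comp
    ((H.Γ_smooth hy).differentiableAt (by norm_num)).hasFDerivAt
  obtain ⟨y, hy, h0⟩ := crit hE hd (fun y hy a b => by
      have h : fderiv ℝ H.Γ y a b = fderiv ℝ H.Γ y b a -
          (2 : ℝ) • (H.Γ y a * H.Γ y b - H.Γ y b * H.Γ y a) := by
        ext1 d
        simpa using H.dΓ hy a b d
      simp [h, trL_comm (H.Γ y a)])
    (fun y hy => by simp [Γ_apply, H.c_euler hy])
  obtain ⟨b, hb0, hb⟩ : ∃ v : E, v ≠ 0 ∧ ⟪H.g y, v⟫ = 0 := by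
    have h3 := Submodule.finrank_add_finrank_orthogonal (ℝ ∙ H.g y)
    have h4 : Module.finrank ℝ (ℝ ∙ H.g y) ≤ 1 := by
      simpa using finrank_span_le_card (R := ℝ) {H.g y}
    have : Nontrivial (ℝ ∙ H.g y)ᗮ := Module.nontrivial_of_finrank_pos (R := ℝ) (by omega)
    obtain ⟨⟨v, hv⟩, hv0⟩ := exists_ne (0 : (ℝ ∙ H.g y)ᗮ)
    exact ⟨v, fun h => hv0 (Subtype.ext h),
      (Submodule.mem_orthogonal_singleton_iff_inner_right).mp hv⟩
  have hl : H.ℓ y b = 0 := by simp [ℓ, hb]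
  set e := stdOrthonormalBasis ℝ E with he
  have h1 := trL_sq_nonneg (H.symm y hy) (H.pos y hy) (H.Γ_selfadj hy b)
  have h2 : trL E (H.Γ y (H.Γ y b b)) = 0 := congrArg (fun L : E →L[ℝ] ℝ => L (H.Γ y b b)) h0
  have h3 : ∀ i, ⟪e i, H.Γ y (H.Γ y b b) (e i)⟫ - ⟪e i, (H.Γ y b * H.Γ y b) (e i)⟫ =
      -H.K y * (H.m y b b * (1 - (H.φ y)⁻¹ * (⟪H.g y, e i⟫ * ⟪e i, y⟫)) -
        (H.φ y)⁻¹ * (⟪H.G y b, e i⟫ * ⟪e i, b⟫)) := fun i => by
    rw [← inner_sub_right, H.Γ_comm hy, mul_apply_eq_comp, H.Γ_comm hy b (e i), H.comm hy, hl,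
      H.m_symm hy (e i)]
    simp only [inner_smul_right, inner_sub_right, real_inner_self_eq_norm_sq, e.orthonormal.1 i,
      m, ℓ]
    ring
  have h4 := Finset.sum_congr rfl fun i (_ : i ∈ Finset.univ) => h3 i
  rw [Finset.sum_sub_distrib, ← trL_eq, ← trL_eq, h2] at h4
  simp only [← Finset.mul_sum, Finset.sum_sub_distrib, e.sum_inner_mul_inner, Finset.sum_const,
    Finset.card_univ, Fintype.card_fin, nsmul_eq_mul, mul_one] at h4
  have h5 : 0 < H.m y b b := mul_pos (inv_pos.mpr (H.φ_pos hy)) (H.pos y hy b hb0)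
  have h6 : (3 : ℝ) ≤ Module.finrank ℝ E := by exact_mod_cast hE
  rw [← m, ← ℓ, H.ℓ_y hy] at h4
  have h7 : 0 < H.m y b b * (Module.finrank ℝ E - 1) - H.m y b b := by nlinarith
  refine ⟨y, hy, ?_⟩
  by_contra hk
  nlinarith [mul_pos (neg_pos.mpr (not_le.mp hk)) h7]

omit [FiniteDimensional ℝ E] in
lemma g_deriv {y : E} (hy : y ≠ 0) : HasFDerivAt H.g (H.G y) y :=
  ((H.smooth y hy).differentiableAt (by norm_num)).hasFDerivAt

omit [FiniteDimensional ℝ E] in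
lemma φ_smooth {y : E} (hy : y ≠ 0) : ContDiffAt ℝ 2 (fun z => (H.φ z)⁻¹) y :=
  (((H.smooth y hy).of_le (by norm_num)).inner ℝ contDiffAt_id).inv (H.φ_pos hy).ne'

omit [FiniteDimensional ℝ E] in
lemma ℓ_smooth {y : E} (hy : y ≠ 0) (b : E) : ContDiffAt ℝ 2 (fun z => H.ℓ z b) y :=
  (H.φ_smooth hy).mul (((H.smooth y hy).of_le (by norm_num)).inner ℝ contDiffAt_const)

omit [FiniteDimensional ℝ E] in
lemma m_smooth {y : E} (hy : y ≠ 0) (b d : E) : ContDiffAt ℝ 2 (fun z => H.m z b d) y :=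
  (H.φ_smooth hy).mul ((((H.G_smooth hy).of_le (by norm_num)).clm_apply
    contDiffAt_const).inner ℝ contDiffAt_const)

omit [FiniteDimensional ℝ E] in
lemma φ_deriv {y : E} (hy : y ≠ 0) : ∃ L : E →L[ℝ] ℝ, HasFDerivAt (fun z => (H.φ z)⁻¹) L y ∧
    ∀ a, L a = -2 * H.ℓ y a * (H.φ y)⁻¹ := by
  refine ⟨_, (hasFDerivAt_inv (H.φ_pos hy).ne').comp y
    ((H.g_deriv hy).inner ℝ (hasFDerivAt_id y)), fun a => ?_⟩
  have := (H.φ_pos hy).ne'
  simp [H.G_y hy, ℓ]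
  field_simp
  ring

omit [FiniteDimensional ℝ E] in
lemma ℓ_deriv {y : E} (hy : y ≠ 0) (a b : E) :
    fderiv ℝ (fun z => H.ℓ z b) y a = H.m y a b - 2 * H.ℓ y a * H.ℓ y b := by
  obtain ⟨L, hL, hL'⟩ := H.φ_deriv hy
  have h := hL.fun_mul ((H.g_deriv hy).inner ℝ (hasFDerivAt_const b y))
  simp only [ℓ]
  rw [h.fderiv]
  simp [hL', m, ℓ]
  ring

lemma m_deriv {y : E} (hy : y ≠ 0) (a b d : E) :
    fderiv ℝ (fun z => H.m z b d) y a = 2 * H.m y (H.Γ y a b) d - 2 * H.ℓ y a * H.m y b d := by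
  obtain ⟨L, hL, hL'⟩ := H.φ_deriv hy
  have h := hL.fun_mul (((H.G_deriv hy).clm_apply (hasFDerivAt_const b y)).inner ℝ
    (hasFDerivAt_const d y))
  simp only [m, H.G_Γ hy]
  rw [h.fderiv]
  simp [hL', inner_smul_left]
  ring

/-- The modified Christoffel operators. -/
noncomputable def Γ' (β γ δ : ℝ) (y : E) : E →L[ℝ] E →L[ℝ] E :=
  H.Γ y + β • ((ContinuousLinearMap.smulRightL ℝ E E).flip y).comp ((H.φ y)⁻¹ •
      (isBoundedBilinearMap_inner (𝕜 := ℝ) (E := E)).toContinuousLinearMap.comp (H.G y)) +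
    γ • (((H.φ y)⁻¹ • innerSL ℝ (H.g y)).smulRight (1 : E →L[ℝ] E) +
      ContinuousLinearMap.smulRightL ℝ E E ((H.φ y)⁻¹ • innerSL ℝ (H.g y))) +
    δ • ((H.φ y)⁻¹ • innerSL ℝ (H.g y)).smulRight (((H.φ y)⁻¹ • innerSL ℝ (H.g y)).smulRight y)

omit [FiniteDimensional ℝ E] in
lemma Γ'_apply (β γ δ : ℝ) (y a d : E) : H.Γ' β γ δ y a d = H.Γ y a d + (β * H.m y a d) • y +
    ((γ * H.ℓ y a) • d + (γ * H.ℓ y d) • a) + (δ * (H.ℓ y a * H.ℓ y d)) • y := by
  simp [Γ', m, ℓ, smul_smul, mul_assoc]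

lemma Γ'_smooth (β γ δ : ℝ) {y : E} (hy : y ≠ 0) : ContDiffAt ℝ 2 (H.Γ' β γ δ) y := by
  have h : ContDiffOn ℝ 2 (H.Γ' β γ δ) {y | y ≠ 0} := by
    refine contDiffOn_clm_apply.mpr fun a => contDiffOn_clm_apply.mpr fun d z hz => ?_
    simp only [Γ'_apply]
    refine ContDiffAt.contDiffWithinAt ?_
    exact ((((((H.Γ_smooth hz).of_le (by norm_num)).clm_apply contDiffAt_const).clm_apply
      contDiffAt_const).add ((contDiffAt_const.mul (H.m_smooth hz a d)).smul contDiffAt_id)).add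
      (((contDiffAt_const.mul (H.ℓ_smooth hz a)).smul contDiffAt_const).add
        ((contDiffAt_const.mul (H.ℓ_smooth hz d)).smul contDiffAt_const))).add
      ((contDiffAt_const.mul ((H.ℓ_smooth hz a).mul (H.ℓ_smooth hz d))).smul contDiffAt_id)
  exact h.contDiffAt (isOpen_ne.mem_nhds hy)

lemma Γ'_deriv (β γ δ : ℝ) {y : E} (hy : y ≠ 0) (a b d : E) :
    fderiv ℝ (H.Γ' β γ δ) y a b d = fderiv ℝ H.Γ y a b d +
      ((β * H.m y b d) • a + (β * (2 * H.m y (H.Γ y a b) d - 2 * H.ℓ y a * H.m y b d)) • y) +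
      ((γ * (H.m y a b - 2 * H.ℓ y a * H.ℓ y b)) • d +
        (γ * (H.m y a d - 2 * H.ℓ y a * H.ℓ y d)) • b) +
      ((δ * (H.ℓ y b * H.ℓ y d)) • a + (δ * (H.ℓ y b * (H.m y a d - 2 * H.ℓ y a * H.ℓ y d) +
        H.ℓ y d * (H.m y a b - 2 * H.ℓ y a * H.ℓ y b))) • y) := by
  have h1 := (((H.Γ'_smooth β γ δ hy).differentiableAt (by norm_num)).hasFDerivAt.clm_apply
    (hasFDerivAt_const b y)).clm_apply (hasFDerivAt_const d y)
  have hl := fun b => ((H.ℓ_smooth hy b).differentiableAt (by norm_num)).hasFDerivAt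
  have hm := ((H.m_smooth hy b d).differentiableAt (by norm_num)).hasFDerivAt
  have hΓ := ((((H.Γ_smooth hy).differentiableAt (by norm_num)).hasFDerivAt.clm_apply
    (hasFDerivAt_const b y)).clm_apply (hasFDerivAt_const d y))
  have h2 := ((hΓ.fun_add ((hm.const_mul β).fun_smul (hasFDerivAt_id y))).fun_add
    ((((hl b).const_mul γ).smul_const d).fun_add (((hl d).const_mul γ).smul_const b))).fun_add
    ((((hl b).fun_mul (hl d)).const_mul δ).fun_smul (hasFDerivAt_id y))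
  simp only [Γ'_apply] at h1
  have h3 := congrArg (fun L : E →L[ℝ] E => L a) (h1.unique h2)
  simpa [H.ℓ_deriv hy, H.m_deriv hy, mul_add] using h3

theorem K_nonpos (hE : 3 ≤ Module.finrank ℝ E) {k : ℝ} (hK : ∀ y, y ≠ 0 → H.K y = k) :
    k ≤ 0 := by
  by_contra hk
  have hk := not_le.mp hk
  obtain ⟨r, hr, hr2⟩ : ∃ r : ℝ, 0 ≤ r ∧ r * r = k ^ 2 + k :=
    ⟨√(k ^ 2 + k), Real.sqrt_nonneg _, Real.mul_self_sqrt (by positivity)⟩
  refine no_flat hE (Γ := H.Γ' (r - k) (r + k) (-2 * r)) (γ := r + k)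
    (fun y hy => (H.Γ'_smooth _ _ _ hy).differentiableAt (by norm_num))
    (fun y hy a b => ?_) (fun y hy a b => ?_)
    (fun y hy a b => ?_) (by positivity) (fun y hy a => ?_)
  · ext1 d
    rw [H.Γ'_deriv _ _ _ hy, H.Γ'_deriv _ _ _ hy, H.dΓ hy a b d, H.comm hy, H.Γ_comm hy b a,
      H.m_symm hy b a, hK y hy]
    module
  · ext1 d
    have h := eq_add_of_sub_eq (H.comm hy a b d)
    rw [hK y hy] at h
    have h1 : H.m y a (H.Γ y b d) = H.m y b (H.Γ y a d) := by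
      rw [← H.m_Γ hy, ← H.m_Γ hy, H.Γ_comm hy]
    simp only [mul_apply_eq_comp, Γ'_apply, map_add, map_smul, H.Γ_y hy,
      H.ℓ_y hy, H.ℓ_Γ hy, H.m_y hy, h, h1, H.Γ_comm hy b a, H.m_symm hy b a]
    match_scalars
    · linear_combination (H.m y b d - H.ℓ y b * H.ℓ y d) * hr2
    · linear_combination (H.ℓ y b * H.m y a d - H.ℓ y a * H.m y b d) * hr2
    · linear_combination (H.ℓ y a * H.ℓ y d - H.m y a d) * hr2
    all_goals ring
  · rw [Γ'_apply, Γ'_apply, H.Γ_comm hy a, H.m_symm hy a]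
    module
  · rw [Γ'_apply, H.Γ_y hy, H.m_y hy, H.ℓ_y hy]
    module

omit [FiniteDimensional ℝ E] in
lemma cyc {ω : E → E →L[ℝ] E →L[ℝ] E} {y : E} (h : ContDiffAt ℝ 2 ω y) :
    ∃ L : E → E → E → E →L[ℝ] E, (∀ b e d, HasFDerivAt
      (fun z => fderiv ℝ ω z b e d - fderiv ℝ ω z e b d) (L b e d) y) ∧
      ∀ a b e d, L b e d a + L e a d b + L a b d e = 0 := by
  have h1 := ((h.fderiv_right (m := 1) (by norm_num)).differentiableAt (by norm_num)).hasFDerivAt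
  have h2 := fun b e d : E => ((h1.clm_apply (hasFDerivAt_const b y)).clm_apply
    (hasFDerivAt_const e y)).clm_apply (hasFDerivAt_const d y)
  have h3 : ∀ a b, fderiv ℝ (fderiv ℝ ω) y a b = fderiv ℝ (fderiv ℝ ω) y b a :=
    h.isSymmSndFDerivAt (by simp)
  refine ⟨_, fun b e d => (h2 b e d).fun_sub (h2 e b d), fun a b e d => ?_⟩
  simp [h3 a b, h3 a e, h3 b e]

/-- The curvature form of constant curvature one. -/
noncomputable def Θ (a b d y : E) : E :=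
  (H.m y b d - H.ℓ y b * H.ℓ y d) • (a - H.ℓ y a • y) -
    (H.m y a d - H.ℓ y a * H.ℓ y d) • (b - H.ℓ y b • y)

theorem schur (hE : 4 ≤ Module.finrank ℝ E) {y : E} (hy : y ≠ 0) :
    HasFDerivAt H.K (0 : E →L[ℝ] ℝ) y := by
  have : CompleteSpace E := FiniteDimensional.complete ℝ E
  obtain ⟨L, hL, hL'⟩ := cyc ((H.Γ_smooth hy).of_le (by norm_num))
  obtain ⟨M, hM, hM'⟩ := cyc (H.Γ'_smooth 0 (-1) 1 hy)
  have h1 : ∀ a b d, (fun z => (2 * H.K z) • H.Θ a b d z) =ᶠ[𝓝 y]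
      fun z => fderiv ℝ H.Γ z a b d - fderiv ℝ H.Γ z b a d := fun a b d => by
    filter_upwards [isOpen_ne.mem_nhds hy] with z hz
    rw [H.dΓ hz a b d, H.comm hz, Θ]
    module
  have h2 : ∀ a b d, HasFDerivAt (H.Θ a b d) (M a b d - L a b d) y := fun a b d => by
    refine ((hM a b d).fun_sub (hL a b d)).congr_of_eventuallyEq ?_
    filter_upwards [isOpen_ne.mem_nhds hy] with z hz
    rw [H.Γ'_deriv _ _ _ hz, H.Γ'_deriv _ _ _ hz, H.m_symm hz b a, Θ]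
    module
  have h3 : ∀ w : E, ∃ b e : E, ⟪w, b⟫ = 0 ∧ ⟪w, e⟫ = 0 ∧ ⟪b, H.Θ b e e y⟫ ≠ 0 ∧
      ∀ a, ⟪w, a⟫ • H.Θ b e e y + ⟪w, b⟫ • H.Θ e a e y + ⟪w, e⟫ • H.Θ a b e y = 0 →
        ⟪w, a⟫ = 0 := by
    intro w
    obtain ⟨e, he, he'⟩ := exists_orth ![w, H.g y] (by simp; omega)
    obtain ⟨b, hb, hb'⟩ := exists_orth ![w, H.g y, H.G y e] (by simp; omega)
    have e0 : ⟪w, e⟫ = 0 := he' 0
    have e1 : ⟪H.g y, e⟫ = 0 := he' 1
    have b0 : ⟪w, b⟫ = 0 := hb' 0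
    have b1 : ⟪H.g y, b⟫ = 0 := hb' 1
    have b2 : ⟪H.G y e, b⟫ = 0 := hb' 2
    have h4 : 0 < H.m y e e := mul_pos (inv_pos.mpr (H.φ_pos hy))
      (H.pos y hy e (by rintro rfl; simp at he))
    have h5 : ⟪b, H.Θ b e e y⟫ ≠ 0 := by
      rw [Θ, H.m_symm hy b e]
      simpa [ℓ, e1, b1, m, b2, inner_smul_right, hb] using h4.ne'
    refine ⟨b, e, b0, e0, h5, fun a ha => ?_⟩
    rw [b0, e0, zero_smul, zero_smul, add_zero, add_zero, smul_eq_zero] at ha
    exact ha.resolve_right fun h => h5 (by simp [h])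
  have h4 : DifferentiableAt ℝ H.K y := by
    obtain ⟨b, e, -, -, h5, -⟩ := h3 0
    have h6 := (differentiableAt_const b).inner ℝ (h2 b e e).differentiableAt
    have h7 := (differentiableAt_const b).inner ℝ
      ((hL b e e).congr_of_eventuallyEq (h1 b e e)).differentiableAt
    refine ((h7.fun_mul (h6.fun_inv h5)).const_mul (1 / 2)).congr_of_eventuallyEq ?_
    filter_upwards [h6.continuousAt.eventually_ne h5] with z hz
    rw [inner_smul_right]
    field_simp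
  obtain ⟨b, e, -, -, -, h5⟩ := h3 (gradient H.K y)
  refine h4.hasFDerivAt.congr_fderiv (ContinuousLinearMap.ext fun a => ?_)
  have h6 := fun a b d c => congrArg (fun T : E →L[ℝ] E => T c)
    (((h4.hasFDerivAt.const_mul 2).fun_smul (h2 a b d)).unique
      ((hL a b d).congr_of_eventuallyEq (h1 a b d)))
  simp only [inner_gradient_left] at h5
  refine h5 a ?_
  simp only [_root_.add_apply, _root_.smul_apply, _root_.sub_apply,
    ContinuousLinearMap.smulRight_apply, smul_eq_mul] at h6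
  linear_combination (norm := module) (1 / 2 : ℝ) • (h6 b e e a + h6 e a e b + h6 a b e e +
    hL' a b e e) - H.K y • (hM' a b e e - hL' a b e e)

theorem G_const (hE : 3 ≤ Module.finrank ℝ E) (h3 : Module.finrank ℝ E = 3 → ∀ y z, y ≠ 0 →
    z ≠ 0 → ⟪H.g y, y⟫ = 1 → ⟪H.g z, z⟫ = 1 → H.κ y = H.κ z)
    {y z : E} (hy : y ≠ 0) (hz : z ≠ 0) : H.G y = H.G z := by
  obtain ⟨x, hx, hx'⟩ := H.K_nonneg hE
  have hK : ∀ y, y ≠ 0 → H.K y = H.K x := fun y hy => by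
    rcases hE.eq_or_lt with h | h
    · exact h3 h.symm _ _ (H.unit hy).1 (H.unit hx).1 (H.unit hy).2 (H.unit hx).2
    · exact isOpen_ne.is_const_of_fderiv_eq_zero (𝕜 := ℝ) (preconnected_ne_zero hE)
        (fun z hz => (H.schur h hz).differentiableAt.differentiableWithinAt)
        (fun z hz => (H.schur h hz).fderiv) hy hx
  have hk : H.K x = 0 := le_antisymm (H.K_nonpos hE hK) hx'
  refine HData.G_const ⟨H.g, H.smooth, H.symm, H.pos, H.homog, fun y hy a b => ?_⟩ hE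
    (core hE) hy hz
  ext1 d
  have h := congrArg (H.G y) (H.comm hy a b d)
  rw [hK y hy, hk, map_sub, H.G_Γ hy, H.G_Γ hy] at h
  simp only [Γ_apply, smul_apply, mul_apply_eq_comp, map_smul, neg_zero, zero_smul, map_zero,
    sub_eq_zero] at h
  exact smul_right_injective E (by norm_num) (smul_right_injective E (by norm_num) h)

end KData

end Pool.Agent.Lib.MP_7dd29b_gt
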