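import Pool.Agent.Lib.MP_7dd29b_gt.H42Riem
import Pool.Agent.Lib.MP_7dd29b_gt.H47Zero

/-! Translation of the isotropic curvature statement to coordinates. -/

open scoped RealInnerProductSpace Topology ContDiff
open Filter Matrix

namespace Pool.Agent.Lib.MP_7dd29b_gt.Riem

variable {n : ℕ} {φ : (Fin n → ℝ) → ℝ}

theorem low_riemann (h : Sm φ) (hd : ∀ y, y ≠ 0 → (hes φ y).det ≠ 0) {y : Fin n → ℝ} (hy : y ≠ 0)
    (a k i j : Fin n) : ∑ l, hes φ y a l * riemann (hes φ) l i j k y = -(1 / 4) *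
      (∑ p, ∑ q, (hes φ y)⁻¹ p q * (pd a (pd i (pd p φ)) y * pd j (pd k (pd q φ)) y) -
        ∑ p, ∑ q, (hes φ y)⁻¹ p q * (pd a (pd j (pd p φ)) y * pd i (pd k (pd q φ)) y)) := by
  have e1 : ∀ i j, ∑ l, hes φ y a l * ∑ m, christoffel (hes φ) l i m y *
      christoffel (hes φ) m j k y =
      1 / 2 * ∑ m, pd i (pd a (pd m φ)) y * christoffel (hes φ) m j k y := by
    intro i j
    simp only [Finset.mul_sum]
    rw [Finset.sum_comm]
    refine Finset.sum_congr rfl fun m _ => ?_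
    rw [← mul_assoc, third_swap h i a m hy, ← low h hd a i m hy, Finset.sum_mul]
    exact Finset.sum_congr rfl fun l _ => by ring
  have e2 : ∀ i j, ∑ m, pd i (pd a (pd m φ)) y * christoffel (hes φ) m j k y =
      1 / 2 * ∑ p, ∑ q, (hes φ y)⁻¹ p q * (pd a (pd i (pd p φ)) y * pd j (pd k (pd q φ)) y) := by
    intro i j
    simp only [chr_eq h _ _ _ hy, Finset.mul_sum]
    refine Finset.sum_congr rfl fun p _ => Finset.sum_congr rfl fun q _ => ?_
    rw [pd_comm (h.pd p) i a hy]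
    ring
  simp only [riemann, Finset.sum_sub_distrib, mul_add, mul_sub, Finset.sum_add_distrib]
  rw [e1, e1, low' h hd i a j k hy, low' h hd j a i k hy, e2, e2,
    pd_comm ((h.pd a).pd k) i j hy]
  ring

theorem main_isotropic (hn : 3 ≤ n) (h : Sm φ) (hh : ∀ x, ∀ t : ℝ, 0 < t → φ (t • x) = t ^ 2 * φ x)
    (hpos : ∀ x, x ≠ 0 → (hes φ x).PosDef) (S : (Fin n → ℝ) → ℝ)
    (hS : n = 3 → ∀ y z, y ≠ 0 → z ≠ 0 → 2 * φ y = 1 → 2 * φ z = 1 → S y = S z)
    (hsec : ∀ y, y ≠ 0 → 2 * φ y = 1 → ∀ u v, fderiv ℝ φ y u = 0 → fderiv ℝ φ y v = 0 →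
      ∑ a, ∑ i, ∑ j, ∑ k, u a * u i * v j * v k * ∑ l, hes φ y a l * riemann (hes φ) l i j k y =
        S y * ((u ⬝ᵥ hes φ y *ᵥ u) * (v ⬝ᵥ hes φ y *ᵥ v) - (u ⬝ᵥ hes φ y *ᵥ v) ^ 2)) :
    ∃ A : Matrix (Fin n) (Fin n) ℝ, A.PosDef ∧ ∀ x, x ≠ 0 → 2 * φ x = x ⬝ᵥ A *ᵥ x := by
  set f : EuclideanSpace ℝ (Fin n) → ℝ := fun z => φ z.ofLp with hf
  have hne : ∀ y : EuclideanSpace ℝ (Fin n), y ≠ 0 → y.ofLp ≠ 0 := fun y hy h =>
    hy (by ext i; simpa using congrFun h i)
  have hfs : ∀ y, y ≠ 0 → ContDiffAt ℝ 6 f y := fun y hy =>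
    ((h _ (hne y hy)).of_le (WithTop.coe_le_coe.mpr (le_top : (6 : ℕ∞) ≤ ⊤))).comp y
      (EuclideanSpace.equiv (Fin n) ℝ).contDiff.contDiffAt
  have hfh : ∀ y, y ≠ 0 → ∀ t : ℝ, 0 < t → f (t • y) = (t ^ 2) • f y := fun y _ t ht => by
    simp [hf, hh _ t ht]
  have hsymm : ∀ y, y ≠ 0 → ∀ a b,
      ⟪fderiv ℝ (gradient f) y a, b⟫ = ⟪a, fderiv ℝ (gradient f) y b⟫ := by
    intro y hy a b
    rw [real_inner_comm _ a, inner_hess (hfs y hy), inner_hess (hfs y hy),
      iteratedFDeriv_two_apply, iteratedFDeriv_two_apply]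
    exact (hfs y hy).isSymmSndFDerivAt (by simp; norm_num) a b
  have hG : ∀ y, y ≠ 0 → fderiv ℝ (gradient f) y = toEuclideanCLM (𝕜 := ℝ) (hes φ y.ofLp) := by
    intro y hy
    refine clm_eq_toEuclidean _ _ fun i j => ?_
    rw [← hsymm y hy, inner_hess (hfs y hy), hf, iterated_ofLp, hes, of_apply,
      ← iter2 h i j (hne y hy)]
    congr 1
    ext1 r
    fin_cases r <;> simp
  have hT : ∀ y, y ≠ 0 → ∀ i k p : Fin n,
      (fderiv ℝ (fderiv ℝ (gradient f)) y (EuclideanSpace.single i 1)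
        (EuclideanSpace.single k 1)).ofLp p = pd i (pd k (pd p φ)) y.ofLp := by
    intro y hy i k p
    have h1 := inner_third (hfs y hy) (EuclideanSpace.single i 1) (EuclideanSpace.single k 1)
      (EuclideanSpace.single p 1)
    rw [EuclideanSpace.inner_single_right, hf, iterated_ofLp] at h1
    simp only [conj_trivial, one_mul] at h1
    rw [h1, ← iter3 h i k p (hne y hy)]
    congr 1
    ext1 r
    fin_cases r <;> simp
  have hW : ∀ y, y ≠ 0 →
      Ring.inverse (fderiv ℝ (gradient f) y) = toEuclideanCLM (𝕜 := ℝ) (hes φ y.ofLp)⁻¹ := by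
    intro y hy
    have hu : IsUnit (hes φ y.ofLp) := (hpos _ (hne y hy)).isUnit
    have h1 : fderiv ℝ (gradient f) y * toEuclideanCLM (𝕜 := ℝ) (hes φ y.ofLp)⁻¹ = 1 := by
      rw [hG y hy, ← map_mul, mul_nonsing_inv _ ((isUnit_iff_isUnit_det _).mp hu), map_one]
    have h2 : IsUnit (fderiv ℝ (gradient f) y) := by
      rw [hG y hy]; exact hu.map _
    rw [← mul_one (Ring.inverse _), ← h1, ← mul_assoc, Ring.inverse_mul_cancel _ h2, one_mul]
  have hgs : ∀ y, y ≠ 0 → ContDiffAt ℝ 5 (gradient f) y := fun y hy =>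
    contDiffAt_gradient (hfs y hy)
  have heu : ∀ y, y ≠ 0 → ⟪gradient f y, y⟫ = 2 * f y := fun y hy => by
    rw [inner_gradient_left]
    exact euler_homog (c := fun t : ℝ => t ^ 2) (k := 2)
      (by simpa using hasDerivAt_pow 2 (1 : ℝ)) ((hfs _ hy).differentiableAt (by norm_num))
      (hfh _ hy)
  let H : KData (EuclideanSpace ℝ (Fin n)) :=
    { g := gradient f
      κ := fun y => S y.ofLp
      smooth := hgs
      symm := hsymm
      pos := fun y hy a ha => by
        rw [real_inner_comm, hG y hy, inner_toEuclideanCLM]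
        simpa using (hpos _ (hne y hy)).dotProduct_mulVec_pos (hne a ha)
      homog := fun y hy s hs => by
        have h := fderiv_homog (fun t => t ^ 2)
          (fun y hy => (hfs y hy).differentiableAt (by norm_num)) hfh hy hs
        refine ext_inner_right ℝ fun v => ?_
        rw [inner_smul_left, inner_gradient_left, inner_gradient_left, h]
        simp only [_root_.smul_apply, smul_eq_mul, conj_trivial]
        field_simp
      sec := fun y hy h1 u v hu hv => by
        have hd : ∀ w, ⟪gradient f y, w⟫ = fderiv ℝ φ y.ofLp w.ofLp := fun w => by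
          have h2 := iterated_ofLp φ 1 y ![w]
          rw [iteratedFDeriv_one_apply, iteratedFDeriv_one_apply] at h2
          rw [inner_gradient_left]
          exact h2
        have key := hsec _ (hne y hy) ((heu y hy).symm.trans h1) v.ofLp u.ofLp
          ((hd v).symm.trans hv) ((hd u).symm.trans hu)
        set c := fderiv ℝ (fderiv ℝ (gradient f)) y with hc
        have hcc : c u v = c v u := (hgs y hy).isSymmSndFDerivAt (by simp; norm_num) u v
        have ex : ∀ a b, c a b = ∑ i, ∑ j, (a i * b j) •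
            c (EuclideanSpace.single i 1) (EuclideanSpace.single j 1) := fun a b => by
          rw [expand_basis c a, _root_.sum_apply]
          refine Finset.sum_congr rfl fun i _ => ?_
          rw [_root_.smul_apply, expand_basis (c _) b, Finset.smul_sum]
          simp only [smul_smul]
        have e : ∀ a b d e, ⟪c a b, Ring.inverse (fderiv ℝ (gradient f) y) (c d e)⟫ =
            ∑ i, ∑ j, ∑ k, ∑ l, a i * b j * d k * e l * ∑ p, ∑ q, (hes φ y.ofLp)⁻¹ p q *
              (pd i (pd j (pd p φ)) y.ofLp * pd k (pd l (pd q φ)) y.ofLp) := by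
          intro a b d e
          rw [ex a b, ex d e]
          simp only [map_sum, map_smul, sum_inner, inner_smul_left, conj_trivial]
          simp only [inner_sum, inner_smul_right]
          refine Finset.sum_congr rfl fun i _ => Finset.sum_congr rfl fun j _ => ?_
          rw [Finset.mul_sum]
          refine Finset.sum_congr rfl fun k _ => ?_
          rw [Finset.mul_sum]
          refine Finset.sum_congr rfl fun l _ => ?_
          rw [hW y hy, inner_toEuclideanCLM]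
          simp only [dotProduct, mulVec, Finset.mul_sum, hc, hT y hy]
          refine Finset.sum_congr rfl fun p _ => Finset.sum_congr rfl fun q _ => by ring
        have e2 : ∑ i, ∑ j, ∑ k, ∑ l, v i * u j * v k * u l * ∑ p, ∑ q, (hes φ y.ofLp)⁻¹ p q *
              (pd i (pd j (pd p φ)) y.ofLp * pd k (pd l (pd q φ)) y.ofLp) =
            ∑ i, ∑ k, ∑ j, ∑ l, v i * u j * v k * u l * ∑ p, ∑ q, (hes φ y.ofLp)⁻¹ p q *
              (pd i (pd j (pd p φ)) y.ofLp * pd k (pd l (pd q φ)) y.ofLp) :=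
          Finset.sum_congr rfl fun i _ => Finset.sum_comm
        have hq : ∀ a b, ⟪fderiv ℝ (gradient f) y a, b⟫ = a.ofLp ⬝ᵥ hes φ y.ofLp *ᵥ b.ofLp :=
          fun a b => by rw [hsymm y hy, hG y hy, inner_toEuclideanCLM]
        rw [hcc, e, e, e2, hsymm y hy u v, real_inner_comm _ u, hq, hq, hq]
        simp only [low_riemann h (fun z hz => (hpos z hz).det_pos.ne') (hne y hy)] at key
        rw [mul_assoc, mul_comm (u.ofLp ⬝ᵥ _), ← key]
        simp only [← Finset.sum_sub_distrib, Finset.mul_sum (a := (-4 : ℝ))]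
        refine Finset.sum_congr rfl fun i _ => Finset.sum_congr rfl fun j _ =>
          Finset.sum_congr rfl fun k _ => Finset.sum_congr rfl fun l _ => ?_
        simp only [Finset.sum_sub_distrib]
        ring }
  have hE : 3 ≤ Module.finrank ℝ (EuclideanSpace ℝ (Fin n)) := by simpa using hn
  have : Nontrivial (EuclideanSpace ℝ (Fin n)) :=
    Module.nontrivial_of_finrank_pos (R := ℝ) (by omega)
  obtain ⟨y₀, hy₀⟩ := exists_ne (0 : EuclideanSpace ℝ (Fin n))
  refine ⟨hes φ y₀.ofLp, hpos _ (hne _ hy₀), fun x hx => ?_⟩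
  have hx' : (WithLp.toLp 2 x : EuclideanSpace ℝ (Fin n)) ≠ 0 := fun h =>
    hx (by simpa using congrArg WithLp.ofLp h)
  have h1 := H.G_const hE (fun h3 y z hy hz hy1 hz1 => hS (by simpa using h3) _ _ (hne y hy)
    (hne z hz) ((heu y hy).symm.trans hy1) ((heu z hz).symm.trans hz1)) hx' hy₀
  have h2 := H.g_euler hx'
  rw [h1, show H.G y₀ = _ from hG y₀ hy₀] at h2
  have h4 := inner_toEuclideanCLM (hes φ y₀.ofLp) (WithLp.toLp 2 x) (WithLp.toLp 2 x)
  rw [h2, real_inner_comm, show H.g = gradient f from rfl, heu _ hx'] at h4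
  simpa [hf] using h4

theorem euclidean_of_isotropic (hn : 3 ≤ n) (F : (Fin n → ℝ) → ℝ) (hs : ContDiffOn ℝ ∞ F {0}ᶜ)
    (hp : ∀ y, y ≠ 0 → 0 < F y) (hh : ∀ t : ℝ, 0 < t → ∀ y, F (t • y) = t * F y)
    (hg : ∀ y, y ≠ 0 → (hessMetric F y).PosDef) (S : (Fin n → ℝ) → ℝ)
    (hS : n = 3 → ∀ y z, F y = 1 → F z = 1 → S y = S z)
    (hR : ∀ y, F y = 1 → ∀ u v, fderiv ℝ F y u = 0 → fderiv ℝ F y v = 0 →
      ∑ a, ∑ i, ∑ j, ∑ k, u a * u i * v j * v k *
          ∑ l, hessMetric F y a l * riemann (hessMetric F) l i j k y =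
        S y * ((u ⬝ᵥ hessMetric F y *ᵥ u) * (v ⬝ᵥ hessMetric F y *ᵥ v) -
          (u ⬝ᵥ hessMetric F y *ᵥ v) ^ 2)) :
    ∃ A : Matrix (Fin n) (Fin n) ℝ, A.PosDef ∧ ∀ x, F x = √(x ⬝ᵥ A *ᵥ x) := by
  have h1 : Sm F := fun y hy => hs.contDiffAt (isOpen_compl_singleton.mem_nhds hy)
  have h2 : Sm fun x => F x ^ 2 := fun y hy => (h1 y hy).pow 2
  have h3 : Sm fun x => F x ^ 2 / 2 := fun y hy => (h2 y hy).div_const 2
  have e : ∀ y, y ≠ 0 → hessMetric F y = hes (fun x => F x ^ 2 / 2) y := fun y hy => by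
    ext i j
    simp only [hessMetric, hes, of_apply]
    rw [← pd_const_mul _ _ ((h2.pd j).diff hy)]
    refine pd_congr (fun z hz => ?_) i hy
    rw [← pd_const_mul _ _ (h2.diff hz)]
    congr 1
    ext x
    ring
  have h0 : F 0 = 0 := by
    have := hh 2 two_pos 0
    rw [smul_zero] at this
    linarith
  obtain ⟨A, hA, hF⟩ := main_isotropic hn h3 (fun x t ht => by rw [hh t ht x]; ring)
    (fun y hy => e y hy ▸ hg y hy) S (fun h3 y z hy hz hy1 hz1 =>
      hS h3 y z (by nlinarith [hp y hy]) (by nlinarith [hp z hz])) fun y hy hy1 u v hu hv => by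
      have h4 : F y = 1 := by nlinarith [hp y hy]
      have h5 : ∀ w, fderiv ℝ (fun x => F x ^ 2 / 2) y w = fderiv ℝ F y w := fun w => by
        have h6 := ((h1.diff hy).hasFDerivAt.pow 2).mul_const (2⁻¹ : ℝ)
        simp only [div_eq_mul_inv]
        rw [h6.fderiv]
        simp [h4]
      simp only [← riemann_congr e _ _ _ _ hy, ← e y hy]
      exact hR y h4 u v ((h5 u).symm.trans hu) ((h5 v).symm.trans hv)
  refine ⟨A, hA, fun x => ?_⟩
  by_cases hx : x = 0
  · simp [hx, h0]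
  · rw [← hF x hx, show 2 * (F x ^ 2 / 2) = F x ^ 2 by ring, Real.sqrt_sq (hp x hx).le]

end Pool.Agent.Lib.MP_7dd29b_gt.Riem
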