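import Pool.Agent.Lib.MP_7dd29b_gt.Alg

/-! Identities for the first and second derivative of the product. -/

set_option autoImplicit false
set_option maxSynthPendingDepth 3

open Set Filter Topology
open scoped RealInnerProductSpace

namespace Pool.Agent.Lib.MP_7dd29b_gt

variable {E : Type*} [NormedAddCommGroup E] [InnerProductSpace ℝ E]

lemma Alg.four {C : E →L[ℝ] E →L[ℝ] E} (hA : Alg C) (a b c d : E) :
    ⟪C a b, C c d⟫ = ⟪C a d, C c b⟫ := by
  rw [hA.selfadj a b, hA.selfadj a d, ← hA.assoc, ← hA.assoc, ← hA.selfadj, real_inner_comm]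

namespace CoreData

variable (D : CoreData E)

noncomputable def K (x : E) : E →L[ℝ] E →L[ℝ] E →L[ℝ] E := fderiv ℝ D.C x

noncomputable def L (x : E) : E →L[ℝ] E →L[ℝ] E →L[ℝ] E →L[ℝ] E := fderiv ℝ D.K x

variable {x : E}

lemma hasFDerivAt_C (hx : x ≠ 0) : HasFDerivAt D.C (D.K x) x :=
  ((D.smooth x hx).differentiableAt (by norm_num)).hasFDerivAt

lemma contDiffAt_K (hx : x ≠ 0) : ContDiffAt ℝ 2 D.K x :=
  (D.smooth x hx).fderiv_right (by norm_num)

lemma hasFDerivAt_K (hx : x ≠ 0) : HasFDerivAt D.K (D.L x) x :=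
  ((D.contDiffAt_K hx).differentiableAt (by norm_num)).hasFDerivAt

lemma hasDerivAt_C {γ : ℝ → E} {v : E} {s : ℝ} (h : HasDerivAt γ v s) (hs : γ s ≠ 0) :
    HasDerivAt (fun s => D.C (γ s)) (D.K (γ s) v) s :=
  (D.hasFDerivAt_C hs).comp_hasDerivAt s h

lemma hasDerivAt_K {γ : ℝ → E} {v : E} {s : ℝ} (h : HasDerivAt γ v s) (hs : γ s ≠ 0) :
    HasDerivAt (fun s => D.K (γ s)) (D.L (γ s) v) s :=
  (D.hasFDerivAt_K hs).comp_hasDerivAt s h

end CoreData

lemma line_deriv (x v : E) (s : ℝ) : HasDerivAt (fun s : ℝ => x + s • v) v s := by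
  simpa using ((hasDerivAt_id s).smul_const v).const_add x

lemma line_ne {x : E} (hx : x ≠ 0) (v : E) : ∀ᶠ s in 𝓝 (0 : ℝ), x + s • v ≠ 0 := by
  have : ContinuousAt (fun s : ℝ => x + s • v) 0 := (line_deriv x v 0).continuousAt
  exact this.eventually_ne (by simpa using hx)

lemma hasDerivAt_app2 {c : ℝ → E →L[ℝ] E →L[ℝ] E} {c' : E →L[ℝ] E →L[ℝ] E} {s : ℝ}
    (h : HasDerivAt c c' s) (a b : E) : HasDerivAt (fun s => c s a b) (c' a b) s := by
  simpa using (h.clm_apply (hasDerivAt_const s a)).clm_apply (hasDerivAt_const s b)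

lemma hasDerivAt_app3 {c : ℝ → E →L[ℝ] E →L[ℝ] E →L[ℝ] E} {c' : E →L[ℝ] E →L[ℝ] E →L[ℝ] E}
    {s : ℝ} (h : HasDerivAt c c' s) (a b d : E) :
    HasDerivAt (fun s => c s a b d) (c' a b d) s := by
  simpa using ((h.clm_apply (hasDerivAt_const s a)).clm_apply (hasDerivAt_const s b)).clm_apply
    (hasDerivAt_const s d)

namespace CoreData

variable (D : CoreData E) {x : E}

lemma line_C (hx : x ≠ 0) (v : E) : HasDerivAt (fun s : ℝ => D.C (x + s • v)) (D.K x v) 0 := by
  simpa using D.hasDerivAt_C (line_deriv x v 0) (by simpa using hx)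

lemma line_K (hx : x ≠ 0) (v : E) : HasDerivAt (fun s : ℝ => D.K (x + s • v)) (D.L x v) 0 := by
  simpa using D.hasDerivAt_K (line_deriv x v 0) (by simpa using hx)

lemma K12 (hx : x ≠ 0) (v a : E) : D.K x v a = D.K x a v := D.dsymm x hx v a

lemma K23 (hx : x ≠ 0) (v a b : E) : D.K x v a b = D.K x v b a := by
  refine (hasDerivAt_app2 (D.line_C hx v) a b).unique
    ((hasDerivAt_app2 (D.line_C hx v) b a).congr_of_eventuallyEq ?_)
  filter_upwards [line_ne hx v] with s hs using D.comm _ hs a b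

lemma K34 (hx : x ≠ 0) (v a b c : E) : ⟪D.K x v a b, c⟫ = ⟪D.K x v a c, b⟫ := by
  have h1 := (hasDerivAt_app2 (D.line_C hx v) a b).inner ℝ (hasDerivAt_const 0 c)
  have h2 := (hasDerivAt_app2 (D.line_C hx v) a c).inner ℝ (hasDerivAt_const 0 b)
  simp only [inner_zero_right, zero_add] at h1 h2
  refine h1.unique (h2.congr_of_eventuallyEq ?_)
  filter_upwards [line_ne hx v] with s hs using (D.alg hs).sym3 a b c

lemma K_euler (hx : x ≠ 0) (v a : E) : D.K x v x a = -D.C x v a := by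
  have h1 := ((D.line_C hx v).clm_apply (line_deriv x v 0)).clm_apply (hasDerivAt_const 0 a)
  simp only [zero_smul, add_zero, map_zero, add_apply] at h1
  have h2 := h1.unique ((hasDerivAt_const (0 : ℝ) (0 : E)).congr_of_eventuallyEq (by
    filter_upwards [line_ne hx v] with s hs using D.euler _ hs a))
  exact eq_neg_of_add_eq_zero_left h2

lemma K_four (hx : x ≠ 0) (v a b c d : E) :
    ⟪D.C x a b, D.K x v c d⟫ + ⟪D.K x v a b, D.C x c d⟫ =
      ⟪D.C x a d, D.K x v c b⟫ + ⟪D.K x v a d, D.C x c b⟫ := by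
  have h1 := (hasDerivAt_app2 (D.line_C hx v) a b).inner ℝ (hasDerivAt_app2 (D.line_C hx v) c d)
  have h2 := (hasDerivAt_app2 (D.line_C hx v) a d).inner ℝ (hasDerivAt_app2 (D.line_C hx v) c b)
  simp only [zero_smul, add_zero] at h1 h2
  refine h1.unique (h2.congr_of_eventuallyEq ?_)
  filter_upwards [line_ne hx v] with s hs using (D.alg hs).four a b c d

/-- eigen-direction against a primitive idempotent -/
lemma K_eig (hx : x ≠ 0) {e p : E} {l : ℝ} (hp : Prim (D.C x) p) (hpe : ⟪p, e⟫ = 0)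
    (he : D.C x e e = l • e) (v : E) : ⟪D.K x v e e, p⟫ = -l * ⟪D.K x v p p, e⟫ := by
  have h := D.K_four hx v e e p p
  have h0 := hp.mul_zero' hpe
  rw [he, hp.idem, D.comm x hx e p, h0, real_inner_smul_left, real_inner_comm] at h
  simp only [inner_zero_left, inner_zero_right, add_zero] at h
  linarith

/-- null direction against a primitive idempotent -/
lemma K_null (hx : x ≠ 0) {n n' p : E} (hp : Prim (D.C x) p) (hn : D.C x n = 0)
    (hpn : ⟪p, n'⟫ = 0) (v : E) : ⟪D.K x v n n', p⟫ = 0 := by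
  have h := D.K_four hx v n n' p p
  rw [hn, hp.idem, hp.mul_zero' hpn] at h
  simpa using h

lemma L12 (hx : x ≠ 0) (u v : E) : D.L x u v = D.L x v u :=
  ((D.smooth x hx).isSymmSndFDerivAt (by simp; norm_num)).eq u v

lemma L23 (hx : x ≠ 0) (u v a b : E) : D.L x u v a b = D.L x u a v b := by
  refine (hasDerivAt_app3 (D.line_K hx u) v a b).unique
    ((hasDerivAt_app3 (D.line_K hx u) a v b).congr_of_eventuallyEq ?_)
  filter_upwards [line_ne hx u] with s hs using by rw [D.K12 hs]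

lemma L34 (hx : x ≠ 0) (u v a b : E) : D.L x u v a b = D.L x u v b a := by
  refine (hasDerivAt_app3 (D.line_K hx u) v a b).unique
    ((hasDerivAt_app3 (D.line_K hx u) v b a).congr_of_eventuallyEq ?_)
  filter_upwards [line_ne hx u] with s hs using D.K23 hs v a b

lemma L45 (hx : x ≠ 0) (u v a b c : E) : ⟪D.L x u v a b, c⟫ = ⟪D.L x u v a c, b⟫ := by
  have h1 := (hasDerivAt_app3 (D.line_K hx u) v a b).inner ℝ (hasDerivAt_const 0 c)
  have h2 := (hasDerivAt_app3 (D.line_K hx u) v a c).inner ℝ (hasDerivAt_const 0 b)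
  simp only [inner_zero_right, zero_add] at h1 h2
  refine h1.unique (h2.congr_of_eventuallyEq ?_)
  filter_upwards [line_ne hx u] with s hs using D.K34 hs v a b c

lemma L_null (hx : x ≠ 0) {n e : E} {l : ℝ} (hn : D.C x n = 0) (he : D.C x e e = l • e)
    (hK : D.K x e n n = 0) :
    l * ⟪D.L x n n e e, e⟫ = 2 * ⟪D.K x e e n, D.K x e e n⟫ := by
  have c := fun a b => hasDerivAt_app2 (D.line_C hx e) a b
  have k := fun a b => hasDerivAt_app3 (D.line_K hx e) e a b
  have h1 := ((c n n).inner ℝ (k e e)).add ((k n n).inner ℝ (c e e))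
  have h2 := ((c n e).inner ℝ (k e n)).add ((k n e).inner ℝ (c e n))
  simp only [zero_smul, add_zero] at h1 h2
  have h3 := h1.unique (h2.congr_of_eventuallyEq (by
    filter_upwards [line_ne hx e] with s hs using D.K_four hs e n n e e))
  rw [D.comm x hx e n, hn, hK, he, D.K23 hx e n e] at h3
  simp only [zero_apply, inner_zero_left, inner_zero_right, zero_add, add_zero,
    real_inner_smul_right] at h3
  have h4 : ⟪D.L x e e n n, e⟫ = ⟪D.L x n n e e, e⟫ := by
    rw [D.L23 hx e e n n, D.L12 hx e n, D.L34 hx n e e n, D.L23 hx n e n e]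
  rw [← h4]; linarith

end CoreData

end Pool.Agent.Lib.MP_7dd29b_gt
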