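import Mathlib

/-! Comparison lemmas and the final blow-up lemma. -/

set_option autoImplicit false

open Set Filter Topology

namespace Pool.Agent.Lib.MP_7dd29b_gt

lemma cmp_le {f g f' g' : ℝ → ℝ} {a b : ℝ}
    (hf : ∀ s ∈ Icc a b, HasDerivAt f (f' s) s) (hg : ∀ s ∈ Icc a b, HasDerivAt g (g' s) s)
    (h0 : f a ≤ g a) (h : ∀ s ∈ Icc a b, f' s ≤ g' s) : ∀ s ∈ Icc a b, f s ≤ g s := by
  intro s hs
  exact image_le_of_deriv_right_le_deriv_boundary
    (fun x hx => (hf x hx).continuousAt.continuousWithinAt)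
    (fun x hx => (hf x (Ico_subset_Icc_self hx)).hasDerivWithinAt) h0
    (fun x hx => (hg x hx).continuousAt.continuousWithinAt)
    (fun x hx => (hg x (Ico_subset_Icc_self hx)).hasDerivWithinAt)
    (fun x hx => h x (Ico_subset_Icc_self hx)) hs

lemma cmp_lt {f g f' g' : ℝ → ℝ} {a b : ℝ}
    (hf : ∀ s ∈ Icc a b, HasDerivAt f (f' s) s) (hg : ∀ s ∈ Icc a b, HasDerivAt g (g' s) s)
    (h0 : f a ≤ g a) (h : ∀ s ∈ Icc a b, f s = g s → f' s < g' s) :
    ∀ s ∈ Icc a b, f s ≤ g s := by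
  intro s hs
  exact image_le_of_deriv_right_lt_deriv_boundary'
    (fun x hx => (hf x hx).continuousAt.continuousWithinAt)
    (fun x hx => (hf x (Ico_subset_Icc_self hx)).hasDerivWithinAt) h0
    (fun x hx => (hg x hx).continuousAt.continuousWithinAt)
    (fun x hx => (hg x (Ico_subset_Icc_self hx)).hasDerivWithinAt)
    (fun x hx => h x (Ico_subset_Icc_self hx)) hs

/-- lower linear bound -/
lemma lin_ge {f f' : ℝ → ℝ} {a b K : ℝ}
    (hf : ∀ s ∈ Icc a b, HasDerivAt f (f' s) s) (h : ∀ s ∈ Icc a b, K ≤ f' s) :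
    ∀ s ∈ Icc a b, f a + K * (s - a) ≤ f s := by
  refine cmp_le (f := fun s => f a + K * (s - a)) (f' := fun _ => K) ?_ hf (by simp) h
  intro s _
  simpa using (((hasDerivAt_id s).sub_const a).const_mul K).const_add (f a)

/-- upper linear bound -/
lemma lin_le {f f' : ℝ → ℝ} {a b K : ℝ}
    (hf : ∀ s ∈ Icc a b, HasDerivAt f (f' s) s) (h : ∀ s ∈ Icc a b, f' s ≤ K) :
    ∀ s ∈ Icc a b, f s ≤ f a + K * (s - a) := by
  refine cmp_le (g := fun s => f a + K * (s - a)) (g' := fun _ => K) hf ?_ (by simp) h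
  intro s _
  simpa using (((hasDerivAt_id s).sub_const a).const_mul K).const_add (f a)

lemma riccati {σ σ' : ℝ → ℝ} {a ι T : ℝ} (hι : 0 < ι) (hT : 432 / ι ^ 3 ≤ T)
    (hd : ∀ s ∈ Icc a (a + ι), HasDerivAt σ (σ' s) s) (h0 : ∀ s ∈ Icc a (a + ι), 0 ≤ σ s)
    (hb : ∀ s ∈ Icc a (a + ι), σ s ^ 2 / 2 + T * σ s / 2 + 1 / 4 ≤ σ' s) : False := by
  have hT0 : 0 < T := lt_of_lt_of_le (by positivity) hT
  have h1 : ∀ s ∈ Icc a (a + ι), σ a + 1 / 4 * (s - a) ≤ σ s := by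
    refine lin_ge hd fun s hs => ?_
    have := hb s hs; have := h0 s hs; nlinarith [mul_nonneg hT0.le (h0 s hs)]
  have ha : 0 ≤ σ a := h0 a ⟨le_rfl, by linarith⟩
  have sub2 : Icc (a + ι / 3) (a + ι) ⊆ Icc a (a + ι) := Icc_subset_Icc (by linarith) le_rfl
  have h2 : ∀ s ∈ Icc (a + ι / 3) (a + ι),
      σ (a + ι / 3) + T * ι / 24 * (s - (a + ι / 3)) ≤ σ s := by
    refine lin_ge (fun s hs => hd s (sub2 hs)) fun s hs => ?_
    have h3 := hb s (sub2 hs)
    have h4 := h1 s (sub2 hs)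
    have h5 : ι / 12 ≤ σ s := by have := hs.1; linarith
    nlinarith [mul_le_mul_of_nonneg_left h5 hT0.le, sq_nonneg (σ s)]
  have sub3 : Icc (a + 2 * ι / 3) (a + ι) ⊆ Icc (a + ι / 3) (a + ι) :=
    Icc_subset_Icc (by linarith) le_rfl
  have h6 : ∀ s ∈ Icc (a + 2 * ι / 3) (a + ι), 6 / ι ≤ σ s := by
    intro s hs
    have h7 := h2 s (sub3 hs)
    have h8 := h0 (a + ι / 3) ⟨by linarith, by linarith⟩
    have h9 : T * ι / 24 * (ι / 3) ≤ T * ι / 24 * (s - (a + ι / 3)) :=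
      mul_le_mul_of_nonneg_left (by have := hs.1; linarith) (by positivity)
    have h10 : 6 / ι ≤ T * ι / 24 * (ι / 3) := by
      rw [div_le_iff₀ (by positivity)] at hT
      rw [div_le_iff₀ hι]; nlinarith
    linarith
  have hpos : ∀ s ∈ Icc (a + 2 * ι / 3) (a + ι), 0 < σ s := fun s hs =>
    lt_of_lt_of_le (by positivity) (h6 s hs)
  have h11 := lin_le (f := fun s => (σ s)⁻¹) (f' := fun s => -σ' s / σ s ^ 2)
    (a := a + 2 * ι / 3) (b := a + ι) (K := -1 / 2)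
    (fun s hs => (hd s (sub2 (sub3 hs))).inv (hpos s hs).ne') (fun s hs => by
      have h3 := hb s (sub2 (sub3 hs))
      have hp := hpos s hs
      rw [div_le_iff₀ (by positivity)]
      nlinarith [mul_nonneg hT0.le hp.le]) (a + ι) ⟨by linarith, le_rfl⟩
  have h12 : (σ (a + 2 * ι / 3))⁻¹ ≤ ι / 6 := by
    have := h6 (a + 2 * ι / 3) ⟨le_rfl, by linarith⟩
    have h := inv_anti₀ (by positivity) this
    simpa using h
  have h13 : 0 < (σ (a + ι))⁻¹ := inv_pos.2 (hpos _ ⟨by linarith, le_rfl⟩)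
  linarith

/-- Solutions along the tilted path. -/
structure SolF (lam : ℝ → ℝ) (b t ε : ℝ) (y ψ Q w1 w2 Q' : ℝ → ℝ) : Prop where
  dy : ∀ s ∈ Icc 0 ε, HasDerivAt y (ψ s + w1 s) s
  dψ : ∀ s ∈ Icc 0 ε, HasDerivAt ψ (t * lam s * ψ s - y s + w2 s) s
  dQ : ∀ s ∈ Icc 0 ε, HasDerivAt Q (Q' s) s
  hw1 : ∀ s ∈ Icc 0 ε, |w1 s| ≤ b * √(Q s)
  hw2 : ∀ s ∈ Icc 0 ε, |w2 s| ≤ b * √(Q s)
  hQ' : ∀ s ∈ Icc 0 ε, Q' s ≤ -2 * t * Q s + 2 * b * √(Q s) * (|y s| + |ψ s|)
  Q0 : ∀ s ∈ Icc 0 ε, 0 ≤ Q s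
  pos : ∀ s ∈ Icc 0 ε, 0 < y s ^ 2 + ψ s ^ 2 + Q s
  le1 : ∀ s ∈ Icc 0 ε, y s ≤ 1

lemma abs_le_sqrt_add (y p : ℝ) : |y| ≤ √(y ^ 2 + p ^ 2) :=
  Real.abs_le_sqrt (by nlinarith [sq_nonneg p])

lemma abs_le_sqrt_add' (y p : ℝ) : |p| ≤ √(y ^ 2 + p ^ 2) :=
  Real.abs_le_sqrt (by nlinarith [sq_nonneg y])

lemma sqrt_add_le_abs (y p : ℝ) : √(y ^ 2 + p ^ 2) ≤ |y| + |p| := by
  rw [Real.sqrt_le_left (by positivity)]
  nlinarith [sq_abs y, sq_abs p, mul_nonneg (abs_nonneg y) (abs_nonneg p)]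

lemma SolF.cone {lam : ℝ → ℝ} {b t ε η : ℝ} {y ψ Q w1 w2 Q' : ℝ → ℝ}
    (h : SolF lam b t ε y ψ Q w1 w2 Q') (hb : 0 < b) (hη : ∀ s ∈ Icc 0 ε, |lam s| ≤ η)
    (hη2 : η ≤ 1 / 2) (ht : 1 + 100 * b ^ 2 ≤ t)
    (h0 : Q 0 ≤ (1 / (20 * b)) ^ 2 * (y 0 ^ 2 + ψ 0 ^ 2)) :
    ∀ s ∈ Icc 0 ε, |w1 s| ≤ √(y s ^ 2 + ψ s ^ 2) / 20 ∧ |w2 s| ≤ √(y s ^ 2 + ψ s ^ 2) / 20 := by
  set κ := 1 / (20 * b) with hκ
  have hκ0 : 0 < κ := by positivity
  have hbκ : b * κ = 1 / 20 := by rw [hκ]; field_simp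
  have ht0 : 0 < t := by nlinarith [sq_nonneg b]
  have key : ∀ s ∈ Icc 0 ε, Q s ≤ κ ^ 2 * (y s ^ 2 + ψ s ^ 2) := by
    refine cmp_lt (g := fun s => κ ^ 2 * (y s ^ 2 + ψ s ^ 2))
      (g' := fun s => κ ^ 2 * (2 * y s * (ψ s + w1 s) +
        2 * ψ s * (t * lam s * ψ s - y s + w2 s))) h.dQ ?_ h0 ?_
    · intro s hs
      have := (((h.dy s hs).pow 2).add ((h.dψ s hs).pow 2)).const_mul (κ ^ 2)
      simpa using this
    · intro s hs heq
      set ρ := √(y s ^ 2 + ψ s ^ 2) with hρ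
      have hρ2 : ρ ^ 2 = y s ^ 2 + ψ s ^ 2 := Real.sq_sqrt (by positivity)
      have hρ0 : 0 < ρ := by
        have := h.pos s hs
        rw [hρ, Real.sqrt_pos]
        by_contra hc
        have h1 : y s ^ 2 + ψ s ^ 2 = 0 := le_antisymm (not_lt.1 hc) (by positivity)
        rw [heq, h1] at this; simp at this
      have hsq : √(Q s) = κ * ρ := by
        rw [heq, ← hρ2, ← mul_pow, Real.sqrt_sq (by positivity)]
      have hy := abs_le_sqrt_add (y s) (ψ s)
      have hp := abs_le_sqrt_add' (y s) (ψ s)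
      rw [← hρ] at hy hp
      have h1 := h.hw1 s hs
      have h2 := h.hw2 s hs
      have h3 := h.hQ' s hs
      rw [hsq] at h1 h2 h3
      rw [← mul_assoc, hbκ] at h1 h2
      have h4 : -(ρ ^ 2 / 20) ≤ y s * w1 s := by
        have : |y s * w1 s| ≤ ρ * (1 / 20 * ρ) := by
          rw [abs_mul]; exact mul_le_mul hy h1 (abs_nonneg _) hρ0.le
        have := neg_abs_le (y s * w1 s); nlinarith
      have h5 : -(ρ ^ 2 / 20) ≤ ψ s * w2 s := by
        have : |ψ s * w2 s| ≤ ρ * (1 / 20 * ρ) := by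
          rw [abs_mul]; exact mul_le_mul hp h2 (abs_nonneg _) hρ0.le
        have := neg_abs_le (ψ s * w2 s); nlinarith
      have h6 : -(ρ ^ 2 / 2) ≤ lam s * ψ s ^ 2 := by
        have h7 := neg_abs_le (lam s)
        have h8 := hη s hs
        have h9 : ψ s ^ 2 ≤ ρ ^ 2 := by nlinarith [sq_nonneg (y s)]
        nlinarith [sq_nonneg (ψ s)]
      have h10 : Q' s ≤ -2 * t * (κ ^ 2 * ρ ^ 2) + ρ ^ 2 / 5 := by
        have : 2 * b * (κ * ρ) * (|y s| + |ψ s|) ≤ 2 * b * (κ * ρ) * (2 * ρ) :=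
          mul_le_mul_of_nonneg_left (by linarith) (by positivity)
        have e : 2 * b * (κ * ρ) * (2 * ρ) = 4 * (b * κ) * ρ ^ 2 := by ring
        rw [e, hbκ] at this
        rw [heq, ← hρ2] at h3
        linarith
      have h11 : -(ρ ^ 2 / 5) - t * ρ ^ 2 ≤
          2 * y s * (ψ s + w1 s) + 2 * ψ s * (t * lam s * ψ s - y s + w2 s) := by
        have := mul_le_mul_of_nonneg_left h6 ht0.le
        nlinarith
      have h12 := mul_le_mul_of_nonneg_left h11 (sq_nonneg κ)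
      have h13 : 1 / 5 + κ ^ 2 / 5 < t * κ ^ 2 := by
        have e : b ^ 2 * κ ^ 2 = 1 / 400 := by rw [← mul_pow, hbκ]; norm_num
        have : (1 + 100 * b ^ 2) * κ ^ 2 ≤ t * κ ^ 2 := mul_le_mul_of_nonneg_right ht (sq_nonneg κ)
        have hk2 : 0 < κ ^ 2 := by positivity
        nlinarith
      have hr2 : 0 < ρ ^ 2 := by positivity
      have h14 := mul_lt_mul_of_pos_right h13 hr2
      nlinarith
  intro s hs
  have h1 : √(Q s) ≤ κ * √(y s ^ 2 + ψ s ^ 2) := by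
    rw [← Real.sqrt_sq hκ0.le, ← Real.sqrt_mul (by positivity)]
    exact Real.sqrt_le_sqrt (key s hs)
  have h2 : b * √(Q s) ≤ √(y s ^ 2 + ψ s ^ 2) / 20 := by
    have := mul_le_mul_of_nonneg_left h1 hb.le
    rw [← mul_assoc, hbκ] at this; linarith
  exact ⟨(h.hw1 s hs).trans h2, (h.hw2 s hs).trans h2⟩

theorem final_blowup {lam : ℝ → ℝ} {b ε δ η a2 ι l1 : ℝ} (hb : 0 < b) (hδ : 0 < δ)
    (hη : ∀ s ∈ Icc 0 ε, |lam s| ≤ η) (hη2 : η ≤ 1 / 2) (hη3 : η * ε ≤ δ / 2)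
    (hι : 0 < ι) (hl1 : 0 < l1) (ha2 : 0 ≤ a2) (ha2' : a2 + ι ≤ ε)
    (hpos : ∀ s ∈ Icc a2 (a2 + ι), l1 ≤ lam s) :
    ∀ᶠ t in atTop, ∀ y ψ Q w1 w2 Q' : ℝ → ℝ, SolF lam b t ε y ψ Q w1 w2 Q' →
      Q 0 ≤ (1 / (20 * b)) ^ 2 * (y 0 ^ 2 + ψ 0 ^ 2) →
      Real.exp (2 * t * δ) ≤ y 0 ^ 2 + ψ 0 ^ 2 →
      (0 ≤ ψ 0 ∨ ∃ a1, 0 ≤ a1 ∧ a1 + ι ≤ a2 ∧ ∀ s ∈ Icc a1 (a1 + ι), lam s ≤ -l1) → False := by
  filter_upwards [eventually_ge_atTop (1 + 100 * b ^ 2), eventually_ge_atTop (432 / ι ^ 3 / l1),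
    eventually_ge_atTop (1 / l1), eventually_ge_atTop ((400 + ε / 5) / δ)]
    with t ht1 ht2 ht3 ht4 y ψ Q w1 w2 Q' h h0 hbig hcase
  have ht0 : 0 < t := by nlinarith [sq_nonneg b]
  have hT : 432 / ι ^ 3 ≤ t * l1 := by rwa [div_le_iff₀ hl1] at ht2
  have hT1 : 1 ≤ t * l1 := by rwa [div_le_iff₀ hl1] at ht3
  have hcone := h.cone hb hη hη2 ht1 h0
  have hη0 : 0 ≤ η := (abs_nonneg _).trans (hη 0 ⟨le_rfl, by linarith⟩)
  -- lower bound for the amplitude
  have hρ : ∀ s ∈ Icc 0 ε, 20 ≤ √(y s ^ 2 + ψ s ^ 2) := by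
    set c := 2 * t * η + 1 / 5 with hc
    have h1 := lin_ge (f := fun s => (y s ^ 2 + ψ s ^ 2) * Real.exp (c * s))
      (f' := fun s => (2 * y s * (ψ s + w1 s) + 2 * ψ s * (t * lam s * ψ s - y s + w2 s)) *
        Real.exp (c * s) + (y s ^ 2 + ψ s ^ 2) * (Real.exp (c * s) * c)) (a := 0) (b := ε) (K := 0)
      (fun s hs => by
        have e1 := ((h.dy s hs).fun_pow 2).fun_add ((h.dψ s hs).fun_pow 2)
        have e2 := ((hasDerivAt_id' s).const_mul c).exp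
        exact (e1.fun_mul e2).congr_deriv (by simp)) (fun s hs => by
        set ρ := √(y s ^ 2 + ψ s ^ 2) with hρ
        have hρ2 : ρ ^ 2 = y s ^ 2 + ψ s ^ 2 := Real.sq_sqrt (by positivity)
        have hρ0 : 0 ≤ ρ := Real.sqrt_nonneg _
        have hy := abs_le_sqrt_add (y s) (ψ s)
        have hp := abs_le_sqrt_add' (y s) (ψ s)
        obtain ⟨h1, h2⟩ := hcone s hs
        rw [← hρ] at hy hp h1 h2
        have h4 : -(ρ ^ 2 / 20) ≤ y s * w1 s := by
          have : |y s * w1 s| ≤ ρ * (ρ / 20) := by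
            rw [abs_mul]; exact mul_le_mul hy h1 (abs_nonneg _) hρ0
          have := neg_abs_le (y s * w1 s); nlinarith
        have h5 : -(ρ ^ 2 / 20) ≤ ψ s * w2 s := by
          have : |ψ s * w2 s| ≤ ρ * (ρ / 20) := by
            rw [abs_mul]; exact mul_le_mul hp h2 (abs_nonneg _) hρ0
          have := neg_abs_le (ψ s * w2 s); nlinarith
        have h6 : -(η * ρ ^ 2) ≤ lam s * ψ s ^ 2 := by
          have h7 := neg_abs_le (lam s)
          have h8 := hη s hs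
          have h9 : ψ s ^ 2 ≤ ρ ^ 2 := by nlinarith [sq_nonneg (y s)]
          nlinarith [sq_nonneg (ψ s)]
        have h7 := mul_le_mul_of_nonneg_left h6 ht0.le
        have h8 : 0 ≤ (2 * y s * (ψ s + w1 s) + 2 * ψ s * (t * lam s * ψ s - y s + w2 s)) +
            (y s ^ 2 + ψ s ^ 2) * c := by
          rw [← hρ2, hc]; nlinarith
        have := mul_nonneg h8 (Real.exp_pos (c * s)).le
        nlinarith)
    intro s hs
    have h2 := h1 s hs
    simp only [mul_zero, Real.exp_zero, mul_one, zero_mul, add_zero] at h2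
    have h3 : Real.exp (c * s) ≤ Real.exp (t * δ + ε / 5) := by
      apply Real.exp_le_exp.2
      have : c * s ≤ c * ε := mul_le_mul_of_nonneg_left hs.2 (by positivity)
      have : t * (η * ε) ≤ t * (δ / 2) := mul_le_mul_of_nonneg_left hη3 ht0.le
      nlinarith
    have h4 : Real.exp (2 * t * δ) ≤ (y s ^ 2 + ψ s ^ 2) * Real.exp (t * δ + ε / 5) :=
      (hbig.trans h2).trans (mul_le_mul_of_nonneg_left h3 (by positivity))
    have h5 : Real.exp (2 * t * δ) = Real.exp (t * δ - ε / 5) * Real.exp (t * δ + ε / 5) := by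
      rw [← Real.exp_add]; ring_nf
    rw [h5] at h4
    have h6 := le_of_mul_le_mul_right h4 (Real.exp_pos _)
    have h7 : 400 ≤ t * δ - ε / 5 := by rw [div_le_iff₀ hδ] at ht4; linarith
    have h8 := Real.add_one_le_exp (t * δ - ε / 5)
    apply Real.le_sqrt_of_sq_le; linarith
  -- once nonnegative, always nonnegative
  have hA2 : ∀ s1 ∈ Icc 0 ε, 0 ≤ ψ s1 → ∀ s ∈ Icc s1 ε, 0 ≤ ψ s := by
    intro s1 hs1 hψ
    have sub : Icc s1 ε ⊆ Icc 0 ε := Icc_subset_Icc hs1.1 le_rfl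
    refine cmp_lt (f := fun _ => 0) (f' := fun _ => 0) (fun s _ => hasDerivAt_const s 0)
      (fun s hs => h.dψ s (sub hs)) hψ ?_
    intro s hs heq
    have h1 := hρ s (sub hs)
    have h2 := (hcone s (sub hs)).2
    have h3 := h.le1 s (sub hs)
    rw [← heq] at h1 h2 ⊢
    simp only [ne_eq, OfNat.ofNat_ne_zero, not_false_eq_true, zero_pow, add_zero,
      Real.sqrt_sq_eq_abs] at h1 h2
    have h4 : y s < 0 := by
      by_contra hc
      rw [abs_of_nonneg (not_lt.1 hc)] at h1; linarith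
    rw [abs_of_neg h4] at h1 h2
    have := neg_abs_le (w2 s)
    simp only [mul_zero]
    linarith
  have hψ2 : ∀ s ∈ Icc a2 (a2 + ι), 0 ≤ ψ s := by
    rcases hcase with hc | ⟨a1, ha1, ha1', hneg⟩
    · intro s hs
      exact hA2 0 ⟨le_rfl, by linarith⟩ hc s ⟨by linarith [hs.1], by linarith [hs.2]⟩
    · by_cases hc : ∃ s1 ∈ Icc a1 (a1 + ι), 0 ≤ ψ s1
      · obtain ⟨s1, hs1, hc⟩ := hc
        intro s hs
        exact hA2 s1 ⟨by linarith [hs1.1], by linarith [hs1.2]⟩ hc s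
          ⟨by linarith [hs.1, hs1.2], by linarith [hs.2]⟩
      · exfalso
        push Not at hc
        have sub : Icc a1 (a1 + ι) ⊆ Icc 0 ε := Icc_subset_Icc ha1 (by linarith)
        refine riccati (σ := fun s => (1 - y s) / (-ψ s)) (a := a1) (T := t * l1)
          (σ' := fun s => (-(ψ s + w1 s) * (-ψ s) -
            (1 - y s) * (-(t * lam s * ψ s - y s + w2 s))) / (-ψ s) ^ 2) hι hT ?_ ?_ ?_
        · intro s hs
          exact ((h.dy s (sub hs)).const_sub 1).div (h.dψ s (sub hs)).neg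
            (neg_pos.2 (hc s hs)).ne'
        · intro s hs
          exact div_nonneg (by linarith [h.le1 s (sub hs)]) (neg_pos.2 (hc s hs)).le
        · intro s hs
          have hp : 0 < -ψ s := neg_pos.2 (hc s hs)
          have hz : 0 ≤ 1 - y s := by linarith [h.le1 s (sub hs)]
          obtain ⟨h1, h2⟩ := hcone s (sub hs)
          have h3 := hρ s (sub hs)
          have h4 := sqrt_add_le_abs (y s) (ψ s)
          have h5 : |y s| ≤ (1 - y s) + 1 := abs_le.2 ⟨by linarith, by linarith⟩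
          rw [abs_of_neg (hc s hs)] at h4
          set p := -ψ s with hpdef
          set z := 1 - y s with hzdef
          have e1 : ψ s = -p := by rw [hpdef]; ring
          have e2 : y s = 1 - z := by rw [hzdef]; ring
          have h6 : w1 s ≤ (z + 1 + p) / 20 := by have := le_abs_self (w1 s); linarith
          have h7 : -((z + 1 + p) / 20) ≤ w2 s := by have := neg_abs_le (w2 s); linarith
          have h8 : 19 ≤ z + p := by linarith
          have h9 : t * lam s ≤ -(t * l1) := by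
            have := mul_le_mul_of_nonneg_left (hneg s hs) ht0.le; linarith
          rw [le_div_iff₀ (by positivity), e1, e2]
          have e3 : ((z / p) ^ 2 / 2 + t * l1 * (z / p) / 2 + 1 / 4) * p ^ 2 =
              z ^ 2 / 2 + t * l1 * (z * p) / 2 + p ^ 2 / 4 := by field_simp
          rw [e3]
          have hzp : 0 ≤ z * p := mul_nonneg hz hp.le
          have h10 := mul_le_mul_of_nonneg_right h9 hzp
          have h11 := mul_le_mul_of_nonneg_right h6 hp.le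
          have h12 := mul_le_mul_of_nonneg_right h7 hz
          have h13 := mul_le_mul_of_nonneg_right hT1 hzp
          nlinarith [sq_nonneg (z - p), mul_le_mul_of_nonneg_right h8 (add_nonneg hz hp.le)]
  have sub : Icc a2 (a2 + ι) ⊆ Icc 0 ε := Icc_subset_Icc ha2 ha2'
  refine riccati (σ := fun s => ψ s / (3 - y s)) (a := a2) (T := t * l1)
    (σ' := fun s => ((t * lam s * ψ s - y s + w2 s) * (3 - y s) -
      ψ s * (-(ψ s + w1 s))) / (3 - y s) ^ 2) hι hT ?_ ?_ ?_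
  · intro s hs
    exact (h.dψ s (sub hs)).div ((h.dy s (sub hs)).const_sub 3)
      (by linarith [h.le1 s (sub hs)])
  · intro s hs
    exact div_nonneg (hψ2 s hs) (by linarith [h.le1 s (sub hs)])
  · intro s hs
    have hp := hψ2 s hs
    have hz : 2 ≤ 3 - y s := by linarith [h.le1 s (sub hs)]
    obtain ⟨h1, h2⟩ := hcone s (sub hs)
    have h3 := hρ s (sub hs)
    have h4 := sqrt_add_le_abs (y s) (ψ s)
    have h5 : |y s| ≤ 3 - y s := abs_le.2 ⟨by linarith, by linarith⟩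
    rw [abs_of_nonneg hp] at h4
    set z := 3 - y s with hzdef
    set p := ψ s with hpdef
    have e2 : y s = 3 - z := by rw [hzdef]; ring
    have h6 : -((z + p) / 20) ≤ w1 s := by have := neg_abs_le (w1 s); linarith
    have h7 : -((z + p) / 20) ≤ w2 s := by have := neg_abs_le (w2 s); linarith
    have h8 : 20 ≤ z + p := by linarith
    have h9 : t * l1 ≤ t * lam s := mul_le_mul_of_nonneg_left (hpos s hs) ht0.le
    have hz0 : 0 < z := by linarith
    rw [le_div_iff₀ (by positivity), e2]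
    have e3 : ((p / z) ^ 2 / 2 + t * l1 * (p / z) / 2 + 1 / 4) * z ^ 2 =
        p ^ 2 / 2 + t * l1 * (z * p) / 2 + z ^ 2 / 4 := by field_simp
    rw [e3]
    have hzp : 0 ≤ z * p := mul_nonneg hz0.le hp
    have h10 := mul_le_mul_of_nonneg_right h9 hzp
    have h11 := mul_le_mul_of_nonneg_right h6 hp
    have h12 := mul_le_mul_of_nonneg_right h7 hz0.le
    have h13 := mul_le_mul_of_nonneg_right hT1 hzp
    nlinarith [sq_nonneg (z - p), mul_le_mul_of_nonneg_right h8 (add_nonneg hz0.le hp)]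

end Pool.Agent.Lib.MP_7dd29b_gt
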