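import Pool.Agent.Lib.MP_7dd29b_gt.Ode1

/-! The first (rising) stage along a curve. -/

set_option autoImplicit false

open Set Filter Topology

namespace Pool.Agent.Lib.MP_7dd29b_gt

/-- Solutions along a curve of curvature lines. -/
structure Sol (lam : ℝ → ℝ) (b t a c : ℝ) (y ψ Q w : ℝ → ℝ) : Prop where
  dy : ∀ s ∈ Icc a c, HasDerivAt y (ψ s) s
  dψ : ∀ s ∈ Icc a c, HasDerivAt ψ (t * lam s * ψ s - y s + w s) s
  dQ : ∀ s ∈ Icc a c, HasDerivAt Q (-2 * ψ s * w s) s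
  hw : ∀ s ∈ Icc a c, |w s| ≤ b * |lam s| * √(Q s)
  Q0 : ∀ s ∈ Icc a c, 0 ≤ Q s
  pos : ∀ s ∈ Icc a c, 0 < y s ^ 2 + ψ s ^ 2 + Q s
  le1 : ∀ s ∈ Icc a c, y s ≤ 1

variable {lam : ℝ → ℝ} {b t a c : ℝ} {y ψ Q w : ℝ → ℝ}

lemma Sol.mono (h : Sol lam b t a c y ψ Q w) {a' c' : ℝ} (ha : a ≤ a') (hc : c' ≤ c) :
    Sol lam b t a' c' y ψ Q w :=
  have sub : Icc a' c' ⊆ Icc a c := Icc_subset_Icc ha hc
  ⟨fun s hs => h.dy s (sub hs), fun s hs => h.dψ s (sub hs), fun s hs => h.dQ s (sub hs),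
    fun s hs => h.hw s (sub hs), fun s hs => h.Q0 s (sub hs), fun s hs => h.pos s (sub hs),
    fun s hs => h.le1 s (sub hs)⟩

lemma Sol.dN (h : Sol lam b t a c y ψ Q w) : ∀ s ∈ Icc a c,
    HasDerivAt (fun s => y s ^ 2 + ψ s ^ 2 + Q s) (2 * t * lam s * ψ s ^ 2) s := by
  intro s hs
  exact ((((h.dy s hs).fun_pow 2).fun_add ((h.dψ s hs).fun_pow 2)).fun_add
    (h.dQ s hs)).congr_deriv (by simp; ring)

lemma Sol.dZ (h : Sol lam b t a c y ψ Q w) (hb : 0 < b) {δ : ℝ} (hδ : 0 < δ) : ∀ s ∈ Icc a c,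
    HasDerivAt (fun s => √(Q s + δ ^ 2)) (-2 * ψ s * w s / (2 * √(Q s + δ ^ 2))) s ∧
      -2 * ψ s * w s / (2 * √(Q s + δ ^ 2)) ≤ b * |lam s| * |ψ s| := by
  intro s hs
  have h0 := h.Q0 s hs
  have hp : 0 < Q s + δ ^ 2 := by positivity
  refine ⟨((h.dQ s hs).add_const (δ ^ 2)).sqrt hp.ne', ?_⟩
  have hs0 : 0 < √(Q s + δ ^ 2) := Real.sqrt_pos.2 hp
  rw [div_le_iff₀ (by positivity)]
  have h1 : √(Q s) ≤ √(Q s + δ ^ 2) := Real.sqrt_le_sqrt (by nlinarith)
  have h2 : |w s| ≤ b * |lam s| * √(Q s + δ ^ 2) :=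
    (h.hw s hs).trans (mul_le_mul_of_nonneg_left h1 (by positivity))
  have h3 : -(ψ s * w s) ≤ |ψ s| * |w s| := by rw [← abs_mul]; exact neg_le_abs _
  have h4 := mul_le_mul_of_nonneg_left h2 (abs_nonneg (ψ s))
  nlinarith

/-- exact rotation on a plateau -/
lemma Sol.plateau (h : Sol lam b t a c y ψ Q w) (h0 : ∀ s ∈ Icc a c, lam s = 0) :
    ∀ s ∈ Icc a c, y s = y a * Real.cos (s - a) + ψ a * Real.sin (s - a) ∧
      ψ s = -y a * Real.sin (s - a) + ψ a * Real.cos (s - a) ∧ Q s = Q a := by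
  have hw : ∀ s ∈ Icc a c, w s = 0 := fun s hs => by
    have := h.hw s hs
    rw [h0 s hs] at this
    simpa using this
  have hQ : ∀ s ∈ Icc a c, Q s = Q a := fun s hs => by
    have h1 := lin_le (K := 0) h.dQ (fun s hs => by rw [hw s hs]; simp) s hs
    have h2 := lin_ge (K := 0) h.dQ (fun s hs => by rw [hw s hs]; simp) s hs
    linarith
  have h1 := lin_le (K := 0) (a := a) (b := c)
    (f := fun s => (y s - (y a * Real.cos (s - a) + ψ a * Real.sin (s - a))) ^ 2 +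
      (ψ s - (-y a * Real.sin (s - a) + ψ a * Real.cos (s - a))) ^ 2) (f' := fun _ => 0)
    (fun s hs => by
      have e0 := (hasDerivAt_id' s).sub_const a
      have e1 := (h.dy s hs).fun_sub ((e0.cos.const_mul (y a)).fun_add (e0.sin.const_mul (ψ a)))
      have e2 := (h.dψ s hs).fun_sub ((e0.sin.const_mul (-y a)).fun_add (e0.cos.const_mul (ψ a)))
      refine ((e1.fun_pow 2).fun_add (e2.fun_pow 2)).congr_deriv ?_
      rw [h0 s hs, hw s hs]; simp; ring) (fun _ _ => le_rfl)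
  intro s hs
  have h2 := h1 s hs
  simp only [sub_self, Real.cos_zero, mul_one, Real.sin_zero, mul_zero, add_zero, zero_add,
    ne_eq, OfNat.ofNat_ne_zero, not_false_eq_true, zero_pow, zero_mul] at h2
  refine ⟨?_, ?_, hQ s hs⟩
  · nlinarith [sq_nonneg (y s - (y a * Real.cos (s - a) + ψ a * Real.sin (s - a))),
      sq_nonneg (ψ s - (-y a * Real.sin (s - a) + ψ a * Real.cos (s - a)))]
  · nlinarith [sq_nonneg (y s - (y a * Real.cos (s - a) + ψ a * Real.sin (s - a))),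
      sq_nonneg (ψ s - (-y a * Real.sin (s - a) + ψ a * Real.cos (s - a)))]

lemma ev_nonneg {f : ℝ → ℝ} {f' s : ℝ} (hf : HasDerivAt f f' s) (h0 : 0 ≤ f s)
    (h : f s = 0 → 0 < f') : ∀ᶠ x in 𝓝[>] s, 0 ≤ f x := by
  rcases h0.lt_or_eq with h1 | h1
  · exact ((hf.continuousAt.eventually (lt_mem_nhds h1)).filter_mono nhdsWithin_le_nhds).mono
      fun x hx => hx.le
  · have h2 := h h1.symm
    have h3 := (hasDerivAt_iff_tendsto_slope.1 hf).eventually (lt_mem_nhds h2)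
    have h4 : 𝓝[>] s ≤ 𝓝[≠] s := nhdsWithin_mono _ fun x hx => ne_of_gt hx
    filter_upwards [h3.filter_mono h4, self_mem_nhdsWithin] with x hx hx'
    rw [slope_def_field, ← h1, sub_zero] at hx
    have : 0 < x - s := sub_pos.2 hx'
    exact ((div_pos_iff_of_pos_right this).1 hx).le

/-- the invariant of the first stage -/
def Inv1 (b t s0 : ℝ) (y ψ Q : ℝ → ℝ) (s : ℝ) : Prop :=
  0 ≤ -ψ s ∧ 0 ≤ 2 * (s - s0) * (-ψ s) + y s ∧
    √(Q s) ≤ 4 * b / t * (-ψ s + (2 * (s - s0) * (-ψ s) + y s))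

lemma Sol.improve {L s0 p : ℝ} (h : Sol lam b t s0 p y ψ Q w) (hb : 0 < b)
    (hlam : ∀ s ∈ Icc s0 p, 0 ≤ lam s ∧ lam s ≤ L) (hp0 : s0 ≤ p) (hp : p - s0 ≤ 1 / 4)
    (ht : 1 + 12 * b ^ 2 + 4 * b ^ 2 * L ≤ t) (hψ0 : ψ s0 = 0) (hQ0 : Q s0 = 0)
    (hI : ∀ s ∈ Icc s0 p, Inv1 b t s0 y ψ Q s) : √(Q p) ≤ 3 * b / t * (-ψ p) := by
  have hL : 0 ≤ L := (hlam s0 ⟨le_rfl, hp0⟩).1.trans (hlam s0 ⟨le_rfl, hp0⟩).2
  have ht1 : 1 ≤ t := by nlinarith [sq_nonneg b, mul_nonneg (sq_nonneg b) hL]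
  have ht0 : 0 < t := by linarith
  have hpp : p ∈ Icc s0 p := ⟨hp0, le_rfl⟩
  set zm := max (-y p) 0 with hzm
  have hzm0 : 0 ≤ zm := le_max_right _ _
  have hP := (hI p hpp).1
  have hzm1 : zm ≤ -ψ p / 2 := by
    refine max_le ?_ (by linarith)
    have := (hI p hpp).2.1
    nlinarith
  have hz : ∀ s ∈ Icc s0 p, 0 ≤ zm + y s := by
    intro s hs
    have h1 := lin_le (K := 0) (a := s) (b := p) (h.mono hs.1 le_rfl).dy
      (fun x hx => by have := (hI x ⟨hs.1.trans hx.1, hx.2⟩).1; linarith) p ⟨hs.2, le_rfl⟩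
    have := le_max_left (-y p) 0
    linarith
  refine le_of_forall_pos_le_add fun δ hδ => ?_
  have h1 := lin_le (K := 0) (a := s0) (b := p)
    (f := fun s => √(Q s + δ ^ 2) - 2 * b / t * (-ψ s + (s - s0) * zm))
    (f' := fun s => -2 * ψ s * w s / (2 * √(Q s + δ ^ 2)) -
      2 * b / t * (-(t * lam s * ψ s - y s + w s) + zm))
    (fun s hs => by
      have e1 := (h.dZ hb hδ s hs).1
      have e2 := (((h.dψ s hs).fun_neg).fun_add
        (((hasDerivAt_id' s).sub_const s0).mul_const zm)).const_mul (2 * b / t)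
      exact (e1.fun_sub e2).congr_deriv (by simp))
    (fun s hs => by
      have e1 := (h.dZ hb hδ s hs).2
      obtain ⟨i1, i2, i3⟩ := hI s hs
      obtain ⟨l1, l2⟩ := hlam s hs
      rw [abs_of_nonneg l1, abs_of_nonpos (by linarith)] at e1
      have e2 := h.hw s hs
      rw [abs_of_nonneg l1] at e2
      set P := -ψ s with hPdef
      have eψ : ψ s = -P := by rw [hPdef]; ring
      have e3 : w s ≤ b * lam s * (4 * b / t * (P + (2 * (s - s0) * P + y s))) :=
        (le_abs_self _).trans (e2.trans (mul_le_mul_of_nonneg_left i3 (by positivity)))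
      have e4 : P + (2 * (s - s0) * P + y s) ≤ 3 / 2 * P + y s := by
        have : s - s0 ≤ 1 / 4 := by linarith [hs.2]
        nlinarith
      have e5 : w s ≤ 4 * b ^ 2 / t * lam s * (3 / 2 * P + y s) := by
        refine e3.trans ?_
        have := mul_le_mul_of_nonneg_left e4 (show 0 ≤ 4 * b ^ 2 / t * lam s by positivity)
        calc b * lam s * (4 * b / t * (P + (2 * (s - s0) * P + y s)))
            = 4 * b ^ 2 / t * lam s * (P + (2 * (s - s0) * P + y s)) := by ring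
          _ ≤ _ := this
      have e6 : 4 * b ^ 2 / t * lam s * y s ≤ zm + y s := by
        have hc0 : 0 ≤ 4 * b ^ 2 / t * lam s := by positivity
        have hc1 : 4 * b ^ 2 / t * lam s ≤ 1 := by
          rw [div_mul_eq_mul_div, div_le_one ht0]
          nlinarith [mul_le_mul_of_nonneg_left l2 (show 0 ≤ 4 * b ^ 2 by positivity), sq_nonneg b]
        rcases le_total 0 (y s) with hy | hy
        · nlinarith
        · have := hz s hs
          nlinarith
      have e7 : 6 * b ^ 2 / t ≤ t / 2 := by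
        rw [div_le_div_iff₀ ht0 (by norm_num)]
        nlinarith [mul_nonneg (sq_nonneg b) hL]
      have e8 : 0 ≤ lam s * P := mul_nonneg l1 i1
      have e9 : t / 2 * (lam s * P) ≤ -(t * lam s * ψ s - y s + w s) + zm := by
        have := mul_le_mul_of_nonneg_right e7 e8
        have e10 : 4 * b ^ 2 / t * lam s * (3 / 2 * P + y s) =
            6 * b ^ 2 / t * (lam s * P) + 4 * b ^ 2 / t * lam s * y s := by ring
        rw [eψ]; nlinarith
      have e11 := mul_le_mul_of_nonneg_left e9 (show 0 ≤ 2 * b / t by positivity)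
      have e12 : 2 * b / t * (t / 2 * (lam s * P)) = b * lam s * P := by field_simp
      linarith) p hpp
  simp only [hψ0, hQ0, zero_add, Real.sqrt_sq hδ.le, sub_self, zero_mul, neg_zero, add_zero,
    mul_zero, sub_zero] at h1
  have h2 : √(Q p) ≤ √(Q p + δ ^ 2) := Real.sqrt_le_sqrt (by nlinarith)
  have h3 : -ψ p + (p - s0) * zm ≤ 3 / 2 * (-ψ p) := by nlinarith
  have h4 := mul_le_mul_of_nonneg_left h3 (show 0 ≤ 2 * b / t by positivity)
  have h5 : 2 * b / t * (3 / 2 * (-ψ p)) = 3 * b / t * (-ψ p) := by ring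
  linarith

lemma Sol.inv1 {L s0 p : ℝ} (h : Sol lam b t s0 p y ψ Q w) (hb : 0 < b)
    (hlam : ∀ s ∈ Icc s0 p, 0 ≤ lam s ∧ lam s ≤ L) (hp0 : s0 ≤ p) (hp : p - s0 ≤ 1 / 4)
    (ht : 1 + 12 * b ^ 2 + 4 * b ^ 2 * L ≤ t) (hy0 : y s0 = 1) (hψ0 : ψ s0 = 0) (hQ0 : Q s0 = 0) :
    ∀ s ∈ Icc s0 p, 0 ≤ -ψ s ∧ 0 ≤ 2 * (s - s0) * (-ψ s) + y s ∧
      √(Q s) ≤ 3 * b / t * (-ψ s) := by
  have hL : 0 ≤ L := (hlam s0 ⟨le_rfl, hp0⟩).1.trans (hlam s0 ⟨le_rfl, hp0⟩).2
  have ht1 : 1 ≤ t := by nlinarith [sq_nonneg b, mul_nonneg (sq_nonneg b) hL]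
  have ht0 : 0 < t := by linarith
  have himp : ∀ s ∈ Icc s0 p, (∀ x ∈ Icc s0 s, Inv1 b t s0 y ψ Q x) →
      √(Q s) ≤ 3 * b / t * (-ψ s) := fun s hs hI =>
    (h.mono le_rfl hs.2).improve hb (fun x hx => hlam x ⟨hx.1, hx.2.trans hs.2⟩) hs.1
      (by linarith [hs.2]) ht hψ0 hQ0 hI
  have cy : ContinuousOn y (Icc s0 p) := fun s hs => (h.dy s hs).continuousAt.continuousWithinAt
  have cψ : ContinuousOn ψ (Icc s0 p) := fun s hs => (h.dψ s hs).continuousAt.continuousWithinAt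
  have cQ : ContinuousOn Q (Icc s0 p) := fun s hs => (h.dQ s hs).continuousAt.continuousWithinAt
  have key : Icc s0 p ⊆ {s | Inv1 b t s0 y ψ Q s} := by
    apply IsClosed.Icc_subset_of_forall_mem_nhdsGT_of_Icc_subset
    · have e : {s | Inv1 b t s0 y ψ Q s} ∩ Icc s0 p =
          ({s ∈ Icc s0 p | 0 ≤ -ψ s} ∩ {s ∈ Icc s0 p | 0 ≤ 2 * (s - s0) * (-ψ s) + y s}) ∩
          {s ∈ Icc s0 p | √(Q s) ≤ 4 * b / t * (-ψ s + (2 * (s - s0) * (-ψ s) + y s))} := by
        ext s; simp only [Inv1, mem_inter_iff, mem_ofPred_eq]; tauto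
      rw [e]
      refine (IsClosed.inter ?_ ?_).inter ?_
      · exact isClosed_Icc.isClosed_le (by fun_prop) (by fun_prop)
      · exact isClosed_Icc.isClosed_le (by fun_prop) (by fun_prop)
      · exact isClosed_Icc.isClosed_le (by fun_prop) (by fun_prop)
    · simp only [Inv1, mem_ofPred_eq, hy0, hψ0, hQ0]
      simp only [neg_zero, le_refl, mul_zero, zero_add, zero_le_one, Real.sqrt_zero, mul_one,
        true_and]
      positivity
    · intro s hs hsub
      have hs' : s ∈ Icc s0 p := Ico_subset_Icc_self hs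
      have hi := himp s hs' fun x hx => hsub hx
      obtain ⟨i1, i2, i3⟩ : Inv1 b t s0 y ψ Q s := hsub ⟨hs.1, le_rfl⟩
      obtain ⟨l1, l2⟩ := hlam s hs'
      have hW : 0 < -ψ s + (2 * (s - s0) * (-ψ s) + y s) := by
        by_contra hc
        have e1 : ψ s = 0 := by linarith
        have e2 : y s = 0 := by rw [e1] at hc i2; simp at hc i2; linarith
        rw [e1] at hi
        have e3 : Q s = 0 := by
          have : √(Q s) = 0 := le_antisymm (by simpa using hi) (Real.sqrt_nonneg _)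
          rwa [Real.sqrt_eq_zero (h.Q0 s hs')] at this
        have := h.pos s hs'
        rw [e1, e2, e3] at this; simp at this
      have hw := h.hw s hs'
      rw [abs_of_nonneg l1] at hw
      have hw2 : |w s| ≤ b * lam s * (3 * b / t * (-ψ s)) :=
        hw.trans (mul_le_mul_of_nonneg_left hi (by positivity))
      have E1 := ev_nonneg (h.dψ s hs').fun_neg i1 (fun e => by
        have e1 : ψ s = 0 := by linarith
        rw [e1] at hw2 hW ⊢
        have : w s = 0 := by simpa using hw2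
        rw [this]; simpa using hW)
      have E2 := ev_nonneg (((((hasDerivAt_id' s).sub_const s0).const_mul 2).fun_mul
        (h.dψ s hs').fun_neg).fun_add (h.dy s hs')) i2 (fun e => by
        have hP : 0 < -ψ s := by linarith
        have e1 : b * lam s * (3 * b / t * (-ψ s)) ≤ t * lam s * (-ψ s) := by
          have e2 : 3 * b ^ 2 / t ≤ t := by
            rw [div_le_iff₀ ht0]; nlinarith [mul_nonneg (sq_nonneg b) hL]
          have := mul_le_mul_of_nonneg_right e2 (mul_nonneg l1 hP.le)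
          calc b * lam s * (3 * b / t * (-ψ s)) = 3 * b ^ 2 / t * (lam s * -ψ s) := by ring
            _ ≤ t * (lam s * -ψ s) := this
            _ = _ := by ring
        have e3 := le_abs_self (w s)
        have e4 : y s ≤ -(t * lam s * ψ s - y s + w s) := by nlinarith
        have e5 : 0 ≤ s - s0 := by linarith [hs.1]
        have e6 : s - s0 ≤ 1 / 4 := by linarith [hs.2]
        have e7 : y s = -(2 * (s - s0) * (-ψ s)) := by linarith
        have e8 := mul_le_mul_of_nonneg_left e4 e5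
        have e9 : (s - s0) * (s - s0) ≤ 1 / 16 := by nlinarith
        have e10 := mul_le_mul_of_nonneg_right e9 hP.le
        nlinarith)
      have E3 : ∀ᶠ x in 𝓝[>] s,
          √(Q x) < 4 * b / t * (-ψ x + (2 * (x - s0) * (-ψ x) + y x)) := by
        refine Filter.Eventually.filter_mono nhdsWithin_le_nhds ?_
        have c1 := (h.dy s hs').continuousAt
        have c2 := (h.dψ s hs').continuousAt
        have c3 := (h.dQ s hs').continuousAt
        refine ContinuousAt.eventually_lt (by fun_prop) (by fun_prop) ?_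
        have e1 : 3 * b / t * (-ψ s) ≤ 3 * b / t * (-ψ s + (2 * (s - s0) * (-ψ s) + y s)) :=
          mul_le_mul_of_nonneg_left (by linarith) (by positivity)
        have e2 : 3 * b / t < 4 * b / t := by gcongr; norm_num
        have e3 := mul_lt_mul_of_pos_right e2 hW
        linarith
      filter_upwards [E1, E2, E3] with x x1 x2 x3
      exact ⟨x1, x2, x3.le⟩
  intro s hs
  exact ⟨(key hs).1, (key hs).2.1, himp s hs fun x hx => key ⟨hx.1, hx.2.trans hs.2⟩⟩

theorem stage1 {L s0 p l0 ι η : ℝ} (hb : 0 < b)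
    (hlam : ∀ s ∈ Icc s0 p, 0 ≤ lam s ∧ lam s ≤ L) (hp : p - s0 ≤ 1 / 4)
    (hι : 0 < ι) (hιp : s0 + ι ≤ p) (hl0 : 0 < l0) (hpos : ∀ s ∈ Icc s0 (s0 + ι), l0 ≤ lam s)
    (hc : ContinuousAt lam p) (hp0 : lam p = 0) (hη : 0 < η) :
    ∀ᶠ t in atTop, ∀ y ψ Q w : ℝ → ℝ, Sol lam b t s0 p y ψ Q w → y s0 = 1 → ψ s0 = 0 →
      Q s0 = 0 → Real.exp (t * (l0 * ι / 2)) ≤ 2 * ψ p ^ 2 ∧ 0 < -ψ p ∧
        -y p ≤ 2 * (p - s0) * (-ψ p) ∧ -ψ p ≤ 3 * (t + 1) * η * (-y p) ∧
        √(Q p) ≤ 3 * b / t * (-ψ p) := by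
  obtain ⟨h0, hh0, hh⟩ : ∃ h0 > 0, ∀ s, p - h0 ≤ s → s ≤ p → lam s ≤ η := by
    have := hc.eventually (gt_mem_nhds (show lam p < η by rw [hp0]; exact hη))
    obtain ⟨ε, hε, h1⟩ := Metric.eventually_nhds_iff.1 this
    refine ⟨ε / 2, by positivity, fun s h2 h3 => (h1 ?_).le⟩
    rw [Real.dist_eq, abs_lt]; constructor <;> linarith
  have hsp : s0 ≤ p := by linarith
  have hL : 0 ≤ L := (hlam s0 ⟨le_rfl, hsp⟩).1.trans (hlam s0 ⟨le_rfl, hsp⟩).2
  filter_upwards [eventually_ge_atTop (1 + 12 * b ^ 2 + 4 * b ^ 2 * L),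
    eventually_ge_atTop (432 / (ι / 2) ^ 3 / l0), eventually_ge_atTop (6 * b),
    eventually_ge_atTop (1 / (η * min h0 (ι / 2)))] with t ht1 ht2 ht3 ht4 y ψ Q w h hy0 hψ0 hQ0
  have ht1' : 1 ≤ t := by nlinarith [sq_nonneg b, mul_nonneg (sq_nonneg b) hL]
  have ht0 : 0 < t := by linarith
  have hI := h.inv1 hb hlam hsp hp ht1 hy0 hψ0 hQ0
  have hw : ∀ s ∈ Icc s0 p, |w s| ≤ 3 * b ^ 2 / t * (lam s * (-ψ s)) := fun s hs => by
    have e1 := h.hw s hs
    rw [abs_of_nonneg (hlam s hs).1] at e1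
    have e2 := mul_le_mul_of_nonneg_left (hI s hs).2.2 (mul_nonneg hb.le (hlam s hs).1)
    calc |w s| ≤ b * lam s * (3 * b / t * (-ψ s)) := e1.trans e2
      _ = _ := by ring
  have hb2 : 3 * b ^ 2 / t ≤ 1 / 2 := by
    rw [div_le_iff₀ ht0]; nlinarith [mul_nonneg (sq_nonneg b) hL]
  have hanti : ∀ s ∈ Icc s0 p, ∀ s' ∈ Icc s p, y s' ≤ y s := fun s hs s' hs' => by
    have := lin_le (K := 0) (a := s) (b := p) (h.mono hs.1 le_rfl).dy
      (fun x hx => by have := (hI x ⟨hs.1.trans hx.1, hx.2⟩).1; linarith) s' hs'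
    linarith
  set m := s0 + ι / 2 with hm
  have hmI : m ∈ Icc s0 p := ⟨by linarith, by linarith⟩
  have hym : y m ≤ 0 := by
    by_contra hcon
    push Not at hcon
    have sub : Icc s0 (s0 + ι / 2) ⊆ Icc s0 p := Icc_subset_Icc le_rfl (by linarith)
    have hyp : ∀ s ∈ Icc s0 (s0 + ι / 2), 0 < y s := fun s hs =>
      hcon.trans_le (hanti s (sub hs) m ⟨hs.2, hmI.2⟩)
    refine riccati (σ := fun s => -ψ s / y s) (a := s0) (ι := ι / 2) (T := t * l0)
      (σ' := fun s => (-(t * lam s * ψ s - y s + w s) * y s - (-ψ s) * ψ s) / y s ^ 2)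
      (by positivity) (by rwa [div_le_iff₀ hl0] at ht2) ?_ ?_ ?_
    · intro s hs
      exact (h.dψ s (sub hs)).fun_neg.fun_div (h.dy s (sub hs)) (hyp s hs).ne'
    · intro s hs
      exact div_nonneg (hI s (sub hs)).1 (hyp s hs).le
    · intro s hs
      have hy := hyp s hs
      have hP := (hI s (sub hs)).1
      have e1 := (le_abs_self _).trans (hw s (sub hs))
      have e2 := hpos s ⟨hs.1, by linarith [hs.2]⟩
      set P := -ψ s with hPdef
      have eψ : ψ s = -P := by rw [hPdef]; ring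
      rw [le_div_iff₀ (by positivity), eψ]
      have e3 : ((P / y s) ^ 2 / 2 + t * l0 * (P / y s) / 2 + 1 / 4) * y s ^ 2 =
          P ^ 2 / 2 + t * l0 * (P * y s) / 2 + y s ^ 2 / 4 := by field_simp
      rw [e3]
      have e4 : 0 ≤ lam s * P := mul_nonneg (by linarith) hP
      have e5 : w s ≤ t / 2 * (lam s * P) := by nlinarith
      have e6 : l0 * P ≤ lam s * P := mul_le_mul_of_nonneg_right e2 hP
      have e7 : t / 2 * (l0 * P) + y s ≤ -(t * lam s * -P - y s + w s) := by nlinarith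
      have e8 := mul_le_mul_of_nonneg_right e7 hy.le
      nlinarith [sq_nonneg P, sq_nonneg (y s)]
  have hyneg : ∀ s ∈ Icc m p, y s ≤ 0 := fun s hs => (hanti m hmI s hs).trans hym
  have subm : Icc m p ⊆ Icc s0 p := Icc_subset_Icc hmI.1 le_rfl
  have hN : ∀ s ∈ Icc m p, y s ^ 2 + ψ s ^ 2 + Q s ≤ 2 * ψ s ^ 2 := fun s hs => by
    obtain ⟨i1, i2, i3⟩ := hI s (subm hs)
    have e1 := hyneg s hs
    have e2 : -y s ≤ -ψ s / 2 := by
      have : s - s0 ≤ 1 / 4 := by linarith [hs.2]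
      nlinarith
    have e3 : 3 * b / t ≤ 1 / 2 := by rw [div_le_iff₀ ht0]; linarith
    have e4 : √(Q s) ≤ -ψ s / 2 := by nlinarith
    have e5 : Q s ≤ (-ψ s / 2) ^ 2 := by
      rw [← Real.sq_sqrt (h.Q0 s (subm hs))]
      exact pow_le_pow_left₀ (Real.sqrt_nonneg _) e4 2
    nlinarith
  have hNmono : ∀ s ∈ Icc s0 p, ∀ s' ∈ Icc s p,
      y s ^ 2 + ψ s ^ 2 + Q s ≤ y s' ^ 2 + ψ s' ^ 2 + Q s' := fun s hs s' hs' => by
    have := lin_ge (K := 0) (a := s) (b := p) (h.mono hs.1 le_rfl).dN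
      (fun x hx => by
        have := (hlam x ⟨hs.1.trans hx.1, hx.2⟩).1
        positivity) s' hs'
    simpa using this
  have hNm : 1 ≤ y m ^ 2 + ψ m ^ 2 + Q m := by
    have := hNmono s0 ⟨le_rfl, hsp⟩ m hmI
    rw [hy0, hψ0, hQ0] at this; simpa using this
  have hgrow : Real.exp (t * (l0 * ι / 2)) ≤ 2 * ψ p ^ 2 := by
    have sub : Icc m (s0 + ι) ⊆ Icc m p := Icc_subset_Icc le_rfl hιp
    have h1 := lin_ge (K := 0) (a := m) (b := s0 + ι)
      (f := fun s => (y s ^ 2 + ψ s ^ 2 + Q s) * Real.exp (-(t * l0) * (s - m)))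
      (f' := fun s => 2 * t * lam s * ψ s ^ 2 * Real.exp (-(t * l0) * (s - m)) +
        (y s ^ 2 + ψ s ^ 2 + Q s) * (Real.exp (-(t * l0) * (s - m)) * (-(t * l0))))
      (fun s hs => by
        have e2 := (((hasDerivAt_id' s).sub_const m).const_mul (-(t * l0))).exp
        exact ((h.dN s (subm (sub hs))).fun_mul e2).congr_deriv (by simp))
      (fun s hs => by
        have e1 := hN s (sub hs)
        have e2 := hpos s ⟨by linarith [hs.1], hs.2⟩
        have e3 : (y s ^ 2 + ψ s ^ 2 + Q s) * (t * l0) ≤ 2 * t * lam s * ψ s ^ 2 := by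
          have e4 := mul_le_mul_of_nonneg_right e1 (show 0 ≤ t * l0 by positivity)
          have e5 := mul_le_mul_of_nonneg_right e2 (show 0 ≤ 2 * t * ψ s ^ 2 by positivity)
          nlinarith
        have := mul_le_mul_of_nonneg_right e3 (Real.exp_pos (-(t * l0) * (s - m))).le
        nlinarith) (s0 + ι) ⟨by linarith, le_rfl⟩
    simp only [sub_self, mul_zero, Real.exp_zero, mul_one, zero_mul, add_zero] at h1
    have e1 : -(t * l0) * (s0 + ι - m) = -(t * (l0 * ι / 2)) := by rw [hm]; ring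
    rw [e1, Real.exp_neg] at h1
    have h2 := hNmono (s0 + ι) ⟨by linarith, hιp⟩ p ⟨hιp, le_rfl⟩
    have h3 := hN p ⟨hmI.2, le_rfl⟩
    have h4 := hNm.trans h1
    rw [← div_eq_mul_inv, le_div_iff₀ (Real.exp_pos _)] at h4
    linarith
  have hPp : 0 < -ψ p := by
    have e1 := (hI p ⟨hsp, le_rfl⟩).1
    rcases e1.lt_or_eq with e | e
    · exact e
    · have : ψ p = 0 := by linarith
      rw [this] at hgrow
      have := Real.exp_pos (t * (l0 * ι / 2))
      simp at hgrow; linarith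
  refine ⟨hgrow, hPp, by linarith [(hI p ⟨hsp, le_rfl⟩).2.1], ?_, (hI p ⟨hsp, le_rfl⟩).2.2⟩
  set cc := (t + 1) * η with hcc
  have hcc0 : 0 < cc := by positivity
  have hmin : 0 < min h0 (ι / 2) := lt_min hh0 (by positivity)
  have hh1 : 1 / cc ≤ min h0 (ι / 2) := by
    rw [div_le_iff₀ (by positivity)] at ht4
    rw [div_le_iff₀ hcc0, hcc]; nlinarith
  have hh2 := hh1.trans (min_le_left _ _)
  have hh3 := hh1.trans (min_le_right _ _)
  have hh4 : 0 < 1 / cc := by positivity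
  have sub : Icc (p - 1 / cc) p ⊆ Icc m p := Icc_subset_Icc (by linarith) le_rfl
  have hlow : ∀ s ∈ Icc (p - 1 / cc) p, -ψ p / 3 ≤ -ψ s := by
    intro s hs
    have sub' : Icc s p ⊆ Icc (p - 1 / cc) p := Icc_subset_Icc hs.1 le_rfl
    have h1 := lin_le (K := 0) (a := s) (b := p)
      (f := fun x => -ψ x * Real.exp (-cc * (x - s)))
      (f' := fun x => -(t * lam x * ψ x - y x + w x) * Real.exp (-cc * (x - s)) +
        -ψ x * (Real.exp (-cc * (x - s)) * (-cc)))
      (fun x hx => by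
        have e2 := (((hasDerivAt_id' x).sub_const s).const_mul (-cc)).exp
        exact ((h.dψ x (subm (sub (sub' hx)))).fun_neg.fun_mul e2).congr_deriv (by simp))
      (fun x hx => by
        have hx1 := subm (sub (sub' hx))
        have e1 := (neg_le_abs _).trans (hw x hx1)
        have e2 := hyneg x (sub (sub' hx))
        have e3 := hh x (by linarith [(sub' hx).1]) hx.2
        have e4 := (hI x hx1).1
        have e5 := (hlam x hx1).1
        have e6 : lam x * -ψ x ≤ η * -ψ x := mul_le_mul_of_nonneg_right e3 e4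
        have e7 : 0 ≤ lam x * -ψ x := mul_nonneg e5 e4
        have e8 : -(t * lam x * ψ x - y x + w x) ≤ cc * -ψ x := by
          rw [hcc]; nlinarith
        have := mul_le_mul_of_nonneg_right e8 (Real.exp_pos (-cc * (x - s))).le
        nlinarith) p ⟨hs.2, le_rfl⟩
    simp only [sub_self, mul_zero, Real.exp_zero, mul_one, zero_mul, add_zero] at h1
    have e1 : Real.exp (-1) ≤ Real.exp (-cc * (p - s)) := by
      apply Real.exp_le_exp.2
      have : p - s ≤ 1 / cc := by linarith [hs.1]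
      rw [le_div_iff₀ hcc0] at this; nlinarith
    have e2 : 1 / 3 ≤ Real.exp (-1) := by
      rw [Real.exp_neg, one_div]
      exact inv_anti₀ (Real.exp_pos 1) (by linarith [Real.exp_one_lt_d9])
    have e3 := mul_le_mul_of_nonneg_left (e2.trans e1) hPp.le
    linarith
  have h2 := lin_le (K := -(-ψ p / 3)) (a := p - 1 / cc) (b := p)
    (fun s hs => h.dy s (subm (sub hs))) (fun s hs => by have := hlow s hs; linarith) p
    ⟨by linarith, le_rfl⟩
  have h3 := hyneg (p - 1 / cc) (sub ⟨le_rfl, by linarith⟩)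
  have h4 : -ψ p / 3 * (1 / cc) ≤ -y p := by
    have : p - (p - 1 / cc) = 1 / cc := by ring
    rw [this] at h2; linarith
  have h5 : -ψ p = 3 * cc * (-ψ p / 3 * (1 / cc)) := by field_simp
  rw [h5, mul_assoc 3 (t + 1) η]
  exact mul_le_mul_of_nonneg_left h4 (by positivity)

end Pool.Agent.Lib.MP_7dd29b_gt
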