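import Pool.Agent.Lib.MP_7dd29b_gt.Ode2

/-! The falling stage along a curve. -/

set_option autoImplicit false

open Set Filter Topology

namespace Pool.Agent.Lib.MP_7dd29b_gt

variable {lam : ℝ → ℝ} {b t c c' L : ℝ} {y ψ Q w : ℝ → ℝ}

lemma Sol.fall_N (h : Sol lam b t c c' y ψ Q w) (ht : 0 < t)
    (hlam : ∀ s ∈ Icc c c', -L ≤ lam s ∧ lam s ≤ 0) : ∀ s ∈ Icc c c',
    |y s| ≤ √(y c ^ 2 + ψ c ^ 2 + Q c) ∧ |ψ s| ≤ √(y c ^ 2 + ψ c ^ 2 + Q c) ∧
      √(Q s) ≤ √(y c ^ 2 + ψ c ^ 2 + Q c) := by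
  intro s hs
  have h1 := lin_le (K := 0) h.dN (fun x hx => by
    have := (hlam x hx).2
    have h2 : 0 ≤ 2 * t * (-lam x) * ψ x ^ 2 := by
      have : 0 ≤ -lam x := by linarith
      positivity
    linarith) s hs
  simp only [zero_mul, add_zero] at h1
  have h0 := h.Q0 s hs
  refine ⟨Real.abs_le_sqrt ?_, Real.abs_le_sqrt ?_, Real.sqrt_le_sqrt ?_⟩
  · nlinarith [sq_nonneg (ψ s)]
  · nlinarith [sq_nonneg (y s)]
  · nlinarith [sq_nonneg (y s), sq_nonneg (ψ s)]

lemma Sol.fall_w (h : Sol lam b t c c' y ψ Q w) (hb : 0 < b)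
    (hlam : ∀ s ∈ Icc c c', -L ≤ lam s ∧ lam s ≤ 0) {Z : ℝ} (hZ : ∀ s ∈ Icc c c', √(Q s) ≤ Z) :
    ∀ s ∈ Icc c c', |w s| ≤ b * L * Z := by
  intro s hs
  have h1 : |lam s| ≤ L := abs_le.2 ⟨(hlam s hs).1, by linarith [(hlam s hs).1, (hlam s hs).2]⟩
  refine (h.hw s hs).trans ?_
  have hL : 0 ≤ L := (abs_nonneg _).trans h1
  gcongr
  exact hZ s hs

lemma Sol.fall_Z (h : Sol lam b t c c' y ψ Q w) (hb : 0 < b) (ht : 0 < t)
    (hlam : ∀ s ∈ Icc c c', -L ≤ lam s ∧ lam s ≤ 0) (hl : c' - c ≤ 2) : ∀ s ∈ Icc c c',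
    √(Q s) ≤ √(Q c) + b / t * (3 + 2 * b * L) * √(y c ^ 2 + ψ c ^ 2 + Q c) := by
  intro s hs
  set X := √(y c ^ 2 + ψ c ^ 2 + Q c) with hX
  have hX0 : 0 ≤ X := Real.sqrt_nonneg _
  have hN := h.fall_N ht hlam
  have hw := h.fall_w hb hlam (fun s hs => (hN s hs).2.2)
  have hcc : c ∈ Icc c c' := ⟨le_rfl, hs.1.trans hs.2⟩
  have hL : 0 ≤ L := by linarith [(hlam s hs).1, (hlam s hs).2]
  have key : ∀ δ > 0, √(Q s) ≤ √(Q c) + b / t * (3 + 2 * b * L) * X +
      δ * (1 + b / t + 2 * b * L) := by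
    intro δ hδ
    have h1 := lin_le (K := b * L * δ + b / t * ((1 + b * L) * X)) (a := c) (b := c')
      (f := fun s => √(Q s + δ ^ 2) + b / t * √(ψ s ^ 2 + δ ^ 2))
      (f' := fun s => -2 * ψ s * w s / (2 * √(Q s + δ ^ 2)) +
        b / t * (ψ s * (t * lam s * ψ s - y s + w s) / √(ψ s ^ 2 + δ ^ 2)))
      (fun x hx => by
        have e1 := (h.dZ hb hδ x hx).1
        have hp : 0 < ψ x ^ 2 + δ ^ 2 := by positivity
        have e2 := ((((h.dψ x hx).fun_pow 2).add_const (δ ^ 2)).sqrt hp.ne').const_mul (b / t)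
        refine (e1.fun_add e2).congr_deriv ?_
        have : 0 < √(ψ x ^ 2 + δ ^ 2) := Real.sqrt_pos.2 hp
        simp only [Nat.cast_ofNat, Nat.add_one_sub_one, pow_one]
        field_simp)
      (fun x hx => by
        have e1 := (h.dZ hb hδ x hx).2
        have hp : 0 < ψ x ^ 2 + δ ^ 2 := by positivity
        set r := √(ψ x ^ 2 + δ ^ 2) with hr
        have hr0 : 0 < r := Real.sqrt_pos.2 hp
        have hr1 : |ψ x| ≤ r := abs_le_sqrt_add _ _
        have hr2 : r ≤ |ψ x| + δ := by
          have := sqrt_add_le_abs (ψ x) δ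
          rwa [abs_of_pos hδ] at this
        obtain ⟨l1, l2⟩ := hlam x hx
        rw [abs_of_nonpos l2] at e1
        have e2 : (|ψ x| - δ) * r ≤ ψ x ^ 2 := by
          rcases le_total (|ψ x|) δ with hc | hc
          · nlinarith [sq_nonneg (ψ x)]
          · have := mul_le_mul_of_nonneg_left hr2 (sub_nonneg.2 hc)
            nlinarith [sq_abs (ψ x), sq_nonneg δ]
        have e3 : ψ x * (-y x + w x) ≤ r * ((1 + b * L) * X) := by
          have e4 : |-y x + w x| ≤ (1 + b * L) * X := by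
            have := abs_add_le (-y x) (w x)
            rw [abs_neg] at this
            linarith [(hN x hx).1, hw x hx]
          have e5 : |ψ x * (-y x + w x)| ≤ r * ((1 + b * L) * X) := by
            rw [abs_mul]; exact mul_le_mul hr1 e4 (abs_nonneg _) hr0.le
          exact (le_abs_self _).trans e5
        have e6 : ψ x * (t * lam x * ψ x - y x + w x) / r ≤
            t * lam x * (|ψ x| - δ) + (1 + b * L) * X := by
          rw [div_le_iff₀ hr0]
          have e7 : 0 ≤ t * (-lam x) := mul_nonneg ht.le (by linarith)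
          have := mul_le_mul_of_nonneg_left e2 e7
          nlinarith
        have e8 := mul_le_mul_of_nonneg_left e6 (show 0 ≤ b / t by positivity)
        have e9 : b / t * (t * lam x * (|ψ x| - δ) + (1 + b * L) * X) =
            b * lam x * (|ψ x| - δ) + b / t * ((1 + b * L) * X) := by field_simp
        have e10 : b * (-lam x) * δ ≤ b * L * δ := by gcongr; linarith
        nlinarith) s hs
    have h2 : √(Q s) ≤ √(Q s + δ ^ 2) := Real.sqrt_le_sqrt (by nlinarith)
    have h3 : √(Q c + δ ^ 2) ≤ √(Q c) + δ := by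
      have := sqrt_add_le_abs (√(Q c)) δ
      rwa [Real.sq_sqrt (h.Q0 c hcc), abs_of_pos hδ, abs_of_nonneg (Real.sqrt_nonneg _)] at this
    have h4 : √(ψ c ^ 2 + δ ^ 2) ≤ X + δ := by
      have := sqrt_add_le_abs (ψ c) δ
      rw [abs_of_pos hδ] at this
      linarith [(hN c hcc).2.1]
    have h5 := mul_le_mul_of_nonneg_left h4 (show 0 ≤ b / t by positivity)
    have h6 : (b * L * δ + b / t * ((1 + b * L) * X)) * (s - c) ≤
        (b * L * δ + b / t * ((1 + b * L) * X)) * 2 :=
      mul_le_mul_of_nonneg_left (by linarith [hs.2]) (by positivity)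
    have h7 : 0 ≤ b / t * √(ψ s ^ 2 + δ ^ 2) := by positivity
    nlinarith
  refine le_of_forall_pos_le_add fun ε hε => ?_
  have hK : 0 < 1 + b / t + 2 * b * L := by positivity
  have := key (ε / (1 + b / t + 2 * b * L)) (by positivity)
  rwa [div_mul_cancel₀ _ hK.ne'] at this

lemma Sol.fall_z (h : Sol lam b t c c' y ψ Q w) (hb : 0 < b) (ht : 0 < t)
    (hlam : ∀ s ∈ Icc c c', -L ≤ lam s ∧ lam s ≤ 0) (hcc' : c ≤ c') (hl : c' - c ≤ Real.pi / 2)
    {Z A : ℝ} (hZ : ∀ s ∈ Icc c c', √(Q s) ≤ Z) (hA : 0 ≤ A) (hY : 0 < -y c)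
    (hψ : ψ c ≤ A * (-y c))
    (hm : 0 < -y c * (Real.cos (c' - c) - A * Real.sin (c' - c)) - 2 * (b * L * Z)) :
    ∀ s ∈ Icc c c',
      -y c * (Real.cos (c' - c) - A * Real.sin (c' - c)) - 2 * (b * L * Z) ≤ -y s := by
  set m := -y c * (Real.cos (c' - c) - A * Real.sin (c' - c)) - 2 * (b * L * Z) with hmdef
  have hw := h.fall_w hb hlam hZ
  have hcc : c ∈ Icc c c' := ⟨le_rfl, hcc'⟩
  have hL : 0 ≤ L := by linarith [(hlam c hcc).1, (hlam c hcc).2]
  have hZ0 : 0 ≤ Z := (Real.sqrt_nonneg _).trans (hZ c hcc)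
  have hpi := Real.pi_le_four
  have target : ∀ σ ∈ Icc c c', (∀ s ∈ Icc c σ, 0 ≤ -y s) → m ≤ -y σ := by
    intro σ hσ hz
    have sub : Icc c σ ⊆ Icc c c' := Icc_subset_Icc le_rfl hσ.2
    have hcs : ∀ s ∈ Icc c σ, 0 ≤ Real.cos (σ - s) ∧ 0 ≤ Real.sin (σ - s) := fun s hs =>
      ⟨Real.cos_nonneg_of_mem_Icc ⟨by linarith [hs.2, Real.pi_pos], by linarith [hs.1, hσ.2]⟩,
        Real.sin_nonneg_of_nonneg_of_le_pi (by linarith [hs.2])
          (by linarith [hs.1, hσ.2, Real.pi_pos])⟩
    have key : ∀ δ > 0, m - δ * (1 + 2 * t * L) ≤ -y σ := by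
      intro δ hδ
      have h1 := lin_ge (K := -(t * L * δ + b * L * Z)) (a := c) (b := σ)
        (f := fun s => -y s * Real.cos (σ - s) -
          (ψ s + √(ψ s ^ 2 + δ ^ 2)) / 2 * Real.sin (σ - s))
        (f' := fun s => (-ψ s * Real.cos (σ - s) + -y s * Real.sin (σ - s)) -
          ((1 + ψ s / √(ψ s ^ 2 + δ ^ 2)) / 2 * (t * lam s * ψ s - y s + w s) * Real.sin (σ - s) -
            (ψ s + √(ψ s ^ 2 + δ ^ 2)) / 2 * Real.cos (σ - s)))
        (fun x hx => by
          have hp : 0 < ψ x ^ 2 + δ ^ 2 := by positivity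
          have e0 := (hasDerivAt_id' x).const_sub σ
          have e1 := (h.dy x (sub hx)).fun_neg.fun_mul e0.cos
          have e2 := (((h.dψ x (sub hx)).fun_pow 2).add_const (δ ^ 2)).sqrt hp.ne'
          have e3 := (((h.dψ x (sub hx)).fun_add e2).div_const 2).fun_mul e0.sin
          refine (e1.fun_sub e3).congr_deriv ?_
          have : 0 < √(ψ x ^ 2 + δ ^ 2) := Real.sqrt_pos.2 hp
          simp only [Nat.cast_ofNat, Nat.add_one_sub_one, pow_one]
          field_simp
          ring)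
        (fun x hx => by
          have hp : 0 < ψ x ^ 2 + δ ^ 2 := by positivity
          set r := √(ψ x ^ 2 + δ ^ 2) with hr
          have hr0 : 0 < r := Real.sqrt_pos.2 hp
          have hr1 : |ψ x| ≤ r := abs_le_sqrt_add _ _
          have hr2 : r ≤ |ψ x| + δ := by
            have := sqrt_add_le_abs (ψ x) δ
            rwa [abs_of_pos hδ] at this
          obtain ⟨c1, c2⟩ := hcs x hx
          have c3 := Real.sin_le_one (σ - x)
          obtain ⟨l1, l2⟩ := hlam x (sub hx)
          set φ := (1 + ψ x / r) / 2 with hφ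
          have hq := abs_le.1 hr1
          have f1 : 0 ≤ φ := by
            have : -1 ≤ ψ x / r := by rw [le_div_iff₀ hr0]; linarith
            rw [hφ]; linarith
          have f2 : φ ≤ 1 := by
            have : ψ x / r ≤ 1 := by rw [div_le_iff₀ hr0]; linarith
            rw [hφ]; linarith
          have f3 : -δ ≤ φ * ψ x := by
            rcases le_total 0 (ψ x) with hc | hc
            · nlinarith
            · rw [abs_of_nonpos hc] at hr2
              have e : φ = (r + ψ x) / (2 * r) := by rw [hφ]; field_simp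
              rw [e, div_mul_eq_mul_div, le_div_iff₀ (by positivity)]
              nlinarith
          have g1 : 0 ≤ ((ψ x + r) / 2 - ψ x) * Real.cos (σ - x) :=
            mul_nonneg (by linarith) c1
          have g2 : 0 ≤ -y x * (1 - φ) * Real.sin (σ - x) :=
            mul_nonneg (mul_nonneg (hz x hx) (by linarith)) c2
          have g3 : -(t * L * δ) ≤ -(φ * (t * lam x * ψ x) * Real.sin (σ - x)) := by
            have k1 : 0 ≤ t * (-lam x) * Real.sin (σ - x) :=
              mul_nonneg (mul_nonneg ht.le (by linarith)) c2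
            have k2 : t * (-lam x) * Real.sin (σ - x) ≤ t * L := by
              have : (-lam x) * Real.sin (σ - x) ≤ L := by nlinarith
              nlinarith
            have k3 := mul_le_mul_of_nonneg_left f3 k1
            nlinarith
          have g4 : -(b * L * Z) ≤ -(φ * w x * Real.sin (σ - x)) := by
            have k1 := hw x (sub hx)
            have k2 : φ * Real.sin (σ - x) ≤ 1 := by nlinarith
            have k3 : 0 ≤ φ * Real.sin (σ - x) := mul_nonneg f1 c2
            have k4 := le_abs_self (w x)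
            have k5 := abs_nonneg (w x)
            nlinarith
          nlinarith) σ ⟨hσ.1, le_rfl⟩
      simp only [sub_self, Real.cos_zero, mul_one, Real.sin_zero, mul_zero, sub_zero] at h1
      obtain ⟨c1, c2⟩ := hcs c ⟨le_rfl, hσ.1⟩
      have c3 := Real.sin_le_one (σ - c)
      have k1 : (ψ c + √(ψ c ^ 2 + δ ^ 2)) / 2 ≤ A * (-y c) + δ := by
        have := sqrt_add_le_abs (ψ c) δ
        rw [abs_of_pos hδ] at this
        have hAY : 0 ≤ A * (-y c) := mul_nonneg hA hY.le
        rcases le_total 0 (ψ c) with hc | hc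
        · rw [abs_of_nonneg hc] at this; linarith
        · rw [abs_of_nonpos hc] at this; linarith
      have k2 : Real.cos (c' - c) ≤ Real.cos (σ - c) :=
        Real.cos_le_cos_of_nonneg_of_le_pi (by linarith [hσ.1]) (by linarith [Real.pi_pos])
          (by linarith [hσ.2])
      have k3 : Real.sin (σ - c) ≤ Real.sin (c' - c) :=
        Real.sin_le_sin_of_le_of_le_pi_div_two (by linarith [hσ.1, Real.pi_pos]) hl
          (by linarith [hσ.2])
      have k4 := mul_le_mul_of_nonneg_right k1 c2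
      have k5 : (t * L * δ + b * L * Z) * (σ - c) ≤ (t * L * δ + b * L * Z) * 2 :=
        mul_le_mul_of_nonneg_left (by linarith [hσ.2]) (by positivity)
      have k6 := mul_le_mul_of_nonneg_left k2 hY.le
      have k7 := mul_le_mul_of_nonneg_left k3 (mul_nonneg hA hY.le)
      have k8 := mul_le_mul_of_nonneg_left c3 hδ.le
      rw [hmdef]; nlinarith
    refine le_of_forall_pos_le_add fun ε hε => ?_
    have hK : 0 < 1 + 2 * t * L := by positivity
    have := key (ε / (1 + 2 * t * L)) (by positivity)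
    rw [div_mul_cancel₀ _ hK.ne'] at this
    linarith
  have cy : ContinuousOn y (Icc c c') := fun s hs => (h.dy s hs).continuousAt.continuousWithinAt
  have key : Icc c c' ⊆ {s | m ≤ -y s} := by
    apply IsClosed.Icc_subset_of_forall_mem_nhdsGT_of_Icc_subset
    · rw [inter_comm]
      exact isClosed_Icc.isClosed_le (f := fun _ => m) (g := fun s => -y s) continuousOn_const
        cy.neg
    · exact target c hcc fun s hs => by rw [show s = c from le_antisymm hs.2 hs.1]; exact hY.le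
    · intro σ hσ hsub
      have h1 : 0 < -y σ := hm.trans_le (hsub ⟨hσ.1, le_rfl⟩)
      have h2 := (h.dy σ (Ico_subset_Icc_self hσ)).continuousAt.neg.eventually (lt_mem_nhds h1)
      obtain ⟨ε, hε, h3⟩ := Metric.eventually_nhds_iff.1 h2
      have h4 : Ioo σ (min c' (σ + ε)) ∈ 𝓝[>] σ := Ioo_mem_nhdsGT (lt_min hσ.2 (by linarith))
      filter_upwards [h4] with σ' hσ'
      have h5 := (lt_min_iff.1 hσ'.2)
      refine target σ' ⟨hσ.1.trans hσ'.1.le, h5.1.le⟩ fun s hs => ?_
      rcases le_total s σ with hc | hc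
      · exact (hm.trans_le (hsub ⟨hs.1, hc⟩)).le
      · refine (h3 ?_).le
        rw [Real.dist_eq, abs_lt]; constructor <;> linarith [hs.2]
  exact fun s hs => key hs

lemma Sol.fall_decay (h : Sol lam b t c c' y ψ Q w) (hb : 0 < b) (ht : 0 < t)
    (hlam : ∀ s ∈ Icc c c', -L ≤ lam s ∧ lam s ≤ 0) {ι l1 : ℝ} (hι : 0 < ι) (hl1 : 0 < l1)
    (hcι : c + ι ≤ c') (hneg : ∀ s ∈ Icc (c' - ι) c', lam s ≤ -l1) :
    |ψ c'| ≤ √(y c ^ 2 + ψ c ^ 2 + Q c) / t * (1 / (l1 * ι) + 2 * (1 + b * L) / l1) := by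
  set X := √(y c ^ 2 + ψ c ^ 2 + Q c) with hX
  have hcc : c ∈ Icc c c' := ⟨le_rfl, by linarith⟩
  have hX0 : 0 < X := Real.sqrt_pos.2 (h.pos c hcc)
  have hN := h.fall_N ht hlam
  have hw := h.fall_w hb hlam (fun s hs => (hN s hs).2.2)
  have hL : 0 ≤ L := by linarith [(hlam c hcc).1, (hlam c hcc).2]
  set T := t * l1 with hT
  have hT0 : 0 < T := by positivity
  set K := (1 + b * L) * X with hK
  have hK0 : 0 < K := by positivity
  set a := c' - ι with ha
  have sub : Icc a c' ⊆ Icc c c' := Icc_subset_Icc (by linarith) le_rfl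
  have hB : ∀ s ∈ Icc a c', HasDerivAt (fun s => X / (1 + T * (s - a)) + 2 * K / T)
      (-(T * X) / (1 + T * (s - a)) ^ 2) s := fun s hs => by
    have hp : 0 < 1 + T * (s - a) := by have := sub_nonneg.2 hs.1; positivity
    have e := ((hasDerivAt_const s X).fun_div ((((hasDerivAt_id' s).sub_const a).const_mul
      T).const_add 1) hp.ne').add_const (2 * K / T)
    exact e.congr_deriv (by ring)
  have gen : ∀ (f f' : ℝ → ℝ), (∀ s ∈ Icc a c', HasDerivAt f (f' s) s) → f a ≤ X →
      (∀ s ∈ Icc a c', f' s ≤ t * lam s * f s + K) → f c' ≤ X / (1 + T * ι) + 2 * K / T := by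
    intro f f' hf h0 hf'
    have := cmp_lt hf hB (by simp only [sub_self, mul_zero, add_zero, div_one]; linarith [show 0 < 2 * K / T by positivity])
      (fun s hs heq => by
        have hs0 := sub_nonneg.2 hs.1
        have hp : 0 < 1 + T * (s - a) := by positivity
        have e1 := hf' s hs
        have e2 : 0 < f s := by rw [heq]; positivity
        have e3 : t * lam s * f s ≤ -(T * f s) := by
          have := mul_le_mul_of_nonneg_left (hneg s hs) ht.le
          nlinarith
        have e4 : T * f s = T * X / (1 + T * (s - a)) + 2 * K := by rw [heq]; field_simp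
        have e5 : T * X / (1 + T * (s - a)) ^ 2 ≤ T * X / (1 + T * (s - a)) := by
          apply div_le_div_of_nonneg_left (by positivity) hp
          have : 0 ≤ T * (s - a) := by positivity
          nlinarith
        rw [neg_div]; linarith) c' ⟨by linarith, le_rfl⟩
    simpa [ha] using this
  have hyw : ∀ s ∈ Icc a c', |-y s + w s| ≤ K := fun s hs => by
    have := abs_add_le (-y s) (w s)
    rw [abs_neg] at this
    linarith [(hN s (sub hs)).1, hw s (sub hs)]
  have haa : a ∈ Icc a c' := ⟨le_rfl, by linarith⟩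
  have h1 := gen ψ _ (fun s hs => h.dψ s (sub hs)) ((le_abs_self _).trans (hN a (sub haa)).2.1)
    (fun s hs => by have := (abs_le.1 (hyw s hs)).2; linarith)
  have h2 := gen (fun s => -ψ s) _ (fun s hs => (h.dψ s (sub hs)).fun_neg)
    ((neg_le_abs _).trans (hN a (sub haa)).2.1)
    (fun s hs => by have := (abs_le.1 (hyw s hs)).1; linarith)
  have h3 : X / (1 + T * ι) ≤ X / (T * ι) :=
    div_le_div_of_nonneg_left hX0.le (by positivity) (by linarith)
  have h4 : X / (T * ι) + 2 * K / T = X / t * (1 / (l1 * ι) + 2 * (1 + b * L) / l1) := by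
    rw [hT, hK]; field_simp
  rw [abs_le]; constructor <;> linarith

lemma Sol.fall_low (h : Sol lam b t c c' y ψ Q w) (ht : 0 < t)
    (hlam : ∀ s ∈ Icc c c', -L ≤ lam s ∧ lam s ≤ 0) (hcc' : c < c') {m : ℝ} (hm : 0 < m)
    (hz : ∀ s ∈ Icc c c', m ≤ -y s) (hw : ∀ s ∈ Icc c c', |w s| ≤ m / 2)
    (hψ : -(m * (c' - c) / 8) ≤ ψ c) (ht2 : 1 / (c' - c) ≤ t) :
    m / (8 * t * (L + 1)) ≤ ψ c' := by
  have hL : 0 ≤ L := by linarith [(hlam c ⟨le_rfl, hcc'.le⟩).1, (hlam c ⟨le_rfl, hcc'.le⟩).2]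
  set β := m / (8 * t * (L + 1)) with hβ
  have hβ0 : 0 < β := by positivity
  have hβ1 : β ≤ m * (c' - c) / 8 := by
    have hd : 0 < c' - c := sub_pos.2 hcc'
    rw [div_le_iff₀ hd] at ht2
    rw [hβ, div_le_div_iff₀ (by positivity) (by norm_num)]
    have : 1 ≤ t * (c' - c) * (L + 1) := by nlinarith
    nlinarith
  have hβ2 : t * L * β ≤ m / 8 := by
    rw [hβ, mul_div_assoc', div_le_div_iff₀ (by positivity) (by norm_num)]
    nlinarith [mul_pos ht hm]
  have := cmp_lt (f := fun s => β + m / 4 * (s - c')) (f' := fun _ => m / 4) (a := c) (b := c')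
    (fun s _ => by simpa using (((hasDerivAt_id' s).sub_const c').const_mul (m / 4)).const_add β)
    h.dψ (by nlinarith) (fun s hs heq => by
      obtain ⟨l1, l2⟩ := hlam s hs
      have e1 := hz s hs
      have e2 := (abs_le.1 (hw s hs)).1
      have e3 : ψ s ≤ β := by rw [← heq]; nlinarith [hs.2]
      have e4 : -(t * L * β) ≤ t * lam s * ψ s := by
        rcases le_total 0 (ψ s) with hc | hc
        · have k1 : L * ψ s ≤ L * β := mul_le_mul_of_nonneg_left e3 hL
          have k2 : -L * ψ s ≤ lam s * ψ s := mul_le_mul_of_nonneg_right l1 hc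
          nlinarith
        · have k1 : 0 ≤ lam s * ψ s := mul_nonneg_of_nonpos_of_nonpos l2 hc
          have k2 : 0 ≤ t * L * β := by positivity
          nlinarith
      linarith) c' ⟨hcc'.le, le_rfl⟩
  simpa using this

end Pool.Agent.Lib.MP_7dd29b_gt
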