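import Pool.Agent.Lib.MP_7dd29b_gt.Ode3

/-! No sign pattern plus, minus, plus. -/

set_option autoImplicit false

open Set Filter Topology

namespace Pool.Agent.Lib.MP_7dd29b_gt

variable {lam : ℝ → ℝ} {b L δ : ℝ} {y ψ Q w : ℝ → ℝ → ℝ}

def Good (y ψ Q : ℝ → ℝ → ℝ) (δ c A : ℝ) : Prop :=
  ∃ κ > 0, ∀ ε > 0, ∀ᶠ t in atTop, κ * Real.exp (t * δ) ≤ -y t c ∧ ψ t c ≤ (A + ε) * (-y t c) ∧
    √(Q t c) ≤ ε * (-y t c) ∧ √(y t c ^ 2 + ψ t c ^ 2 + Q t c) ≤ ε * t * (-y t c)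

def Good0 (y ψ Q : ℝ → ℝ → ℝ) (δ c : ℝ) : Prop :=
  ∃ κ > 0, ∀ ε > 0, ∀ᶠ t in atTop, κ * Real.exp (t * δ) ≤ -y t c ∧ |ψ t c| ≤ ε * (-y t c) ∧
    √(Q t c) ≤ ε * (-y t c)

lemma sqrt3_le (a p q : ℝ) : √(a ^ 2 + p ^ 2 + q) ≤ |a| + |p| + √q := by
  rcases le_total 0 q with hq | hq
  · rw [Real.sqrt_le_left (by positivity)]
    nlinarith [sq_abs a, sq_abs p, Real.sq_sqrt hq, abs_nonneg a, abs_nonneg p, Real.sqrt_nonneg q,
      mul_nonneg (abs_nonneg a) (abs_nonneg p), mul_nonneg (abs_nonneg a) (Real.sqrt_nonneg q),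
      mul_nonneg (abs_nonneg p) (Real.sqrt_nonneg q)]
  · have := Real.sqrt_le_sqrt (show a ^ 2 + p ^ 2 + q ≤ a ^ 2 + p ^ 2 by linarith)
    linarith [sqrt_add_le_abs a p, Real.sqrt_nonneg q]

lemma Good0.good {c : ℝ} (h : Good0 y ψ Q δ c) : Good y ψ Q δ c 0 := by
  obtain ⟨κ, hκ, h⟩ := h
  refine ⟨κ, hκ, fun ε hε => ?_⟩
  filter_upwards [h ε hε, h 1 one_pos, eventually_ge_atTop (3 / ε)] with t h1 h2 ht
  have hY : 0 < -y t c := lt_of_lt_of_le (by positivity) h1.1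
  refine ⟨h1.1, by simpa using (le_abs_self _).trans h1.2.1, h1.2.2, ?_⟩
  have h3 := sqrt3_le (y t c) (ψ t c) (Q t c)
  rw [abs_of_neg (by linarith)] at h3
  rw [div_le_iff₀ hε] at ht
  nlinarith [h2.2.1, h2.2.2]

lemma step_core {c c' A : ℝ} (hb : 0 < b) (hg : Good y ψ Q δ c A) (hA : 0 ≤ A) (hcc' : c ≤ c')
    (hl : c' - c ≤ Real.pi / 2) (hm : 0 < Real.cos (c' - c) - A * Real.sin (c' - c))
    (hlam : ∀ s ∈ Icc c c', -L ≤ lam s ∧ lam s ≤ 0)
    (hsol : ∀ t, Sol lam b t c c' (y t) (ψ t) (Q t) (w t)) :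
    ∃ κ > 0, ∀ ε > 0, ∀ᶠ t in atTop, κ * Real.exp (t * δ) ≤ -y t c ∧
      √(y t c ^ 2 + ψ t c ^ 2 + Q t c) ≤ ε * t * (-y t c) ∧
      ∀ s ∈ Icc c c', (Real.cos (c' - c) - A * Real.sin (c' - c)) / 2 * (-y t c) ≤ -y t s ∧
        √(Q t s) ≤ ε * (-y t c) := by
  obtain ⟨κ, hκ, hg⟩ := hg
  refine ⟨κ, hκ, fun ε hε => ?_⟩
  set m0 := Real.cos (c' - c) - A * Real.sin (c' - c) with hm0
  have hL : 0 ≤ L := by linarith [(hlam c ⟨le_rfl, hcc'⟩).1, (hlam c ⟨le_rfl, hcc'⟩).2]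
  set G := 1 + b * (3 + 2 * b * L) with hG
  have hG1 : 1 ≤ G := by rw [hG]; nlinarith [show 0 ≤ b * (3 + 2 * b * L) by positivity]
  set ε1 := min (ε / G) (m0 / (4 * (1 + 2 * b * L * G))) with hε1
  have hε10 : 0 < ε1 := lt_min (by positivity) (by positivity)
  have e1 : ε1 * G ≤ ε := by
    have := min_le_left (ε / G) (m0 / (4 * (1 + 2 * b * L * G)))
    rwa [← hε1, le_div_iff₀ (by positivity)] at this
  have e2 : ε1 * (4 * (1 + 2 * b * L * G)) ≤ m0 := by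
    have := min_le_right (ε / G) (m0 / (4 * (1 + 2 * b * L * G)))
    rwa [← hε1, le_div_iff₀ (by positivity)] at this
  filter_upwards [hg ε1 hε10, eventually_gt_atTop 0] with t h1 ht
  obtain ⟨g1, g2, g3, g4⟩ := h1
  have hY : 0 < -y t c := lt_of_lt_of_le (by positivity) g1
  have hZ : ∀ s ∈ Icc c c', √(Q t s) ≤ ε1 * G * (-y t c) := fun s hs => by
    have k1 := (hsol t).fall_Z hb ht hlam (by linarith [Real.pi_le_four]) s hs
    have k2 := mul_le_mul_of_nonneg_left g4 (show 0 ≤ b / t * (3 + 2 * b * L) by positivity)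
    have k3 : b / t * (3 + 2 * b * L) * (ε1 * t * (-y t c)) =
        b * (3 + 2 * b * L) * ε1 * (-y t c) := by field_simp
    rw [hG]; nlinarith
  have hsin := Real.sin_le_one (c' - c)
  have k0 : m0 / 2 * (-y t c) ≤ -y t c * (Real.cos (c' - c) - (A + ε1) * Real.sin (c' - c)) -
      2 * (b * L * (ε1 * G * (-y t c))) := by
    have k1 : ε1 * Real.sin (c' - c) ≤ ε1 := by nlinarith
    have k2 : 0 ≤ ε1 * (b * L * G) := by positivity
    have k3 : m0 / 2 ≤ (Real.cos (c' - c) - (A + ε1) * Real.sin (c' - c)) -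
        2 * (b * L * (ε1 * G)) := by nlinarith
    nlinarith
  have hz := (hsol t).fall_z hb ht hlam hcc' hl hZ (by linarith) hY g2
    (lt_of_lt_of_le (by positivity) k0)
  refine ⟨g1, g4.trans ?_, fun s hs => ⟨k0.trans (hz s hs), (hZ s hs).trans ?_⟩⟩
  · have : ε1 ≤ ε := by nlinarith
    gcongr
  · gcongr

lemma exists_neg_interval {c c' : ℝ} (hcc' : c < c') (hc : ContinuousAt lam c') (h : lam c' < 0) :
    ∃ ι > 0, ∃ l1 > 0, c + ι ≤ c' ∧ ∀ s ∈ Icc (c' - ι) c', lam s ≤ -l1 := by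
  have := hc.eventually (gt_mem_nhds (show lam c' < lam c' / 2 by linarith))
  obtain ⟨ε, hε, h1⟩ := Metric.eventually_nhds_iff.1 this
  refine ⟨min (ε / 2) (c' - c), lt_min (by positivity) (by linarith), -lam c' / 2, by linarith,
    by linarith [min_le_right (ε / 2) (c' - c)], fun s hs => ?_⟩
  have : dist s c' < ε := by
    rw [Real.dist_eq, abs_lt]
    constructor <;> linarith [hs.1, hs.2, min_le_left (ε / 2) (c' - c)]
  linarith [h1 this]

lemma step {c c' A : ℝ} (hb : 0 < b) (hg : Good y ψ Q δ c A) (hA : 0 ≤ A) (hcc' : c < c')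
    (hl : c' - c ≤ Real.pi / 2) (hm : 0 < Real.cos (c' - c) - A * Real.sin (c' - c))
    (hlam : ∀ s ∈ Icc c c', -L ≤ lam s ∧ lam s ≤ 0)
    (hsol : ∀ t, Sol lam b t c c' (y t) (ψ t) (Q t) (w t))
    (hc : ContinuousAt lam c') (hneg : lam c' < 0) : Good0 y ψ Q δ c' := by
  obtain ⟨ι, hι, l1, hl1, hcι, hn⟩ := exists_neg_interval hcc' hc hneg
  obtain ⟨κ, hκ, hg⟩ := step_core hb hg hA hcc'.le hl hm hlam hsol
  set m0 := Real.cos (c' - c) - A * Real.sin (c' - c) with hm0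
  have hL : 0 ≤ L := by linarith [(hlam c ⟨le_rfl, hcc'.le⟩).1, (hlam c ⟨le_rfl, hcc'.le⟩).2]
  set G := 1 + (1 / (l1 * ι) + 2 * (1 + b * L) / l1) with hG
  have hG0 : 0 ≤ 1 / (l1 * ι) + 2 * (1 + b * L) / l1 := by positivity
  refine ⟨m0 / 2 * κ, by positivity, fun ε hε => ?_⟩
  filter_upwards [hg (ε * (m0 / 2) / G) (by positivity), eventually_gt_atTop 0] with t h1 ht
  obtain ⟨g1, g2, g3⟩ := h1
  obtain ⟨g4, g5⟩ := g3 c' ⟨hcc'.le, le_rfl⟩
  have hY : 0 < -y t c := lt_of_lt_of_le (by positivity) g1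
  have k1 := (hsol t).fall_decay hb ht hlam hι hl1 hcι hn
  have k2 : ε * (m0 / 2) * (-y t c) ≤ ε * (-y t c') := by
    rw [mul_assoc]; exact mul_le_mul_of_nonneg_left g4 hε.le
  have hGp : 0 < G := by rw [hG]; linarith
  have k3 : ε * (m0 / 2) / G * G = ε * (m0 / 2) := div_mul_cancel₀ _ hGp.ne'
  have k4 : 0 ≤ ε * (m0 / 2) / G * (-y t c) := by positivity
  refine ⟨?_, ?_, ?_⟩
  · have := mul_le_mul_of_nonneg_left g1 (show 0 ≤ m0 / 2 by positivity)
    linarith [mul_assoc (m0 / 2) κ (Real.exp (t * δ))]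
  · have k5 : √(y t c ^ 2 + ψ t c ^ 2 + Q t c) / t ≤ ε * (m0 / 2) / G * (-y t c) := by
      rw [div_le_iff₀ ht]; linarith
    have k6 := mul_le_mul_of_nonneg_right k5 hG0
    have k7 : ε * (m0 / 2) / G * (-y t c) * (1 / (l1 * ι) + 2 * (1 + b * L) / l1) ≤
        ε * (m0 / 2) / G * (-y t c) * G := mul_le_mul_of_nonneg_left (by rw [hG]; linarith) k4
    nlinarith
  · have k7 : ε * (m0 / 2) / G * (-y t c) * 1 ≤ ε * (m0 / 2) / G * (-y t c) * G :=
      mul_le_mul_of_nonneg_left (by rw [hG]; linarith) k4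
    nlinarith

lemma final_fall {c p : ℝ} (hb : 0 < b) (hg : Good0 y ψ Q δ c) (hcp : c < p) (hl : p - c ≤ 1)
    (hlam : ∀ s ∈ Icc c p, -L ≤ lam s ∧ lam s ≤ 0)
    (hsol : ∀ t, Sol lam b t c p (y t) (ψ t) (Q t) (w t)) :
    ∃ κ > 0, ∀ ε > 0, ∀ᶠ t in atTop, κ * Real.exp (t * δ) ≤ -y t p ∧
      √(Q t p) ≤ ε * (-y t p) ∧ κ * Real.exp (t * δ) / t ≤ ψ t p := by
  have hpi := Real.pi_gt_three
  have hm : 0 < Real.cos (p - c) - 0 * Real.sin (p - c) := by
    simpa using Real.cos_pos_of_mem_Ioo ⟨by linarith, by linarith⟩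
  obtain ⟨κ, hκ, h1⟩ := step_core hb hg.good le_rfl hcp.le (by linarith) hm hlam hsol
  obtain ⟨κ', hκ', h2⟩ := hg
  set m0 := Real.cos (p - c) - 0 * Real.sin (p - c) with hm0
  have hL : 0 ≤ L := by linarith [(hlam c ⟨le_rfl, hcp.le⟩).1, (hlam c ⟨le_rfl, hcp.le⟩).2]
  have hd : 0 < p - c := sub_pos.2 hcp
  refine ⟨m0 / 2 * κ / (8 * (L + 1)), by positivity, fun ε hε => ?_⟩
  filter_upwards [h1 (ε * (m0 / 2)) (by positivity), h1 (m0 / (4 * (b * L + 1))) (by positivity),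
    h2 (m0 / 2 * (p - c) / 8) (by positivity), eventually_gt_atTop 0,
    eventually_ge_atTop (1 / (p - c))] with t g1 g2 g3 ht ht2
  have hY : 0 < -y t c := lt_of_lt_of_le (by positivity) g1.1
  obtain ⟨g4, g5⟩ := g1.2.2 p ⟨hcp.le, le_rfl⟩
  have k0 := mul_le_mul_of_nonneg_left g1.1 (show 0 ≤ m0 / 2 by positivity)
  have hE := Real.exp_pos (t * δ)
  have k1 := (hsol t).fall_low ht hlam hcp (m := m0 / 2 * (-y t c)) (by positivity)
    (fun s hs => (g1.2.2 s hs).1) (fun s hs => by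
      have k2 := (hsol t).fall_w hb hlam (fun s hs => (g2.2.2 s hs).2) s hs
      refine k2.trans ?_
      have k3 : b * L * (m0 / (4 * (b * L + 1))) ≤ m0 / 4 := by
        rw [mul_div_assoc', div_le_div_iff₀ (by positivity) (by norm_num)]
        nlinarith [show 0 ≤ b * L by positivity]
      nlinarith) (by have := (abs_le.1 g3.2.1).1; linarith) ht2
  refine ⟨?_, ?_, le_trans ?_ k1⟩
  · have k2 : m0 / 2 * κ / (8 * (L + 1)) ≤ m0 / 2 * κ :=
      div_le_self (by positivity) (by linarith)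
    have := mul_le_mul_of_nonneg_right k2 hE.le
    nlinarith
  · nlinarith
  · have k3 : m0 / 2 * κ / (8 * (L + 1)) * Real.exp (t * δ) / t =
        m0 / 2 * (κ * Real.exp (t * δ)) / (8 * t * (L + 1)) := by field_simp
    rw [k3]; gcongr

lemma ev_exp {δ κ : ℝ} (hδ : 0 < δ) (hκ : 0 < κ) (M : ℝ) :
    ∀ᶠ t in atTop, M * (t + 1) ≤ κ * Real.exp (t * δ) := by
  filter_upwards [eventually_ge_atTop 1, eventually_ge_atTop (4 * |M| / (κ * δ ^ 2))] with t h1 h2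
  have h3 := Real.quadratic_le_exp_of_nonneg (show 0 ≤ t * δ by positivity)
  rw [div_le_iff₀ (by positivity)] at h2
  have h4 : M * (t + 1) ≤ |M| * (2 * t) :=
    (mul_le_mul_of_nonneg_right (le_abs_self M) (by linarith)).trans
      (mul_le_mul_of_nonneg_left (by linarith) (abs_nonneg M))
  have h5 : (t * δ) ^ 2 / 2 ≤ Real.exp (t * δ) := by nlinarith [show 0 ≤ t * δ by positivity]
  have h6 := mul_le_mul_of_nonneg_left h5 hκ.le
  have h7 := mul_le_mul_of_nonneg_right h2 (show 0 ≤ t by linarith)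
  nlinarith

theorem first_stage {s sb : ℝ} (hb : 0 < b) (hs : s < sb) (hc : ∀ x ∈ Icc s sb, ContinuousAt lam x)
    (hpos : 0 < lam s) (hlam : ∀ x ∈ Icc s sb, 0 ≤ lam x ∧ lam x ≤ L) (h0 : lam sb = 0) :
    ∃ s0 ∈ Ico s sb, ∃ δ > 0, ∃ A ≥ 0, ∀ y ψ Q w : ℝ → ℝ → ℝ,
      (∀ t, Sol lam b t s0 sb (y t) (ψ t) (Q t) (w t)) →
      (∀ t, y t s0 = 1 ∧ ψ t s0 = 0 ∧ Q t s0 = 0) → Good y ψ Q δ sb A := by
  set S := {x | x ∈ Icc s sb ∧ ∀ u ∈ Icc x sb, lam u = 0} with hS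
  have hSne : sb ∈ S := ⟨⟨hs.le, le_rfl⟩, fun u hu => by rw [le_antisymm hu.2 hu.1]; exact h0⟩
  have hSb : BddBelow S := ⟨s, fun x hx => hx.1.1⟩
  set p := sInf S with hp
  have hp1 : s ≤ p := le_csInf ⟨sb, hSne⟩ fun x hx => hx.1.1
  have hp2 : p ≤ sb := csInf_le hSb hSne
  have hp3 : ∀ u ∈ Ioc p sb, lam u = 0 := fun u hu => by
    obtain ⟨x, hx, hxu⟩ := exists_lt_of_csInf_lt ⟨sb, hSne⟩ hu.1
    exact hx.2 u ⟨hxu.le, hu.2⟩
  have hp4 : lam p = 0 := by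
    rcases hp2.lt_or_eq with h | h
    · have h1 : Tendsto lam (𝓝[>] p) (𝓝 (lam p)) :=
        (hc p ⟨hp1, hp2⟩).tendsto.mono_left nhdsWithin_le_nhds
      have h2 : Tendsto lam (𝓝[>] p) (𝓝 0) := by
        refine tendsto_const_nhds.congr' ?_
        filter_upwards [Ioo_mem_nhdsGT h] with u hu using (hp3 u ⟨hu.1, hu.2.le⟩).symm
      exact tendsto_nhds_unique h1 h2
    · rw [h]; exact h0
  have hp5 : ∀ u ∈ Icc p sb, lam u = 0 := fun u hu => by
    rcases hu.1.lt_or_eq with h | h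
    · exact hp3 u ⟨h, hu.2⟩
    · rw [← h]; exact hp4
  have hp6 : s < p := lt_of_le_of_ne hp1 fun h => by rw [← h] at hp4; linarith
  set θ := sb - p with hθ
  have hθ0 : 0 ≤ θ := by linarith
  obtain ⟨ε1, hε1, hε2, hε3⟩ : ∃ ε1 > 0, ε1 ≤ 1 / 4 ∧
      (Real.pi / 2 < θ → θ < Real.pi → ε1 ≤ Real.sin θ / 4) := by
    by_cases h : Real.pi / 2 < θ ∧ θ < Real.pi
    · have := Real.sin_pos_of_pos_of_lt_pi (by linarith [h.1, Real.pi_pos]) h.2
      exact ⟨Real.sin θ / 4, by positivity, by linarith [Real.sin_le_one θ], fun _ _ => le_rfl⟩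
    · exact ⟨1 / 4, by norm_num, le_rfl, fun h1 h2 => absurd ⟨h1, h2⟩ h⟩
  obtain ⟨x, hx1, hx2, hx3⟩ : ∃ x, max s (p - ε1) ≤ x ∧ x < p ∧ 0 < lam x := by
    by_contra hcon
    push Not at hcon
    have hm : max s (p - ε1) < p := max_lt hp6 (by linarith)
    have : max s (p - ε1) ∈ S := by
      refine ⟨⟨le_max_left _ _, by linarith⟩, fun u hu => ?_⟩
      rcases lt_or_ge u p with h | h
      · exact le_antisymm (hcon u hu.1 h) (hlam u ⟨(le_max_left _ _).trans hu.1, hu.2⟩).1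
      · exact hp5 u ⟨h, hu.2⟩
    exact absurd (csInf_le hSb this) (not_le.2 hm)
  have hxs : s ≤ x := (le_max_left _ _).trans hx1
  have hxp : p - x ≤ ε1 := by linarith [le_max_right s (p - ε1)]
  obtain ⟨ι, hι, hιp, hιpos⟩ : ∃ ι > 0, x + ι ≤ p ∧ ∀ u ∈ Icc x (x + ι), lam x / 2 ≤ lam u := by
    have := (hc x ⟨hxs, by linarith⟩).eventually (lt_mem_nhds (show lam x / 2 < lam x by linarith))
    obtain ⟨ε, hε, h1⟩ := Metric.eventually_nhds_iff.1 this
    refine ⟨min (ε / 2) (p - x), lt_min (by positivity) (by linarith),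
      by linarith [min_le_right (ε / 2) (p - x)], fun u hu => (h1 ?_).le⟩
    rw [Real.dist_eq, abs_lt]
    constructor <;> linarith [hu.1, hu.2, min_le_left (ε / 2) (p - x)]
  have hst := fun η (hη : 0 < η) => stage1 (lam := lam) (L := L) (s0 := x) (p := p) hb
    (fun u hu => hlam u ⟨hxs.trans hu.1, hu.2.trans hp2⟩) (by linarith) hι hιp
    (half_pos hx3) hιpos (hc p ⟨hp1, hp2⟩) hp4 hη
  set δ0 := lam x / 2 * ι / 2 with hδ0
  have hδ00 : 0 < δ0 := by positivity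
  refine ⟨x, ⟨hxs, by linarith⟩, δ0 / 4, by positivity,
    if θ ≤ Real.pi / 2 then 1 else 4 / |Real.sin θ|, by split_ifs <;> positivity,
    fun y ψ Q w hsol hinit => ⟨1, one_pos, fun ε hε => ?_⟩⟩
  filter_upwards [hst 1 one_pos, hst (ε / (18 * (b + 1))) (by positivity),
    ev_exp (show 0 < δ0 / 4 by positivity) one_pos 6, eventually_ge_atTop 1,
    eventually_ge_atTop (3 * b)] with t g1 g2 g3 ht ht3
  have hsx := (hsol t).mono le_rfl hp2
  obtain ⟨a1, a2, a3, a4, a5⟩ := g1 _ _ _ _ hsx (hinit t).1 (hinit t).2.1 (hinit t).2.2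
  obtain ⟨-, -, -, a6, -⟩ := g2 _ _ _ _ hsx (hinit t).1 (hinit t).2.1 (hinit t).2.2
  have hpl := ((hsol t).mono hx2.le le_rfl).plateau hp5
  set R := -ψ t p with hR
  set z := -y t p with hz
  have eψ : ψ t p = -R := by rw [hR]; ring
  have ey : y t p = -z := by rw [hz]; ring
  have hz0 : 0 < z := by
    by_contra hcon
    have : 3 * (t + 1) * 1 * z ≤ 0 := mul_nonpos_of_nonneg_of_nonpos (by positivity) (not_lt.1 hcon)
    linarith
  have hzR : z ≤ 2 * ε1 * R := a3.trans (by gcongr)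
  have hzR' : z ≤ R / 2 := by nlinarith
  have hE : Real.exp (t * (δ0 / 4)) ≤ z := by
    set E := Real.exp (t * (δ0 / 4)) with hEdef
    have hE0 : 0 < E := Real.exp_pos _
    have e1 : Real.exp (t * δ0) = E ^ 4 := by
      rw [hEdef, ← Real.exp_nat_mul]; congr 1; push_cast; ring
    rw [e1, eψ] at a1
    have e2 : E ^ 2 ≤ 2 * R := by
      apply abs_le_of_sq_le_sq' _ (by positivity) |>.2
      nlinarith
    have e3 : E * (6 * (t + 1)) ≤ z * (6 * (t + 1)) := by nlinarith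
    exact le_of_mul_le_mul_right e3 (by positivity)
  by_cases hθπ : Real.pi ≤ θ
  · exfalso
    have k1 := (hpl (p + Real.pi) ⟨by linarith [Real.pi_pos], by linarith⟩).1
    have k2 := (hsol t).le1 (p + Real.pi) ⟨by linarith [Real.pi_pos], by linarith⟩
    rw [add_sub_cancel_left, Real.cos_pi, Real.sin_pi, ey] at k1
    linarith
  push Not at hθπ
  obtain ⟨k1, k2, k3⟩ := hpl sb ⟨hp2, le_rfl⟩
  rw [← hθ, eψ] at k1 k2
  rw [ey] at k1
  have hsin : 0 ≤ Real.sin θ := Real.sin_nonneg_of_nonneg_of_le_pi hθ0 hθπ.le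
  have hs1 := Real.sin_le_one θ
  have hc1 := Real.neg_one_le_cos θ
  have key : z ≤ -y t sb ∧
      ψ t sb ≤ (if θ ≤ Real.pi / 2 then 1 else 4 / |Real.sin θ|) * (-y t sb) := by
    split_ifs with hcase
    · have hcos : 0 ≤ Real.cos θ :=
        Real.cos_nonneg_of_mem_Icc ⟨by linarith [Real.pi_pos], hcase⟩
      have hsc : 1 ≤ Real.cos θ + Real.sin θ := by
        nlinarith [Real.sin_sq_add_cos_sq θ, Real.cos_le_one θ]
      have q1 : z ≤ -y t sb := by rw [k1]; nlinarith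
      exact ⟨q1, by rw [k2]; nlinarith⟩
    · push Not at hcase
      have q0 := hε3 hcase hθπ
      have hsp : 0 < Real.sin θ := by linarith
      have q1 : R * Real.sin θ / 2 ≤ -y t sb := by rw [k1]; nlinarith
      refine ⟨by nlinarith, ?_⟩
      rw [abs_of_pos hsp]
      have q2 : ψ t sb ≤ 2 * R := by rw [k2]; nlinarith
      have q3 : 4 / Real.sin θ * (R * Real.sin θ / 2) = 2 * R := by field_simp; ring
      have q4 := mul_le_mul_of_nonneg_left q1 (show 0 ≤ 4 / Real.sin θ by positivity)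
      linarith
  have hRη : R ≤ t * ε / (3 * (b + 1)) * z := by
    refine a6.trans (mul_le_mul_of_nonneg_right ?_ hz0.le)
    rw [mul_div_assoc', div_le_div_iff₀ (by positivity) (by positivity)]
    nlinarith [mul_pos hε (show 0 < b + 1 by linarith)]
  have ht0 : 0 < t := by linarith
  refine ⟨by linarith [key.1], by nlinarith [key.1, key.2], ?_, ?_⟩
  · rw [k3]
    have q1 := mul_le_mul_of_nonneg_left hRη (show 0 ≤ 3 * b / t by positivity)
    have q2 : 3 * b / t * (t * ε / (3 * (b + 1)) * z) = b / (b + 1) * (ε * z) := by field_simp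
    have q3 : b / (b + 1) ≤ 1 := by rw [div_le_one (by linarith)]; linarith
    have q4 := mul_le_mul_of_nonneg_right q3 (show 0 ≤ ε * z by positivity)
    have q5 := mul_le_mul_of_nonneg_left key.1 hε.le
    linarith
  · have q0 : y t sb ^ 2 + ψ t sb ^ 2 + Q t sb = y t p ^ 2 + ψ t p ^ 2 + Q t p := by
      rw [k1, k2, k3, ey, eψ]; nlinarith [Real.sin_sq_add_cos_sq θ]
    rw [q0]
    have q1 := sqrt3_le (y t p) (ψ t p) (Q t p)
    rw [abs_of_neg (show y t p < 0 by linarith), abs_of_neg (show ψ t p < 0 by linarith),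
      ← hz, ← hR] at q1
    have q2 : 3 * b / t * R ≤ R := by
      have : 3 * b / t ≤ 1 := by rw [div_le_one ht0]; exact ht3
      nlinarith
    have q3 : t * ε / (3 * (b + 1)) * z ≤ t * ε / 3 * z := by
      gcongr; linarith
    have q5 := mul_le_mul_of_nonneg_left key.1 (show 0 ≤ ε * t by positivity)
    nlinarith

end Pool.Agent.Lib.MP_7dd29b_gt
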