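import Pool.Agent.Lib.MP_7dd29b_gt.Ode4

/-! No sign pattern plus, minus, plus: assembly. -/

set_option autoImplicit false

open Set Filter Topology

namespace Pool.Agent.Lib.MP_7dd29b_gt

variable {lam : ℝ → ℝ} {b L α β : ℝ}

def Final (lam : ℝ → ℝ) (y ψ Q : ℝ → ℝ → ℝ) (sb : ℝ) : Prop :=
  ∃ κ0 > 0, ∀ δ > 0, ∀ᶠ t in atTop, Q t sb ≤ κ0 ^ 2 * (y t sb ^ 2 + ψ t sb ^ 2) →
    Real.exp (2 * t * δ) ≤ y t sb ^ 2 + ψ t sb ^ 2 →
    (0 ≤ ψ t sb ∨ ∃ᶠ s in 𝓝[>] sb, lam s < 0) → False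

def HSol (lam : ℝ → ℝ) (b α β : ℝ) : Prop :=
  ∀ s0 ∈ Icc α β, ∃ y ψ Q w : ℝ → ℝ → ℝ, (∀ t, Sol lam b t s0 β (y t) (ψ t) (Q t) (w t)) ∧
    (∀ t, y t s0 = 1 ∧ ψ t s0 = 0 ∧ Q t s0 = 0) ∧
    ∀ sb ∈ Ioo s0 β, lam sb = 0 → (∃ᶠ s in 𝓝[>] sb, 0 < lam s) → Final lam y ψ Q sb

lemma Final.elim {y ψ Q : ℝ → ℝ → ℝ} {sb δ κ : ℝ} (h : Final lam y ψ Q sb) (hδ : 0 < δ)
    (hκ : 0 < κ) (a : ℝ → ℝ) (hQ : ∀ t, 0 ≤ Q t sb)
    (ha : ∀ ε > 0, ∀ᶠ t in atTop, κ * Real.exp (t * δ) ≤ a t ∧ √(Q t sb) ≤ ε * a t ∧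
      a t ^ 2 ≤ y t sb ^ 2 + ψ t sb ^ 2 ∧ (0 ≤ ψ t sb ∨ ∃ᶠ s in 𝓝[>] sb, lam s < 0)) : False := by
  obtain ⟨κ0, hκ0, h⟩ := h
  have := (h (δ / 2) (by positivity)).and ((ha κ0 hκ0).and
    ((ev_exp (half_pos hδ) hκ 1).and (eventually_ge_atTop 0)))
  obtain ⟨t, h1, ⟨h2, h3, h4, h5⟩, h6, h7⟩ := this.exists
  have ha0 : 0 < a t := lt_of_lt_of_le (by positivity) h2
  refine h1 ?_ ?_ h5
  · have k1 : Q t sb ≤ (κ0 * a t) ^ 2 := by
      rw [← Real.sq_sqrt (hQ t)]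
      exact pow_le_pow_left₀ (Real.sqrt_nonneg _) h3 2
    have k2 := mul_le_mul_of_nonneg_left h4 (sq_nonneg κ0)
    nlinarith
  · have e1 : Real.exp (t * δ) = Real.exp (t * (δ / 2)) * Real.exp (t * (δ / 2)) := by
      rw [← Real.exp_add]; ring_nf
    have e2 : Real.exp (2 * t * (δ / 2)) = Real.exp (t * (δ / 2)) ^ 2 := by
      rw [← Real.exp_nat_mul]; congr 1; push_cast; ring
    have hE := Real.exp_pos (t * (δ / 2))
    have k1 : Real.exp (t * (δ / 2)) ≤ a t := by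
      rw [e1] at h2; nlinarith
    rw [e2]
    exact (pow_le_pow_left₀ hE.le k1 2).trans h4

lemma caseA (hb : 0 < b) (hc : ∀ x ∈ Icc α β, ContinuousAt lam x)
    (hL : ∀ x ∈ Icc α β, |lam x| ≤ L) (H : HSol lam b α β) {s sb : ℝ} (hs : α ≤ s) (hs' : s < sb)
    (hsb : sb < β) (hpos : 0 < lam s) (hnn : ∀ x ∈ Icc s sb, 0 ≤ lam x) (h0 : lam sb = 0)
    (hp : ∃ᶠ s in 𝓝[>] sb, 0 < lam s) (hn : ∃ᶠ s in 𝓝[>] sb, lam s < 0) : False := by
  have sub : Icc s sb ⊆ Icc α β := Icc_subset_Icc hs hsb.le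
  obtain ⟨s0, hs0, δ, hδ, A, -, hg⟩ := first_stage (L := L) hb hs' (fun x hx => hc x (sub hx)) hpos
    (fun x hx => ⟨hnn x hx, (le_abs_self _).trans (hL x (sub hx))⟩) h0
  obtain ⟨y, ψ, Q, w, hsol, hinit, hfin⟩ := H s0 (sub (Ico_subset_Icc_self hs0))
  obtain ⟨κ, hκ, hg⟩ := hg y ψ Q w (fun t => (hsol t).mono le_rfl hsb.le) hinit
  refine (hfin sb ⟨hs0.2, hsb⟩ h0 hp).elim hδ hκ (fun t => -y t sb)
    (fun t => (hsol t).Q0 sb ⟨hs0.2.le, hsb.le⟩) fun ε hε => ?_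
  filter_upwards [hg ε hε] with t ht
  exact ⟨ht.1, ht.2.2.1, by nlinarith [sq_nonneg (ψ t sb)], Or.inr hn⟩

lemma caseB (hb : 0 < b) (hc : ∀ x ∈ Icc α β, ContinuousAt lam x)
    (hL : ∀ x ∈ Icc α β, |lam x| ≤ L) (H : HSol lam b α β) {s b1 b2 : ℝ} (hs : α ≤ s)
    (hs' : s < b1) (h12 : b1 < b2) (hsb : b2 < β) (hpos : 0 < lam s)
    (hnn : ∀ x ∈ Icc s b1, 0 ≤ lam x) (hnp : ∀ x ∈ Icc b1 b2, lam x ≤ 0) (h0 : lam b2 = 0)
    (hn : ∃ᶠ s in 𝓝[>] b1, lam s < 0) (hp : ∃ᶠ s in 𝓝[>] b2, 0 < lam s) : False := by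
  have sub : Icc s b1 ⊆ Icc α β := Icc_subset_Icc hs (by linarith)
  have sub2 : Icc b1 b2 ⊆ Icc α β := Icc_subset_Icc (by linarith) hsb.le
  have hb1 : lam b1 = 0 := le_antisymm (hnp b1 ⟨le_rfl, h12.le⟩) (hnn b1 ⟨hs'.le, le_rfl⟩)
  obtain ⟨s0, hs0, δ, hδ, A, hA, hg⟩ := first_stage (L := L) hb hs' (fun x hx => hc x (sub hx))
    hpos (fun x hx => ⟨hnn x hx, (le_abs_self _).trans (hL x (sub hx))⟩) hb1
  obtain ⟨y, ψ, Q, w, hsol, hinit, hfin⟩ := H s0 (sub (Ico_subset_Icc_self hs0))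
  have hg1 := hg y ψ Q w (fun t => (hsol t).mono le_rfl (by linarith)) hinit
  have hlam : ∀ c c', b1 ≤ c → c' ≤ b2 → ∀ x ∈ Icc c c', -L ≤ lam x ∧ lam x ≤ 0 :=
    fun c c' h1 h2 x hx =>
      have : x ∈ Icc b1 b2 := ⟨h1.trans hx.1, hx.2.trans h2⟩
      ⟨(abs_le.1 (hL x (sub2 this))).1, hnp x this⟩
  have hsol' : ∀ c c', b1 ≤ c → c' ≤ b2 → ∀ t, Sol lam b t c c' (y t) (ψ t) (Q t) (w t) :=
    fun c c' h1 h2 t => (hsol t).mono (by linarith [hs0.2]) (by linarith)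
  have hpi := Real.pi_gt_three
  -- the first long plateau
  set S := {x | x ∈ Icc b1 b2 ∧ ∀ u ∈ Icc x (min (x + Real.pi / 2) b2), lam u = 0} with hS
  have hSne : b2 ∈ S := ⟨⟨h12.le, le_rfl⟩, fun u hu => by
    rw [le_antisymm (hu.2.trans (min_le_right _ _)) hu.1]; exact h0⟩
  have hSb : BddBelow S := ⟨b1, fun x hx => hx.1.1⟩
  set p := sInf S with hp'
  have hp1 : b1 ≤ p := le_csInf ⟨b2, hSne⟩ fun x hx => hx.1.1
  have hp2 : p ≤ b2 := csInf_le hSb hSne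
  have hp3 : ∀ u ∈ Ioc p (min (p + Real.pi / 2) b2), lam u = 0 := fun u hu => by
    obtain ⟨x, hx, hxu⟩ := exists_lt_of_csInf_lt ⟨b2, hSne⟩ hu.1
    have hpx : p ≤ x := csInf_le hSb hx
    exact hx.2 u ⟨hxu.le, hu.2.trans (min_le_min_right _ (by linarith))⟩
  have hp4 : lam p = 0 := by
    rcases hp2.lt_or_eq with h | h
    · have h1 : Tendsto lam (𝓝[>] p) (𝓝 (lam p)) :=
        (hc p (sub2 ⟨hp1, hp2⟩)).tendsto.mono_left nhdsWithin_le_nhds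
      have h2 : Tendsto lam (𝓝[>] p) (𝓝 0) := by
        refine tendsto_const_nhds.congr' ?_
        filter_upwards [Ioo_mem_nhdsGT (show p < min (p + Real.pi / 2) b2 from
          lt_min (by linarith) h)] with u hu using (hp3 u ⟨hu.1, hu.2.le⟩).symm
      exact tendsto_nhds_unique h1 h2
    · rw [h]; exact h0
  have hp5 : ∀ u ∈ Icc p (min (p + Real.pi / 2) b2), lam u = 0 := fun u hu => by
    rcases hu.1.lt_or_eq with h | h
    · exact hp3 u ⟨h, hu.2⟩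
    · rw [← h]; exact hp4
  have hp6 : b1 < p := by
    refine lt_of_le_of_ne hp1 fun h => ?_
    obtain ⟨u, hu1, hu2⟩ := (hn.and_eventually (Ioo_mem_nhdsGT
      (show b1 < min (b1 + Real.pi / 2) b2 from lt_min (by linarith) h12))).exists
    rw [h] at hu2
    linarith [hp3 u ⟨hu2.1, hu2.2.le⟩]
  have hp7 : ∀ x ∈ Ico b1 p, ∃ c', x < c' ∧ c' < p ∧ c' < x + Real.pi / 2 ∧ lam c' < 0 := by
    intro x hx
    by_contra hcon
    push Not at hcon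
    have hx2 : x < b2 := by linarith [hx.2]
    have hz : ∀ u ∈ Ioo x (min (x + Real.pi / 2) b2), lam u = 0 := fun u hu => by
      have := lt_min_iff.1 hu.2
      rcases lt_or_ge u p with h | h
      · exact le_antisymm (hnp u ⟨by linarith [hx.1, hu.1], this.2.le⟩) (hcon u hu.1 h this.1)
      · exact hp5 u ⟨h, le_min (by linarith [hx.2]) this.2.le⟩
    have hlt : x < min (x + Real.pi / 2) b2 := lt_min (by linarith) hx2
    have hcl : ∀ u ∈ Icc x (min (x + Real.pi / 2) b2), lam u = 0 := by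
      have hco : ContinuousOn lam (Icc x (min (x + Real.pi / 2) b2)) := fun u hu =>
        (hc u (sub2 ⟨hx.1.trans hu.1, hu.2.trans (min_le_right _ _)⟩)).continuousWithinAt
      have hcl' : IsClosed (Icc x (min (x + Real.pi / 2) b2) ∩ lam ⁻¹' {0}) :=
        hco.preimage_isClosed_of_isClosed isClosed_Icc isClosed_singleton
      have hsub : Ioo x (min (x + Real.pi / 2) b2) ⊆
          Icc x (min (x + Real.pi / 2) b2) ∩ lam ⁻¹' {0} :=
        fun u hu => ⟨Ioo_subset_Icc_self hu, hz u hu⟩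
      have := hcl'.closure_subset_iff.2 hsub
      rw [closure_Ioo hlt.ne] at this
      exact fun u hu => (this hu).2
    exact absurd (csInf_le hSb ⟨⟨hx.1, hx2.le⟩, hcl⟩) (not_le.2 hx.2)
  -- the chain of reset points
  set T := {c | c ∈ Ioo b1 p ∧ Good0 y ψ Q δ c} with hT
  have hTne : T.Nonempty := by
    have h1 : ∀ᶠ c in 𝓝[>] b1, 0 < Real.cos (c - b1) - A * Real.sin (c - b1) := by
      refine Filter.Eventually.filter_mono nhdsWithin_le_nhds ?_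
      refine ContinuousAt.eventually_lt (by fun_prop) (by fun_prop) (by simp)
    obtain ⟨c, hc1, hc2, hc3⟩ := (hn.and_eventually (h1.and (Ioo_mem_nhdsGT
      (show b1 < min p (b1 + 1) from lt_min hp6 (by linarith))))).exists
    have hc4 := lt_min_iff.1 hc3.2
    refine ⟨c, ⟨hc3.1, hc4.1⟩, step (L := L) hb hg1 hA hc3.1 (by linarith) hc2
      (hlam _ _ le_rfl (by linarith)) (hsol' _ _ le_rfl (by linarith))
      (hc c (sub2 ⟨hc3.1.le, by linarith⟩)) hc1⟩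
  have hTb : BddAbove T := ⟨p, fun c hc => hc.1.2.le⟩
  obtain ⟨c0, hc0⟩ := hTne
  have hTsup : p ≤ sSup T := by
    by_contra hcon
    push Not at hcon
    have h1 : b1 ≤ sSup T := hc0.1.1.le.trans (le_csSup hTb hc0)
    obtain ⟨c', k1, k2, k3, k4⟩ := hp7 (sSup T) ⟨h1, hcon⟩
    obtain ⟨c, hc1, hc2⟩ := exists_lt_of_lt_csSup ⟨c0, hc0⟩
      (show c' - Real.pi / 2 < sSup T by linarith)
    have hcc : c < c' := (le_csSup hTb hc1).trans_lt k1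
    have : c' ∈ T := ⟨⟨by linarith, k2⟩, step (L := L) hb hc1.2.good le_rfl hcc (by linarith)
      (by simpa using Real.cos_pos_of_mem_Ioo ⟨by linarith, by linarith⟩)
      (hlam _ _ hc1.1.1.le (by linarith)) (hsol' _ _ hc1.1.1.le (by linarith))
      (hc c' (sub2 ⟨by linarith, by linarith⟩)) k4⟩
    exact absurd (le_csSup hTb this) (not_le.2 k1)
  obtain ⟨c, hc1, hc2⟩ := exists_lt_of_lt_csSup ⟨c0, hc0⟩ (show p - 1 < sSup T by linarith)
  obtain ⟨κ, hκ, hfall⟩ := final_fall (L := L) hb hc1.2 hc1.1.2 (by linarith)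
    (hlam _ _ hc1.1.1.le hp2) (hsol' _ _ hc1.1.1.le hp2)
  have hpl := fun t => (hsol' p (min (p + Real.pi / 2) b2) hp1 (min_le_right _ _) t).plateau hp5
  rcases le_or_gt (p + Real.pi / 2) b2 with hcase | hcase
  · obtain ⟨t, h1, h2, h3⟩ := ((hfall 1 one_pos).and ((ev_exp hδ hκ 1).and
      (eventually_gt_atTop 0))).exists
    have k1 := (hpl t (p + Real.pi / 2) ⟨by linarith, le_min le_rfl hcase⟩).1
    have k2 := (hsol' _ _ hp1 le_rfl t).le1 (p + Real.pi / 2) ⟨by linarith, hcase⟩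
    rw [add_sub_cancel_left, Real.cos_pi_div_two, Real.sin_pi_div_two] at k1
    have k3 := h1.2.2
    rw [div_le_iff₀ h3] at k3
    nlinarith
  · refine (hfin b2 ⟨by linarith [hs0.2], hsb⟩ h0 hp).elim hδ hκ (fun t => -y t p)
      (fun t => (hsol t).Q0 b2 ⟨by linarith [hs0.2], hsb.le⟩) fun ε hε => ?_
    filter_upwards [hfall ε hε, eventually_gt_atTop 0] with t ht ht0
    obtain ⟨k1, k2, k3⟩ := hpl t b2 ⟨hp2, le_min hcase.le le_rfl⟩
    have hY : 0 < -y t p := lt_of_lt_of_le (by positivity) ht.1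
    have hψ : 0 ≤ ψ t p := le_trans (by positivity) ht.2.2
    refine ⟨ht.1, by rw [k3]; exact ht.2.1, ?_, Or.inl ?_⟩
    · rw [k1, k2]; nlinarith [Real.sin_sq_add_cos_sq (b2 - p), sq_nonneg (ψ t p)]
    · rw [k2]
      have h1 : 0 ≤ Real.cos (b2 - p) := Real.cos_nonneg_of_mem_Icc ⟨by linarith, by linarith⟩
      have h2 : 0 ≤ Real.sin (b2 - p) :=
        Real.sin_nonneg_of_nonneg_of_le_pi (by linarith) (by linarith)
      positivity

/-- the first point after which the function takes negative values -/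
lemma exists_turn {f : ℝ → ℝ} {a c : ℝ} (hac : a < c) (hc : ∀ x ∈ Icc a c, ContinuousAt f x)
    (ha : ∀ᶠ x in 𝓝[>] a, 0 ≤ f x) (hneg : f c < 0) :
    ∃ m ∈ Ioo a c, (∀ x ∈ Icc a m, 0 ≤ f x) ∧ f m = 0 ∧ ∃ᶠ x in 𝓝[>] m, f x < 0 := by
  set S := {x | x ∈ Icc a c ∧ f x < 0} ∩ Ioi a with hS
  have hSne : c ∈ S := ⟨⟨⟨hac.le, le_rfl⟩, hneg⟩, hac⟩
  have hSb : BddBelow S := ⟨a, fun x hx => hx.1.1.1⟩
  set m := sInf S with hm
  obtain ⟨u, hu, hu'⟩ := mem_nhdsGT_iff_exists_Ioo_subset.1 ha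
  have h1 : a < m := by
    refine lt_of_lt_of_le (show a < u from hu) (le_csInf ⟨c, hSne⟩ fun x hx => ?_)
    by_contra hcon
    exact absurd (hu' ⟨hx.2, not_le.1 hcon⟩) (not_le.2 hx.1.2)
  have h2 : m ≤ c := csInf_le hSb hSne
  have h3 : ∀ x ∈ Ioo a m, 0 ≤ f x := fun x hx => by
    by_contra hcon
    exact absurd (csInf_le hSb ⟨⟨⟨hx.1.le, by linarith [hx.2]⟩, not_le.1 hcon⟩, hx.1⟩)
      (not_le.2 hx.2)
  have h4 : ∀ x ∈ Icc a m, 0 ≤ f x := by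
    have hco : ContinuousOn f (Icc a m) := fun u hu =>
      (hc u ⟨hu.1, hu.2.trans h2⟩).continuousWithinAt
    have hcl' : IsClosed (Icc a m ∩ f ⁻¹' Ici 0) :=
      hco.preimage_isClosed_of_isClosed isClosed_Icc isClosed_Ici
    have hsub : Ioo a m ⊆ Icc a m ∩ f ⁻¹' Ici 0 := fun u hu => ⟨Ioo_subset_Icc_self hu, h3 u hu⟩
    have := hcl'.closure_subset_iff.2 hsub
    rw [closure_Ioo h1.ne] at this
    exact fun u hu => (this hu).2
  have h5 := h4 m ⟨h1.le, le_rfl⟩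
  have h6 : m < c := lt_of_le_of_ne h2 fun h => by rw [h] at h5; linarith
  have h7 : ∃ᶠ x in 𝓝[>] m, f x < 0 := by
    rw [Filter.Frequently]
    intro hcon
    obtain ⟨v, hv, hv'⟩ := mem_nhdsGT_iff_exists_Ioo_subset.1 hcon
    obtain ⟨x, hx, hxv⟩ := exists_lt_of_csInf_lt ⟨c, hSne⟩ (show m < v from hv)
    have hmx : m ≤ x := csInf_le hSb hx
    rcases hmx.lt_or_eq with h | h
    · exact hv' ⟨h, hxv⟩ hx.1.2
    · rw [h] at h5; linarith [hx.1.2]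
  refine ⟨m, ⟨h1, h6⟩, h4, le_antisymm ?_ h5, h7⟩
  by_contra hcon
  have := ((hc m ⟨h1.le, h2⟩).eventually (lt_mem_nhds (not_le.1 hcon))).filter_mono
    (nhdsWithin_le_nhds (s := Ioi m))
  obtain ⟨x, hx1, hx2⟩ := (h7.and_eventually this).exists
  linarith

theorem no_pattern (hb : 0 < b) (hc : ∀ x ∈ Icc α β, ContinuousAt lam x)
    (H : HSol lam b α β) (H' : HSol (fun s => -lam s) b α β) {s2 : ℝ} (h2 : s2 ∈ Ioo α β)
    (hα : 0 < lam α) (hs2 : lam s2 < 0) (hβ : 0 < lam β) : False := by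
  obtain ⟨L, hL⟩ := isCompact_Icc.exists_bound_of_continuousOn
    (fun x (hx : x ∈ Icc α β) => (hc x hx).continuousWithinAt)
  simp only [Real.norm_eq_abs] at hL
  have hαβ : α ≤ β := h2.1.le.trans h2.2.le
  obtain ⟨b1, hb1, k1, k2, k3⟩ := exists_turn h2.1 (fun x hx => hc x ⟨hx.1, hx.2.trans h2.2.le⟩)
    ((((hc α ⟨le_rfl, hαβ⟩).eventually (lt_mem_nhds hα)).filter_mono nhdsWithin_le_nhds).mono
      fun x hx => hx.le) hs2
  have hb1β : b1 < β := hb1.2.trans h2.2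
  by_cases hw : ∃ᶠ s in 𝓝[>] b1, 0 < lam s
  · exact caseA hb hc hL H le_rfl hb1.1 hb1β hα k1 k2 hw k3
  rw [not_frequently] at hw
  obtain ⟨b2, hb2, m1, m2, m3⟩ := exists_turn (f := fun s => -lam s) hb1β
    (fun x hx => (hc x ⟨hb1.1.le.trans hx.1, hx.2⟩).neg)
    (hw.mono fun x hx => by simpa using hx) (by simpa using hβ)
  simp only [Left.nonneg_neg_iff, neg_eq_zero, Left.neg_neg_iff] at m1 m2 m3
  by_cases hw2 : ∃ᶠ s in 𝓝[>] b2, lam s < 0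
  · obtain ⟨s, hs1, hs2⟩ := (k3.and_eventually (Ioo_mem_nhdsGT hb2.1)).exists
    exact caseA (lam := fun s => -lam s) (L := L) hb (fun x hx => (hc x hx).neg)
      (fun x hx => by simpa using hL x hx) H' (s := s) (sb := b2) (by linarith [hb1.1, hs2.1])
      hs2.2 hb2.2 (by simpa using hs1)
      (fun x hx => by simpa using m1 x ⟨hs2.1.le.trans hx.1, hx.2⟩) (by simpa using m2)
      (by simpa using hw2) (by simpa using m3)
  · exact caseB hb hc hL H le_rfl hb1.1 hb2.1 hb2.2 hα k1 m1 m2 k3 m3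

end Pool.Agent.Lib.MP_7dd29b_gt
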