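import Pool.Agent.Lib.MP_7dd29b_gt.Recur
import Pool.Agent.Lib.MP_7dd29b_gt.Ode5

/-! Components of a parallel field along a curve of frames. -/

set_option autoImplicit false
set_option maxSynthPendingDepth 3

open Set Filter Topology Metric
open scoped RealInnerProductSpace

namespace Pool.Agent.Lib.MP_7dd29b_gt

lemma SolF.mono {lam : ℝ → ℝ} {b t ε ε' : ℝ} {y ψ Q w1 w2 Q' : ℝ → ℝ}
    (h : SolF lam b t ε y ψ Q w1 w2 Q') (hε : ε' ≤ ε) : SolF lam b t ε' y ψ Q w1 w2 Q' :=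
  have sub : Icc 0 ε' ⊆ Icc 0 ε := Icc_subset_Icc le_rfl hε
  ⟨fun s hs => h.dy s (sub hs), fun s hs => h.dψ s (sub hs), fun s hs => h.dQ s (sub hs),
    fun s hs => h.hw1 s (sub hs), fun s hs => h.hw2 s (sub hs), fun s hs => h.hQ' s (sub hs),
    fun s hs => h.Q0 s (sub hs), fun s hs => h.pos s (sub hs), fun s hs => h.le1 s (sub hs)⟩

lemma exists_pos_interval {f : ℝ → ℝ} {a c : ℝ} (hac : a < c) (hf : ContinuousAt f a)
    (h : 0 < f a) : ∃ ι > 0, ∃ l > 0, a + ι ≤ c ∧ ∀ s ∈ Icc a (a + ι), l ≤ f s := by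
  obtain ⟨ε, hε, h1⟩ := Metric.eventually_nhds_iff.1
    (hf.eventually (lt_mem_nhds (show f a / 2 < f a by linarith)))
  refine ⟨min (ε / 2) (c - a), lt_min (by positivity) (by linarith), f a / 2, by linarith,
    by linarith [min_le_right (ε / 2) (c - a)], fun s hs => (h1 ?_).le⟩
  rw [Real.dist_eq, abs_lt]
  constructor <;> linarith [hs.1, hs.2, min_le_left (ε / 2) (c - a)]

lemma final_of_freq {lam : ℝ → ℝ} {b ε δ : ℝ} (hb : 0 < b) (hε : 0 < ε) (hδ : 0 < δ)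
    (hc : ∀ s ∈ Icc 0 ε, ContinuousAt lam s) (h0 : lam 0 = 0) (hp : ∃ᶠ s in 𝓝[>] 0, 0 < lam s) :
    ∀ᶠ t in atTop, ∀ y ψ Q w1 w2 Q' : ℝ → ℝ, SolF lam b t ε y ψ Q w1 w2 Q' →
      Q 0 ≤ (1 / (20 * b)) ^ 2 * (y 0 ^ 2 + ψ 0 ^ 2) →
      Real.exp (2 * t * δ) ≤ y 0 ^ 2 + ψ 0 ^ 2 →
      (0 ≤ ψ 0 ∨ ∃ᶠ s in 𝓝[>] 0, lam s < 0) → False := by
  obtain ⟨θ, hθ, h1⟩ := Metric.eventually_nhds_iff.1
    ((hc 0 ⟨le_rfl, hε.le⟩).abs.eventually (gt_mem_nhds (show |lam 0| < 1 / 2 by simp [h0])))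
  set ε' := min (θ / 2) (min ε δ) with hε'
  have e0 : 0 < ε' := lt_min (half_pos hθ) (lt_min hε hδ)
  have e1 : ε' ≤ θ / 2 := min_le_left _ _
  have e2 : ε' ≤ ε := (min_le_right _ _).trans (min_le_left _ _)
  have e3 : ε' ≤ δ := (min_le_right _ _).trans (min_le_right _ _)
  have hη : ∀ s ∈ Icc 0 ε', |lam s| ≤ 1 / 2 := fun s hs => (h1 (by
    rw [Real.dist_eq, sub_zero, abs_of_nonneg hs.1]; linarith [hs.2])).le
  obtain ⟨a2, k1, k2⟩ := (hp.and_eventually (Ioo_mem_nhdsGT e0)).exists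
  obtain ⟨ι2, k3, l2, k4, k5, k6⟩ :=
    exists_pos_interval k2.2 (hc a2 ⟨k2.1.le, k2.2.le.trans e2⟩) k1
  by_cases hn : ∃ᶠ s in 𝓝[>] 0, lam s < 0
  · obtain ⟨a1, m1, m2⟩ := (hn.and_eventually (Ioo_mem_nhdsGT k2.1)).exists
    obtain ⟨ι1, m3, l1, m4, m5, m6⟩ := exists_pos_interval (f := fun s => -lam s) m2.2
      (hc a1 ⟨m2.1.le, by linarith [m2.2, k2.2]⟩).neg (by simpa using m1)
    have i1 := min_le_left ι1 ι2
    have i2 := min_le_right ι1 ι2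
    filter_upwards [final_blowup (ι := min ι1 ι2) (l1 := min l1 l2) hb hδ hη le_rfl (by linarith)
      (lt_min m3 k3) (lt_min m4 k4) k2.1.le (by linarith) fun s hs =>
        (min_le_right _ _).trans (k6 s ⟨hs.1, by linarith [hs.2]⟩)] with t ht y ψ Q w1 w2 Q' a b c _
    refine ht y ψ Q w1 w2 Q' (a.mono e2) b c (Or.inr ⟨a1, m2.1.le, by linarith, fun s hs => ?_⟩)
    linarith [m6 s ⟨hs.1, by linarith [hs.2]⟩, min_le_left l1 l2]
  · filter_upwards [final_blowup hb hδ hη le_rfl (by linarith) k3 k4 k2.1.le k5 k6]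
      with t ht y ψ Q w1 w2 Q' a b c d
    exact ht y ψ Q w1 w2 Q' (a.mono e2) b c (Or.inl (d.resolve_right hn))

lemma sign_keep {f m : ℝ → ℝ} {θ M : ℝ} (hf : ∀ s ∈ Icc 0 θ, HasDerivAt f (f s * m s) s)
    (hm : ∀ s ∈ Icc 0 θ, |m s| ≤ M) (h0 : f 0 ≠ 0) : ∀ s ∈ Icc 0 θ, 0 < f 0 * f s := by
  have h1 := lin_ge (K := 0) (f := fun s => f s ^ 2 * Real.exp (2 * M * s))
    (f' := fun s => 2 * f s ^ 2 * Real.exp (2 * M * s) * (m s + M))
    (fun s hs => (((hf s hs).fun_pow 2).fun_mul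
      ((hasDerivAt_id' s).const_mul (2 * M)).exp).congr_deriv (by simp; ring))
    fun s hs => mul_nonneg (by positivity) (by linarith [(abs_le.1 (hm s hs)).1])
  have h2 : ∀ s ∈ Icc 0 θ, f s ≠ 0 := fun s hs h => by
    have := h1 s hs
    simp only [h] at this
    have h3 : 0 < f 0 ^ 2 * Real.exp (2 * M * 0) := by positivity
    nlinarith
  intro s hs
  by_contra hcon
  obtain ⟨u, hu, hu'⟩ := intermediate_value_Icc' hs.1 (f := fun s => f 0 * f s)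
    (fun u hu => ((hf u ⟨hu.1, hu.2.trans hs.2⟩).continuousAt.const_mul _).continuousWithinAt)
    ⟨not_lt.1 hcon, mul_self_nonneg (f 0)⟩
  exact mul_ne_zero h0 (h2 u ⟨hu.1, hu.2.trans hs.2⟩) hu'

variable {E : Type*} [NormedAddCommGroup E] [InnerProductSpace ℝ E] {ι : Type*} [Fintype ι]

lemma local_flow [CompleteSpace E] {f : E → E} {x0 : E} (hf : ContDiffAt ℝ 1 f x0) :
    ∃ α : E × ℝ → E, ContinuousAt α (x0, 0) ∧ ∀ᶠ p in 𝓝 (x0, (0 : ℝ)),
      α (p.1, 0) = p.1 ∧ HasDerivAt (fun t => α (p.1, t)) (f (α p)) p.2 := by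
  obtain ⟨ε, hε, a, r, L, K, hr, h⟩ := IsPicardLindelof.of_contDiffAt_one hf
  obtain ⟨α, h1, h2⟩ := (h 0).exists_forall_mem_closedBall_eq_hasDerivWithinAt_continuousOn
  refine ⟨α, h2.continuousAt (prod_mem_nhds (closedBall_mem_nhds x0 hr)
    (Icc_mem_nhds (by linarith) (by linarith))), ?_⟩
  filter_upwards [prod_mem_nhds (closedBall_mem_nhds x0 hr)
    (Ioo_mem_nhds (show 0 - ε < 0 by linarith) (show 0 < 0 + ε by linarith))] with p hp
  exact ⟨(h1 p.1 hp.1).1, ((h1 p.1 hp.1).2 p.2 (Ioo_subset_Icc_self hp.2)).hasDerivAt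
    (Icc_mem_nhds hp.2.1 hp.2.2)⟩

namespace CoreData

noncomputable def yy (ξ : E → E) (r : ℝ) (z : E × E × (ι → E)) : ℝ := ⟪ξ z.1, z.1⟫ / r ^ 2

noncomputable def pp (ξ : E → E) (r : ℝ) (z : E × E × (ι → E)) : ℝ := ⟪ξ z.1, z.2.1⟫ / r

noncomputable def QQ (ξ : E → E) (r : ℝ) (z : E × E × (ι → E)) : ℝ :=
  ‖ξ z.1‖ ^ 2 / r ^ 2 - yy ξ r z ^ 2 - pp ξ r z ^ 2

noncomputable def qq (z : E × E × (ι → E)) : E := ∑ j, z.2.2 j

noncomputable def gg (D : CoreData E) (z : E × E × (ι → E)) (v : E) : E :=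
  ∑ j, (⟪D.K z.1 v (z.2.2 j) (z.2.2 j), z.2.1⟫ / ‖z.2.2 j‖ ^ 2) • z.2.2 j

noncomputable def perp (z : E × E × (ι → E)) (a : E) : E :=
  ∑ j, (⟪z.2.2 j, a⟫ / ‖z.2.2 j‖ ^ 2) • z.2.2 j

variable {D : CoreData E} {z : E × E × (ι → E)}

lemma IsSt.x_q (h : D.IsSt z) : ⟪z.1, qq z⟫ = 0 := by
  simpa [qq] using inner_sum_zero h.px fun _ => 1

lemma IsSt.e_q (h : D.IsSt z) : ⟪z.2.1, qq z⟫ = 0 := by
  simpa [qq] using inner_sum_zero h.pe fun _ => 1

lemma IsSt.p_q (h : D.IsSt z) (j : ι) : ⟪z.2.2 j, qq z⟫ = ‖z.2.2 j‖ ^ 2 := by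
  rw [← h.inner_sum (fun j => ‖z.2.2 j‖ ^ 2) j, qq]
  congr 1
  exact Finset.sum_congr rfl fun j _ => by
    rw [div_self (pow_ne_zero 2 (h.prim j).norm_pos.ne'), one_smul]

lemma IsSt.C_q (h : D.IsSt z) (a : E) : D.C z.1 (qq z) a = perp z a := by
  simp only [qq, perp, map_sum, _root_.sum_apply, (h.prim _).2]

lemma IsSt.inner_perp (h : D.IsSt z) (a : E) (c : ι → ℝ) :
    ⟪a, ∑ j, c j • z.2.2 j⟫ = ⟪perp z a, ∑ j, c j • z.2.2 j⟫ := by
  rw [_root_.inner_sum, _root_.inner_sum]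
  refine Finset.sum_congr rfl fun j _ => ?_
  rw [real_inner_smul_right, real_inner_smul_right, real_inner_comm _ (perp z a), perp, h.inner_sum,
    real_inner_comm]

variable [FiniteDimensional ℝ E] (hn : Module.finrank ℝ E = Fintype.card ι + 2)
include hn

lemma IsSt.QQ_eq (h : D.IsSt z) (ξ : E → E) : QQ ξ ‖z.1‖ z = (‖perp z (ξ z.1)‖ / ‖z.1‖) ^ 2 := by
  set a := ξ z.1 with ha
  have hr := h.norm_pos
  have h1 : ⟪z.1, z.2.1⟫ = 0 := by rw [real_inner_comm]; exact h.ex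
  have h2 : ⟪z.1, perp z a⟫ = 0 := inner_sum_zero h.px _
  have h3 : ⟪z.2.1, perp z a⟫ = 0 := inner_sum_zero h.pe _
  have e : a - ((⟪a, z.1⟫ / ‖z.1‖ ^ 2) • z.1 + ⟪a, z.2.1⟫ • z.2.1 + perp z a) = 0 := by
    refine h.eq_zero hn ?_ ?_ fun j => ?_
    · simp only [inner_sub_right, inner_add_right, real_inner_smul_right, h1, h2,
        real_inner_self_eq_norm_sq]
      rw [real_inner_comm]; field_simp; ring
    · simp only [inner_sub_right, inner_add_right, real_inner_smul_right, h.ex, h3, h.ee]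
      rw [real_inner_comm]; ring
    · simp only [inner_sub_right, inner_add_right, real_inner_smul_right, h.px, h.pe, perp,
        h.inner_sum]
      ring
  have e2 := congrArg (fun v => ⟪a, v⟫) e
  simp only [inner_sub_right, inner_add_right, real_inner_smul_right, inner_zero_right,
    real_inner_self_eq_norm_sq] at e2
  have e3 : ⟪a, perp z a⟫ = ‖perp z a‖ ^ 2 := by
    rw [← real_inner_self_eq_norm_sq]; exact h.inner_perp a _
  simp only [QQ, yy, CoreData.pp, ← ha]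
  rw [e3] at e2
  field_simp at e2 ⊢
  linarith

lemma IsSt.inner_le (h : D.IsSt z) (ξ : E → E) (c : ι → ℝ) :
    |⟪ξ z.1, ∑ j, c j • z.2.2 j⟫ / ‖z.1‖| ≤ ‖∑ j, c j • z.2.2 j‖ * √(QQ ξ ‖z.1‖ z) := by
  have hr := h.norm_pos
  rw [h.QQ_eq hn, Real.sqrt_sq (by positivity), h.inner_perp, abs_div, abs_of_pos hr,
    ← mul_div_assoc, mul_comm]
  gcongr
  exact abs_real_inner_le_norm _ _

lemma comp_deriv {γ : ℝ → E × E × (ι → E)} {s r c T : ℝ} {ξ : E → E} (h : D.IsSt (γ s))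
    (hr : ‖(γ s).1‖ = r) (hγ : HasDerivAt γ (D.lift (γ s) (r • (γ s).2.1 - c • qq (γ s))) s)
    (hξ : HasFDerivAt ξ (T • D.C (γ s).1 (ξ (γ s).1)) (γ s).1) :
    HasDerivAt (fun s => yy ξ r (γ s))
      (pp ξ r (γ s) + -c / r * (⟪ξ (γ s).1, qq (γ s)⟫ / r)) s ∧
    HasDerivAt (fun s => pp ξ r (γ s)) (T * (r * D.lam (γ s)) * pp ξ r (γ s) - yy ξ r (γ s) +
      -(⟪ξ (γ s).1, D.gg (γ s) (r • (γ s).2.1 - c • qq (γ s))⟫ / r)) s ∧
    HasDerivAt (fun s => QQ ξ r (γ s)) (-2 * (T * c) * QQ ξ r (γ s) -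
      2 * yy ξ r (γ s) * (-c / r * (⟪ξ (γ s).1, qq (γ s)⟫ / r)) -
      2 * pp ξ r (γ s) * -(⟪ξ (γ s).1, D.gg (γ s) (r • (γ s).2.1 - c • qq (γ s))⟫ / r)) s := by
  have hA := D.alg h.ne
  have hr0 : 0 < r := hr ▸ h.norm_pos
  have dx := hd_fst hγ
  have de := hd_fst (hd_snd hγ)
  have dξ := HasFDerivAt.comp_hasDerivAt (f := fun s => (γ s).1) s hξ dx
  have hQ := h.QQ_eq hn ξ
  rw [hr] at hQ
  set z := γ s with hz
  set v := r • z.2.1 - c • qq z with hv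
  have hev : ⟪z.2.1, v⟫ = r := by
    rw [hv, inner_sub_right, real_inner_smul_right, real_inner_smul_right, h.ee, h.e_q]; ring
  have d1 : HasDerivAt (fun s => yy ξ r (γ s)) (pp ξ r z + -c / r * (⟪ξ z.1, qq z⟫ / r)) s := by
    refine ((dξ.inner ℝ dx).div_const (r ^ 2)).congr_deriv ?_
    simp only [lift, Function.comp, ← hz, smul_apply, real_inner_smul_left, hA.selfadj,
      hA.comm (ξ z.1) z.1, D.euler _ h.ne, inner_zero_right, pp]
    rw [hv, inner_sub_right, real_inner_smul_right, real_inner_smul_right]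
    field_simp; ring
  have d2 : HasDerivAt (fun s => pp ξ r (γ s)) (T * (r * D.lam z) * pp ξ r z - yy ξ r z +
      -(⟪ξ z.1, D.gg z v⟫ / r)) s := by
    refine ((dξ.inner ℝ de).div_const r).congr_deriv ?_
    simp only [lift, Function.comp, ← hz, smul_apply, real_inner_smul_left, hA.selfadj,
      hA.comm (ξ z.1) z.2.1, h.eig hn, pp, yy, gg, inner_sub_right, real_inner_smul_right, hev, hr]
    rw [real_inner_comm z.2.1 v, hev, real_inner_comm (ξ z.1) z.2.1]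
    field_simp; ring
  refine ⟨d1, d2, ?_⟩
  refine (((dξ.norm_sq.div_const (r ^ 2)).fun_sub (d1.fun_pow 2)).fun_sub
    (d2.fun_pow 2)).congr_deriv ?_
  have e1 : ⟪ξ z.1, D.C z.1 (ξ z.1) v⟫ =
      r * D.lam z * ⟪ξ z.1, z.2.1⟫ ^ 2 - c * ‖perp z (ξ z.1)‖ ^ 2 := by
    rw [hA.comm, hv, map_sub, map_smul, map_smul, sub_apply, smul_apply, smul_apply, h.eig hn,
      h.C_q, inner_sub_right, real_inner_smul_right, real_inner_smul_right, real_inner_smul_right,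
      real_inner_comm (ξ z.1) z.2.1, ← real_inner_self_eq_norm_sq (perp z _)]
    rw [show ⟪ξ z.1, perp z (ξ z.1)⟫ = ⟪perp z (ξ z.1), perp z (ξ z.1)⟫ from h.inner_perp _ _]
    ring
  simp only [lift, Function.comp, ← hz, smul_apply, real_inner_smul_right, e1, hQ, pp,
    Nat.add_one_sub_one, pow_one, Nat.cast_ofNat]
  field_simp
  ring

lemma IsSt.gg_e (h : D.IsSt z) (r : ℝ) : D.gg z (r • z.2.1) = (-(r * D.lam z)) •
    ∑ j, (⟪D.K z.1 (z.2.2 j) (z.2.2 j) (z.2.2 j), z.2.1⟫ / ‖z.2.2 j‖ ^ 2) • z.2.2 j := by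
  rw [gg, Finset.smul_sum]
  refine Finset.sum_congr rfl fun j _ => ?_
  rw [smul_smul, map_smul, smul_apply, smul_apply, real_inner_smul_left, D.K12 h.ne, D.K34 h.ne,
    D.K_eig h.ne (h.prim j) (h.pe j) (h.eig' hn)]
  congr 1; ring

lemma lam_deriv {γ : ℝ → E × E × (ι → E)} {s c : ℝ} (h : D.IsSt (γ s))
    (hγ : HasDerivAt γ (D.lift (γ s) (c • qq (γ s))) s) : HasDerivAt (fun s => D.lam (γ s))
      (D.lam (γ s) * (-c * ∑ j, ⟪D.K (γ s).1 (γ s).2.1 ((γ s).2.2 j) ((γ s).2.2 j), (γ s).2.1⟫)) s := by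
  have hA := D.alg h.ne
  have dx := hd_fst hγ
  have de := hd_fst (hd_snd hγ)
  refine ((((D.hasDerivAt_C dx h.ne).clm_apply de).clm_apply de).inner ℝ de).congr_deriv ?_
  have h1 : ⟪(γ s).2.1, (D.lift (γ s) (c • qq (γ s))).2.1⟫ = 0 := by
    simp only [lift, inner_sub_right, real_inner_smul_right, h.ex, inner_sum_zero h.pe]; ring
  simp only [add_apply, inner_add_left, h.eig hn, hA.comm _ (γ s).2.1, real_inner_smul_left, h1]
  simp only [lift, qq, map_smul, map_sum, smul_apply, _root_.sum_apply, sum_inner,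
    real_inner_smul_left, Finset.mul_sum, mul_zero, zero_mul, add_zero, zero_add]
  refine Finset.sum_congr rfl fun j _ => ?_
  rw [D.K12 h.ne, D.K23 h.ne, D.K34 h.ne, D.K_eig h.ne (h.prim j) (h.pe j) (h.eig' hn)]
  ring

end CoreData

end Pool.Agent.Lib.MP_7dd29b_gt
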