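import Pool.Agent.Lib.MP_7dd29b_gt.Pat1

/-! The tilted path. -/

set_option autoImplicit false
set_option maxSynthPendingDepth 3

open Set Filter Topology Metric
open scoped RealInnerProductSpace

namespace Pool.Agent.Lib.MP_7dd29b_gt

variable {E : Type*} [NormedAddCommGroup E] [InnerProductSpace ℝ E] {ι : Type*} [Fintype ι]

namespace CoreData

variable {D : CoreData E} {z : E × E × (ι → E)}

lemma IsSt.crd_snd (h : D.IsSt z) (e0 : E) (a b : ℝ) :
    (crd e0 (cvec z) (a • z.2.1 - b • qq z)).2 = fun k => k.elim 0 fun _ => -b := by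
  funext k
  have h1 : ⟪z.1, z.2.1⟫ = 0 := by rw [real_inner_comm]; exact h.ex
  rcases k with _ | j
  · simp [crd, cvec, inner_sub_right, real_inner_smul_right, h1, h.x_q]
  · have := (h.prim j).norm_pos
    simp only [crd, cvec, inner_sub_right, real_inner_smul_right, real_inner_smul_left, h.pe, h.p_q,
      ContinuousLinearMap.prod_apply, ContinuousLinearMap.pi_apply, innerSL_apply_apply,
      Option.elim_some]
    field_simp
    ring

lemma contDiff_qq : ContDiff ℝ 1 (qq (E := E) (ι := ι)) :=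
  ContDiff.sum fun j _ => contDiff_pi.1 contDiff_snd.snd j

lemma IsSt.continuousAt_sum (h : D.IsSt z) {w : ι → E × E × (ι → E) → E}
    (hw : ∀ j, ContinuousAt (w j) z) : ContinuousAt (fun z : E × E × (ι → E) =>
      ∑ j, (⟪D.K z.1 (w j z) (z.2.2 j) (z.2.2 j), z.2.1⟫ / ‖z.2.2 j‖ ^ 2) • z.2.2 j) z := by
  have hK : ContinuousAt (fun z : E × E × (ι → E) => D.K z.1) z :=
    (D.contDiffAt_K h.ne).continuousAt.comp continuousAt_fst
  have hp : ∀ j, ContinuousAt (fun z : E × E × (ι → E) => z.2.2 j) z := fun j => by fun_prop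
  refine tendsto_finsetSum _ fun j _ => ?_
  exact (((((hK.clm_apply (hw j)).clm_apply (hp j)).clm_apply (hp j)).inner
    continuousAt_snd.fst).div ((hp j).norm.pow 2) (pow_ne_zero 2 (h.prim j).norm_pos.ne')).smul (hp j)

omit [Fintype ι] in
lemma QQ_pos {ξ : E → E} {r : ℝ} (hr : 0 < r) (h : ξ z.1 ≠ 0) :
    0 < yy ξ r z ^ 2 + pp ξ r z ^ 2 + QQ ξ r z := by
  have : 0 < ‖ξ z.1‖ ^ 2 / r ^ 2 := by have := norm_pos_iff.2 h; positivity
  simp only [QQ]; linarith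

omit [Fintype ι] in
lemma yy_le {ξ : E → E} {r : ℝ} (hr : 0 < r) (h : ⟪ξ z.1, z.1⟫ ≤ ‖z.1‖ * r) (h' : ‖z.1‖ = r) :
    yy ξ r z ≤ 1 := by
  rw [yy, div_le_one (by positivity), sq]
  rwa [h'] at h

variable [FiniteDimensional ℝ E] (hn : Module.finrank ℝ E = Fintype.card ι + 2)
include hn

lemma transfer {γ : ℝ → E × E × (ι → E)} {sb r σ θ0 : ℝ} (S : D.Sheet (γ sb)) (hr : 0 < r)
    (hγ : ∀ᶠ s in 𝓝 sb, D.IsSt (γ s) ∧ HasDerivAt γ (D.lift (γ s) (r • (γ s).2.1)) s)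
    {c : ℝ → E} (hc0 : c 0 = (γ sb).1)
    (hc : ∀ᶠ s in 𝓝 0, HasDerivAt c (r • (S.s (c s)).2.1 - σ • qq (S.s (c s))) s) (hθ0 : 0 < θ0) :
    ∀ᶠ a in 𝓝[>] sb, ∃ s ∈ Ioo 0 θ0,
      D.lam (γ a) ≠ 0 → 0 < D.lam (γ a) * D.lam (S.s (c s)) := by
  have hb := hγ.self_of_nhds.1
  have hγc := hγ.self_of_nhds.2.continuousAt
  obtain ⟨u, hu⟩ := S.exists_isPot hn
  obtain ⟨O, hO, hinj⟩ := hu.exists_inj hn
  set xb := (γ sb).1 with hxb
  set eb := (γ sb).2.1 with heb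
  have hs := S.smooth _ (mem_ball_self S.pos)
  obtain ⟨α, hαc, hα⟩ := local_flow (f := fun x => (-σ) • qq (S.s x))
    ((contDiff_qq.contDiffAt.comp xb hs).const_smul _)
  have hα0 : α (xb, 0) = xb := hα.self_of_nhds.1
  set m : E × E × (ι → E) → ℝ := fun z => - -σ * ∑ j, ⟪D.K z.1 z.2.1 (z.2.2 j) (z.2.2 j), z.2.1⟫
    with hm
  have hmc : ContinuousAt m (γ sb) := by
    have hK : ContinuousAt (fun z : E × E × (ι → E) => D.K z.1) (γ sb) :=
      (D.contDiffAt_K hb.ne).continuousAt.comp continuousAt_fst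
    refine continuousAt_const.mul (tendsto_finsetSum _ fun j _ => ?_)
    exact (((hK.clm_apply (by fun_prop)).clm_apply (by fun_prop)).clm_apply (by fun_prop)).inner
      (by fun_prop)
  have hP : ∀ᶠ x in 𝓝 xb, x ∈ ball xb S.ρ ∧ x ∈ O ∧
      3 * r / 4 < ⟪eb, r • (S.s x).2.1 - σ • qq (S.s x)⟫ ∧ ⟪eb, (-σ) • qq (S.s x)⟫ < r / 4 ∧
      |m (S.s x)| < |m (γ sb)| + 1 := by
    have k1 := hs.continuousAt
    have k2 := contDiff_qq.continuous.continuousAt.comp k1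
    refine (show ∀ᶠ x in 𝓝 xb, x ∈ ball xb S.ρ from ball_mem_nhds xb S.pos).and
      ((show ∀ᶠ x in 𝓝 xb, x ∈ O from hO).and (Eventually.and ?_ (Eventually.and ?_ ?_)))
    · refine ContinuousAt.eventually_lt continuousAt_const (continuousAt_const.inner
        ((k1.snd.fst.const_smul r).sub (k2.const_smul σ))) ?_
      rw [S.base, inner_sub_right, real_inner_smul_right, real_inner_smul_right, hb.ee, hb.e_q]
      linarith
    · refine ContinuousAt.eventually_lt (continuousAt_const.inner (k2.const_smul (-σ)))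
        continuousAt_const ?_
      rw [S.base, real_inner_smul_right, hb.e_q]
      linarith
    · refine ContinuousAt.eventually_lt ((S.base.symm ▸ hmc).comp k1).abs continuousAt_const ?_
      rw [S.base]; linarith
  have E1 := ((hc.self_of_nhds.continuousAt.tendsto.mono_right
    (by rw [hc0] : 𝓝 (c 0) ≤ 𝓝 xb)).eventually hP).and hc
  have E2 := ((hαc.tendsto.mono_right (by rw [hα0] : 𝓝 (α (xb, 0)) ≤ 𝓝 xb)).eventually hP).and hα
  obtain ⟨O2, hO2, I, hI, E3⟩ := mem_nhds_prod_iff.1 E2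
  obtain ⟨ε, hε, E4⟩ := Metric.eventually_nhds_iff.1 (E1.and (show ∀ᶠ s in 𝓝 0, s ∈ I from hI))
  have E5 := fun s (hs : s ∈ Ioo (-ε) ε) => E4 (y := s) (by simpa [abs_lt] using hs)
  set θ := min (ε / 2) θ0 with hθ
  have hθ1 : 0 < θ := lt_min (half_pos hε) hθ0
  have sub : Icc 0 θ ⊆ Ioo (-ε) ε := fun s hs =>
    ⟨by linarith [hs.1], by linarith [hs.2, min_le_left (ε / 2) θ0]⟩
  have m0 : (0 : ℝ) ∈ Ioo (-ε) ε := ⟨by linarith, hε⟩
  -- the orbit near `sb`
  obtain ⟨ε3, hε3, E6⟩ := Metric.eventually_nhds_iff.1 (hγ.and ((hγc.eventually S.near).and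
    (hγc.fst.eventually_mem (ball_mem_nhds xb S.pos))))
  have E7 := fun s (hs : s ∈ Ioo (sb - ε3) (sb + ε3)) => E6 (y := s) (by
    rw [Real.dist_eq, abs_lt]; constructor <;> linarith [hs.1, hs.2])
  have n1 : ∀ a ∈ Ioo (sb - ε3) (sb + ε3), (cmap eb u (γ a).1).2 = (cmap eb u xb).2 := fun a ha =>
    const_on_Ioo (f := fun a => (cmap eb u (γ a).1).2) (fun s hs => by
      obtain ⟨⟨k1, k2⟩, k3, k4⟩ := E7 s hs
      refine (hd_snd (HasFDerivAt.comp_hasDerivAt (f := fun a => (γ a).1) s (hu.deriv eb k4)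
        (hd_fst k2))).congr_deriv ?_
      have := k1.crd_snd eb r 0
      rw [zero_smul, sub_zero] at this
      rw [k3 k1]
      refine this.trans (funext fun k => by cases k <;> simp))
      (s := sb) ⟨by linarith, by linarith⟩ ha
  have dρ : HasDerivAt (fun a => ⟪eb, (γ a).1⟫) r sb := by
    refine ((hasDerivAt_const sb eb).inner ℝ (hd_fst hγ.self_of_nhds.2)).congr_deriv ?_
    simp only [lift, real_inner_smul_right, inner_zero_left, heb, hb.ee]; ring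
  have n2 : ∀ᶠ a in 𝓝[>] sb, ⟪eb, xb⟫ < ⟪eb, (γ a).1⟫ := by
    have k := (hasDerivAt_iff_tendsto_slope.1 dρ).mono_left (nhdsGT_le_nhdsNE sb)
    filter_upwards [k.eventually (lt_mem_nhds hr), self_mem_nhdsWithin] with a h1 h2
    rw [slope_def_field] at h1
    exact sub_pos.1 ((div_pos_iff_of_pos_right (sub_pos.2 h2)).1 h1)
  have n3 : ∀ᶠ a in 𝓝 sb, ⟪eb, (γ a).1⟫ < ⟪eb, xb⟫ + r / 2 * θ :=
    dρ.continuousAt.eventually (gt_mem_nhds (by simp only [hxb]; nlinarith))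
  filter_upwards [n2, n3.filter_mono nhdsWithin_le_nhds,
    (hγc.fst.eventually_mem hO2).filter_mono nhdsWithin_le_nhds,
    mem_nhdsWithin_of_mem_nhds (Ioo_mem_nhds (show sb - ε3 < sb by linarith)
      (show sb < sb + ε3 by linarith))] with a k1 k2 k3 k4
  set x := (γ a).1 with hx
  have E8 := fun s (hs : s ∈ Ioo (-ε) ε) => E3 (show (x, s) ∈ O2 ×ˢ I from ⟨k3, (E5 s hs).2⟩)
  have hx0 : α (x, 0) = x := (E8 0 m0).2.1
  have d1 := fun s (hs : s ∈ Ioo (-ε) ε) => (HasFDerivAt.comp_hasDerivAt (f := c) s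
    (hu.deriv eb (E5 s hs).1.1.1) (E5 s hs).1.2).sub
    (HasFDerivAt.comp_hasDerivAt (f := fun s => α (x, s)) s (hu.deriv eb (E8 s hs).1.1)
      (E8 s hs).2.2)
  have d2 : ∀ s ∈ Ioo (-ε) ε, (cmap eb u (c s)).2 - (cmap eb u (α (x, s))).2 = 0 := fun s hs => by
    have := const_on_Ioo (f := fun s => (cmap eb u (c s)).2 - (cmap eb u (α (x, s))).2)
      (fun s hs => (hd_snd (d1 s hs)).congr_deriv (by
        have j1 := (S.st _ (E5 s hs).1.1.1).crd_snd eb r σ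
        have j2 := (S.st _ (E8 s hs).1.1).crd_snd eb 0 σ
        rw [zero_smul, zero_sub, ← neg_smul] at j2
        rw [Prod.snd_sub, j1, j2, sub_self])) m0 hs
    rw [this, hc0, hx0, n1 a k4, sub_self]
  have d3 := lin_ge (K := r / 2) (fun s hs => hd_fst (d1 s (sub hs))) (fun s hs => by
    have j1 := (E5 s (sub hs)).1.1.2.2.1
    have j2 := (E8 s (sub hs)).1.2.2.2.1
    simp only [Prod.fst_sub, crd, ContinuousLinearMap.prod_apply, innerSL_apply_apply]
    linarith) θ ⟨hθ1.le, le_rfl⟩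
  obtain ⟨s, hs, hs'⟩ := intermediate_value_Ioo hθ1.le
    (fun s hs => (hd_fst (d1 s (sub hs))).continuousAt.continuousWithinAt)
    (show (0 : ℝ) ∈ _ from ⟨by
      simp only [Pi.sub_apply, Function.comp, Prod.fst_sub, cmap, hc0, hx0]; linarith, by
      simp only [Pi.sub_apply, Function.comp, Prod.fst_sub, cmap, hc0, hx0] at d3 ⊢; linarith⟩)
  have hs1 := sub (Ioo_subset_Icc_self hs)
  have e1 : c s = α (x, s) := hinj (E5 s hs1).1.1.2.1 (E8 s hs1).1.2.1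
    (Prod.ext (sub_eq_zero.1 hs') (sub_eq_zero.1 (d2 s hs1)))
  have e2 : S.s x = γ a := (E7 a k4).2.1 (E7 a k4).1.1
  refine ⟨s, ⟨hs.1, hs.2.trans_le (min_le_right _ _)⟩, fun hne => ?_⟩
  have := sign_keep (f := fun s => D.lam (S.s (α (x, s)))) (m := fun s => m (S.s (α (x, s))))
    (fun s hs => lam_deriv hn (γ := fun s => S.s (α (x, s))) (S.st _ (E8 s (sub hs)).1.1)
      (S.deriv hn (c := fun s => α (x, s)) (E8 s (sub hs)).2.2 (E8 s (sub hs)).1.1))
    (fun s hs => (E8 s (sub hs)).1.2.2.2.2.le) (by simpa only [hx0, e2] using hne) s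
    (Ioo_subset_Icc_self hs)
  simpa only [hx0, e2, e1] using this

lemma freq_transfer {γ : ℝ → E × E × (ι → E)} {sb r σ : ℝ} (S : D.Sheet (γ sb)) (hr : 0 < r)
    (hγ : ∀ᶠ s in 𝓝 sb, D.IsSt (γ s) ∧ HasDerivAt γ (D.lift (γ s) (r • (γ s).2.1)) s)
    {c : ℝ → E} (hc0 : c 0 = (γ sb).1)
    (hc : ∀ᶠ s in 𝓝 0, HasDerivAt c (r • (S.s (c s)).2.1 - σ • qq (S.s (c s))) s) {k : ℝ}
    (h : ∃ᶠ s in 𝓝[>] sb, 0 < k * D.lam (γ s)) : ∃ᶠ s in 𝓝[>] 0, 0 < k * D.lam (S.s (c s)) := by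
  rw [(nhdsGT_basis (0 : ℝ)).frequently_iff]
  intro θ hθ
  obtain ⟨a, h1, s, hs, h2⟩ := (h.and_eventually (transfer hn S hr hγ hc0 hc hθ)).exists
  have h3 := h2 (by rintro h0; simp [h0] at h1)
  refine ⟨s, hs, ?_⟩
  by_contra hcon
  nlinarith [mul_pos h1 h3, mul_self_nonneg (D.lam (γ a))]

theorem final_geo {γ : ℝ → E × E × (ι → E)} {sb r σ : ℝ} (hσ : σ * σ = 1) (hr : ‖(γ sb).1‖ = r)
    (hγ : ∀ᶠ s in 𝓝 sb, D.IsSt (γ s) ∧ HasDerivAt γ (D.lift (γ s) (r • (γ s).2.1)) s)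
    {ξ : ℝ → E → E} (hξ : ∀ t x, x ≠ 0 → HasFDerivAt (ξ t) ((t * σ) • D.C x (ξ t x)) x ∧
      ξ t x ≠ 0 ∧ ⟪ξ t x, x⟫ ≤ ‖x‖ * r) (h0 : σ * (r * D.lam (γ sb)) = 0)
    (hp : ∃ᶠ s in 𝓝[>] sb, 0 < σ * (r * D.lam (γ s))) :
    Final (fun s => σ * (r * D.lam (γ s))) (fun t s => yy (ξ t) r (γ s))
      (fun t s => pp (ξ t) r (γ s)) (fun t s => QQ (ξ t) r (γ s)) sb := by
  have hb := hγ.self_of_nhds.1
  have hr0 : 0 < r := hr ▸ hb.norm_pos
  obtain ⟨S⟩ := hb.exists_sheet hn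
  set v : E × E × (ι → E) → E := fun z => r • z.2.1 - σ • qq z with hv
  have hvc : ContDiff ℝ 1 v := (contDiff_snd.fst.const_smul r).sub (contDiff_qq.const_smul σ)
  obtain ⟨r1, hr1, ε1, hε1, h⟩ := S.exists_curve hvc.contDiffAt
  obtain ⟨c, hc0, hc⟩ := h _ (mem_closedBall_self hr1.le)
  have hc' : ∀ᶠ s in 𝓝 0, HasDerivAt c (v (S.s (c s))) s :=
    mem_of_superset (Ioo_mem_nhds (by linarith) hε1) hc
  obtain ⟨ε, hε, E1⟩ := Metric.eventually_nhds_iff.1 (hc'.and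
    (hc'.self_of_nhds.continuousAt.eventually_mem (s := ball (γ sb).1 S.ρ)
      (by rw [hc0]; exact ball_mem_nhds _ S.pos)))
  have E2 := fun s (hs : s ∈ Ioo (-ε) ε) => E1 (y := s) (by simpa [abs_lt] using hs)
  set η : ℝ → E × E × (ι → E) := fun s => S.s (c s) with hη
  have hη0 : η 0 = γ sb := by simp only [hη, hc0, S.base]
  have hst : ∀ s ∈ Ioo (-ε) ε, D.IsSt (η s) := fun s hs => S.st _ (E2 s hs).2
  have hd : ∀ s ∈ Ioo (-ε) ε, HasDerivAt η (D.lift (η s) (v (η s))) s := fun s hs =>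
    S.deriv hn (E2 s hs).1 (E2 s hs).2
  have hnorm : ∀ s ∈ Ioo (-ε) ε, ‖(η s).1‖ = r := fun s hs => by
    have := const_on_Ioo (f := fun s => ‖(η s).1‖ ^ 2) (fun s hs =>
      (hd_fst (hd s hs)).norm_sq.congr_deriv (by
        simp only [lift, hv, inner_sub_right, real_inner_smul_right, (hst s hs).x_q]
        rw [real_inner_comm, (hst s hs).ex]; ring)) (s := 0) ⟨by linarith, hε⟩ hs
    simp only [hη0, hr] at this
    exact (pow_left_inj₀ (norm_nonneg _) hr0.le two_ne_zero).1 this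
  have sub : Icc 0 (ε / 2) ⊆ Ioo (-ε) ε := fun s hs => ⟨by linarith [hs.1], by linarith [hs.2]⟩
  obtain ⟨B, hB⟩ := isCompact_Icc.exists_bound_of_continuousOn
    (f := fun s => (r⁻¹ • qq (η s), D.gg (η s) (v (η s)))) (s := Icc 0 (ε / 2))
    fun s hs => (((contDiff_qq.continuous.continuousAt.comp
      (hd s (sub hs)).continuousAt).const_smul _).prodMk
      (((hst s (sub hs)).continuousAt_sum fun _ => hvc.continuous.continuousAt).comp
        (hd s (sub hs)).continuousAt)).continuousWithinAt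
  have hB0 : 0 < B + 1 := by linarith [(norm_nonneg _).trans (hB 0 ⟨le_rfl, by linarith⟩)]
  have hσ1 : |σ| = 1 := by
    have : |σ| * |σ| = 1 := by rw [← abs_mul, hσ, abs_one]
    nlinarith [abs_nonneg σ]
  have hfr : ∀ k, (∃ᶠ s in 𝓝[>] sb, 0 < k * D.lam (γ s)) → ∃ᶠ s in 𝓝[>] 0, 0 < k * D.lam (η s) :=
    fun k => freq_transfer hn S hr0 hγ hc0 hc'
  refine ⟨1 / (20 * (B + 1)), by positivity, fun δ hδ => ?_⟩
  filter_upwards [final_of_freq (lam := fun s => σ * (r * D.lam (η s))) hB0 (half_pos hε) hδ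
    (fun s hs => (((hst s (sub hs)).continuousAt_lam.comp
      (hd s (sub hs)).continuousAt).const_mul _).const_mul _) (by simpa only [hη0] using h0)
    (by simpa only [mul_assoc] using hfr (σ * r) (by simpa only [mul_assoc] using hp))]
    with t ht k1 k2 k3
  have hder := fun s (hs : s ∈ Icc 0 (ε / 2)) => comp_deriv hn (hst s (sub hs)) (hnorm s (sub hs))
    (hd s (sub hs)) (hξ t _ (hst s (sub hs)).ne).1
  have hw1 : ∀ s ∈ Icc 0 (ε / 2), |-σ / r * (⟪ξ t (η s).1, qq (η s)⟫ / r)| ≤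
      (B + 1) * √(QQ (ξ t) r (η s)) := fun s hs => by
    have j1 := (hst s (sub hs)).inner_le hn (ξ t) fun _ => 1
    have j2 := (norm_fst_le _).trans (hB s hs)
    simp only [one_smul, hnorm s (sub hs), norm_smul, Real.norm_eq_abs, abs_inv,
      abs_of_pos hr0] at j1 j2
    rw [abs_mul, abs_div, abs_neg, hσ1, abs_of_pos hr0, one_div]
    refine (mul_le_mul_of_nonneg_left j1 (by positivity)).trans ?_
    rw [← mul_assoc]
    exact mul_le_mul_of_nonneg_right (j2.trans (by linarith)) (Real.sqrt_nonneg _)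
  have hw2 : ∀ s ∈ Icc 0 (ε / 2), |-(⟪ξ t (η s).1, D.gg (η s) (v (η s))⟫ / r)| ≤
      (B + 1) * √(QQ (ξ t) r (η s)) := fun s hs => by
    have j1 := (hst s (sub hs)).inner_le hn (ξ t) fun j =>
      ⟪D.K (η s).1 (v (η s)) ((η s).2.2 j) ((η s).2.2 j), (η s).2.1⟫ / ‖(η s).2.2 j‖ ^ 2
    have j2 := (norm_snd_le _).trans (hB s hs)
    rw [hnorm s (sub hs)] at j1
    rw [abs_neg]
    exact j1.trans (mul_le_mul_of_nonneg_right (j2.trans (by linarith)) (Real.sqrt_nonneg _))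
  refine ht (fun s => yy (ξ t) r (η s)) (fun s => pp (ξ t) r (η s)) (fun s => QQ (ξ t) r (η s))
    _ _ _ ⟨fun s hs => (hder s hs).1, fun s hs => (hder s hs).2.1.congr_deriv (by ring),
      fun s hs => (hder s hs).2.2, hw1, hw2, fun s hs => ?_, fun s hs => ?_,
      fun s hs => QQ_pos hr0 (hξ t _ (hst s (sub hs)).ne).2.1,
      fun s hs => yy_le hr0 (hξ t _ (hst s (sub hs)).ne).2.2 (hnorm s (sub hs))⟩
    (by simpa only [hη0] using k1) (by simpa only [hη0] using k2) ?_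
  · have j1 := hw1 s hs
    have j2 := hw2 s hs
    rw [mul_assoc t σ σ, hσ, mul_one]
    set w1 := -σ / r * (⟪ξ t (η s).1, qq (η s)⟫ / r)
    set w2 := -(⟪ξ t (η s).1, D.gg (η s) (v (η s))⟫ / r)
    have j3 := neg_abs_le (yy (ξ t) r (η s) * w1)
    have j4 := neg_abs_le (pp (ξ t) r (η s) * w2)
    rw [abs_mul] at j3 j4
    nlinarith [mul_le_mul_of_nonneg_left j1 (abs_nonneg (yy (ξ t) r (η s))),
      mul_le_mul_of_nonneg_left j2 (abs_nonneg (pp (ξ t) r (η s)))]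
  · rw [← hnorm s (sub hs), (hst s (sub hs)).QQ_eq hn]; positivity
  · refine k3.imp (by simpa only [hη0] using id) fun k => ?_
    have := hfr (-(σ * r)) (k.mono fun s hs => by linarith)
    exact this.mono fun s hs => by linarith

end CoreData

end Pool.Agent.Lib.MP_7dd29b_gt
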