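import Pool.Agent.Lib.MP_7dd29b_gt.GeoChart

/-! Recurrence forces a sign pattern along some orbit. -/

set_option autoImplicit false
set_option maxSynthPendingDepth 3

open Set Filter Topology Metric MeasureTheory
open scoped RealInnerProductSpace

namespace Pool.Agent.Lib.MP_7dd29b_gt

variable {E : Type*} [NormedAddCommGroup E] [InnerProductSpace ℝ E] {ι : Type*} [Fintype ι]

namespace CoreData

variable {D : CoreData E} {φ : E × E × (ι → E) → ℝ → E × E × (ι → E)}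

lemma flow_norm (hφ : IsFlow D.V {z | D.IsSt z} φ) {z : E × E × (ι → E)} (hz : D.IsSt z) (t : ℝ) :
    ‖(φ z t).1‖ = ‖z.1‖ := by
  have := const_on_Ioo (a := -(|t| + 1)) (c := |t| + 1)
    (fun t _ => IsSt.deriv_norm_x (hφ.mem z hz t) (hφ.deriv z hz t))
    (s := 0) (t := t) (abs_lt.1 (by simpa using by positivity)) (abs_lt.1 (by linarith))
  rw [hφ.zero z hz] at this
  exact (pow_left_inj₀ (norm_nonneg _) (norm_nonneg _) two_ne_zero).1 this

variable [FiniteDimensional ℝ E] (hn : Module.finrank ℝ E = Fintype.card ι + 2)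
include hn

theorem exists_pattern (hφ : IsFlow D.V {z | D.IsSt z} φ) {z0 : E × E × (ι → E)}
    (h0 : D.IsSt z0) (hl : 0 < D.lam z0) : ∃ z, D.IsSt z ∧ 0 < D.lam z ∧
      (∃ t < 0, D.lam (φ z t) < 0) ∧ ∃ t > 0, D.lam (φ z t) < 0 := by
  by_contra hcon
  obtain ⟨η, hη⟩ := D.N_surj _ h0.ne z0.2.1
  set Ψ : E × E × (ι → E) → ℝ := fun z => ‖D.N z.1 η‖ ^ 2 with hΨ
  have hΨc : ∀ z, D.IsSt z → ContinuousAt Ψ z := fun z hz =>
    (((D.N_deriv _ hz.ne η).continuousAt.comp continuousAt_fst).norm).pow 2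
  have hΨd : ∀ z, D.IsSt z → ∀ t, HasDerivAt (fun t => Ψ (φ z t))
      (2 * (wt (φ z t) * ‖(φ z t).1‖) * D.lam (φ z t) * ⟪(φ z t).2.1, D.N (φ z t).1 η⟫ ^ 2) t := by
    intro z hz t
    have h1 : D.IsSt (φ z t) := hφ.mem z hz t
    refine ((D.N_deriv _ h1.ne η).comp_hasDerivAt t (hd_fst (hφ.deriv z hz t))).norm_sq.congr_deriv ?_
    simp only [V, lift, vel, map_smul, Function.comp, D.comm _ h1.ne _ (φ z t).2.1, h1.eig hn,
      real_inner_smul_right]
    rw [real_inner_comm]; ring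
  have hmono : ∀ z, D.IsSt z → ∀ I : Set ℝ, Convex ℝ I → (∀ t ∈ I, 0 ≤ D.lam (φ z t)) →
      MonotoneOn (fun t => Ψ (φ z t)) I := fun z hz I hI h =>
    monotoneOn_of_deriv_nonneg hI (fun t _ => (hΨd z hz t).continuousAt.continuousWithinAt)
      (fun t _ => (hΨd z hz t).differentiableAt.differentiableWithinAt) fun t ht => by
        rw [(hΨd z hz t).deriv]
        have := h t (interior_subset ht)
        have := IsSt.wt_pos (hφ.mem z hz t)
        positivity
  obtain ⟨τ, hτ, k1, k2⟩ : ∃ τ > 0, Ψ z0 < Ψ (φ z0 τ) ∧ Ψ (φ z0 (-τ)) < Ψ z0 := by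
    have h1 := (hasDerivAt_iff_tendsto_slope_zero.1 (hΨd z0 h0 0)).eventually (lt_mem_nhds
      (show 0 < _ by
        rw [hφ.zero z0 h0, hη, h0.ee]
        have := h0.wt_pos
        have := h0.norm_pos
        positivity))
    rw [eventually_nhdsWithin_iff] at h1
    obtain ⟨ε, hε, h2⟩ := Metric.eventually_nhds_iff.1 h1
    have h3 := h2 (y := ε / 2) (by simp [abs_of_pos hε]; linarith) (by simp [hε.ne'])
    have h4 := h2 (y := -(ε / 2)) (by simp [abs_of_pos hε]; linarith) (by simp [hε.ne'])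
    simp only [zero_add, hφ.zero z0 h0, smul_eq_mul] at h3 h4
    refine ⟨ε / 2, half_pos hε, ?_, ?_⟩
    · exact sub_pos.1 ((mul_pos_iff_of_pos_left (by positivity)).1 h3)
    · have : (-(ε / 2))⁻¹ < 0 := by rw [inv_lt_zero]; linarith
      nlinarith
  obtain ⟨c1, a1, a2⟩ := exists_between k1
  obtain ⟨c2, a3, a4⟩ := exists_between k2
  have hct : ∀ t, ContinuousWithinAt (fun z => Ψ (φ z t)) {z | D.IsSt z} z0 := fun t =>
    (hΨc _ (hφ.mem z0 h0 t)).comp_continuousWithinAt (f := fun z => φ z t) (hφ.cont_time t z0 h0)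
  have n1 := (hct τ).eventually (lt_mem_nhds a2)
  have n2 := (hct (-τ)).eventually (gt_mem_nhds a3)
  rw [eventually_nhdsWithin_iff] at n1 n2
  have n3 := (n1.and n2).and (((hΨc z0 h0).eventually (gt_mem_nhds a1)).and
    (((hΨc z0 h0).eventually (lt_mem_nhds a4)).and (h0.continuousAt_lam.eventually (lt_mem_nhds hl))))
  obtain ⟨S⟩ := h0.exists_sheet hn
  have n4 := (S.smooth _ (mem_ball_self S.pos)).continuousAt.eventually (S.base.symm ▸ n3)
  obtain ⟨ρ, hρ, n5⟩ := Metric.nhds_basis_closedBall.mem_iff.1 (n4.and (ball_mem_nhds z0.1 S.pos))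
  set W := S.s '' closedBall z0.1 ρ with hW
  have hWc : IsCompact W := (isCompact_closedBall _ _).image_of_continuousOn fun x hx =>
    (S.smooth x (n5 hx).2).continuousAt.continuousWithinAt
  have hWΩ : W ⊆ {z | D.IsSt z} := by rintro _ ⟨x, hx, rfl⟩; exact S.st x (n5 hx).2
  have hWp : ∀ z ∈ W, c1 < Ψ (φ z τ) ∧ Ψ (φ z (-τ)) < c2 ∧ Ψ z < c1 ∧ c2 < Ψ z ∧ 0 < D.lam z := by
    rintro _ ⟨x, hx, rfl⟩
    have := S.st x (n5 hx).2
    exact ⟨(n5 hx).1.1.1 this, (n5 hx).1.1.2 this, (n5 hx).1.2⟩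
  have hcl : ∀ I : Set ℝ, IsCompact (W ∩ ⋂ t ∈ I, (W ∩ (fun z => D.lam (φ z t)) ⁻¹' Ici 0)) :=
    fun I => hWc.inter_right (isClosed_biInter fun t _ =>
      ContinuousOn.preimage_isClosed_of_isClosed (fun z hz =>
        (IsSt.continuousAt_lam (hφ.mem z (hWΩ hz) t)).comp_continuousWithinAt (f := fun z => φ z t)
          ((hφ.cont_time t z (hWΩ hz)).mono hWΩ)) hWc.isClosed isClosed_Ici)
  obtain ⟨A, hA⟩ := exists_goodEquiv (E := E) (κ := Option ι) (by simp [hn])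
  set π := (A : E →L[ℝ] ℝ × (Option ι → ℝ)) ∘L ContinuousLinearMap.fst ℝ E (E × (ι → E)) with hπ
  borelize (E × E × (ι → E))
  have hw : ∀ (W' : Set (E × E × (ι → E))) (σ : ℝ), IsCompact W' → W' ⊆ W →
      (∀ z ∈ W', ∀ k : ℕ, φ z ((k + 1) * σ) ∉ W') → (volume.prod volume) (π '' W') = 0 := by
    intro W' σ h1 h2 h3
    refine wandering volume hφ (fun z hz => IsSt.exists_chart hn hz hA)
      (M := 2 * Module.finrank ℝ E ^ Fintype.card ι) (fun x => ?_) h1 (h2.trans hWΩ) h3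
      ((isCompact_closedBall (0 : E) (‖z0.1‖ + ρ)).image A.continuous) fun z hz t => ?_
    · refine le_trans (encard_le_encard fun z hz => ?_) (D.fiber_le hn (A.symm x))
      exact ⟨hz.1, by rw [ContinuousLinearEquiv.eq_symm_apply]; exact hz.2⟩
    · refine ⟨(φ z t).1, ?_, rfl⟩
      rw [mem_closedBall_zero_iff, flow_norm hφ (hWΩ (h2 hz))]
      obtain ⟨x, hx, rfl⟩ := h2 hz
      rw [S.proj x (n5 hx).2]
      exact norm_le_of_mem_closedBall hx
  have b1 := hw _ τ (hcl (Ici 0)) inter_subset_left fun z hz k hk => by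
    have hz' := mem_iInter₂.1 hz.2
    have := hmono z (hWΩ hz.1) _ (convex_Ici 0) (fun t ht => (hz' t ht).2) hτ.le
      (show 0 ≤ ((k : ℝ) + 1) * τ by positivity) (by nlinarith [Nat.cast_nonneg (α := ℝ) k])
    linarith [(hWp z hz.1).1, (hWp _ hk.1).2.2.1]
  have b2 := hw _ (-τ) (hcl (Iic 0)) inter_subset_left fun z hz k hk => by
    have hz' := mem_iInter₂.1 hz.2
    have := hmono z (hWΩ hz.1) _ (convex_Iic 0) (fun t ht => (hz' t ht).2)
      (show ((k : ℝ) + 1) * (-τ) ≤ 0 by nlinarith [Nat.cast_nonneg (α := ℝ) k])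
      (show -τ ≤ 0 by linarith) (by nlinarith [Nat.cast_nonneg (α := ℝ) k])
    linarith [(hWp z hz.1).2.1, (hWp _ hk.1).2.2.2.1]
  have b3 : A '' ball z0.1 ρ ⊆ π '' (W ∩ ⋂ t ∈ Ici 0, (W ∩ (fun z => D.lam (φ z t)) ⁻¹' Ici 0)) ∪
      π '' (W ∩ ⋂ t ∈ Iic 0, (W ∩ (fun z => D.lam (φ z t)) ⁻¹' Ici 0)) := by
    rintro _ ⟨x, hx, rfl⟩
    have hx' := ball_subset_closedBall hx
    have hz : S.s x ∈ W := ⟨x, hx', rfl⟩
    have e : π (S.s x) = A x := by simp [hπ, S.proj x (n5 hx').2]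
    have hp := (hWp _ hz).2.2.2.2
    have hz0 := hφ.zero _ (hWΩ hz)
    by_contra hc
    rw [mem_union, not_or] at hc
    refine hcon ⟨S.s x, hWΩ hz, hp, ?_, ?_⟩
    · by_contra h
      push Not at h
      refine hc.2 ⟨_, ⟨hz, mem_iInter₂.2 fun t ht => ⟨hz, ?_⟩⟩, e⟩
      rcases (show t ≤ 0 from ht).lt_or_eq with h' | rfl
      · exact h t h'
      · simpa [hz0] using hp.le
    · by_contra h
      push Not at h
      refine hc.1 ⟨_, ⟨hz, mem_iInter₂.2 fun t ht => ⟨hz, ?_⟩⟩, e⟩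
      rcases (show 0 ≤ t from ht).lt_or_eq with h' | rfl
      · exact h t h'
      · simpa [hz0] using hp.le
  have b4 := (measure_mono (μ := volume.prod volume) b3).trans (measure_union_le _ _)
  rw [b1, b2, add_zero] at b4
  exact absurd b4 (not_le.2 ((A.isOpenMap _ isOpen_ball).measure_pos _
    ((nonempty_ball.2 hρ).image _)))

end CoreData

end Pool.Agent.Lib.MP_7dd29b_gt
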