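import Pool.Agent.Lib.MP_7dd29b_gt.State

/-! Local smooth sheets of frames and their potentials. -/

set_option autoImplicit false
set_option maxSynthPendingDepth 3

open Set Filter Topology Metric
open scoped RealInnerProductSpace

namespace Pool.Agent.Lib.MP_7dd29b_gt

variable {E : Type*} [NormedAddCommGroup E] [InnerProductSpace ℝ E] {ι : Type*} [Fintype ι]

lemma prim_of_near {C C0 : E →L[ℝ] E →L[ℝ] E} (hA : Alg C) {p p0 : E} (h0 : Prim C0 p0)
    (hp : C p p = p) (h1 : ‖C p - C0 p0‖ < 1) (h2 : 0 < ⟪p0, p⟫) : Prim C p := by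
  have hp0 : p ≠ 0 := by rintro rfl; simp at h2
  have hn : 0 < ‖p‖ := norm_pos_iff.2 hp0
  refine ⟨hp0, fun v => ?_⟩
  set w := C p (v - (⟪p, v⟫ / ‖p‖ ^ 2) • p) with hw
  have k1 : C p w = w := by rw [hw, ← hA.assoc, hp]
  have k2 : ⟪p, w⟫ = 0 := by
    rw [hw, ← hA.selfadj, hp, inner_sub_right, real_inner_smul_right, real_inner_self_eq_norm_sq,
      div_mul_cancel₀ _ (pow_ne_zero 2 hn.ne'), sub_self]
  set a := ⟪p0, p⟫ • w - ⟪p0, w⟫ • p with ha
  have k3 : (C p - C0 p0) a = a := by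
    rw [sub_apply, h0.mul_zero' (by
      rw [ha, inner_sub_right, real_inner_smul_right, real_inner_smul_right]; ring), sub_zero, ha,
      map_sub, map_smul, map_smul, k1, hp]
  have k4 : a = 0 := by
    by_contra hne
    have := (C p - C0 p0).le_opNorm a
    rw [k3] at this
    nlinarith [norm_pos_iff.2 hne]
  have k5 : ⟪a, w⟫ = 0 := by rw [k4, inner_zero_left]
  rw [ha, inner_sub_left, real_inner_smul_left, real_inner_smul_left, k2, mul_zero, sub_zero] at k5
  have k6 : w = 0 := inner_self_eq_zero.1 ((mul_eq_zero.1 k5).resolve_left h2.ne')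
  rw [hw, map_sub, map_smul, hp, sub_eq_zero] at k6
  exact k6

namespace CoreData

variable (D : CoreData E) [FiniteDimensional ℝ E]

lemma exists_prim_field {x0 p0 : E} (hx : x0 ≠ 0) (hp : Prim (D.C x0) p0) :
    ∃ p : E → E, ContDiffAt ℝ 1 p x0 ∧ p x0 = p0 ∧ ∀ᶠ x in 𝓝 x0, Prim (D.C x) (p x) := by
  have hA := D.alg hx
  set f : E × E → E := fun u => D.C u.1 u.2 u.2 - u.2 with hf
  have hC : ContDiffAt ℝ 1 (fun u : E × E => D.C u.1) (x0, p0) :=
    ((D.smooth x0 hx).of_le (by norm_num)).comp (x0, p0) contDiffAt_fst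
  have cdf : ContDiffAt ℝ 1 f (x0, p0) :=
    ((hC.clm_apply contDiffAt_snd).clm_apply contDiffAt_snd).sub contDiffAt_snd
  have hd : ∀ v, (fderiv ℝ f (x0, p0) ∘L .inr ℝ E E) v = (2 : ℝ) • D.C x0 p0 v - v := fun v => by
    have h1 : HasDerivAt (fun s : ℝ => ((x0, p0 + s • v) : E × E)) (0, v) 0 :=
      (hasDerivAt_const 0 x0).prodMk (line_deriv p0 v 0)
    have h2 : HasFDerivAt f (fderiv ℝ f (x0, p0)) (x0, p0 + (0 : ℝ) • v) := by
      simpa using (cdf.differentiableAt one_ne_zero).hasFDerivAt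
    have h3 := (((hasDerivAt_const (0 : ℝ) (D.C x0)).clm_apply (line_deriv p0 v 0)).clm_apply
      (line_deriv p0 v 0)).sub (line_deriv p0 v 0)
    have h4 := (HasFDerivAt.comp_hasDerivAt (f := fun s : ℝ => ((x0, p0 + s • v) : E × E))
      (0 : ℝ) h2 h1).unique h3
    simp only [zero_smul, add_zero, zero_apply, zero_add] at h4
    simp only [ContinuousLinearMap.comp_apply, ContinuousLinearMap.inr_apply, h4, two_smul,
      hA.comm v p0]
  have hinv : (fderiv ℝ f (x0, p0) ∘L .inr ℝ E E).IsInvertible := by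
    have h1 : (fderiv ℝ f (x0, p0) ∘L .inr ℝ E E) ∘L (fderiv ℝ f (x0, p0) ∘L .inr ℝ E E) =
        ContinuousLinearMap.id ℝ E := by
      ext v
      rw [ContinuousLinearMap.comp_apply, hd, hd]
      simp only [map_sub, map_add, ← hA.assoc, hp.idem, two_smul, ContinuousLinearMap.id_apply]
      abel
    exact .of_inverse h1 h1
  have k1 := cdf.contDiffAt_implicitFunction one_ne_zero hinv
  have k2 := cdf.implicitFunction_apply_self one_ne_zero hinv
  have k3 := cdf.eventually_apply_implicitFunction one_ne_zero hinv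
  set p := cdf.implicitFunction one_ne_zero hinv with hpdef
  simp only at k1 k2 k3
  refine ⟨p, k1, k2, ?_⟩
  have c1 : ContinuousAt (fun x => ‖D.C x (p x) - D.C x0 p0‖) x0 :=
    (((D.smooth x0 hx).continuousAt.clm_apply k1.continuousAt).sub continuousAt_const).norm
  have c2 : ContinuousAt (fun x => ⟪p0, p x⟫) x0 := continuousAt_const.inner k1.continuousAt
  filter_upwards [k3, c1.eventually (gt_mem_nhds (show _ < (1 : ℝ) by simp [k2])),
    c2.eventually (lt_mem_nhds (show (0 : ℝ) < _ by simpa [k2] using pow_pos hp.norm_pos 2)),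
    isOpen_ne.mem_nhds hx] with x h1 h2 h3 h4
  refine prim_of_near (D.alg h4) hp ?_ h2 h3
  simpa only [hf, hp.idem, sub_self, sub_eq_zero] using h1

structure Sheet (z0 : E × E × (ι → E)) where
  s : E → E × E × (ι → E)
  ρ : ℝ
  pos : 0 < ρ
  base : s z0.1 = z0
  smooth : ∀ x ∈ ball z0.1 ρ, ContDiffAt ℝ 1 s x
  proj : ∀ x ∈ ball z0.1 ρ, (s x).1 = x
  st : ∀ x ∈ ball z0.1 ρ, D.IsSt (s x)
  near : ∀ᶠ z in 𝓝 z0, D.IsSt z → s z.1 = z

variable {D} (hn : Module.finrank ℝ E = Fintype.card ι + 2) {z0 : E × E × (ι → E)}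
include hn

lemma IsSt.e_eq {z y : E × E × (ι → E)} (hz : D.IsSt z) (hy : D.IsSt y) (h1 : y.1 = z.1)
    (h2 : y.2.2 = z.2.2) : y.2.1 = ⟪y.2.1, z.2.1⟫ • z.2.1 ∧ |⟪y.2.1, z.2.1⟫| = 1 := by
  set c := ⟪y.2.1, z.2.1⟫ with hc
  have e2 : y.2.1 - c • z.2.1 = 0 := by
    refine hz.eq_zero hn ?_ ?_ fun j => ?_
    · rw [real_inner_comm, inner_sub_left, real_inner_smul_left, hz.ex, ← h1, hy.ex]; simp
    · rw [inner_sub_right, real_inner_smul_right, hz.ee, real_inner_comm]; simp [hc]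
    · rw [inner_sub_right, real_inner_smul_right, hz.pe, ← h2, hy.pe]; simp
  rw [sub_eq_zero] at e2
  have e3 := hy.unit
  rw [e2, norm_smul, hz.unit, mul_one, Real.norm_eq_abs] at e3
  exact ⟨e2, e3⟩

lemma IsSt.exists_sheet (h : D.IsSt z0) : Nonempty (D.Sheet z0) := by
  obtain ⟨x0, e0, p0⟩ := z0
  have hx : x0 ≠ 0 := h.ne
  choose p hp1 hp2 hp3 using fun j => D.exists_prim_field hx (h.prim j)
  simp only at hp2
  set a : E → E := fun x => e0 - (⟪x, e0⟫ / ‖x‖ ^ 2) • x -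
    ∑ j, (⟪p j x, e0⟫ / ‖p j x‖ ^ 2) • p j x with ha
  have ha0 : a x0 = e0 := by
    have h1 : ⟪x0, e0⟫ = 0 := by rw [real_inner_comm]; exact h.ex
    have h2 : ∀ j, ⟪p0 j, e0⟫ = 0 := h.pe
    simp [ha, hp2, h1, h2]
  have he0 : ‖e0‖ = 1 := h.unit
  have hac : ContDiffAt ℝ 1 a x0 := by
    refine (contDiffAt_const.sub (ContDiffAt.smul ?_ contDiffAt_id)).sub
      (ContDiffAt.sum fun j _ => ContDiffAt.smul ?_ (hp1 j))
    · exact (contDiffAt_id.inner ℝ contDiffAt_const).div (contDiffAt_id.norm_sq ℝ)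
        (pow_ne_zero 2 (norm_ne_zero_iff.2 hx))
    · refine ((hp1 j).inner ℝ contDiffAt_const).div ((hp1 j).norm_sq ℝ) ?_
      rw [hp2]; exact pow_ne_zero 2 (h.prim j).norm_pos.ne'
  have ha1 : a x0 ≠ 0 := by rw [ha0]; exact norm_pos_iff.1 (by simp [he0])
  set s : E → E × E × (ι → E) := fun x => (x, ‖a x‖⁻¹ • a x, fun j => p j x) with hs
  have hs0 : s x0 = (x0, e0, p0) := by simp [hs, ha0, he0, hp2]
  have hsc : ContDiffAt ℝ 1 s x0 :=
    contDiffAt_id.prodMk ((((hac.norm ℝ ha1).inv (norm_ne_zero_iff.2 ha1)).smul hac).prodMk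
      (contDiffAt_pi.2 hp1))
  have hne : ∀ᶠ x in 𝓝 x0, ∀ i j, i ≠ j → p i x ≠ p j x := by
    simp only [eventually_all]
    intro i j hij
    have h1 : p i x0 - p j x0 ≠ 0 := by
      rw [hp2, hp2, sub_ne_zero]
      intro h2
      have := h.pp hij
      simp only at this
      rw [h2] at this
      exact (h.prim j).1 (inner_self_eq_zero.1 this)
    filter_upwards [((hp1 i).continuousAt.sub (hp1 j).continuousAt).eventually_ne h1] with x hx
    exact sub_ne_zero.1 hx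
  have hst : ∀ᶠ x in 𝓝 x0, D.IsSt (s x) := by
    filter_upwards [eventually_all.2 hp3, hne, isOpen_ne.mem_nhds hx,
      hac.continuousAt.eventually_ne ha1] with x k1 k2 k3 k4
    have k5 : Pairwise fun i j => ⟪p i x, p j x⟫ = 0 := fun i j hij =>
      (k1 i).orth (D.alg k3) (k1 j) (k2 i j hij)
    have k6 : ∀ j, ⟪p j x, x⟫ = 0 := fun j => D.prim_orth_x k3 (k1 j)
    refine ⟨k3, by simp [hs, norm_smul, k4], ?_, k1, fun j => ?_, k5⟩
    · simp only [hs]
      rw [real_inner_smul_left, mul_eq_zero, real_inner_comm]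
      right
      simp only [ha]
      rw [inner_sub_right, inner_sub_right, inner_sum_zero k6, real_inner_smul_right, real_inner_self_eq_norm_sq,
        div_mul_cancel₀ _ (pow_ne_zero 2 (norm_ne_zero_iff.2 k3))]
      simp
    · simp only [hs]
      rw [real_inner_smul_right, mul_eq_zero]
      right
      simp only [ha]
      rw [inner_sub_right, inner_sub_right, real_inner_smul_right, k6,
        _root_.inner_sum, Finset.sum_eq_single j, real_inner_smul_right, real_inner_self_eq_norm_sq,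
        div_mul_cancel₀ _ (pow_ne_zero 2 (k1 j).norm_pos.ne')]
      · simp
      · intro i _ hi
        rw [real_inner_smul_right, k5 hi.symm, mul_zero]
      · simp
  obtain ⟨ρ, hρ, hb⟩ := Metric.eventually_nhds_iff_ball.1 ((hsc.eventually (by simp)).and hst)
  refine ⟨⟨s, ρ, hρ, hs0, fun x hx => (hb x hx).1, fun x _ => rfl, fun x hx => (hb x hx).2, ?_⟩⟩
  have c0 : ContinuousAt (fun z : E × E × (ι → E) => s z.1) (x0, e0, p0) :=
    ContinuousAt.comp (g := s) (f := Prod.fst) hsc.continuousAt continuousAt_fst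
  have c1 : ∀ j, ∀ᶠ z : E × E × (ι → E) in 𝓝 (x0, e0, p0), 0 < ⟪(s z.1).2.2 j, z.2.2 j⟫ := fun j => by
    refine ContinuousAt.eventually_lt continuousAt_const (ContinuousAt.inner ?_ (by fun_prop)) ?_
    · exact (continuous_apply j).continuousAt.comp c0.snd.snd
    · rw [hs0]; simpa using pow_pos (h.prim j).norm_pos 2
  have c2 : ∀ᶠ z : E × E × (ι → E) in 𝓝 (x0, e0, p0), 0 < ⟪(s z.1).2.1, z.2.1⟫ := by
    refine ContinuousAt.eventually_lt continuousAt_const (c0.snd.fst.inner (by fun_prop)) ?_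
    rw [hs0]; simp [he0]
  filter_upwards [eventually_all.2 c1, c2,
    (continuousAt_fst (p := (x0, e0, p0))).eventually hst] with z k1 k2 k3 hz
  have e1 : ∀ j, (s z.1).2.2 j = z.2.2 j := fun j => by
    by_contra hne
    exact (k1 j).ne' ((k3.prim j).orth (D.alg hz.ne) (hz.prim j) hne)
  refine Prod.ext rfl (Prod.ext ?_ (funext e1))
  obtain ⟨e2, e3⟩ := hz.e_eq hn k3 rfl (funext e1)
  rw [abs_of_pos k2] at e3
  rw [e2, e3, one_smul]

lemma Sheet.deriv (S : D.Sheet z0) {c : ℝ → E} {v : E} {t : ℝ} (hc : HasDerivAt c v t)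
    (ht : c t ∈ ball z0.1 S.ρ) : HasDerivAt (fun t => S.s (c t)) (D.lift (S.s (c t)) v) t := by
  have h1 := ((S.smooth _ ht).differentiableAt one_ne_zero).hasFDerivAt.comp_hasDerivAt t hc
  have h2 := hc.continuousAt.eventually_mem (isOpen_ball.mem_nhds ht)
  have h3 := deriv_eq_lift hn h1 (h2.mono fun s hs => S.st _ hs)
  have h4 := (hd_fst h1).unique (hc.congr_of_eventuallyEq (h2.mono fun s hs => S.proj _ hs))
  rw [h4] at h3
  rw [h3] at h1
  exact h1

omit hn [FiniteDimensional ℝ E] in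
lemma IsSt.deriv_norm_sq {γ : ℝ → E × E × (ι → E)} {v : E} {t : ℝ} (h : D.IsSt (γ t))
    (hγ : HasDerivAt γ (D.lift (γ t) v) t) (j : ι) : HasDerivAt (fun s => ‖(γ s).2.2 j‖ ^ 2)
      (-2 * ⟪(γ t).2.2 j, D.K (γ t).1 v ((γ t).2.2 j) ((γ t).2.2 j)⟫) t := by
  refine (hasDerivAt_pi.1 (hd_snd (hd_snd hγ)) j).norm_sq.congr_deriv ?_
  simp only [lift, inner_sub_right, real_inner_smul_right]
  rw [← (D.alg h.ne).selfadj, (h.prim j).idem]
  ring

omit hn [FiniteDimensional ℝ E] in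
lemma IsSt.deriv_dual {γ : ℝ → E × E × (ι → E)} {v : E} {t : ℝ} (h : D.IsSt (γ t))
    (hγ : HasDerivAt γ (D.lift (γ t) v) t) (j : ι) :
    HasDerivAt (fun s => (‖(γ s).2.2 j‖ ^ 2)⁻¹ • (γ s).2.2 j)
      ((‖(γ t).2.2 j‖ ^ 2)⁻¹ • D.K (γ t).1 v ((γ t).2.2 j) ((γ t).2.2 j)) t := by
  have h0 := (h.prim j).norm_pos
  refine (((h.deriv_norm_sq hγ j).fun_inv (by positivity)).fun_smul
    (hasDerivAt_pi.1 (hd_snd (hd_snd hγ)) j)).congr_deriv ?_
  simp only [lift, (h.prim j).2, smul_sub, smul_smul]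
  rw [sub_add, sub_eq_self, ← sub_smul]
  convert zero_smul ℝ _
  field_simp
  ring

lemma Sheet.exists_pot (S : D.Sheet z0) (j : ι) : ∃ u : E → ℝ, ∀ x ∈ ball z0.1 S.ρ,
    HasFDerivAt u (innerSL ℝ ((‖(S.s x).2.2 j‖ ^ 2)⁻¹ • (S.s x).2.2 j)) x := by
  have hq : ∀ x ∈ ball z0.1 S.ρ,
      DifferentiableAt ℝ (fun x => innerSL ℝ ((‖(S.s x).2.2 j‖ ^ 2)⁻¹ • (S.s x).2.2 j)) x :=
    fun x hx => by
      have h1 : ContDiffAt ℝ 1 (fun x => (S.s x).2.2 j) x := contDiffAt_pi.1 (S.smooth x hx).snd.snd j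
      exact (innerSL ℝ).differentiableAt.comp x ((((h1.norm_sq ℝ).inv
        (pow_ne_zero 2 ((S.st x hx).prim j).norm_pos.ne')).smul h1).differentiableAt one_ne_zero)
  refine (convex_ball _ _).exists_forall_hasFDerivAt_of_fderiv_symmetric isOpen_ball
    (fun x hx => (hq x hx).differentiableWithinAt) fun x hx => ?_
  have key : ∀ v w, fderiv ℝ (fun x => innerSL ℝ ((‖(S.s x).2.2 j‖ ^ 2)⁻¹ • (S.s x).2.2 j)) x v w =
      (‖(S.s x).2.2 j‖ ^ 2)⁻¹ * ⟪D.K x v ((S.s x).2.2 j) ((S.s x).2.2 j), w⟫ := fun v w => by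
    have hx' : x + (0 : ℝ) • v ∈ ball z0.1 S.ρ := by simpa using hx
    have h1 := ((hq _ hx').hasFDerivAt.comp_hasDerivAt 0 (line_deriv x v 0)).clm_apply
      (hasDerivAt_const 0 w)
    have h2 := ((S.st _ hx').deriv_dual (γ := fun t : ℝ => S.s (x + t • v))
      (S.deriv hn (line_deriv x v 0) hx') j).inner ℝ (hasDerivAt_const 0 w)
    have h3 := h1.unique h2
    simpa [S.proj x hx, real_inner_smul_left] using h3
  intro v w
  have hx0 : x ≠ 0 := S.proj x hx ▸ (S.st x hx).ne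
  rw [key, key, D.K34 hx0, D.K23 hx0, D.K12 hx0 v w, D.K23 hx0 w v, D.K34 hx0 w]

end CoreData

end Pool.Agent.Lib.MP_7dd29b_gt
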