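import Pool.Agent.Lib.MP_7dd29b_gt.Top

/-! Frames adapted to the product and their derivatives. -/

set_option autoImplicit false
set_option maxSynthPendingDepth 3

open Set Filter Topology
open scoped RealInnerProductSpace

namespace Pool.Agent.Lib.MP_7dd29b_gt

variable {E : Type*} [NormedAddCommGroup E] [InnerProductSpace ℝ E] {ι : Type*} [Fintype ι]

lemma hd_fst {A B : Type*} [NormedAddCommGroup A] [NormedSpace ℝ A] [NormedAddCommGroup B]
    [NormedSpace ℝ B] {γ : ℝ → A × B} {w : A × B} {t : ℝ} (h : HasDerivAt γ w t) :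
    HasDerivAt (fun s => (γ s).1) w.1 t :=
  (ContinuousLinearMap.fst ℝ A B).hasFDerivAt.comp_hasDerivAt t h

lemma hd_snd {A B : Type*} [NormedAddCommGroup A] [NormedSpace ℝ A] [NormedAddCommGroup B]
    [NormedSpace ℝ B] {γ : ℝ → A × B} {w : A × B} {t : ℝ} (h : HasDerivAt γ w t) :
    HasDerivAt (fun s => (γ s).2) w.2 t :=
  (ContinuousLinearMap.snd ℝ A B).hasFDerivAt.comp_hasDerivAt t h

namespace CoreData

variable (D : CoreData E)

structure IsSt (z : E × E × (ι → E)) : Prop where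
  ne : z.1 ≠ 0
  unit : ‖z.2.1‖ = 1
  ex : ⟪z.2.1, z.1⟫ = 0
  prim : ∀ j, Prim (D.C z.1) (z.2.2 j)
  pe : ∀ j, ⟪z.2.2 j, z.2.1⟫ = 0
  pp : Pairwise fun i j => ⟪z.2.2 i, z.2.2 j⟫ = 0

noncomputable def lam (z : E × E × (ι → E)) : ℝ := ⟪D.C z.1 z.2.1 z.2.1, z.2.1⟫

noncomputable def lift (z : E × E × (ι → E)) (v : E) : E × E × (ι → E) :=
  (v, -(⟪z.2.1, v⟫ / ‖z.1‖ ^ 2) • z.1 -
      ∑ j, (⟪D.K z.1 v (z.2.2 j) (z.2.2 j), z.2.1⟫ / ‖z.2.2 j‖ ^ 2) • z.2.2 j,
    fun j => D.K z.1 v (z.2.2 j) (z.2.2 j) -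
      (2 : ℝ) • D.C z.1 (z.2.2 j) (D.K z.1 v (z.2.2 j) (z.2.2 j)))

lemma lift_smul (z : E × E × (ι → E)) (v : E) (c : ℝ) : D.lift z (c • v) = c • D.lift z v := by
  refine Prod.ext rfl (Prod.ext ?_ (funext fun j => ?_))
  · simp only [lift, map_smul, smul_apply, real_inner_smul_left, real_inner_smul_right,
      Prod.smul_mk, smul_sub, Finset.smul_sum, smul_smul]
    congr 1
    · congr 1; ring
    · exact Finset.sum_congr rfl fun j _ => by congr 1; ring
  · simp only [lift, map_smul, smul_apply, Prod.smul_mk, smul_sub, smul_smul, Pi.smul_apply,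
      mul_comm]

variable {D} {z : E × E × (ι → E)}

omit [Fintype ι] in
lemma IsSt.px (h : D.IsSt z) (j : ι) : ⟪z.2.2 j, z.1⟫ = 0 := D.prim_orth_x h.ne (h.prim j)

omit [Fintype ι] in
lemma IsSt.ee (h : D.IsSt z) : ⟪z.2.1, z.2.1⟫ = 1 := by
  rw [real_inner_self_eq_norm_sq, h.unit]; norm_num

omit [Fintype ι] in
lemma IsSt.norm_pos (h : D.IsSt z) : 0 < ‖z.1‖ := norm_pos_iff.2 h.ne

lemma IsSt.inner_sum (h : D.IsSt z) (c : ι → ℝ) (i : ι) :
    ⟪z.2.2 i, ∑ j, (c j / ‖z.2.2 j‖ ^ 2) • z.2.2 j⟫ = c i := by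
  rw [_root_.inner_sum, Finset.sum_eq_single i]
  · rw [real_inner_smul_right, real_inner_self_eq_norm_sq,
      div_mul_cancel₀ _ (pow_ne_zero 2 (h.prim i).norm_pos.ne')]
  · intro j _ hj
    rw [real_inner_smul_right, h.pp hj.symm, mul_zero]
  · simp

lemma inner_sum_zero {p : ι → E} {v : E} (h : ∀ j, ⟪p j, v⟫ = 0) (c : ι → ℝ) :
    ⟪v, ∑ j, c j • p j⟫ = 0 := by
  rw [_root_.inner_sum]
  exact Finset.sum_eq_zero fun j _ => by rw [real_inner_smul_right, real_inner_comm, h j, mul_zero]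

variable [FiniteDimensional ℝ E] (hn : Module.finrank ℝ E = Fintype.card ι + 2)
include hn

lemma IsSt.eq_zero (h : D.IsSt z) {v : E} (h1 : ⟪z.1, v⟫ = 0) (h2 : ⟪z.2.1, v⟫ = 0)
    (h3 : ∀ j, ⟪z.2.2 j, v⟫ = 0) : v = 0 := by
  refine eq_zero_of_orth (κ := Option (Option ι)) (fun o => o.elim z.1 fun o => o.elim z.2.1 z.2.2)
    ?_ ?_ (by simp [hn]) ?_
  · rintro (_ | _ | j)
    · exact h.ne
    · exact norm_pos_iff.1 (by simp [h.unit])
    · exact (h.prim j).1
  · rintro (_ | _ | i) (_ | _ | j) hij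
    · exact absurd rfl hij
    · simpa [real_inner_comm] using h.ex
    · simpa [real_inner_comm] using h.px j
    · simpa using h.ex
    · exact absurd rfl hij
    · simpa [real_inner_comm] using h.pe j
    · simpa using h.px i
    · simpa using h.pe i
    · exact h.pp (by simpa using hij)
  · rintro (_ | _ | j)
    · exact h1
    · exact h2
    · exact h3 j

lemma IsSt.eig (h : D.IsSt z) (v : E) : D.C z.1 z.2.1 v = (D.lam z * ⟪z.2.1, v⟫) • z.2.1 := by
  have hA := D.alg h.ne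
  have key : ∀ v c, ⟪z.2.1, D.C z.1 z.2.1 v⟫ = c → D.C z.1 z.2.1 v = c • z.2.1 := fun v c hc => by
    rw [← sub_eq_zero]
    refine h.eq_zero hn ?_ ?_ fun j => ?_
    · rw [inner_sub_right, ← hA.selfadj, hA.comm, D.euler _ h.ne, real_inner_smul_right,
        real_inner_comm z.2.1 z.1, h.ex]; simp
    · rw [inner_sub_right, hc, real_inner_smul_right, h.ee]; simp
    · rw [inner_sub_right, ← hA.selfadj, hA.comm, (h.prim j).mul_zero' (h.pe j),
        real_inner_smul_right, h.pe]; simp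
  have h1 := key z.2.1 (D.lam z) (real_inner_comm _ _)
  exact key v _ (by rw [← hA.selfadj, h1, real_inner_smul_left])

lemma IsSt.eig' (h : D.IsSt z) : D.C z.1 z.2.1 z.2.1 = D.lam z • z.2.1 := by
  rw [h.eig hn, h.ee, mul_one]

/-- the derivative of a curve of frames is determined by the velocity of the base point -/
lemma deriv_eq_lift {γ : ℝ → E × E × (ι → E)} {w : E × E × (ι → E)} {t : ℝ}
    (hγ : HasDerivAt γ w t) (hst : ∀ᶠ s in 𝓝 t, D.IsSt (γ s)) : w = D.lift (γ t) w.1 := by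
  have h := hst.self_of_nhds
  have hA := D.alg h.ne
  have dx := hd_fst hγ
  have de := hd_fst (hd_snd hγ)
  have d3 := hd_snd (hd_snd hγ)
  have dp : ∀ j, HasDerivAt (fun s => (γ s).2.2 j) (w.2.2 j) t := fun j => hasDerivAt_pi.1 d3 j
  have hp : ∀ j, w.2.2 j = (D.lift (γ t) w.1).2.2 j := fun j => by
    have k1 := (((D.hasDerivAt_C dx h.ne).clm_apply (dp j)).clm_apply (dp j)).unique
      ((dp j).congr_of_eventuallyEq (hst.mono fun s hs => (hs.prim j).idem))
    simp only [add_apply] at k1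
    rw [hA.comm (w.2.2 j)] at k1
    have k2 := congrArg (D.C (γ t).1 ((γ t).2.2 j)) k1
    simp only [map_add, ← hA.assoc, (h.prim j).idem] at k2
    have k3 : D.C (γ t).1 ((γ t).2.2 j) (w.2.2 j) = -D.C (γ t).1 ((γ t).2.2 j)
        (D.K (γ t).1 w.1 ((γ t).2.2 j) ((γ t).2.2 j)) := by
      rw [add_eq_right, add_comm] at k2
      exact eq_neg_of_add_eq_zero_left k2
    rw [← k1, k3]
    simp only [lift, two_smul]
    abel
  have c0 : ∀ {f : ℝ → ℝ} {f' c : ℝ}, HasDerivAt f f' t → (∀ᶠ s in 𝓝 t, f s = c) → f' = 0 :=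
    fun hf hc => hf.unique ((hasDerivAt_const t _).congr_of_eventuallyEq hc)
  have e1 := c0 (de.inner ℝ de) (hst.mono fun s hs => hs.ee)
  have e2 := c0 (de.inner ℝ dx) (hst.mono fun s hs => hs.ex)
  have e3 := fun j => c0 ((dp j).inner ℝ de) (hst.mono fun s hs => hs.pe j)
  refine Prod.ext rfl (Prod.ext ?_ (funext hp))
  rw [← sub_eq_zero]
  refine h.eq_zero hn ?_ ?_ fun j => ?_
  · simp only [lift, inner_sub_right, real_inner_smul_right, inner_sum_zero h.px,
      real_inner_self_eq_norm_sq]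
    rw [real_inner_comm, neg_mul, div_mul_cancel₀ _ (pow_ne_zero 2 h.norm_pos.ne')]
    linarith
  · simp only [lift, inner_sub_right, real_inner_smul_right, inner_sum_zero h.pe, h.ex]
    rw [real_inner_comm (γ t).2.1 w.2.1] at e1
    linarith
  · have k1 := e3 j
    rw [hp j] at k1
    simp only [lift, inner_sub_right, real_inner_smul_right, h.inner_sum, h.px, inner_sub_left,
      real_inner_smul_left, hA.selfadj, (h.prim j).mul_zero' (h.pe j), inner_zero_right] at k1 ⊢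
    linarith

end CoreData

end Pool.Agent.Lib.MP_7dd29b_gt
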