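import Pool.Agent.Lib.MP_7dd29b_gt.Kid

/-! At a maximum of the cubic form the product has the largest possible rank. -/

set_option autoImplicit false
set_option maxSynthPendingDepth 3

open Set Filter Topology
open scoped RealInnerProductSpace

namespace Pool.Agent.Lib.MP_7dd29b_gt

variable {E : Type*} [NormedAddCommGroup E] [InnerProductSpace ℝ E]

lemma Prim.unit_eig {C : E →L[ℝ] E →L[ℝ] E} {q : E} (h : Prim C q) :
    C (‖q‖⁻¹ • q) (‖q‖⁻¹ • q) = ‖q‖⁻¹ • (‖q‖⁻¹ • q) := by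
  simp only [map_smul, smul_apply, h.idem]

lemma Prim.unit_norm {C : E →L[ℝ] E →L[ℝ] E} {q : E} (h : Prim C q) : ‖‖q‖⁻¹ • q‖ = 1 := by
  simp [norm_smul, h.1]

lemma Prim.unit_cube {C : E →L[ℝ] E →L[ℝ] E} {q : E} (h : Prim C q) :
    ⟪C (‖q‖⁻¹ • q) (‖q‖⁻¹ • q), ‖q‖⁻¹ • q⟫ = ‖q‖⁻¹ := by
  rw [h.unit_eig, real_inner_smul_left, real_inner_self_eq_norm_sq, h.unit_norm]; simp

lemma not_max_of_deriv2 {h h' : ℝ → ℝ} {c : ℝ} (h1 : ∀ s, HasDerivAt h (h' s) s)
    (h2 : HasDerivAt h' c 0) (hc : 0 < c) (hmax : ∀ s, h s ≤ h 0) : False := by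
  have h0 : h' 0 = 0 := by
    have : IsLocalMax h 0 := Filter.Eventually.of_forall hmax
    exact this.hasDerivAt_eq_zero (h1 0)
  have h3 : ∀ᶠ s in 𝓝[>] (0 : ℝ), 0 < h' s := by
    have k := (hasDerivAt_iff_tendsto_slope_zero.1 h2).mono_left (nhdsGT_le_nhdsNE (0 : ℝ))
    filter_upwards [k.eventually (lt_mem_nhds hc), self_mem_nhdsWithin] with s hs hs0
    simp only [zero_add, h0, sub_zero, smul_eq_mul] at hs
    exact (mul_pos_iff_of_pos_left (inv_pos.2 hs0)).1 hs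
  obtain ⟨u, hu, hu'⟩ := mem_nhdsGT_iff_exists_Ioo_subset.1 h3
  obtain ⟨s, hs, hs'⟩ := exists_hasDerivAt_eq_slope h h' (show (0 : ℝ) < u from hu)
    (fun s _ => (h1 s).continuousAt.continuousWithinAt) (fun s _ => h1 s)
  have k1 : 0 < h' s := hu' hs
  rw [hs', sub_zero] at k1
  have := (div_pos_iff_of_pos_right (show (0 : ℝ) < u from hu)).1 k1
  linarith [hmax u]

namespace CoreData

variable (D : CoreData E) {x : E}

lemma prim_orth_x (hx : x ≠ 0) {p : E} (hp : Prim (D.C x) p) : ⟪p, x⟫ = 0 := by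
  rw [← hp.idem, D.selfadj x hx, D.comm x hx p x, D.euler x hx, inner_zero_right]

lemma no_null (hx : ‖x‖ = 1) {q : E} (hq : Prim (D.C x) q)
    (hmax : ∀ z, z ≠ 0 → ∀ e, ‖e‖ = 1 → ‖z‖ * ⟪D.C z e e, e⟫ ≤ ‖q‖⁻¹) {v : E} (hv : ‖v‖ = 1)
    (hxv : ⟪x, v⟫ = 0) : D.C x v ≠ 0 := by
  intro hn
  have hx0 : x ≠ 0 := by rintro rfl; simp at hx
  set e := ‖q‖⁻¹ • q with he
  set l := ‖q‖⁻¹ with hl
  have hl0 : 0 < l := inv_pos.2 hq.norm_pos
  have hqv : ⟪q, v⟫ = 0 := by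
    rw [← hq.idem, D.selfadj x hx0, D.comm x hx0 q v, hn]; simp
  have hK : D.K x e v v = 0 := by
    refine ext_inner_right ℝ fun a => ?_
    rw [he, map_smul, smul_apply, smul_apply, real_inner_smul_left, D.K12 hx0 q v, D.K23 hx0 v q v,
      D.K34 hx0 v v q a, D.K23 hx0 v v a, D.K12 hx0 v a, D.K_null hx0 hq hn hqv]
    simp
  have hL := D.L_null hx0 hn hq.unit_eig hK
  have hnorm : ∀ s : ℝ, ‖x + s • v‖ ^ 2 = 1 + s ^ 2 := fun s => by
    rw [norm_add_sq_real, real_inner_smul_right, hxv, hx, norm_smul, hv, Real.norm_eq_abs, mul_one,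
      sq_abs]; ring
  have hne : ∀ s : ℝ, x + s • v ≠ 0 := fun s h => by
    have := hnorm s
    rw [h, norm_zero] at this
    nlinarith [sq_nonneg s]
  set g := fun s : ℝ => ⟪D.C (x + s • v) e e, e⟫ with hg
  set g' := fun s : ℝ => ⟪D.K (x + s • v) v e e, e⟫ with hg'
  have d1 : ∀ s, HasDerivAt g (g' s) s := fun s => by
    simpa using (hasDerivAt_app2 (D.hasDerivAt_C (line_deriv x v s) (hne s)) e e).inner ℝ
      (hasDerivAt_const s e)
  have d2 : HasDerivAt g' ⟪D.L x v v e e, e⟫ 0 := by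
    simpa using (hasDerivAt_app3 (D.line_K hx0 v) v e e).inner ℝ (hasDerivAt_const 0 e)
  have g0 : g 0 = l := by simp only [hg, zero_smul, add_zero]; exact hq.unit_cube
  refine not_max_of_deriv2 (h := fun s => g s ^ 2 * (1 + s ^ 2))
    (h' := fun s => 2 * g s * g' s * (1 + s ^ 2) + g s ^ 2 * (2 * s))
    (c := 2 * g' 0 ^ 2 + 2 * (l * ⟪D.L x v v e e, e⟫) + 2 * l ^ 2) (fun s => ?_) ?_ ?_ fun s => ?_
  · exact (((d1 s).fun_pow 2).fun_mul (((hasDerivAt_id' s).fun_pow 2).const_add 1)).congr_deriv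
      (by simp)
  · have e1 := ((((d1 0).const_mul 2).fun_mul d2).fun_mul
      (((hasDerivAt_id' (0 : ℝ)).fun_pow 2).const_add 1)).fun_add
      (((d1 0).fun_pow 2).fun_mul ((hasDerivAt_id' (0 : ℝ)).const_mul 2))
    refine e1.congr_deriv ?_
    simp only [g0]; ring
  · rw [hL]
    have := real_inner_self_nonneg (x := D.K x e e v)
    positivity
  · simp only [g0]
    have k1 := hmax _ (hne s) e hq.unit_norm
    have k2 := hmax _ (hne s) (-e) (by rw [norm_neg]; exact hq.unit_norm)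
    simp only [map_neg, neg_apply, neg_neg, inner_neg_right] at k2
    have k3 : (‖x + s • v‖ * g s) ^ 2 ≤ l ^ 2 := sq_le_sq' (by simp only [hg]; linarith) k1
    rw [mul_pow, hnorm] at k3
    linarith

theorem exists_top [FiniteDimensional ℝ E] {x1 : E} (hx1 : x1 ≠ 0) (hC : D.C x1 ≠ 0) :
    ∃ x, ‖x‖ = 1 ∧ ∀ v, ‖v‖ = 1 → ⟪x, v⟫ = 0 → D.C x v ≠ 0 := by
  have hK : IsCompact (Metric.sphere (0 : E) 1 ×ˢ Metric.sphere (0 : E) 1) :=
    (isCompact_sphere 0 1).prod (isCompact_sphere 0 1)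
  have hunit : ∀ z : E, z ≠ 0 → ‖z‖⁻¹ • z ∈ Metric.sphere (0 : E) 1 := fun z hz => by
    simp [norm_smul, hz]
  have hne : ∀ z ∈ Metric.sphere (0 : E) 1, z ≠ 0 := fun z hz h => by simp [h] at hz
  have hco : ContinuousOn (fun z : E × E => ⟪D.C z.1 z.2 z.2, z.2⟫)
      (Metric.sphere (0 : E) 1 ×ˢ Metric.sphere (0 : E) 1) := fun z hz => by
    have h1 : ContinuousAt (fun z : E × E => D.C z.1) z :=
      (D.smooth _ (hne _ hz.1)).continuousAt.comp continuousAt_fst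
    exact (((h1.clm_apply continuousAt_snd).clm_apply continuousAt_snd).inner
      continuousAt_snd).continuousWithinAt
  obtain ⟨⟨x, e⟩, hxe, hmax⟩ := hK.exists_isMaxOn ⟨(_, _), hunit x1 hx1, hunit x1 hx1⟩ hco
  have hx0 := hne x hxe.1
  have hb : ∀ z, z ≠ 0 → ∀ a, ‖a‖ = 1 → ‖z‖ * ⟪D.C z a a, a⟫ ≤ ⟪D.C x e e, e⟫ := fun z hz a ha => by
    have h1 : ⟪D.C (‖z‖⁻¹ • z) a a, a⟫ ≤ ⟪D.C x e e, e⟫ :=
      hmax (show (‖z‖⁻¹ • z, a) ∈ _ from ⟨hunit z hz, by simpa using ha⟩)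
    rwa [D.homog z hz _ (inv_pos.2 (norm_pos_iff.2 hz)), inv_inv, smul_apply, smul_apply,
      real_inner_smul_left] at h1
  have hw : ∀ z, D.C z ≠ 0 → ∃ w, D.C z w ≠ 0 := fun z hz => by
    by_contra hcon
    push Not at hcon
    exact hz (ContinuousLinearMap.ext hcon)
  have hCx : D.C x ≠ 0 := by
    obtain ⟨w, hw1⟩ := hw x1 hC
    obtain ⟨q, hq, -, -⟩ := (D.alg hx1).exists_prim (ι := Empty) (fun j => j.elim)
      (fun j => j.elim) (fun j => j.elim) hw1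
    have h1 := hb x1 hx1 _ hq.unit_norm
    rw [hq.unit_cube] at h1
    intro h0
    rw [h0] at h1
    have := mul_pos (norm_pos_iff.2 hx1) (inv_pos.2 hq.norm_pos)
    simp at h1
    linarith
  obtain ⟨w, hw1⟩ := hw x hCx
  obtain ⟨q, hq, -, hq'⟩ := (D.alg hx0).exists_prim (ι := Empty) (fun j => j.elim)
    (fun j => j.elim) (fun j => j.elim) hw1
  have hx1' : ‖x‖ = 1 := by simpa using hxe.1
  have he1 : ‖e‖ = 1 := by simpa using hxe.2
  refine ⟨x, hx1', fun v hv hxv => D.no_null hx1' hq (fun z hz a ha => ?_) hv hxv⟩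
  have := hq' e (fun j => j.elim)
  rw [he1] at this
  linarith [hb z hz a ha]

theorem exists_family [FiniteDimensional ℝ E] (hx : x ≠ 0)
    (hnn : ∀ v, ‖v‖ = 1 → ⟪x, v⟫ = 0 → D.C x v ≠ 0) (k : ℕ) (hk : k < Module.finrank ℝ E) :
    ∃ p : Fin k → E, (∀ j, Prim (D.C x) (p j)) ∧ Pairwise fun i j => ⟪p i, p j⟫ = 0 := by
  induction k with
  | zero => exact ⟨fun j => j.elim0, fun j => j.elim0, fun j => j.elim0⟩
  | succ k ih =>
    obtain ⟨p, hp, hp'⟩ := ih (by omega)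
    obtain ⟨v, hv, hv'⟩ := exists_orth (κ := Option (Fin k)) (fun o => o.elim x p)
      (by simpa using hk)
    obtain ⟨q, hq, hq', -⟩ := (D.alg hx).exists_prim p hp (fun j => hv' (some j))
      (hnn v hv (hv' none))
    refine ⟨Fin.cons q p, fun j => ?_, fun i j hij => ?_⟩
    · refine Fin.cases ?_ (fun j => ?_) j
      · simpa using hq
      · simpa using hp j
    · induction i using Fin.cases <;> induction j using Fin.cases
      · exact absurd rfl hij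
      · simpa [real_inner_comm] using hq' _
      · simpa using hq' _
      · simpa using hp' (by simpa using hij)

end CoreData

end Pool.Agent.Lib.MP_7dd29b_gt
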